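import Pool.Agent.Lib.H81.St.Conv1

/-! Convergence of the planar iteration to the disc. -/

open MeasureTheory Set Metric Filter Topology
open scoped ENNReal Pointwise ComplexConjugate

namespace Pool.Agent.H81St

/-- `T K = S (e^{i} K)` -/
noncomputable def T (K : Set ℂ) : Set ℂ := S (rot (Complex.exp Complex.I) K)

theorem norm_expI : ‖Complex.exp Complex.I‖ = 1 := by
  have := Complex.norm_exp_ofReal_mul_I 1
  rwa [Complex.ofReal_one, one_mul] at this

theorem T_mono {C C' : Set ℂ} (h : C ⊆ C') : T C ⊆ T C' := S_mono (rot_mono h)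

theorem T_smul {C : Set ℂ} {c : ℝ} (hc : 0 < c) : T (c • C) = c • T C := by
  unfold T
  rw [rot_smul hc, S_smul hc]

theorem Titer_mono {C C' : Set ℂ} (h : C ⊆ C') (j : ℕ) : T^[j] C ⊆ T^[j] C' := by
  induction j with
  | zero => exact h
  | succ j ih => rw [Function.iterate_succ_apply', Function.iterate_succ_apply']; exact T_mono ih

theorem Titer_smul {C : Set ℂ} {c : ℝ} (hc : 0 < c) (j : ℕ) : T^[j] (c • C) = c • T^[j] C := by
  induction j with
  | zero => rfl
  | succ j ih => rw [Function.iterate_succ_apply', Function.iterate_succ_apply', ih, T_smul hc]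

theorem Titer_closedBall (ρ : ℝ) (j : ℕ) : T^[j] (closedBall 0 ρ) = closedBall 0 ρ := by
  induction j with
  | zero => rfl
  | succ j ih =>
    rw [Function.iterate_succ_apply', ih]
    unfold T
    rw [rot_closedBall norm_expI, S_closedBall]

variable {r R ρ : ℝ} {K : Set ℂ}

theorem Body_T (h : Body r R K) : Body r R (T K) := Body_S (Body_rot h norm_expI)

theorem Body_Titer (h : Body r R K) (j : ℕ) : Body r R (T^[j] K) := by
  induction j with
  | zero => exact h
  | succ j ih => rw [Function.iterate_succ_apply']; exact Body_T ih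

theorem volume_Titer (h : Body r R K) (j : ℕ) : volume (T^[j] K) = volume K := by
  induction j with
  | zero => rfl
  | succ j ih =>
    rw [Function.iterate_succ_apply', ← ih]
    have hb := Body_rot (Body_Titer h j) norm_expI
    show volume (S (rot (Complex.exp Complex.I) (T^[j] K))) = volume (T^[j] K)
    rw [volume_S hb.conv hb.comp, volume_rot norm_expI]

theorem mom_T_le (h : Body r R K) : mom (T K) ≤ mom K := by
  have hb := Body_rot h norm_expI
  unfold T
  exact (mom_S_le hb.conv hb.comp).trans (mom_rot norm_expI K).le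

theorem interior_nonempty (hr : 0 < r) (h : Body r R K) : (interior K).Nonempty :=
  ⟨0, mem_interior.2 ⟨ball 0 r, ball_subset_closedBall.trans h.inn, isOpen_ball, mem_ball_self hr⟩⟩

theorem T_eq_of_mom (hr : 0 < r) (h : Body r R K) (he : mom (T K) = mom K) :
    T K = rot (Complex.exp Complex.I) K := by
  have hb := Body_rot h norm_expI
  refine eq_of_mom_eq hb.conv hb.comp (interior_nonempty hr hb)
    (interior_nonempty hr (Body_S hb)) ?_
  rw [mom_rot norm_expI]
  exact he

/-- small perturbations are absorbed by a dilation -/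
theorem subset_dilate {C D : Set ℂ} (hD : Convex ℝ D) (hDr : closedBall 0 r ⊆ D) {e : ℝ}
    (he : 0 < e) (h : ∀ x ∈ C, ∃ y ∈ D, dist x y ≤ e * r) : C ⊆ (1 + e : ℝ) • D := by
  intro x hx
  obtain ⟨y, hy, hxy⟩ := h x hx
  rw [mem_smul_set_iff_inv_smul_mem₀ (by positivity)]
  have h1 : e⁻¹ • (x - y) ∈ D := by
    apply hDr
    rw [mem_closedBall_zero_iff, norm_smul, Real.norm_of_nonneg (inv_nonneg.2 he.le),
      ← dist_eq_norm, inv_mul_le_iff₀ he]
    exact hxy
  have h2 := hD hy h1 (show 0 ≤ (1 + e)⁻¹ by positivity) (show 0 ≤ e / (1 + e) by positivity)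
    (by field_simp)
  have e1 : (1 + e)⁻¹ • y + (e / (1 + e)) • (e⁻¹ • (x - y)) = (1 + e)⁻¹ • x := by
    have : e / (1 + e) * e⁻¹ = (1 + e)⁻¹ := by field_simp
    rw [smul_smul, this, ← smul_add, add_sub_cancel]
  rwa [e1] at h2

/-- Blaschke selection, in the form needed -/
theorem exists_limit (hr : 0 < r) (F : ℕ → Set ℂ) (hF : ∀ j, Body r R (F j)) :
    ∃ (G : Set ℂ) (φ : ℕ → ℕ), StrictMono φ ∧ Body r R G ∧
      ∀ e : ℝ, 0 < e → ∀ᶠ k in atTop, F (φ k) ⊆ (1 + e : ℝ) • G ∧ G ⊆ (1 + e : ℝ) • F (φ k) := by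
  let B : Set ℂ := closedBall (0 : ℂ) R
  haveI : CompactSpace B := isCompact_iff_compactSpace.1 (isCompact_closedBall (0 : ℂ) R)
  have hne : ∀ j, (Subtype.val ⁻¹' (F j) : Set B).Nonempty := by
    intro j
    have h0 : (0 : ℂ) ∈ F j := (hF j).inn (mem_closedBall_self hr.le)
    exact ⟨⟨0, (hF j).out h0⟩, h0⟩
  let N : ℕ → TopologicalSpace.NonemptyCompacts B := fun j =>
    ⟨⟨Subtype.val ⁻¹' (F j), ((hF j).comp.isClosed.preimage continuous_subtype_val).isCompact⟩,
      hne j⟩
  obtain ⟨G0, φ, hφ, hlim⟩ := CompactSpace.tendsto_subseq N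
  have hval : ∀ j, Subtype.val '' (N j : Set B) = F j := by
    intro j
    show Subtype.val '' (Subtype.val ⁻¹' (F j) : Set B) = F j
    rw [Subtype.image_preimage_coe]
    exact inter_eq_self_of_subset_right (hF j).out
  let G : Set ℂ := Subtype.val '' (G0 : Set B)
  have hGc : IsCompact G := G0.isCompact.image continuous_subtype_val
  have hGne : G.Nonempty := G0.nonempty.image _
  have hGB : G ⊆ closedBall 0 R := by
    rintro _ ⟨x, -, rfl⟩
    exact x.2
  -- distances
  have hdist : ∀ η : ℝ, 0 < η → ∀ᶠ k in atTop,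
      (∀ x ∈ F (φ k), ∃ y ∈ G, dist x y < η) ∧ (∀ y ∈ G, ∃ x ∈ F (φ k), dist x y < η) := by
    intro η hη
    have h1 := (tendsto_iff_dist_tendsto_zero.1 hlim).eventually_lt_const hη
    filter_upwards [h1] with k hk
    have h2 : hausdorffDist (F (φ k)) G < η := by
      rw [← hval (φ k)]
      show hausdorffDist (Subtype.val '' (N (φ k) : Set B)) (Subtype.val '' (G0 : Set B)) < η
      rw [hausdorffDist_image isometry_subtype_coe]
      exact hk
    have hfin : hausdorffEDist (F (φ k)) G ≠ ⊤ :=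
      hausdorffEDist_ne_top_of_nonempty_of_bounded
        ⟨0, (hF _).inn (mem_closedBall_self hr.le)⟩ hGne (hF _).comp.isBounded hGc.isBounded
    exact ⟨fun x hx => exists_dist_lt_of_hausdorffDist_lt hx h2 hfin,
      fun y hy => exists_dist_lt_of_hausdorffDist_lt' hy h2 hfin⟩
  have hGr : closedBall 0 r ⊆ G := by
    intro x hx
    rw [← hGc.isClosed.closure_eq, Metric.mem_closure_iff]
    intro η hη
    obtain ⟨k, hk⟩ := (hdist η hη).exists
    obtain ⟨y, hy, hxy⟩ := hk.1 x ((hF _).inn hx)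
    exact ⟨y, hy, hxy⟩
  have hGconv : Convex ℝ G := by
    intro x hx y hy α β hα hβ hαβ
    rw [← hGc.isClosed.closure_eq, Metric.mem_closure_iff]
    intro η hη
    obtain ⟨k, hk⟩ := (hdist (η / 2) (by positivity)).exists
    obtain ⟨x', hx', hxx⟩ := hk.2 x hx
    obtain ⟨y', hy', hyy⟩ := hk.2 y hy
    obtain ⟨z, hz, hzz⟩ := hk.1 _ ((hF _).conv hx' hy' hα hβ hαβ)
    refine ⟨z, hz, ?_⟩
    have h3 : dist (α • x + β • y) (α • x' + β • y') ≤ η / 2 := by
      rw [dist_eq_norm]
      have e1 : α • x + β • y - (α • x' + β • y') = α • (x - x') + β • (y - y') := by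
        rw [smul_sub, smul_sub]; abel
      rw [e1]
      rw [dist_comm, dist_eq_norm] at hxx hyy
      calc ‖α • (x - x') + β • (y - y')‖ ≤ ‖α • (x - x')‖ + ‖β • (y - y')‖ := norm_add_le _ _
        _ = α * ‖x - x'‖ + β * ‖y - y'‖ := by
            rw [norm_smul, norm_smul, Real.norm_of_nonneg hα, Real.norm_of_nonneg hβ]
        _ ≤ α * (η / 2) + β * (η / 2) := by gcongr
        _ = η / 2 := by rw [← add_mul, hαβ, one_mul]
    calc dist (α • x + β • y) z ≤ dist (α • x + β • y) (α • x' + β • y') +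
          dist (α • x' + β • y') z := dist_triangle _ _ _
      _ < η := by linarith
  refine ⟨G, φ, hφ, ⟨hGconv, hGc, hGr, hGB⟩, fun e he => ?_⟩
  filter_upwards [hdist (e * r) (by positivity)] with k hk
  constructor
  · refine subset_dilate hGconv hGr he fun x hx => ?_
    obtain ⟨y, hy, hxy⟩ := hk.1 x hx
    exact ⟨y, hy, hxy.le⟩
  · refine subset_dilate (hF _).conv (hF _).inn he fun y hy => ?_
    obtain ⟨x, hx, hxy⟩ := hk.2 y hy
    exact ⟨x, hx, by rw [dist_comm]; exact hxy.le⟩

/-- a body fixed up to rotation at two consecutive steps is a disc -/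
theorem eq_closedBall_of_symm (hr : 0 < r) (h : Body r R K)
    (h1 : T K = rot (Complex.exp Complex.I) K)
    (h2 : T (T K) = rot (Complex.exp Complex.I) (T K)) :
    ∃ ρ : ℝ, 0 < ρ ∧ K = closedBall 0 ρ := by
  set ω := Complex.exp Complex.I with hω
  have hωn : ‖ω‖ = 1 := norm_expI
  have hcω : conj ω * ω = 1 := conj_mul_self_of_norm hωn
  have hS1 : S (rot ω K) = rot ω K := h1
  have hS2 : S (rot ω (rot ω K)) = rot ω (rot ω K) := by
    have := h2
    rw [h1] at this
    exact this
  -- reflections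
  have A : ∀ p ∈ K, -(conj ω * conj ω) * conj p ∈ K := by
    intro p hp
    have m1 : ω * p ∈ rot ω K := by
      rw [mem_rot, ← mul_assoc, hcω, one_mul]; exact hp
    have m2 := neg_conj_mem hS1 m1
    rw [mem_rot] at m2
    have e : conj ω * -conj (ω * p) = -(conj ω * conj ω) * conj p := by
      rw [map_mul]; ring
    rwa [e] at m2
  have B : ∀ p ∈ K, -(conj ω * conj ω * (conj ω * conj ω)) * conj p ∈ K := by
    intro p hp
    have m1 : ω * (ω * p) ∈ rot ω (rot ω K) := by
      rw [mem_rot, mem_rot]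
      have : conj ω * (conj ω * (ω * (ω * p))) = (conj ω * ω) * ((conj ω * ω) * p) := by ring
      rw [this, hcω, one_mul, one_mul]
      exact hp
    have m2 := neg_conj_mem hS2 m1
    rw [mem_rot, mem_rot] at m2
    have e : conj ω * (conj ω * -conj (ω * (ω * p))) =
        -(conj ω * conj ω * (conj ω * conj ω)) * conj p := by
      rw [map_mul, map_mul]; ring
    rwa [e] at m2
  have hinv1 : ∀ p ∈ K, (ω * ω) * p ∈ K := by
    intro p hp
    have := A _ (B p hp)
    have e : -(conj ω * conj ω) * conj (-(conj ω * conj ω * (conj ω * conj ω)) * conj p) =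
        (conj ω * ω) * (conj ω * ω) * ((ω * ω) * p) := by
      simp only [map_mul, map_neg, Complex.conj_conj]
      ring
    rw [e, hcω, one_mul, one_mul] at this
    exact this
  have hinv2 : ∀ p ∈ K, (conj ω * conj ω) * p ∈ K := by
    intro p hp
    have := B _ (A p hp)
    have e : -(conj ω * conj ω * (conj ω * conj ω)) * conj (-(conj ω * conj ω) * conj p) =
        (conj ω * ω) * (conj ω * ω) * ((conj ω * conj ω) * p) := by
      simp only [map_mul, map_neg, Complex.conj_conj]
      ring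
    rw [e, hcω, one_mul, one_mul] at this
    exact this
  -- the group of rotations preserving `K`
  let H : AddSubgroup ℝ :=
    { carrier := {θ | ∀ p ∈ K, Complex.exp (θ * Complex.I) * p ∈ K ∧
        Complex.exp (-θ * Complex.I) * p ∈ K}
      zero_mem' := by
        intro p hp
        simp only [Complex.ofReal_zero, zero_mul, neg_zero, Complex.exp_zero, one_mul]
        exact ⟨hp, hp⟩
      add_mem' := by
        intro θ θ' h1 h2 p hp
        constructor
        · have := (h1 _ (h2 p hp).1).1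
          rwa [← mul_assoc, ← Complex.exp_add, ← add_mul, ← Complex.ofReal_add] at this
        · have := (h1 _ (h2 p hp).2).2
          rw [← mul_assoc, ← Complex.exp_add, ← add_mul] at this
          have e : -(θ : ℂ) + -(θ' : ℂ) = -((θ + θ' : ℝ) : ℂ) := by push_cast; ring
          rwa [e] at this
      neg_mem' := by
        intro θ h1 p hp
        have := h1 p hp
        constructor
        · have e : ((-θ : ℝ) : ℂ) = -(θ : ℂ) := by push_cast; ring
          rw [e]; exact this.2
        · have e : -((-θ : ℝ) : ℂ) = (θ : ℂ) := by push_cast; ring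
          rw [e]; exact this.1 }
  have hH2 : (2 : ℝ) ∈ H := by
    intro p hp
    have e1 : Complex.exp (((2 : ℝ) : ℂ) * Complex.I) = ω * ω := by
      rw [hω, ← Complex.exp_add]; congr 1; push_cast; ring
    have e2 : Complex.exp (-((2 : ℝ) : ℂ) * Complex.I) = conj ω * conj ω := by
      rw [hω, ← Complex.exp_conj, ← Complex.exp_add]; congr 1
      rw [Complex.conj_I]; push_cast; ring
    rw [e1, e2]
    exact ⟨hinv1 p hp, hinv2 p hp⟩
  have hHpi : (2 * Real.pi : ℝ) ∈ H := by
    intro p hp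
    have e1 : Complex.exp (((2 * Real.pi : ℝ) : ℂ) * Complex.I) = 1 := by
      push_cast; exact Complex.exp_two_pi_mul_I
    have e2 : Complex.exp (-((2 * Real.pi : ℝ) : ℂ) * Complex.I) = 1 := by
      rw [neg_mul, Complex.exp_neg, e1, inv_one]
    rw [e1, e2, one_mul]
    exact ⟨hp, hp⟩
  have hdense : Dense (H : Set ℝ) := by
    have h3 : Dense (AddSubgroup.closure {2 * Real.pi, 2} : Set ℝ) := by
      rw [dense_addSubgroupClosure_pair_iff]
      have : 2 * Real.pi / 2 = Real.pi := by ring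
      rw [this]
      exact irrational_pi
    refine h3.mono ?_
    rw [SetLike.coe_subset_coe, AddSubgroup.closure_le]
    rintro x (rfl | rfl)
    · exact hHpi
    · exact hH2
  have hall : ∀ θ : ℝ, ∀ p ∈ K, Complex.exp (θ * Complex.I) * p ∈ K := by
    intro θ p hp
    have hcl : IsClosed {θ : ℝ | Complex.exp (θ * Complex.I) * p ∈ K} := by
      apply h.comp.isClosed.preimage
      fun_prop
    have hsub : (H : Set ℝ) ⊆ {θ : ℝ | Complex.exp (θ * Complex.I) * p ∈ K} :=
      fun θ hθ => (hθ p hp).1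
    have := closure_minimal hsub hcl
    rw [hdense.closure_eq] at this
    exact this (mem_univ θ)
  -- the farthest point
  have h0 : (0 : ℂ) ∈ K := h.inn (mem_closedBall_self hr.le)
  obtain ⟨p0, hp0, hmax⟩ := h.comp.exists_isMaxOn ⟨0, h0⟩ (continuous_norm.continuousOn)
  have hrK : (r : ℂ) ∈ K := h.inn (by
    rw [mem_closedBall_zero_iff, Complex.norm_real, Real.norm_of_nonneg hr.le])
  have hρr : r ≤ ‖p0‖ := by
    have := hmax hrK
    simp only [mem_ofPred_eq] at this
    rwa [Complex.norm_real, Real.norm_of_nonneg hr.le] at this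
  have hρ0 : 0 < ‖p0‖ := hr.trans_le hρr
  have hp0ne : p0 ≠ 0 := norm_pos_iff.1 hρ0
  refine ⟨‖p0‖, hρ0, Subset.antisymm ?_ ?_⟩
  · intro x hx
    rw [mem_closedBall_zero_iff]
    exact hmax hx
  · intro x hx
    rw [mem_closedBall_zero_iff] at hx
    -- points of the circle
    have hcirc : ∀ q : ℂ, ‖q‖ = ‖p0‖ → q ∈ K := by
      intro q hq
      have h3 := hall (Complex.arg (q / p0)) p0 hp0
      have h4 : Complex.exp (Complex.arg (q / p0) * Complex.I) = q / p0 := by
        have h5 := Complex.norm_mul_exp_arg_mul_I (q / p0)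
        rw [norm_div, hq, div_self hρ0.ne', Complex.ofReal_one, one_mul] at h5
        exact h5
      rw [h4, div_mul_cancel₀ _ hp0ne] at h3
      exact h3
    by_cases hx0 : x = 0
    · rw [hx0]; exact h0
    · have hxn : 0 < ‖x‖ := norm_pos_iff.2 hx0
      have h3 : (‖p0‖ / ‖x‖) • x ∈ K := by
        apply hcirc
        rw [norm_smul, Real.norm_of_nonneg (by positivity), div_mul_cancel₀ _ hxn.ne']
      have h4 := h.conv h3 h0 (show 0 ≤ ‖x‖ / ‖p0‖ by positivity)
        (show 0 ≤ 1 - ‖x‖ / ‖p0‖ from sub_nonneg.2 ((div_le_one hρ0).2 hx)) (by ring)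
      rw [smul_zero, add_zero, smul_smul] at h4
      have h5 : ‖x‖ / ‖p0‖ * (‖p0‖ / ‖x‖) = 1 := by field_simp
      rwa [h5, one_smul] at h4

theorem radius_le {ρ ρ' : ℝ} (hρ : 0 < ρ) (hρ' : 0 < ρ') {C : Set ℂ}
    (hC : volume C = ENNReal.ofReal (Real.pi * ρ ^ 2))
    (h : ∀ e : ℝ, 0 < e → ENNReal.ofReal (Real.pi * ρ ^ 2) ≤
      ENNReal.ofReal ((1 + e) ^ 2 * (Real.pi * ρ' ^ 2))) : ρ ≤ ρ' := by
  have h1 : ∀ e : ℝ, 0 < e → ρ ≤ (1 + e) * ρ' := by
    intro e he
    have h2 := (ENNReal.ofReal_le_ofReal_iff (by positivity)).1 (h e he)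
    have hpi := Real.pi_pos
    have h3 : Real.pi * ρ ^ 2 ≤ Real.pi * ((1 + e) * ρ') ^ 2 := by
      rw [mul_pow]; linarith
    have h4 := le_of_mul_le_mul_left h3 hpi
    exact (pow_le_pow_iff_left₀ hρ.le (by positivity) (by norm_num)).1 h4
  apply le_of_forall_pos_le_add
  intro e he
  have := h1 (e / ρ') (by positivity)
  have e1 : (1 + e / ρ') * ρ' = ρ' + e := by field_simp
  rwa [e1] at this

theorem volume_closedBall' {ρ : ℝ} (hρ : 0 ≤ ρ) :
    volume (closedBall (0 : ℂ) ρ) = ENNReal.ofReal (Real.pi * ρ ^ 2) := by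
  have hpi : (NNReal.pi : ℝ≥0∞) = ENNReal.ofReal Real.pi := by
    rw [ENNReal.ofReal, Real.toNNReal_of_nonneg Real.pi_pos.le]; rfl
  rw [Complex.volume_closedBall, hpi, ← ENNReal.ofReal_pow hρ, ← ENNReal.ofReal_mul (by positivity),
    mul_comm]

theorem conv (hr : 0 < r) (h : Body r R K) (hρ : 0 < ρ)
    (hvol : volume K = ENNReal.ofReal (Real.pi * ρ ^ 2)) {ε : ℝ} (hε : 0 < ε) :
    ∃ N, ∀ j ≥ N, T^[j] K ⊆ (1 + ε : ℝ) • closedBall 0 ρ ∧
      closedBall 0 ρ ⊆ (1 + ε : ℝ) • T^[j] K := by
  obtain ⟨G, φ, hφ, hG, hlim⟩ := exists_limit hr (fun j => T^[j] K) (Body_Titer h)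
  -- the limit of the moments
  have hanti : Antitone (fun j => mom (T^[j] K)) := by
    apply antitone_nat_of_succ_le
    intro j
    rw [Function.iterate_succ_apply']
    exact mom_T_le (Body_Titer h j)
  have hbdd : BddBelow (range fun j => mom (T^[j] K)) := ⟨0, by
    rintro _ ⟨j, rfl⟩; exact mom_nonneg _⟩
  have hmlim : Tendsto (fun j => mom (T^[j] K)) atTop (𝓝 (⨅ j, mom (T^[j] K))) :=
    tendsto_atTop_ciInf hanti hbdd
  set L := ⨅ j, mom (T^[j] K) with hL
  have hmomG : ∀ i, mom (T^[i] G) = L := by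
    intro i
    have hlim2 : Tendsto (fun k => mom (T^[i + φ k] K)) atTop (𝓝 L) :=
      hmlim.comp (tendsto_atTop_mono (fun k => (hφ.id_le k).trans (Nat.le_add_left _ _)) tendsto_id)
    have hcont : Tendsto (fun e : ℝ => (1 + e) ^ 4) (𝓝[>] 0) (𝓝 1) := by
      have : Tendsto (fun e : ℝ => (1 + e) ^ 4) (𝓝 0) (𝓝 ((1 + 0) ^ 4)) := by
        apply Continuous.tendsto; fun_prop
      rw [add_zero, one_pow] at this
      exact this.mono_left nhdsWithin_le_nhds
    have hbG := Body_Titer hG i
    have hit : ∀ k, T^[i] (T^[φ k] K) = T^[i + φ k] K := fun k =>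
      (Function.iterate_add_apply T i (φ k) K).symm
    apply le_antisymm
    · -- `mom (T^i G) ≤ (1+e)^4 L`
      have h1 : ∀ e : ℝ, 0 < e → mom (T^[i] G) ≤ (1 + e) ^ 4 * L := by
        intro e he
        have h1e : (0 : ℝ) < 1 + e := by linarith
        refine ge_of_tendsto (hlim2.const_mul ((1 + e) ^ 4)) ?_
        filter_upwards [hlim e he] with k hk
        have h2 := Titer_mono hk.2 i
        rw [Titer_smul h1e, hit] at h2
        have h3 := mom_mono hbG.comp ((Body_Titer h (i + φ k)).comp.smul (1 + e)) h2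
        rwa [mom_smul h1e] at h3
      have h2 : Tendsto (fun e : ℝ => (1 + e) ^ 4 * L) (𝓝[>] 0) (𝓝 L) := by
        simpa using hcont.mul_const L
      refine ge_of_tendsto h2 ?_
      filter_upwards [self_mem_nhdsWithin] with e he
      exact h1 e he
    · have h1 : ∀ e : ℝ, 0 < e → L ≤ (1 + e) ^ 4 * mom (T^[i] G) := by
        intro e he
        have h1e : (0 : ℝ) < 1 + e := by linarith
        refine le_of_tendsto hlim2 ?_
        filter_upwards [hlim e he] with k hk
        have h2 := Titer_mono hk.1 i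
        rw [Titer_smul h1e, hit] at h2
        have h3 := mom_mono (Body_Titer h (i + φ k)).comp (hbG.comp.smul (1 + e)) h2
        rwa [mom_smul h1e] at h3
      have h2 : Tendsto (fun e : ℝ => (1 + e) ^ 4 * mom (T^[i] G)) (𝓝[>] 0) (𝓝 (mom (T^[i] G))) := by
        simpa using hcont.mul_const (mom (T^[i] G))
      refine ge_of_tendsto h2 ?_
      filter_upwards [self_mem_nhdsWithin] with e he
      exact h1 e he
  -- the limit is a disc
  have m0 : mom G = L := hmomG 0
  have m1 : mom (T G) = L := hmomG 1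
  have m2 : mom (T (T G)) = L := hmomG 2
  have t1 := T_eq_of_mom hr hG (m1.trans m0.symm)
  have t2 := T_eq_of_mom hr (Body_T hG) (m2.trans m1.symm)
  obtain ⟨ρ', hρ', hGρ⟩ := eq_closedBall_of_symm hr hG t1 t2
  have hvolF : ∀ k, volume (T^[φ k] K) = ENNReal.ofReal (Real.pi * ρ ^ 2) := fun k => by
    rw [volume_Titer h, hvol]
  have r1 : ρ ≤ ρ' := by
    refine radius_le hρ hρ' hvol fun e he => ?_
    obtain ⟨k, hk⟩ := (hlim e he).exists
    have h3 := measure_mono (μ := (volume : Measure ℂ)) hk.1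
    rw [Measure.addHaar_smul, hGρ, volume_closedBall' hρ'.le, hvolF, Complex.finrank_real_complex,
      ← ENNReal.ofReal_mul (abs_nonneg _), abs_of_nonneg (by positivity)] at h3
    exact h3
  have r2 : ρ' ≤ ρ := by
    refine radius_le hρ' hρ (volume_closedBall' hρ'.le) fun e he => ?_
    obtain ⟨k, hk⟩ := (hlim e he).exists
    have h3 := measure_mono (μ := (volume : Measure ℂ)) hk.2
    rw [Measure.addHaar_smul, hGρ, volume_closedBall' hρ'.le, hvolF, Complex.finrank_real_complex,
      ← ENNReal.ofReal_mul (abs_nonneg _), abs_of_nonneg (by positivity)] at h3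
    exact h3
  have hρρ : ρ' = ρ := le_antisymm r2 r1
  rw [hρρ] at hGρ
  obtain ⟨k, hk1, hk2⟩ := (hlim ε hε).exists
  have h1ε : (0 : ℝ) < 1 + ε := by linarith
  refine ⟨φ k, fun j hj => ?_⟩
  have hsplit : T^[j] K = T^[j - φ k] (T^[φ k] K) := by
    rw [← Function.iterate_add_apply]
    congr 2
    omega
  rw [hGρ] at hk1 hk2
  constructor
  · have := Titer_mono hk1 (j - φ k)
    rwa [Titer_smul h1ε, Titer_closedBall, ← hsplit] at this
  · have := Titer_mono hk2 (j - φ k)
    rwa [Titer_smul h1ε, Titer_closedBall, ← hsplit] at this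

end Pool.Agent.H81St
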