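import Pool.Agent.Lib.H81.St.PlanarS

/-! The moment of inertia and the planar symmetrization. -/

open MeasureTheory Set Metric Filter Topology
open scoped ENNReal Pointwise ComplexConjugate

namespace Pool.Agent.H81St

variable {r R : ℝ} {C D : Set ℂ}

/-- moment of inertia -/
noncomputable def mom (C : Set ℂ) : ℝ := ∫ x in C, ‖x‖ ^ 2

theorem integrableOn_sq (hk : IsCompact C) : IntegrableOn (fun x : ℂ => ‖x‖ ^ 2) C :=
  (continuous_norm.pow 2).continuousOn.integrableOn_compact hk

theorem mom_mono (hC : IsCompact C) (hD : IsCompact D) (h : C ⊆ D) : mom C ≤ mom D :=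
  setIntegral_mono_set (integrableOn_sq hD) (Eventually.of_forall fun _ => sq_nonneg _)
    (Eventually.of_forall h)

theorem mom_nonneg (C : Set ℂ) : 0 ≤ mom C := integral_nonneg fun _ => sq_nonneg _

theorem mom_smul {c : ℝ} (hc : 0 < c) (C : Set ℂ) : mom (c • C) = c ^ 4 * mom C := by
  unfold mom
  have := Measure.setIntegral_comp_smul_of_pos (volume : Measure ℂ) (fun x : ℂ => ‖x‖ ^ 2) C hc
  rw [Complex.finrank_real_complex] at this
  have h2 : ∀ x : ℂ, ‖c • x‖ ^ 2 = c ^ 2 * ‖x‖ ^ 2 := by
    intro x
    rw [norm_smul, Real.norm_of_nonneg hc.le, mul_pow]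
  simp only [h2, smul_eq_mul] at this
  rw [integral_const_mul] at this
  have hc2 : (0 : ℝ) < c ^ 2 := by positivity
  have h3 : ∫ x in c • C, ‖x‖ ^ 2 = c ^ 2 * (c ^ 2 * ∫ x in C, ‖x‖ ^ 2) := by
    rw [this]; field_simp
  rw [h3]; ring

theorem mom_rot {ω : ℂ} (hω : ‖ω‖ = 1) (C : Set ℂ) : mom (rot ω C) = mom C := by
  unfold mom
  rw [rot_eq_image' hω]
  have := (rotE hω).measurePreserving.setIntegral_image_emb
    (rotE hω).toHomeomorph.measurableEmbedding (fun x : ℂ => ‖x‖ ^ 2) C
  rw [this]
  simp only [LinearIsometryEquiv.norm_map]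

/-- the contribution of one horizontal section -/
noncomputable def msec (C : Set ℂ) (y : ℝ) : ℝ := ∫ s in sec C y, ‖(⟨s, y⟩ : ℂ)‖ ^ 2

theorem norm_sq_mk (s y : ℝ) : ‖(⟨s, y⟩ : ℂ)‖ ^ 2 = s ^ 2 + y ^ 2 := by
  rw [← Complex.normSq_eq_norm_sq, Complex.normSq_mk]; ring

theorem integral_Icc_sq {l h y : ℝ} (hlh : l ≤ h) :
    ∫ s in Icc l h, ‖(⟨s, y⟩ : ℂ)‖ ^ 2 = (h ^ 3 - l ^ 3) / 3 + y ^ 2 * (h - l) := by
  simp only [norm_sq_mk]
  rw [integral_Icc_eq_integral_Ioc, ← intervalIntegral.integral_of_le hlh]
  rw [intervalIntegral.integral_add (Continuous.intervalIntegrable (by fun_prop) _ _)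
    (Continuous.intervalIntegrable (by fun_prop) _ _)]
  rw [integral_pow, intervalIntegral.integral_const]
  norm_num
  ring

theorem msec_sub (hc : Convex ℝ C) (hk : IsCompact C) (y : ℝ) :
    msec C y - msec (S C) y = len C y * (hi C y + lo C y) ^ 2 / 4 := by
  by_cases hne : (sec C y).Nonempty
  · have hle : lo C y ≤ hi C y := le_hi hk (lo_mem hk hne)
    unfold msec
    rw [sec_S hk hne, len_eq_hi_sub_lo hc hk hne, sec_eq_Icc hc hk hne, integral_Icc_sq hle,
      integral_Icc_sq (by linarith)]
    ring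
  · unfold msec len
    rw [sec_S_empty hne, not_nonempty_iff_eq_empty.1 hne]
    simp

theorem mom_eq (hk : IsCompact C) : mom C = ∫ y, msec C y :=
  setIntegral_eq_sec hk.measurableSet (integrableOn_sq hk)

theorem integrable_sec' {C : Set ℂ} (hC : MeasurableSet C) {g : ℂ → ℝ} (hg : IntegrableOn g C) :
    Integrable (fun y => ∫ s in sec C y, g ⟨s, y⟩) := by
  have hi : Integrable (C.indicator g) := (integrable_indicator_iff hC).2 hg
  have hi2 : Integrable (fun p : ℝ × ℝ => C.indicator g (Complex.measurableEquivRealProd.symm p)) :=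
    ((Complex.volume_preserving_equiv_real_prod.symm).integrable_comp_emb
      (Complex.measurableEquivRealProd.symm.measurableEmbedding)).2 hi
  rw [Measure.volume_eq_prod] at hi2
  have h3 := hi2.integral_prod_right
  refine h3.congr (Eventually.of_forall fun y => ?_)
  have h2 : (fun s : ℝ => C.indicator g (Complex.measurableEquivRealProd.symm (s, y)))
      = (sec C y).indicator (fun s => g ⟨s, y⟩) := by
    funext s
    by_cases h : (⟨s, y⟩ : ℂ) ∈ C
    · rw [indicator_of_mem (show s ∈ sec C y from h)]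
      exact indicator_of_mem (show Complex.measurableEquivRealProd.symm (s, y) ∈ C from h) g
    · rw [indicator_of_notMem (show s ∉ sec C y from h)]
      exact indicator_of_notMem (show Complex.measurableEquivRealProd.symm (s, y) ∉ C from h) g
  simp only []
  rw [h2, integral_indicator (measurableSet_sec hC y)]

theorem integrable_msec (hk : IsCompact C) : Integrable (msec C) :=
  integrable_sec' hk.measurableSet (integrableOn_sq hk)

theorem mom_S_le (hc : Convex ℝ C) (hk : IsCompact C) : mom (S C) ≤ mom C := by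
  rw [mom_eq hk, mom_eq (isCompact_S hk)]
  refine integral_mono (integrable_msec (isCompact_S hk)) (integrable_msec hk) fun y => ?_
  have := msec_sub hc hk y
  have h2 : 0 ≤ len C y * (hi C y + lo C y) ^ 2 / 4 := by
    have : 0 ≤ len C y := ENNReal.toReal_nonneg
    positivity
  linarith

theorem subset_of_ae_sec (hD : IsCompact D) (hc : Convex ℝ C) (hk : IsCompact C)
    (hint : (interior C).Nonempty) (h : ∀ᵐ y : ℝ, volume (sec C y \ sec D y) = 0) : C ⊆ D := by
  have h1 : volume (C \ D) = 0 :=
    volume_eq_zero_of_sec (hk.measurableSet.diff hD.measurableSet) h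
  have h2 : interior C ⊆ D := by
    by_contra hcon
    rw [not_subset] at hcon
    obtain ⟨x, hx1, hx2⟩ := hcon
    have ho : IsOpen (interior C ∩ Dᶜ) := isOpen_interior.inter hD.isClosed.isOpen_compl
    have hpos : 0 < (volume : Measure ℂ) (interior C ∩ Dᶜ) := ho.measure_pos _ ⟨x, hx1, hx2⟩
    have h3 : volume (interior C ∩ Dᶜ) = 0 :=
      measure_mono_null (show interior C ∩ Dᶜ ⊆ C \ D from
        fun y hy => ⟨interior_subset hy.1, hy.2⟩) h1
    exact hpos.ne' h3
  have h4 := hc.closure_interior_eq_closure_of_nonempty_interior hint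
  have h5 : closure (interior C) ⊆ D := closure_minimal h2 hD.isClosed
  rw [h4] at h5
  exact subset_closure.trans h5

theorem eq_of_mom_eq (hc : Convex ℝ C) (hk : IsCompact C) (hint : (interior C).Nonempty)
    (hint' : (interior (S C)).Nonempty) (h : mom (S C) = mom C) : S C = C := by
  have h1 : ∫ y, (msec C y - msec (S C) y) = 0 := by
    rw [integral_sub (integrable_msec hk) (integrable_msec (isCompact_S hk)), ← mom_eq hk,
      ← mom_eq (isCompact_S hk), h, sub_self]
  have h2 : (fun y => msec C y - msec (S C) y) =ᵐ[volume] 0 := by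
    refine (integral_eq_zero_iff_of_nonneg (fun y => ?_)
      ((integrable_msec hk).sub (integrable_msec (isCompact_S hk)))).1 h1
    show 0 ≤ msec C y - msec (S C) y
    rw [msec_sub hc hk y]
    have : 0 ≤ len C y := ENNReal.toReal_nonneg
    positivity
  have hfinlen : ∀ y, volume (sec C y) ≠ ⊤ := fun y => (isCompact_sec hk y).measure_lt_top.ne
  have key : ∀ᵐ y : ℝ, volume (sec C y \ sec (S C) y) = 0 ∧
      volume (sec (S C) y \ sec C y) = 0 := by
    filter_upwards [h2] with y hy
    simp only [Pi.zero_apply] at hy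
    rw [msec_sub hc hk y] at hy
    by_cases hlen : len C y = 0
    · have h0 : volume (sec C y) = 0 := by
        unfold len at hlen
        rcases (ENNReal.toReal_eq_zero_iff _).1 hlen with h0 | h0
        · exact h0
        · exact absurd h0 (hfinlen y)
      refine ⟨measure_mono_null sdiff_subset h0, measure_mono_null sdiff_subset ?_⟩
      rw [volume_sec_S hc hk, h0]
    · have h3 : hi C y + lo C y = 0 := by
        have h4 : len C y * (hi C y + lo C y) ^ 2 = 0 := by linarith
        rcases mul_eq_zero.1 h4 with h5 | h5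
        · exact absurd h5 hlen
        · exact pow_eq_zero_iff (two_ne_zero) |>.1 h5
      have hne : (sec C y).Nonempty := sec_nonempty_of_len_pos
        (lt_of_le_of_ne ENNReal.toReal_nonneg (Ne.symm hlen))
      have h6 : sec (S C) y = sec C y := by
        rw [sec_S hk hne, sec_eq_Icc hc hk hne]
        congr 1 <;> linarith
      rw [h6]
      simp
  apply Subset.antisymm
  · exact subset_of_ae_sec hk (convex_S hc) (isCompact_S hk) hint' (key.mono fun y hy => hy.2)
  · exact subset_of_ae_sec (isCompact_S hk) hc hk hint (key.mono fun y hy => hy.1)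

/-- sets fixed by `S` are symmetric -/
theorem neg_conj_mem {x : ℂ} (h : S C = C) (hx : x ∈ C) : -conj x ∈ C := by
  rw [← h] at hx ⊢
  obtain ⟨s, s', h1, h2, h3⟩ := hx
  refine ⟨s, s', ?_, ?_, ?_⟩
  · simpa using h1
  · simpa using h2
  · simpa using h3

end Pool.Agent.H81St
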