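import Mathlib

open MeasureTheory Set Metric Filter Topology
open scoped ENNReal Pointwise ComplexConjugate

namespace Pool.Agent.H81St

section General

variable {V : Type*} [NormedAddCommGroup V] [InnerProductSpace ℝ V] [FiniteDimensional ℝ V]
  [MeasurableSpace V] [BorelSpace V]

/-- The divergence of a vector field: the trace of its derivative. -/
noncomputable def dvg (φ : V → V) (x : V) : ℝ :=
  LinearMap.trace ℝ V (fderiv ℝ φ x : V →ₗ[ℝ] V)

/-- The perimeter of a set: the total variation of the distributional gradient of its indicator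
function, i.e. the supremum of the integrals over `E` of the divergence of the compactly supported
`C¹` vector fields bounded by one. -/
noncomputable def perimeter (E : Set V) : ℝ≥0∞ :=
  ⨆ (φ : V → V) (_ : ContDiff ℝ 1 φ) (_ : HasCompactSupport φ) (_ : ∀ x, ‖φ x‖ ≤ 1),
    ENNReal.ofReal (∫ x in E, dvg φ x)

/-- The Steiner symmetral of `E` in direction `u` (a unit vector): each nonempty section of `E` by
a line parallel to `u` is replaced by the closed segment of the same length centred on the
hyperplane orthogonal to `u`. -/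
def steiner (u : V) (E : Set V) : Set V :=
  {x | (∃ s : ℝ, x + s • u ∈ E) ∧
    |inner ℝ x u| ≤ (volume {s : ℝ | x - (inner ℝ x u : ℝ) • u + s • u ∈ E}).toReal / 2}

/-- The iterated Steiner symmetrals of `E` along the directions `u 0, u 1, …`. -/
def iter (u : ℕ → V) (E : Set V) : ℕ → Set V
  | 0 => E
  | i + 1 => steiner (u i) (iter u E i)

end General

/-! ### Planar objects -/

/-- horizontal section of a planar set at height `y` -/
def sec (K : Set ℂ) (y : ℝ) : Set ℝ := {s | (⟨s, y⟩ : ℂ) ∈ K}

/-- length of the horizontal section -/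
noncomputable def len (K : Set ℂ) (y : ℝ) : ℝ := (volume (sec K y)).toReal

/-- planar Steiner symmetral along the real axis (algebraic form, valid for convex compact sets) -/
def S (K : Set ℂ) : Set ℂ :=
  {x | ∃ s s' : ℝ, (⟨s, x.im⟩ : ℂ) ∈ K ∧ (⟨s', x.im⟩ : ℂ) ∈ K ∧ |x.re| ≤ (s - s') / 2}

/-- rotation of a planar set by the unit complex number `ω` -/
def rot (ω : ℂ) (K : Set ℂ) : Set ℂ := {x | conj ω * x ∈ K}

/-- convex compact sets between two balls -/
structure Body (r R : ℝ) (K : Set ℂ) : Prop where
  conv : Convex ℝ K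
  comp : IsCompact K
  inn : closedBall 0 r ⊆ K
  out : K ⊆ closedBall 0 R

/-- nested families of strictly convex bodies, parametrised by `z ∈ [a, b]`, the body with
parameter `z` having the area of the horizontal section of the unit ball at height `z` -/
structure Fam (a b r R : ℝ) (K : ℝ → Set ℂ) : Prop where
  body : ∀ z ∈ Icc a b, Body r R (K z)
  strict : ∀ z ∈ Icc a b, StrictConvex ℝ (K z)
  anti : ∀ z ∈ Icc a b, ∀ z' ∈ Icc a b, z ≤ z' → K z' ⊆ K z
  cont : ∀ ε > 0, ∃ δ > 0, ∀ z ∈ Icc a b, ∀ z' ∈ Icc a b, |z - z'| < δ → K z ⊆ (1 + ε : ℝ) • K z'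
  vol : ∀ z ∈ Icc a b, volume (K z) = ENNReal.ofReal (Real.pi * (1 - z ^ 2))

/-- for almost every `z`, almost no point of the boundary of `K z` moves, seen along the
real direction -/
def Sing (a b : ℝ) (K : ℝ → Set ℂ) : Prop :=
  ∀ᵐ z ∂(volume.restrict (Ioo a b)), ∀ᵐ y : ℝ,
    0 < len (K z) y → HasDerivAt (fun z' => len (K z') y) 0 z

end Pool.Agent.H81St
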