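import Pool.Agent.Lib.H81.St.Defs

/-!
General facts on the perimeter: invariance of perimeter and Steiner symmetrization under linear
isometries, and the bound of the flux of a field by the outer Minkowski content.
-/

open MeasureTheory Set Metric Filter Topology
open scoped ENNReal Pointwise ComplexConjugate

namespace Pool.Agent.H81St

set_option linter.unusedSectionVars false

section Perim

variable {V : Type*} [NormedAddCommGroup V] [InnerProductSpace ℝ V] [FiniteDimensional ℝ V]
  [MeasurableSpace V] [BorelSpace V]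
variable {V' : Type*} [NormedAddCommGroup V'] [InnerProductSpace ℝ V'] [FiniteDimensional ℝ V']
  [MeasurableSpace V'] [BorelSpace V']

theorem dvg_conj (e : V ≃ₗᵢ[ℝ] V') {φ : V' → V'} (hφ : ContDiff ℝ 1 φ) (x : V) :
    dvg (fun y => e.symm (φ (e y))) x = dvg φ (e x) := by
  have h1 : HasFDerivAt φ (fderiv ℝ φ (e x)) (e x) :=
    (hφ.differentiable one_ne_zero).differentiableAt.hasFDerivAt
  have h2 : HasFDerivAt (fun y => e.symm (φ (e y)))
      ((e.symm.toContinuousLinearEquiv : V' →L[ℝ] V).comp
        ((fderiv ℝ φ (e x)).comp (e.toContinuousLinearEquiv : V →L[ℝ] V'))) x := by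
    have h3 : HasFDerivAt (fun y => φ (e y))
        ((fderiv ℝ φ (e x)).comp (e.toContinuousLinearEquiv : V →L[ℝ] V')) x :=
      HasFDerivAt.comp x h1 (e.toContinuousLinearEquiv.hasFDerivAt)
    exact HasFDerivAt.comp x (e.symm.toContinuousLinearEquiv.hasFDerivAt) h3
  unfold dvg
  rw [h2.fderiv]
  rw [← LinearMap.trace_conj' (fderiv ℝ φ (e x) : V' →ₗ[ℝ] V') e.symm.toLinearEquiv]
  congr 1

theorem perimeter_image_le (e : V ≃ₗᵢ[ℝ] V') (E : Set V) : perimeter (e '' E) ≤ perimeter E := by
  unfold perimeter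
  refine iSup_le fun φ => iSup_le fun h1 => iSup_le fun h2 => iSup_le fun h3 => ?_
  have e1 : ContDiff ℝ 1 (fun y => e.symm (φ (e y))) :=
    e.symm.contDiff.comp (h1.comp e.contDiff)
  have e2 : HasCompactSupport (fun y => e.symm (φ (e y))) := by
    have := (h2.comp_isClosedEmbedding e.toHomeomorph.isClosedEmbedding).comp_left
      (g := fun z => e.symm z) (by simp)
    exact this
  have e3 : ∀ x, ‖e.symm (φ (e x))‖ ≤ 1 := fun x => by
    rw [e.symm.norm_map]; exact h3 _
  have e4 : ∫ x in e '' E, dvg φ x = ∫ x in E, dvg (fun y => e.symm (φ (e y))) x := by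
    rw [MeasurePreserving.setIntegral_image_emb e.measurePreserving
      e.toHomeomorph.measurableEmbedding (dvg φ) E]
    simp_rw [dvg_conj e h1]
  rw [e4]
  exact le_iSup_of_le _ (le_iSup_of_le e1 (le_iSup_of_le e2 (le_iSup_of_le e3 le_rfl)))

theorem perimeter_image (e : V ≃ₗᵢ[ℝ] V') (E : Set V) : perimeter (e '' E) = perimeter E := by
  refine le_antisymm (perimeter_image_le e E) ?_
  have := perimeter_image_le e.symm (e '' E)
  rwa [← image_comp, show (e.symm ∘ e : V → V) = id from by ext; simp, image_id] at this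

theorem steiner_image (e : V ≃ₗᵢ[ℝ] V') (u : V) (E : Set V) :
    steiner (e u) (e '' E) = e '' steiner u E := by
  have key : ∀ z : V, e z ∈ e '' E ↔ z ∈ E := fun z => e.injective.mem_set_image
  ext x'
  obtain ⟨x, rfl⟩ := e.surjective x'
  rw [e.injective.mem_set_image]
  unfold steiner
  simp only [mem_ofPred_eq, e.inner_map_map]
  simp_rw [← map_smul, ← map_sub, ← map_add, key]

theorem iter_image (e : V ≃ₗᵢ[ℝ] V') (u : ℕ → V) (E : Set V) (i : ℕ) :
    iter (fun j => e (u j)) (e '' E) i = e '' iter u E i := by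
  induction i with
  | zero => rfl
  | succ i ih =>
    show steiner (e (u i)) (iter (fun j => e (u j)) (e '' E) i) = e '' steiner (u i) (iter u E i)
    rw [ih, steiner_image]

/-- the cut-off function -/
noncomputable def cut (E : Set V) (ε : ℝ) (x : V) : ℝ := max 0 (1 - ε⁻¹ * infDist x E)

omit [InnerProductSpace ℝ V] [FiniteDimensional ℝ V] [MeasurableSpace V] [BorelSpace V] in
theorem cut_lip {E : Set V} {ε : ℝ} (hε : 0 < ε) :
    LipschitzWith (Real.toNNReal ε⁻¹) (cut E ε) := by
  have h1 : LipschitzWith 1 (fun x : V => infDist x E) := lipschitz_infDist_pt E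
  have h2 : LipschitzWith (Real.toNNReal ε⁻¹) (fun x : V => 1 - ε⁻¹ * infDist x E) := by
    refine LipschitzWith.of_dist_le_mul fun x y => ?_
    have := h1.dist_le_mul x y
    rw [Real.dist_eq] at this ⊢
    rw [Real.coe_toNNReal _ (by positivity)]
    have h3 : (1 - ε⁻¹ * infDist x E) - (1 - ε⁻¹ * infDist y E)
        = - (ε⁻¹ * (infDist x E - infDist y E)) := by ring
    rw [h3, abs_neg, abs_mul, abs_of_pos (inv_pos.mpr hε)]
    have h4 := inv_pos.mpr hε
    simp only [NNReal.coe_one, one_mul] at this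
    exact mul_le_mul_of_nonneg_left this h4.le
  exact h2.const_max 0

omit [InnerProductSpace ℝ V] [FiniteDimensional ℝ V] [MeasurableSpace V] [BorelSpace V] in
theorem cut_nonneg {E : Set V} {ε : ℝ} (x : V) : 0 ≤ cut E ε x := le_max_left _ _

omit [InnerProductSpace ℝ V] [FiniteDimensional ℝ V] [MeasurableSpace V] [BorelSpace V] in
theorem cut_le_one {E : Set V} {ε : ℝ} (hε : 0 < ε) (x : V) : cut E ε x ≤ 1 := by
  have : 0 ≤ ε⁻¹ * infDist x E := mul_nonneg (inv_pos.mpr hε).le infDist_nonneg
  exact max_le zero_le_one (by linarith)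

omit [InnerProductSpace ℝ V] [FiniteDimensional ℝ V] [MeasurableSpace V] [BorelSpace V] in
theorem cut_eq_one {E : Set V} {ε : ℝ} {x : V} (hx : x ∈ E) : cut E ε x = 1 := by
  unfold cut
  rw [infDist_zero_of_mem hx]; norm_num

omit [InnerProductSpace ℝ V] [FiniteDimensional ℝ V] [MeasurableSpace V] [BorelSpace V] in
theorem cut_eq_zero {E : Set V} {ε : ℝ} (hε : 0 < ε) {x : V} (hx : ε ≤ infDist x E) :
    cut E ε x = 0 := by
  unfold cut
  refine max_eq_left ?_
  have : 1 ≤ ε⁻¹ * infDist x E := by
    rw [inv_mul_eq_div, le_div_iff₀ hε]; linarith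
  linarith

omit [MeasurableSpace V] [BorelSpace V] in
/-- the sum of the line derivatives -/
theorem sum_lineDeriv {f : V → ℝ} {φ : V → V} {x : V} (hf : DifferentiableAt ℝ f x)
    {ι : Type*} [Fintype ι] (b : OrthonormalBasis ι ℝ V) :
    ∑ i, lineDeriv ℝ f x (b i) * inner ℝ (b i) (φ x) = fderiv ℝ f x (φ x) := by
  conv_rhs => rw [← b.sum_repr' (φ x)]
  rw [map_sum]
  refine Finset.sum_congr rfl fun i _ => ?_
  rw [hf.lineDeriv_eq_fderiv, map_smul, smul_eq_mul, mul_comm]

theorem ibp {f : V → ℝ} {φ : V → V} {C : NNReal} (hf : LipschitzWith C f)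
    (hφ : ContDiff ℝ 1 φ) (hc : HasCompactSupport φ) :
    ∫ x, f x * dvg φ x = - ∫ x, fderiv ℝ f x (φ x) := by
  classical
  let b := stdOrthonormalBasis ℝ V
  have hg : ∀ i, ContDiff ℝ 1 (fun x => inner ℝ (b i) (φ x)) := fun i => contDiff_const.inner ℝ hφ
  have hgc : ∀ i, HasCompactSupport (fun x => inner ℝ (b i) (φ x)) := fun i =>
    hc.comp_left (g := fun z => inner ℝ (b i) z) (by simp)
  have hgl : ∀ i, ∃ D, LipschitzWith D (fun x => inner ℝ (b i) (φ x)) := fun i =>
    ContDiff.lipschitzWith_of_hasCompactSupport (hgc i) (hg i) one_ne_zero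
  have hd : ∀ x, DifferentiableAt ℝ φ x := fun x =>
    (hφ.differentiable one_ne_zero).differentiableAt
  -- the line derivatives of the coordinates
  have hld : ∀ i x, lineDeriv ℝ (fun x => inner ℝ (b i) (φ x)) x (-(b i))
      = - inner ℝ (b i) (fderiv ℝ φ x (b i)) := by
    intro i x
    have h1 : HasFDerivAt (fun x => inner ℝ (b i) (φ x))
        ((innerSL ℝ (b i)).comp (fderiv ℝ φ x)) x :=
      (innerSL ℝ (b i)).hasFDerivAt.comp x (hd x).hasFDerivAt
    rw [h1.differentiableAt.lineDeriv_eq_fderiv, h1.fderiv]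
    simp
  have h1 : ∀ i, ∫ x, lineDeriv ℝ f x (b i) * inner ℝ (b i) (φ x)
      = - ∫ x, inner ℝ (b i) (fderiv ℝ φ x (b i)) * f x := by
    intro i
    obtain ⟨D, hD⟩ := hgl i
    rw [hf.integral_lineDeriv_mul_eq hD (hgc i) (b i)]
    simp_rw [hld]
    rw [← integral_neg]
    simp
  have hcont : Continuous (fderiv ℝ φ) := hφ.continuous_fderiv one_ne_zero
  have hcomp : HasCompactSupport (fderiv ℝ φ) := hc.fderiv ℝ
  have hint2 : ∀ i, Integrable (fun x => inner ℝ (b i) (fderiv ℝ φ x (b i)) * f x) := by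
    intro i
    refine Continuous.integrable_of_hasCompactSupport ?_ ?_
    · exact (continuous_const.inner (hcont.clm_apply continuous_const)).mul hf.continuous
    · refine HasCompactSupport.mul_right ?_
      exact hcomp.comp_left (g := fun L => inner ℝ (b i) (L (b i))) (by simp)
  have hint1 : ∀ i, Integrable (fun x => lineDeriv ℝ f x (b i) * inner ℝ (b i) (φ x)) := by
    intro i
    have hgi : Integrable (fun x => inner ℝ (b i) (φ x)) :=
      (hg i).continuous.integrable_of_hasCompactSupport (hgc i)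
    refine hgi.bdd_mul (c := C * ‖b i‖) ?_ ?_
    · exact (measurable_lineDeriv hf.continuous).aestronglyMeasurable
    · exact Eventually.of_forall fun x => norm_lineDeriv_le_of_lipschitz ℝ hf
  calc ∫ x, f x * dvg φ x
      = ∫ x, ∑ i, inner ℝ (b i) (fderiv ℝ φ x (b i)) * f x := by
        congr 1; ext x
        unfold dvg
        rw [LinearMap.trace_eq_sum_inner _ b, Finset.mul_sum]
        exact Finset.sum_congr rfl fun i _ => mul_comm _ _
    _ = ∑ i, ∫ x, inner ℝ (b i) (fderiv ℝ φ x (b i)) * f x :=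
        integral_finsetSum _ fun i _ => hint2 i
    _ = ∑ i, - ∫ x, lineDeriv ℝ f x (b i) * inner ℝ (b i) (φ x) := by
        refine Finset.sum_congr rfl fun i _ => ?_
        rw [h1, neg_neg]
    _ = - ∫ x, ∑ i, lineDeriv ℝ f x (b i) * inner ℝ (b i) (φ x) := by
        rw [Finset.sum_neg_distrib, integral_finsetSum _ fun i _ => hint1 i]
    _ = - ∫ x, fderiv ℝ f x (φ x) := by
        congr 1
        refine integral_congr_ae ?_
        filter_upwards [hf.ae_differentiableAt] with x hx
        exact sum_lineDeriv hx b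

theorem dvg_cont {φ : V → V} (hφ : ContDiff ℝ 1 φ) : Continuous (dvg φ) := by
  classical
  let b := stdOrthonormalBasis ℝ V
  have hcont : Continuous (fderiv ℝ φ) := hφ.continuous_fderiv one_ne_zero
  have : dvg φ = fun x => ∑ i, inner ℝ (b i) (fderiv ℝ φ x (b i)) := by
    ext x
    unfold dvg
    rw [LinearMap.trace_eq_sum_inner _ b]
    rfl
  rw [this]
  exact continuous_finsetSum _ fun i _ =>
    continuous_const.inner (hcont.clm_apply continuous_const)

theorem dvg_compact {φ : V → V} (hc : HasCompactSupport φ) : HasCompactSupport (dvg φ) :=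
  (hc.fderiv ℝ).comp_left (g := fun L : V →L[ℝ] V => LinearMap.trace ℝ V (L : V →ₗ[ℝ] V))
    (by simp)

/-- the flux of a field through the boundary is at most the outer Minkowski content of the
boundary inside the support of the field -/
theorem flux_le {E Z : Set V} (hE : IsCompact E) (hZ : MeasurableSet Z) {φ : V → V}
    (hφ : ContDiff ℝ 1 φ) (hc : HasCompactSupport φ) (h1 : ∀ x, ‖φ x‖ ≤ 1)
    (hs : ∀ x, φ x ≠ 0 → x ∈ Z) {C : ℝ}
    (hC : ∀ᶠ ε in 𝓝[>] (0 : ℝ), (volume ((thickening ε E \ E) ∩ Z)).toReal ≤ C * ε) :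
    ∫ x in E, dvg φ x ≤ C := by
  rcases E.eq_empty_or_nonempty with rfl | hne
  · simp only [Measure.restrict_empty, integral_zero_measure]
    obtain ⟨ε, h2, h3⟩ := (hC.and self_mem_nhdsWithin).exists
    have h3' : (0 : ℝ) < ε := h3
    have h4 : (0 : ℝ) ≤ C * ε := le_trans ENNReal.toReal_nonneg h2
    by_contra hcon
    push Not at hcon
    nlinarith
  have hmE : MeasurableSet E := hE.isClosed.measurableSet
  have hdint : Integrable (dvg φ) :=
    (dvg_cont hφ).integrable_of_hasCompactSupport (dvg_compact hc)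
  -- convergence
  have hlim : Tendsto (fun ε : ℝ => ∫ x, cut E ε x * dvg φ x) (𝓝[>] 0)
      (𝓝 (∫ x in E, dvg φ x)) := by
    rw [← integral_indicator hmE]
    refine tendsto_integral_filter_of_dominated_convergence (fun x => ‖dvg φ x‖) ?_ ?_
      hdint.norm ?_
    · filter_upwards [self_mem_nhdsWithin] with ε hε
      exact ((cut_lip hε).continuous.mul (dvg_cont hφ)).aestronglyMeasurable
    · filter_upwards [self_mem_nhdsWithin] with ε hε
      refine Eventually.of_forall fun x => ?_
      rw [norm_mul, Real.norm_of_nonneg (cut_nonneg x)]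
      exact mul_le_of_le_one_left (norm_nonneg _) (cut_le_one hε x)
    · refine Eventually.of_forall fun x => ?_
      by_cases hx : x ∈ E
      · simp_rw [cut_eq_one hx, indicator_of_mem hx, one_mul]
        exact tendsto_const_nhds
      · rw [indicator_of_notMem hx]
        have hpos : 0 < infDist x E := (hE.isClosed.notMem_iff_infDist_pos hne).mp hx
        refine Tendsto.congr' ?_ tendsto_const_nhds
        have : ∀ᶠ ε in 𝓝[>] (0 : ℝ), ε < infDist x E :=
          nhdsWithin_le_nhds (Iio_mem_nhds hpos)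
        filter_upwards [this, self_mem_nhdsWithin] with ε h2 h3
        rw [cut_eq_zero h3 h2.le, zero_mul]
  refine le_of_tendsto hlim ?_
  filter_upwards [hC, self_mem_nhdsWithin] with ε hε1 hε2
  have hε : (0 : ℝ) < ε := hε2
  rw [ibp (cut_lip hε) hφ hc]
  have hbd : ∀ᵐ x : V, ‖fderiv ℝ (cut E ε) x (φ x)‖
      ≤ ((thickening ε E \ E) ∩ Z).indicator (fun _ => ε⁻¹) x := by
    refine Eventually.of_forall fun x => ?_
    by_cases hx : x ∈ (thickening ε E \ E) ∩ Z
    · rw [indicator_of_mem hx]
      have h2 : ‖fderiv ℝ (cut E ε) x‖ ≤ Real.toNNReal ε⁻¹ :=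
        norm_fderiv_le_of_lipschitz ℝ (cut_lip hε)
      rw [Real.coe_toNNReal _ (by positivity)] at h2
      calc ‖fderiv ℝ (cut E ε) x (φ x)‖ ≤ ‖fderiv ℝ (cut E ε) x‖ * ‖φ x‖ :=
            ContinuousLinearMap.le_opNorm _ _
        _ ≤ ε⁻¹ * 1 := mul_le_mul h2 (h1 x) (norm_nonneg _) (by positivity)
        _ = ε⁻¹ := mul_one _
    · rw [indicator_of_notMem hx]
      suffices h : fderiv ℝ (cut E ε) x (φ x) = 0 by rw [h, norm_zero]
      by_cases hxZ : x ∈ Z
      · by_cases hxE : x ∈ E
        · have : IsLocalMax (cut E ε) x := by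
            refine Eventually.of_forall fun y => ?_
            rw [cut_eq_one hxE]
            exact cut_le_one hε y
          rw [this.fderiv_eq_zero]; rfl
        · have hth : x ∉ thickening ε E := fun h => hx ⟨⟨h, hxE⟩, hxZ⟩
          have : IsLocalMin (cut E ε) x := by
            refine Eventually.of_forall fun y => ?_
            rw [cut_eq_zero hε]
            · exact cut_nonneg y
            · by_contra hlt
              push Not at hlt
              exact hth ((mem_thickening_iff_infDist_lt hne).mpr hlt)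
          rw [this.fderiv_eq_zero]; rfl
      · have : φ x = 0 := by
          by_contra h
          exact hxZ (hs x h)
        rw [this, map_zero]
  have hmeas : MeasurableSet ((thickening ε E \ E) ∩ Z) :=
    (isOpen_thickening.measurableSet.diff hmE).inter hZ
  have hfin : volume ((thickening ε E \ E) ∩ Z) ≠ ⊤ := by
    refine ne_top_of_le_ne_top ((hE.isBounded.thickening (δ := ε)).measure_lt_top (μ := volume)).ne ?_
    exact measure_mono (fun x hx => hx.1.1)
  have hind : Integrable (((thickening ε E \ E) ∩ Z).indicator (fun _ => ε⁻¹)) :=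
    (integrable_indicator_iff hmeas).mpr (integrableOn_const hfin)
  have h5 : ‖∫ x, fderiv ℝ (cut E ε) x (φ x)‖ ≤
      ∫ x, ((thickening ε E \ E) ∩ Z).indicator (fun _ => ε⁻¹) x :=
    norm_integral_le_of_norm_le hind hbd
  rw [integral_indicator hmeas, setIntegral_const, smul_eq_mul] at h5
  have h6 : volume.real ((thickening ε E \ E) ∩ Z) * ε⁻¹ ≤ C := by
    rw [Measure.real, ← div_eq_mul_inv, div_le_iff₀ hε]
    exact hε1
  have h7 := neg_le_abs (∫ x, fderiv ℝ (cut E ε) x (φ x))
  rw [Real.norm_eq_abs] at h5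
  linarith

end Perim

end Pool.Agent.H81St
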