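import Pool.Agent.Lib.H81.St.Transfer1

/-! Elementary facts on the planar symmetrization `S`. -/

open MeasureTheory Set Metric Filter Topology
open scoped ENNReal Pointwise ComplexConjugate

namespace Pool.Agent.H81St

section PlanarS

variable {r R ρ a b : ℝ} {K K' : Set ℂ} {ω : ℂ}

theorem S_mono (h : K ⊆ K') : S K ⊆ S K' := by
  rintro x ⟨s, s', h1, h2, h3⟩
  exact ⟨s, s', h h1, h h2, h3⟩

theorem mk_smul (c s y : ℝ) : c • (⟨s, y⟩ : ℂ) = ⟨c * s, c * y⟩ := by
  apply Complex.ext
  · simp only [Complex.smul_re, smul_eq_mul]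
  · simp only [Complex.smul_im, smul_eq_mul]

theorem S_smul_subset {c : ℝ} (hc : 0 < c) (K : Set ℂ) : S (c • K) ⊆ c • S K := by
  rintro x ⟨s, s', h1, h2, h3⟩
  rw [mem_smul_set_iff_inv_smul_mem₀ hc.ne'] at h1 h2 ⊢
  rw [mk_smul] at h1 h2
  refine ⟨c⁻¹ * s, c⁻¹ * s', ?_, ?_, ?_⟩
  · simpa only [Complex.smul_im, smul_eq_mul] using h1
  · simpa only [Complex.smul_im, smul_eq_mul] using h2
  · rw [Complex.smul_re, smul_eq_mul, abs_mul, abs_of_pos (inv_pos.2 hc)]
    have := mul_le_mul_of_nonneg_left h3 (inv_pos.2 hc).le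
    linarith

theorem S_smul {c : ℝ} (hc : 0 < c) : S (c • K) = c • S K := by
  apply Subset.antisymm (S_smul_subset hc K)
  have h1 := S_smul_subset (inv_pos.2 hc) (c • K)
  rw [inv_smul_smul₀ hc.ne'] at h1
  have h2 := smul_set_mono (a := c) h1
  rwa [smul_inv_smul₀ hc.ne'] at h2

theorem rot_mono (h : K ⊆ K') : rot ω K ⊆ rot ω K' := fun _ hx => h hx

theorem rot_smul {c : ℝ} (hc : 0 < c) : rot ω (c • K) = c • rot ω K := by
  ext x
  rw [mem_rot, mem_smul_set_iff_inv_smul_mem₀ hc.ne', mem_smul_set_iff_inv_smul_mem₀ hc.ne',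
    mem_rot, mul_smul_comm]

theorem rot_rot {ω' : ℂ} : rot ω (rot ω' K) = rot (ω * ω') K := by
  ext x
  rw [mem_rot, mem_rot, mem_rot, map_mul]
  have : conj ω' * (conj ω * x) = conj ω * conj ω' * x := by ring
  rw [this]

theorem rot_eq_image (hω : ‖ω‖ = 1) : rot ω K = (fun x => ω * x) '' K := by
  ext x
  constructor
  · intro hx
    refine ⟨conj ω * x, hx, ?_⟩
    simp only []
    rw [← mul_assoc, mul_conj_self_of_norm hω, one_mul]
  · rintro ⟨y, hy, rfl⟩
    rw [mem_rot, ← mul_assoc, conj_mul_self_of_norm hω, one_mul]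
    exact hy

/-- multiplication by a unit complex number as a linear isometry equivalence -/
noncomputable def rotE (hω : ‖ω‖ = 1) : ℂ ≃ₗᵢ[ℝ] ℂ :=
  rotation ⟨ω, mem_sphere_zero_iff_norm.2 hω⟩

theorem rotE_apply (hω : ‖ω‖ = 1) (x : ℂ) : rotE hω x = ω * x := rfl

theorem rot_eq_image' (hω : ‖ω‖ = 1) : rot ω K = rotE hω '' K := rot_eq_image hω

theorem volume_rot (hω : ‖ω‖ = 1) : volume (rot ω K) = volume K := by
  have h1 : rot ω K = (rotE hω).symm ⁻¹' K := by
    rw [rot_eq_image' hω]
    ext x
    constructor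
    · rintro ⟨y, hy, rfl⟩
      show (rotE hω).symm (rotE hω y) ∈ K
      rwa [(rotE hω).symm_apply_apply]
    · intro hx
      exact ⟨_, hx, (rotE hω).apply_symm_apply x⟩
  rw [h1]
  exact ((rotE hω).symm.measurePreserving).measure_preimage_emb
    (rotE hω).symm.toHomeomorph.measurableEmbedding K

theorem rot_closedBall (hω : ‖ω‖ = 1) : rot ω (closedBall 0 ρ) = closedBall 0 ρ := by
  ext x
  rw [mem_rot, mem_closedBall_zero_iff, mem_closedBall_zero_iff, norm_mul, Complex.norm_conj, hω,
    one_mul]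

theorem Body_rot (h : Body r R K) (hω : ‖ω‖ = 1) : Body r R (rot ω K) where
  conv := convex_rot h.conv
  comp := isCompact_rot hω h.comp
  inn := by
    have := rot_mono (ω := ω) h.inn
    rwa [rot_closedBall hω] at this
  out := by
    have := rot_mono (ω := ω) h.out
    rwa [rot_closedBall hω] at this

theorem strict_rot (hs : StrictConvex ℝ K) (hω : ‖ω‖ = 1) : StrictConvex ℝ (rot ω K) := by
  have h1 : rot ω K = (fun x => conj ω * x) ⁻¹' K := rfl
  rw [h1]
  intro x hx y hy hne α β hα hβ hαβ
  have hc : Continuous (fun x : ℂ => conj ω * x) := continuous_const.mul continuous_id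
  apply preimage_interior_subset_interior_preimage hc
  have hω0 : conj ω ≠ 0 := by
    intro h0
    have := Complex.norm_conj ω
    rw [h0, norm_zero, hω] at this
    exact zero_ne_one this
  have := hs hx hy (fun he => hne (mul_left_cancel₀ hω0 he)) hα hβ hαβ
  have e : conj ω * (α • x + β • y) = α • (conj ω * x) + β • (conj ω * y) := by
    rw [mul_add, mul_smul_comm, mul_smul_comm]
  show conj ω * (α • x + β • y) ∈ interior K
  rw [e]
  exact this

/-! ### convexity and compactness of `S K` -/

theorem convex_S (hc : Convex ℝ K) : Convex ℝ (S K) := by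
  rintro x ⟨s, s', h1, h2, h3⟩ y ⟨t, t', g1, g2, g3⟩ α β hα hβ hαβ
  refine ⟨α * s + β * t, α * s' + β * t', ?_, ?_, ?_⟩
  · have := hc h1 g1 hα hβ hαβ
    rw [mk_smul, mk_smul] at this
    have e : (⟨α * s, α * x.im⟩ : ℂ) + ⟨β * t, β * y.im⟩ =
        ⟨α * s + β * t, (α • x + β • y).im⟩ := by
      apply Complex.ext
      · simp only [Complex.add_re]
      · simp only [Complex.add_im, Complex.smul_im, smul_eq_mul]
    rwa [e] at this
  · have := hc h2 g2 hα hβ hαβ
    rw [mk_smul, mk_smul] at this
    have e : (⟨α * s', α * x.im⟩ : ℂ) + ⟨β * t', β * y.im⟩ =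
        ⟨α * s' + β * t', (α • x + β • y).im⟩ := by
      apply Complex.ext
      · simp only [Complex.add_re]
      · simp only [Complex.add_im, Complex.smul_im, smul_eq_mul]
    rwa [e] at this
  · rw [Complex.add_re, Complex.smul_re, Complex.smul_re, smul_eq_mul, smul_eq_mul]
    calc |α * x.re + β * y.re| ≤ |α * x.re| + |β * y.re| := abs_add_le _ _
      _ = α * |x.re| + β * |y.re| := by rw [abs_mul, abs_mul, abs_of_nonneg hα, abs_of_nonneg hβ]
      _ ≤ α * ((s - s') / 2) + β * ((t - t') / 2) := by gcongr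
      _ = (α * s + β * t - (α * s' + β * t')) / 2 := by ring

/-- for convex compact sets, `S K` through the end points of the chords -/
theorem mem_S_iff_hi (hk : IsCompact K) (x : ℂ) :
    x ∈ S K ↔ (sec K x.im).Nonempty ∧ |x.re| ≤ (hi K x.im - lo K x.im) / 2 := by
  constructor
  · rintro ⟨s, s', h1, h2, h3⟩
    refine ⟨⟨s, h1⟩, h3.trans ?_⟩
    have := le_hi hk h1
    have := lo_le hk h2
    linarith
  · rintro ⟨hne, h⟩
    exact ⟨_, _, hi_mem hk hne, lo_mem hk hne, h⟩

/-- the link between the algebraic form and the definition by lengths -/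
theorem mem_S_iff (hc : Convex ℝ K) (hk : IsCompact K) (x : ℂ) :
    x ∈ S K ↔ (sec K x.im).Nonempty ∧ |x.re| ≤ len K x.im / 2 := by
  rw [mem_S_iff_hi hk]
  constructor
  · rintro ⟨hne, h⟩; rw [len_eq_hi_sub_lo hc hk hne]; exact ⟨hne, h⟩
  · rintro ⟨hne, h⟩; rw [len_eq_hi_sub_lo hc hk hne] at h; exact ⟨hne, h⟩

theorem isCompact_S (hk : IsCompact K) : IsCompact (S K) := by
  -- image of a compact set
  set P : Set (ℂ × ℂ × ℝ) := (K ×ˢ K ×ˢ Icc (-1 : ℝ) 1) ∩ {p | p.1.im = p.2.1.im} with hP
  have hPc : IsCompact P := by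
    apply (hk.prod (hk.prod isCompact_Icc)).inter_right
    exact isClosed_eq (Complex.continuous_im.comp continuous_fst)
      (Complex.continuous_im.comp (continuous_fst.comp continuous_snd))
  set g : ℂ × ℂ × ℝ → ℂ := fun p =>
    ((p.2.2 * (p.1.re - p.2.1.re) / 2 : ℝ) : ℂ) + ((p.1.im : ℝ) : ℂ) * Complex.I with hg
  have hgc : Continuous g := by
    apply Continuous.add
    · apply Complex.continuous_ofReal.comp
      apply Continuous.div_const
      exact (continuous_snd.comp continuous_snd).mul
        ((Complex.continuous_re.comp continuous_fst).sub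
          (Complex.continuous_re.comp (continuous_fst.comp continuous_snd)))
    · exact (Complex.continuous_ofReal.comp (Complex.continuous_im.comp continuous_fst)).mul
        continuous_const
  have hgre : ∀ p, (g p).re = p.2.2 * (p.1.re - p.2.1.re) / 2 := fun p => by simp [hg]
  have hgim : ∀ p, (g p).im = p.1.im := fun p => by simp [hg]
  have : S K = g '' P := by
    ext x
    constructor
    · rintro ⟨s, s', h1, h2, h3⟩
      have hss : 0 ≤ s - s' := by linarith [abs_nonneg x.re]
      rcases hss.eq_or_lt with h0 | h0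
      · refine ⟨(⟨s, x.im⟩, ⟨s', x.im⟩, 0), ⟨⟨h1, h2, by norm_num, by norm_num⟩, rfl⟩, ?_⟩
        apply Complex.ext
        · rw [hgre]
          have : |x.re| ≤ 0 := by rw [← h0] at h3; linarith
          have := abs_nonpos_iff.1 this
          rw [this]; simp
        · rw [hgim]
      · refine ⟨(⟨s, x.im⟩, ⟨s', x.im⟩, 2 * x.re / (s - s')), ⟨⟨h1, h2, ?_⟩, rfl⟩, ?_⟩
        · have h4 := abs_le.1 h3
          constructor
          · show -1 ≤ 2 * x.re / (s - s')
            rw [le_div_iff₀ h0]; linarith [h4.1]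
          · show 2 * x.re / (s - s') ≤ 1
            rw [div_le_iff₀ h0]; linarith [h4.2]
        · apply Complex.ext
          · rw [hgre]
            show 2 * x.re / (s - s') * (s - s') / 2 = x.re
            field_simp
          · rw [hgim]
    · rintro ⟨⟨p, q, t⟩, ⟨⟨h1, h2, h3⟩, h4⟩, rfl⟩
      have h4' : p.im = q.im := h4
      have h3' : t ∈ Icc (-1 : ℝ) 1 := h3
      have hpe : (⟨p.re, p.im⟩ : ℂ) = p := rfl
      have hqe : (⟨q.re, p.im⟩ : ℂ) = q := by rw [h4']
      have ht : |t| ≤ 1 := abs_le.2 h3'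
      rcases le_total q.re p.re with hle | hle
      · refine ⟨p.re, q.re, ?_, ?_, ?_⟩
        · rw [hgim]; exact h1
        · rw [hgim]
          show (⟨q.re, p.im⟩ : ℂ) ∈ K
          rw [hqe]; exact h2
        · rw [hgre]
          show |t * (p.re - q.re) / 2| ≤ (p.re - q.re) / 2
          rw [abs_div, abs_mul, abs_of_nonneg (sub_nonneg.2 hle), abs_two]
          have := mul_le_mul_of_nonneg_right ht (sub_nonneg.2 hle)
          linarith
      · refine ⟨q.re, p.re, ?_, ?_, ?_⟩
        · rw [hgim]
          show (⟨q.re, p.im⟩ : ℂ) ∈ K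
          rw [hqe]; exact h2
        · rw [hgim]; exact h1
        · rw [hgre]
          show |t * (p.re - q.re) / 2| ≤ (q.re - p.re) / 2
          rw [abs_div, abs_mul, abs_of_nonpos (sub_nonpos.2 hle), abs_two]
          have := mul_le_mul_of_nonneg_right ht (sub_nonneg.2 hle)
          linarith
  rw [this]
  exact hPc.image hgc

theorem norm_mk_le_iff {s y M : ℝ} (hM : 0 ≤ M) : ‖(⟨s, y⟩ : ℂ)‖ ≤ M ↔ s ^ 2 + y ^ 2 ≤ M ^ 2 := by
  rw [Complex.norm_def, Complex.normSq_mk, Real.sqrt_le_left hM]
  constructor <;> intro h <;> nlinarith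

theorem closedBall_subset_S : closedBall 0 ρ ⊆ S (closedBall 0 ρ) := by
  intro x hx
  rw [mem_closedBall_zero_iff] at hx
  have hρ : 0 ≤ ρ := (norm_nonneg _).trans hx
  have hx2 := (norm_mk_le_iff (s := x.re) (y := x.im) hρ).1 hx
  refine ⟨|x.re|, -|x.re|, ?_, ?_, by linarith⟩
  · rw [mem_closedBall_zero_iff, norm_mk_le_iff hρ, sq_abs]; exact hx2
  · rw [mem_closedBall_zero_iff, norm_mk_le_iff hρ, neg_sq, sq_abs]; exact hx2

theorem S_closedBall_subset : S (closedBall 0 ρ) ⊆ closedBall 0 ρ := by
  rintro x ⟨s, s', h1, h2, h3⟩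
  rw [mem_closedBall_zero_iff] at h1 h2 ⊢
  have hρ : 0 ≤ ρ := (norm_nonneg _).trans h1
  rw [norm_mk_le_iff hρ] at h1 h2
  apply (norm_mk_le_iff (s := x.re) (y := x.im) hρ).2
  have h4 : x.re ^ 2 ≤ ((s - s') / 2) ^ 2 := by
    rw [← sq_abs]; exact pow_le_pow_left₀ (abs_nonneg _) h3 2
  nlinarith [sq_nonneg (s + s')]

theorem S_closedBall : S (closedBall 0 ρ) = closedBall 0 ρ :=
  Subset.antisymm S_closedBall_subset closedBall_subset_S

theorem Body_S (h : Body r R K) : Body r R (S K) where
  conv := convex_S h.conv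
  comp := isCompact_S h.comp
  inn := by
    have := S_mono h.inn
    rwa [S_closedBall] at this
  out := by
    have := S_mono h.out
    rwa [S_closedBall] at this

/-! ### strict convexity -/

theorem mem_interior_S {x : ℂ} {s s' : ℝ} (h1 : (⟨s, x.im⟩ : ℂ) ∈ interior K)
    (h2 : (⟨s', x.im⟩ : ℂ) ∈ interior K) (h3 : |x.re| < (s - s') / 2) : x ∈ interior (S K) := by
  rw [mem_interior_iff_mem_nhds]
  have hc : ∀ t : ℝ, Continuous (fun w : ℂ => (⟨t, w.im⟩ : ℂ)) := by
    intro t
    have h : (fun w : ℂ => (⟨t, w.im⟩ : ℂ)) = fun w : ℂ => (t : ℂ) + (w.im : ℂ) * Complex.I := by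
      funext s; apply Complex.ext <;> simp
    rw [h]
    exact continuous_const.add
      ((Complex.continuous_ofReal.comp Complex.continuous_im).mul continuous_const)
  have e1 : ∀ᶠ w in 𝓝 x, (⟨s, w.im⟩ : ℂ) ∈ interior K :=
    (hc s).continuousAt.eventually (isOpen_interior.mem_nhds h1)
  have e2 : ∀ᶠ w in 𝓝 x, (⟨s', w.im⟩ : ℂ) ∈ interior K :=
    (hc s').continuousAt.eventually (isOpen_interior.mem_nhds h2)
  have e3 : ∀ᶠ w in 𝓝 x, |w.re| < (s - s') / 2 :=
    (continuous_abs.comp Complex.continuous_re).continuousAt.eventually (gt_mem_nhds h3)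
  filter_upwards [e1, e2, e3] with w h1 h2 h3
  exact ⟨s, s', interior_subset h1, interior_subset h2, h3.le⟩

theorem strict_S (_h : Body r R K) (hs : StrictConvex ℝ K) : StrictConvex ℝ (S K) := by
  intro x hx y hy hne α β hα hβ hαβ
  have hx0 := hx
  have hy0 := hy
  obtain ⟨s, s', h1, h2, h3⟩ := hx
  obtain ⟨t, t', g1, g2, g3⟩ := hy
  set w := α • x + β • y with hw
  have hwre : w.re = α * x.re + β * y.re := by
    rw [hw, Complex.add_re, Complex.smul_re, Complex.smul_re, smul_eq_mul, smul_eq_mul]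
  have hwim : w.im = α * x.im + β * y.im := by
    rw [hw, Complex.add_im, Complex.smul_im, Complex.smul_im, smul_eq_mul, smul_eq_mul]
  by_cases him : x.im = y.im
  · -- same height
    have hre : x.re ≠ y.re := fun he => hne (Complex.ext he him)
    -- the better pair
    have key : ∀ (p p' : ℝ), (⟨p, w.im⟩ : ℂ) ∈ K → (⟨p', w.im⟩ : ℂ) ∈ K →
        |x.re| ≤ (p - p') / 2 → |y.re| ≤ (p - p') / 2 → w ∈ interior (S K) := by
      intro p p' k1 k2 k3 k4
      have hlt : |w.re| < (p - p') / 2 := by
        rw [hwre, abs_lt]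
        have a1 := abs_le.1 k3
        have a2 := abs_le.1 k4
        set M := (p - p') / 2 with hM
        have hβ' : β = 1 - α := by linarith
        rcases lt_or_gt_of_ne hre with hl | hl
        · constructor
          · have : -M < y.re := by linarith [a1.1]
            nlinarith [a1.1]
          · have : x.re < M := by linarith [a2.2]
            nlinarith [a2.2]
        · constructor
          · have : -M < x.re := by linarith [a2.1]
            nlinarith [a2.1]
          · have : y.re < M := by linarith [a1.2]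
            nlinarith [a1.2]
      have hpp : p' < p := by linarith [abs_nonneg w.re]
      -- interior points slightly inside the chord
      have hne' : (⟨p, w.im⟩ : ℂ) ≠ ⟨p', w.im⟩ := by
        intro he
        have := congrArg Complex.re he
        simp only at this
        linarith
      set d := ((p - p') / 2 - |w.re|) / 2 with hd
      have hd0 : 0 < d := by rw [hd]; linarith
      have hd1 : d < p - p' := by rw [hd]; linarith [abs_nonneg w.re]
      have hpp0 : 0 < p - p' := by linarith
      have m1 := hs k1 k2 hne' (show 0 < 1 - d / (p - p') by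
        rw [sub_pos, div_lt_one hpp0]; exact hd1) (show 0 < d / (p - p') by positivity) (by ring)
      have m2 := hs k1 k2 hne' (show 0 < d / (p - p') by positivity) (show 0 < 1 - d / (p - p') by
        rw [sub_pos, div_lt_one hpp0]; exact hd1) (by ring)
      have e1 : (1 - d / (p - p')) • (⟨p, w.im⟩ : ℂ) + (d / (p - p')) • (⟨p', w.im⟩ : ℂ) =
          ⟨p - d, w.im⟩ := by
        rw [mk_smul, mk_smul]
        apply Complex.ext
        · simp only [Complex.add_re]; field_simp; ring
        · simp only [Complex.add_im]; ring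
      have e2 : (d / (p - p')) • (⟨p, w.im⟩ : ℂ) + (1 - d / (p - p')) • (⟨p', w.im⟩ : ℂ) =
          ⟨p' + d, w.im⟩ := by
        rw [mk_smul, mk_smul]
        apply Complex.ext
        · simp only [Complex.add_re]; field_simp; ring
        · simp only [Complex.add_im]; ring
      rw [e1] at m1
      rw [e2] at m2
      exact mem_interior_S m1 m2 (by rw [hd]; linarith)
    have hwim' : w.im = x.im := by rw [hwim, ← him, ← add_mul, hαβ, one_mul]
    rcases le_total (s - s') (t - t') with hle | hle
    · apply key t t' (by rw [hwim', him]; exact g1) (by rw [hwim', him]; exact g2) (by linarith) g3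
    · apply key s s' (by rw [hwim']; exact h1) (by rw [hwim']; exact h2) h3 (by linarith)
  · -- different heights
    have hne1 : (⟨s, x.im⟩ : ℂ) ≠ ⟨t, y.im⟩ := by
      intro he
      have := congrArg Complex.im he
      exact him this
    have hne2 : (⟨s', x.im⟩ : ℂ) ≠ ⟨t', y.im⟩ := by
      intro he
      have := congrArg Complex.im he
      exact him this
    have m1 := hs h1 g1 hne1 hα hβ hαβ
    have m2 := hs h2 g2 hne2 hα hβ hαβ
    have e1 : α • (⟨s, x.im⟩ : ℂ) + β • (⟨t, y.im⟩ : ℂ) = ⟨α * s + β * t, w.im⟩ := by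
      rw [mk_smul, mk_smul, hwim]
      apply Complex.ext
      · simp only [Complex.add_re]
      · simp only [Complex.add_im]
    have e2 : α • (⟨s', x.im⟩ : ℂ) + β • (⟨t', y.im⟩ : ℂ) = ⟨α * s' + β * t', w.im⟩ := by
      rw [mk_smul, mk_smul, hwim]
      apply Complex.ext
      · simp only [Complex.add_re]
      · simp only [Complex.add_im]
    rw [e1] at m1
    rw [e2] at m2
    have hle : |w.re| ≤ (α * s + β * t - (α * s' + β * t')) / 2 := by
      rw [hwre]
      calc |α * x.re + β * y.re| ≤ |α * x.re| + |β * y.re| := abs_add_le _ _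
        _ = α * |x.re| + β * |y.re| := by rw [abs_mul, abs_mul, abs_of_pos hα, abs_of_pos hβ]
        _ ≤ α * ((s - s') / 2) + β * ((t - t') / 2) := by gcongr
        _ = (α * s + β * t - (α * s' + β * t')) / 2 := by ring
    -- increase the right end slightly
    obtain ⟨ε, hε, hball⟩ := Metric.nhds_basis_closedBall.mem_iff.1 (isOpen_interior.mem_nhds m1)
    have m3 : (⟨α * s + β * t + ε, w.im⟩ : ℂ) ∈ interior K := by
      apply hball
      rw [mem_closedBall, dist_eq_norm]
      have : (⟨α * s + β * t + ε, w.im⟩ : ℂ) - ⟨α * s + β * t, w.im⟩ = (ε : ℂ) := by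
        apply Complex.ext <;> simp
      rw [this, Complex.norm_real, Real.norm_of_nonneg hε.le]
    exact mem_interior_S m3 m2 (by linarith)

/-! ### lengths and areas -/

theorem sec_S (hk : IsCompact K) {y : ℝ} (hne : (sec K y).Nonempty) :
    sec (S K) y = Icc (-((hi K y - lo K y) / 2)) ((hi K y - lo K y) / 2) := by
  ext s
  show (⟨s, y⟩ : ℂ) ∈ S K ↔ _
  rw [mem_S_iff_hi hk]
  simp only []
  rw [abs_le]
  exact ⟨fun h => h.2, fun h => ⟨hne, h⟩⟩

theorem sec_S_empty {y : ℝ} (hne : ¬ (sec K y).Nonempty) : sec (S K) y = ∅ := by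
  ext s
  simp only [mem_empty_iff_false, iff_false]
  rintro ⟨t, t', h1, -⟩
  exact hne ⟨t, h1⟩

theorem volume_sec_S (hc : Convex ℝ K) (hk : IsCompact K) (y : ℝ) :
    volume (sec (S K) y) = volume (sec K y) := by
  by_cases hne : (sec K y).Nonempty
  · rw [sec_S hk hne, sec_eq_Icc hc hk hne, Real.volume_Icc, Real.volume_Icc]
    congr 1
    ring
  · rw [sec_S_empty hne, not_nonempty_iff_eq_empty.1 hne]

theorem len_S (hc : Convex ℝ K) (hk : IsCompact K) (y : ℝ) : len (S K) y = len K y := by
  unfold len; rw [volume_sec_S hc hk]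

theorem S_S (hc : Convex ℝ K) (hk : IsCompact K) : S (S K) = S K := by
  ext x
  rw [mem_S_iff (convex_S hc) (isCompact_S hk), mem_S_iff hc hk, len_S hc hk]
  have : (sec (S K) x.im).Nonempty ↔ (sec K x.im).Nonempty := by
    constructor
    · intro h
      by_contra hcon
      rw [sec_S_empty hcon] at h
      exact not_nonempty_empty h
    · intro h
      rw [sec_S hk h]
      have : lo K x.im ≤ hi K x.im := le_hi hk (lo_mem hk h)
      exact ⟨0, by linarith, by linarith⟩
  rw [this]

theorem volume_S (hc : Convex ℝ K) (hk : IsCompact K) : volume (S K) = volume K := by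
  rw [volume_eq_lintegral_sec (isCompact_S hk).measurableSet,
    volume_eq_lintegral_sec hk.measurableSet]
  exact lintegral_congr fun y => volume_sec_S hc hk y

theorem Fam_step {K : ℝ → Set ℂ} (h : Fam a b r R K) (hω : ‖ω‖ = 1) :
    Fam a b r R (fun z => S (rot ω (K z))) where
  body := fun z hz => Body_S (Body_rot (h.body z hz) hω)
  strict := fun z hz => strict_S (Body_rot (h.body z hz) hω) (strict_rot (h.strict z hz) hω)
  anti := fun z hz z' hz' hzz => S_mono (rot_mono (h.anti z hz z' hz' hzz))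
  cont := by
    intro ε hε
    obtain ⟨δ, hδ, hcont⟩ := h.cont ε hε
    refine ⟨δ, hδ, fun z hz z' hz' hzz => ?_⟩
    have := S_mono (rot_mono (ω := ω) (hcont z hz z' hz' hzz))
    rwa [rot_smul (by linarith), S_smul (by linarith)] at this
  vol := by
    intro z hz
    have hb := Body_rot (h.body z hz) hω
    show volume (S (rot ω (K z))) = _
    rw [volume_S hb.conv hb.comp, volume_rot hω, h.vol z hz]

end PlanarS

end Pool.Agent.H81St
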