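import Pool.Agent.Lib.H81.St.Transfer1

/-! The singularity property is independent of the direction. -/

open MeasureTheory Set Metric Filter Topology
open scoped ENNReal Pointwise ComplexConjugate

namespace Pool.Agent.H81St

variable {a b r R : ℝ} {K : ℝ → Set ℂ}

theorem volume_image_null_of_locallyLipschitzOn {f : ℝ → ℝ} {I N : Set ℝ}
    (hf : LocallyLipschitzOn I f) (hNI : N ⊆ I) (hN : volume N = 0) : volume (f '' N) = 0 := by
  have h1 : ∀ x ∈ N, ∃ t ∈ 𝓝[N] x, ∃ C, LipschitzOnWith C f t := by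
    intro x hx
    obtain ⟨C, t, ht, hC⟩ := hf (hNI hx)
    exact ⟨t, nhdsWithin_mono x hNI ht, C, hC⟩
  choose! t ht C hC using h1
  obtain ⟨S, hSN, hSc, hSU⟩ := TopologicalSpace.countable_cover_nhdsWithin ht
  have h2 : f '' N ⊆ ⋃ x ∈ S, f '' (t x ∩ N) := by
    rintro _ ⟨y, hy, rfl⟩
    obtain ⟨x, hx, hyx⟩ := mem_iUnion₂.1 (hSU hy)
    exact mem_iUnion₂.2 ⟨x, hx, mem_image_of_mem f ⟨hyx, hy⟩⟩
  refine measure_mono_null h2 ((measure_biUnion_null_iff hSc).2 fun x hx => ?_)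
  have h3 := ((hC x (hSN hx)).mono (inter_subset_left (t := N))).hausdorffMeasure_image_le
    (d := 1) (by norm_num)
  rw [hausdorffMeasure_real] at h3
  have h4 : volume (t x ∩ N) = 0 := measure_mono_null inter_subset_right hN
  rw [h4, mul_zero] at h3
  exact le_antisymm h3 bot_le

theorem len_eq_hi_sub_lo' {C : Set ℂ} (hc : Convex ℝ C) (hC : IsCompact C) (y : ℝ) :
    len C y = hi C y - lo C y := by
  by_cases hne : (sec C y).Nonempty
  · exact len_eq_hi_sub_lo hc hC hne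
  · rw [not_nonempty_iff_eq_empty] at hne
    unfold len hi lo
    rw [hne, Real.sSup_empty, Real.sInf_empty]
    simp

theorem isOpen_pos (h : Fam a b r R K) (hsec : Secs a b K) {z : ℝ} (hz : z ∈ Icc a b) :
    IsOpen {y | 0 < len (K z) y} := by
  rw [isOpen_iff_mem_nhds]
  intro y hy
  have hne := sec_nonempty_of_len_pos hy
  have hy' : (0 : ℝ) < len (K z) y := hy
  have h1 := mem_interior_of_lt h hsec hz (t := 0) hne (by rw [abs_zero]; linarith)
  obtain ⟨ε, hε, hball⟩ := Metric.nhds_basis_closedBall.mem_iff.1 (mem_interior_iff_mem_nhds.1 h1)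
  have h2 : ∀ᶠ w in 𝓝 y, |w - y| ≤ ε / 2 := by
    filter_upwards [Metric.ball_mem_nhds y (show 0 < ε / 2 by positivity)] with w hw
    exact (show |w - y| < ε / 2 from hw).le
  filter_upwards [h2] with w hw
  have h3 : (⟨ε / 2, w⟩ : ℂ) ∈ K z := by
    apply hball
    rw [mem_closedBall, dist_eq_norm]
    have e : (⟨ε / 2, w⟩ : ℂ) - ⟨0, y⟩ = ((ε / 2 : ℝ) : ℂ) + ((w - y : ℝ) : ℂ) * Complex.I := by
      apply Complex.ext <;> simp
    rw [e]
    refine (norm_add_le _ _).trans ?_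
    rw [norm_mul, Complex.norm_I, mul_one, Complex.norm_real, Complex.norm_real, Real.norm_eq_abs,
      Real.norm_eq_abs, abs_of_pos (show 0 < ε / 2 by positivity)]
    linarith
  have h4 := abs_re_le hsec hz h3
  simp only at h4
  rw [abs_of_pos (show 0 < ε / 2 by positivity)] at h4
  show 0 < len (K z) w
  linarith

theorem concaveOn_len (h : Fam a b r R K) (hsec : Secs a b K) {z : ℝ} (hz : z ∈ Icc a b) :
    ConcaveOn ℝ {y | 0 < len (K z) y} (fun y => len (K z) y / 2) := by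
  have key : ∀ y₁, 0 < len (K z) y₁ → ∀ y₂, 0 < len (K z) y₂ → ∀ α β : ℝ, 0 ≤ α → 0 ≤ β →
      α + β = 1 → α * (len (K z) y₁ / 2) + β * (len (K z) y₂ / 2) ≤
        len (K z) (α * y₁ + β * y₂) / 2 := by
    intro y₁ h1 y₂ h2 α β hα hβ hαβ
    have m1 := mk_mem hsec hz (s := len (K z) y₁ / 2) (sec_nonempty_of_len_pos h1)
      (by rw [abs_of_pos (by linarith)])
    have m2 := mk_mem hsec hz (s := len (K z) y₂ / 2) (sec_nonempty_of_len_pos h2)
      (by rw [abs_of_pos (by linarith)])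
    have m3 := (h.body z hz).conv m1 m2 hα hβ hαβ
    have e : α • (⟨len (K z) y₁ / 2, y₁⟩ : ℂ) + β • (⟨len (K z) y₂ / 2, y₂⟩ : ℂ)
        = ⟨α * (len (K z) y₁ / 2) + β * (len (K z) y₂ / 2), α * y₁ + β * y₂⟩ := by
      apply Complex.ext
      · simp only [Complex.add_re, Complex.smul_re, smul_eq_mul]
      · simp only [Complex.add_im, Complex.smul_im, smul_eq_mul]
    rw [e] at m3
    have := abs_re_le hsec hz m3
    simp only at this
    exact (le_abs_self _).trans this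
  constructor
  · intro y₁ h1 y₂ h2 α β hα hβ hαβ
    have := key y₁ h1 y₂ h2 α β hα hβ hαβ
    show 0 < len (K z) (α • y₁ + β • y₂)
    simp only [smul_eq_mul]
    have h1' : 0 < len (K z) y₁ := h1
    have h2' : 0 < len (K z) y₂ := h2
    rcases hα.eq_or_lt with h0 | h0
    · subst h0
      have : β = 1 := by linarith
      subst this
      simpa using h2'
    · have e1 : 0 < α * (len (K z) y₁ / 2) := by positivity
      have e2 : 0 ≤ β * (len (K z) y₂ / 2) := by positivity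
      linarith
  · intro y₁ h1 y₂ h2 α β hα hβ hαβ
    simp only [smul_eq_mul]
    exact key y₁ h1 y₂ h2 α β hα hβ hαβ

theorem im_formula (ω : ℂ) (s y : ℝ) : (ω * (⟨s, y⟩ : ℂ)).im = ω.re * y + ω.im * s := by
  simp [Complex.mul_im]

theorem locLip_proj (h : Fam a b r R K) (hsec : Secs a b K) {z : ℝ} (hz : z ∈ Icc a b) (ω : ℂ)
    (σ : ℝ) : LocallyLipschitzOn {y | 0 < len (K z) y}
      (fun y => (ω * (⟨σ * (len (K z) y / 2), y⟩ : ℂ)).im) := by
  have hf : (fun y => (ω * (⟨σ * (len (K z) y / 2), y⟩ : ℂ)).im) =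
      fun y => ω.re * y + (ω.im * σ) * (len (K z) y / 2) := by
    funext y; rw [im_formula]; ring
  rw [hf]
  have hlin : ∀ c : ℝ, ConcaveOn ℝ {y | 0 < len (K z) y} (fun y : ℝ => c * y) := fun c =>
    ⟨(concaveOn_len h hsec hz).1, fun x _ y _ α β _ _ _ => by
      simp only [smul_eq_mul]; apply le_of_eq; ring⟩
  have hlin' : ∀ c : ℝ, ConvexOn ℝ {y | 0 < len (K z) y} (fun y : ℝ => c * y) := fun c =>
    ⟨(concaveOn_len h hsec hz).1, fun x _ y _ α β _ _ _ => by
      simp only [smul_eq_mul]; apply le_of_eq; ring⟩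
  rcases le_total 0 (ω.im * σ) with h0 | h0
  · have : ConcaveOn ℝ {y | 0 < len (K z) y}
        (fun y => ω.re * y + (ω.im * σ) * (len (K z) y / 2)) :=
      (hlin ω.re).add ((concaveOn_len h hsec hz).smul h0)
    exact this.locallyLipschitzOn (isOpen_pos h hsec hz)
  · have h1 : ConvexOn ℝ {y | 0 < len (K z) y} (fun y => (-(ω.im * σ)) • (-(len (K z) y / 2))) :=
      ((concaveOn_len h hsec hz).neg).smul (by linarith)
    have : ConvexOn ℝ {y | 0 < len (K z) y}
        (fun y => ω.re * y + (ω.im * σ) * (len (K z) y / 2)) := by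
      have h2 := (hlin' ω.re).add h1
      have e : ((fun y : ℝ => ω.re * y) + fun y => (-(ω.im * σ)) • (-(len (K z) y / 2))) =
          fun y => ω.re * y + (ω.im * σ) * (len (K z) y / 2) := by
        funext y; simp only [Pi.add_apply, smul_eq_mul]; ring
      rwa [e] at h2
    exact this.locallyLipschitzOn (isOpen_pos h hsec hz)

/-- heights with a nonempty section of zero length -/
def Z0 (K : ℝ → Set ℂ) (z : ℝ) : Set ℝ := {y | (sec (K z) y).Nonempty ∧ ¬ 0 < len (K z) y}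

theorem countable_Z0 (h : Fam a b r R K) (hsec : Secs a b K) (hr : 0 < r) {z : ℝ}
    (hz : z ∈ Icc a b) : (Z0 K z).Countable := by
  have key : ∀ y₁ y₂ : ℝ, ∀ t : ℝ, 0 ≤ t → t < 1 → y₁ = t * y₂ → y₂ ∈ Z0 K z → y₁ ∉ Z0 K z := by
    intro y₁ y₂ t ht0 ht1 he h2 h1
    have m1 : (⟨0, y₂⟩ : ℂ) ∈ K z := by
      apply mk_mem hsec hz h2.1
      rw [abs_zero]
      exact div_nonneg ENNReal.toReal_nonneg (by norm_num)
    have m2 : (⟨r, 0⟩ : ℂ) ∈ K z := by
      apply (h.body z hz).inn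
      rw [mem_closedBall_zero_iff]
      have : (⟨r, 0⟩ : ℂ) = (r : ℂ) := rfl
      rw [this, Complex.norm_real, Real.norm_of_nonneg hr.le]
    have m3 := (h.body z hz).conv m1 m2 ht0 (show 0 ≤ 1 - t by linarith) (by ring)
    have e : t • (⟨0, y₂⟩ : ℂ) + (1 - t) • (⟨r, 0⟩ : ℂ) = ⟨(1 - t) * r, y₁⟩ := by
      apply Complex.ext
      · simp only [Complex.add_re, Complex.smul_re, smul_eq_mul]; ring
      · simp only [Complex.add_im, Complex.smul_im, smul_eq_mul]; rw [he]; ring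
    rw [e] at m3
    have m4 := abs_re_le hsec hz m3
    simp only at m4
    have : 0 < (1 - t) * r := by nlinarith
    rw [abs_of_pos this] at m4
    exact h1.2 (by linarith)
  have hs1 : (Z0 K z ∩ {y | 0 ≤ y}).Subsingleton := by
    intro y₁ h1 y₂ h2
    by_contra hne
    rcases lt_or_gt_of_ne hne with hlt | hlt
    · have hy2 : 0 < y₂ := lt_of_le_of_lt h1.2 hlt
      exact key y₁ y₂ (y₁ / y₂) (div_nonneg h1.2 hy2.le) ((div_lt_one hy2).2 hlt)
        (by field_simp) h2.1 h1.1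
    · have hy1 : 0 < y₁ := lt_of_le_of_lt h2.2 hlt
      exact key y₂ y₁ (y₂ / y₁) (div_nonneg h2.2 hy1.le) ((div_lt_one hy1).2 hlt)
        (by field_simp) h1.1 h2.1
  have hs2 : (Z0 K z ∩ {y | y ≤ 0}).Subsingleton := by
    intro y₁ h1 y₂ h2
    by_contra hne
    rcases lt_or_gt_of_ne hne with hlt | hlt
    · have hy1 : y₁ < 0 := lt_of_lt_of_le hlt h2.2
      exact key y₂ y₁ (y₂ / y₁) (div_nonneg_of_nonpos h2.2 hy1.le)
        ((div_lt_one_of_neg hy1).2 hlt) (div_mul_cancel₀ _ hy1.ne).symm h1.1 h2.1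
    · have hy2 : y₂ < 0 := lt_of_lt_of_le hlt h1.2
      exact key y₁ y₂ (y₁ / y₂) (div_nonneg_of_nonpos h1.2 hy2.le)
        ((div_lt_one_of_neg hy2).2 hlt) (div_mul_cancel₀ _ hy2.ne).symm h2.1 h1.1
  have : Z0 K z ⊆ (Z0 K z ∩ {y | 0 ≤ y}) ∪ (Z0 K z ∩ {y | y ≤ 0}) := by
    intro y hy
    rcases le_total 0 y with h0 | h0
    · exact Or.inl ⟨hy, h0⟩
    · exact Or.inr ⟨hy, h0⟩
  exact (hs1.countable.union hs2.countable).mono this

theorem ae_good (h : Fam a b r R K) (hsec : Secs a b K) (hr : 0 < r) {z : ℝ} (hz : z ∈ Icc a b)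
    (ω : ℂ) (hg : ∀ᵐ y : ℝ, 0 < len (K z) y → HasDerivAt (fun w => len (K w) y) 0 z) :
    ∀ᵐ y' : ℝ, ∀ σ : ℝ, (σ = 1 ∨ σ = -1) → ∀ y : ℝ,
      y' = (ω * (⟨σ * (len (K z) y / 2), y⟩ : ℂ)).im → (sec (K z) y).Nonempty →
      0 < len (K z) y ∧ HasDerivAt (fun w => len (K w) y) 0 z := by
  set N : Set ℝ := {y | 0 < len (K z) y ∧ ¬ HasDerivAt (fun w => len (K w) y) 0 z} with hN
  have hN0 : volume N = 0 := by
    have h1 : volume {y | ¬ (0 < len (K z) y → HasDerivAt (fun w => len (K w) y) 0 z)} = 0 := hg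
    refine measure_mono_null (fun y hy => ?_) h1
    intro himp
    exact hy.2 (himp hy.1)
  have hnull : ∀ σ : ℝ, volume ((fun y => (ω * (⟨σ * (len (K z) y / 2), y⟩ : ℂ)).im) '' N) = 0 :=
    fun σ => volume_image_null_of_locallyLipschitzOn (locLip_proj h hsec hz ω σ)
      (fun y hy => hy.1) hN0
  have hZ : ∀ σ : ℝ,
      volume ((fun y => (ω * (⟨σ * (len (K z) y / 2), y⟩ : ℂ)).im) '' (Z0 K z)) = 0 :=
    fun σ => ((countable_Z0 h hsec hr hz).image _).measure_zero _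
  have hall : ∀ σ : ℝ, ∀ᵐ y' : ℝ, ∀ y : ℝ,
      y' = (ω * (⟨σ * (len (K z) y / 2), y⟩ : ℂ)).im → (sec (K z) y).Nonempty →
      0 < len (K z) y ∧ HasDerivAt (fun w => len (K w) y) 0 z := by
    intro σ
    have h1 := measure_eq_zero_iff_ae_notMem.1 (hnull σ)
    have h2 := measure_eq_zero_iff_ae_notMem.1 (hZ σ)
    filter_upwards [h1, h2] with y' h1 h2 y hy' hne
    have hpos : 0 < len (K z) y := by
      by_contra hcon
      exact h2 ⟨y, ⟨hne, hcon⟩, hy'.symm⟩
    refine ⟨hpos, ?_⟩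
    by_contra hcon
    exact h1 ⟨y, ⟨hpos, hcon⟩, hy'.symm⟩
  filter_upwards [hall 1, hall (-1)] with y' h1 h2 σ hσ
  rcases hσ with h0 | h0
  · rw [h0]; exact h1
  · rw [h0]; exact h2

theorem transfer' {ω : ℂ} (hr : 0 < r) (h : Fam a b r R K)
    (hsec : Secs a b K) (hs : Sing a b K) (hω : ‖ω‖ = 1) :
    Sing a b (fun z => rot ω (K z)) := by
  unfold Sing at hs ⊢
  rw [ae_restrict_iff' measurableSet_Ioo] at hs ⊢
  filter_upwards [hs] with z hz hzI
  have hg := hz hzI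
  have hzI' := Ioo_subset_Icc_self hzI
  have g1 := ae_good h hsec hr hzI' ω hg
  have g2 := ae_good h hsec hr hzI' (-ω) hg
  have g2' : ∀ᵐ y' : ℝ, ∀ σ : ℝ, (σ = 1 ∨ σ = -1) → ∀ y : ℝ,
      -y' = (-ω * (⟨σ * (len (K z) y / 2), y⟩ : ℂ)).im → (sec (K z) y).Nonempty →
      0 < len (K z) y ∧ HasDerivAt (fun w => len (K w) y) 0 z :=
    (Measure.measurePreserving_neg (volume : Measure ℝ)).quasiMeasurePreserving.ae g2
  filter_upwards [g1, g2'] with y' h1 h2 hlen
  have hω' : ‖-ω‖ = 1 := by rw [norm_neg]; exact hω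
  have d1 := hi_deriv h hsec hzI hω hlen h1
  have d2 := hi_deriv h hsec hzI hω' (y' := -y') (by rw [len_rot_neg]; exact hlen) h2
  have d3 := d1.add d2
  rw [add_zero] at d3
  refine d3.congr_of_eventuallyEq ?_
  filter_upwards [Icc_mem_nhds hzI.1 hzI.2] with w hw
  rw [len_eq_hi_sub_lo' (convex_rot (h.body w hw).conv) (isCompact_rot hω (h.body w hw).comp)]
  simp only [Pi.add_apply]
  rw [hi_rot_neg]
  ring

end Pool.Agent.H81St
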