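import Pool.Agent.Lib.H81.St.Zone
import Pool.Agent.Lib.H81.St.Transfer
import Pool.Agent.Lib.H81.St.Perim
import Pool.Agent.Lib.H81.St.PlanarS

/-! Solids in `ℂ × ℝ^m` and their symmetrization in directions of the plane `ℂ`. -/

open MeasureTheory Set Metric Filter Topology
open scoped ENNReal Pointwise ComplexConjugate

namespace Pool.Agent.H81St

/-- the solid with horizontal sections `G z` -/
def bodyOf (m : ℕ) (G : ℝ → Set ℂ) : Set (VV m) := {X | ‖X.snd‖ ≤ 1 ∧ X.fst ∈ G ‖X.snd‖}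

theorem steiner_bodyOf {m : ℕ} {ω : ℂ} (hω : ‖ω‖ = 1) {G : ℝ → Set ℂ}
    (hG : ∀ z ∈ Icc (0 : ℝ) 1, Convex ℝ (G z) ∧ IsCompact (G z)) :
    steiner (inj1 m ω) (bodyOf m G) = bodyOf m (fun z => rot ω (S (rot (conj ω) (G z)))) := by
  have hω' : ‖conj ω‖ = 1 := by rw [Complex.norm_conj, hω]
  ext X
  have hin : (inner ℝ X (inj1 m ω) : ℝ) = (conj ω * X.fst).re := by
    rw [WithLp.prod_inner_apply]
    show inner ℝ X.fst ω + inner ℝ X.snd (0 : W m) = _
    rw [inner_zero_right, add_zero, Complex.inner]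
    have : ω * conj X.fst = conj (conj ω * X.fst) := by rw [map_mul, Complex.conj_conj]
    rw [this, Complex.conj_re]
  set ξ : ℂ := conj ω * X.fst with hξ
  have hx : X.fst = ω * ξ := by
    rw [hξ, ← mul_assoc, mul_conj_self_of_norm hω, one_mul]
  -- translated points
  have hmem : ∀ s : ℝ, X + s • inj1 m ω ∈ bodyOf m G ↔
      ‖X.snd‖ ≤ 1 ∧ (⟨ξ.re + s, ξ.im⟩ : ℂ) ∈ rot (conj ω) (G ‖X.snd‖) := by
    intro s
    have e1 : (X + s • inj1 m ω).snd = X.snd := by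
      show X.snd + s • (0 : W m) = X.snd
      rw [smul_zero, add_zero]
    have e2 : (X + s • inj1 m ω).fst = ω * (⟨ξ.re + s, ξ.im⟩ : ℂ) := by
      show X.fst + s • ω = _
      rw [hx]
      have : (⟨ξ.re + s, ξ.im⟩ : ℂ) = ξ + (s : ℂ) := by apply Complex.ext <;> simp
      rw [this, Complex.real_smul]
      ring
    unfold bodyOf
    simp only [mem_ofPred_eq]
    rw [e1, e2, mem_rot, Complex.conj_conj]
  have hmem2 : ∀ s : ℝ, X - (inner ℝ X (inj1 m ω) : ℝ) • inj1 m ω + s • inj1 m ω ∈ bodyOf m G ↔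
      ‖X.snd‖ ≤ 1 ∧ s ∈ sec (rot (conj ω) (G ‖X.snd‖)) ξ.im := by
    intro s
    have e : X - (inner ℝ X (inj1 m ω) : ℝ) • inj1 m ω + s • inj1 m ω =
        X + (s - ξ.re) • inj1 m ω := by
      rw [hin, sub_smul]; abel
    rw [e, hmem]
    have : ξ.re + (s - ξ.re) = s := by ring
    rw [this]
    rfl
  constructor
  · rintro ⟨⟨s, hs⟩, hle⟩
    have h1 := (hmem s).1 hs
    have hz : ‖X.snd‖ ∈ Icc (0 : ℝ) 1 := ⟨norm_nonneg _, h1.1⟩
    obtain ⟨hGc, hGk⟩ := hG _ hz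
    refine ⟨h1.1, ?_⟩
    show X.fst ∈ rot ω (S (rot (conj ω) (G ‖X.snd‖)))
    rw [mem_rot, ← hξ]
    rw [mem_S_iff (convex_rot hGc) (isCompact_rot hω' hGk)]
    refine ⟨⟨_, h1.2⟩, ?_⟩
    rw [hin] at hle
    have e3 : {s : ℝ | X - (conj ω * X.fst).re • inj1 m ω + s • inj1 m ω ∈ bodyOf m G} =
        sec (rot (conj ω) (G ‖X.snd‖)) ξ.im := by
      ext t
      have := hmem2 t
      rw [hin] at this
      rw [mem_ofPred_eq, this]
      exact ⟨fun h => h.2, fun h => ⟨h1.1, h⟩⟩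
    rw [e3] at hle
    exact hle
  · rintro ⟨hz1, hX⟩
    have hz : ‖X.snd‖ ∈ Icc (0 : ℝ) 1 := ⟨norm_nonneg _, hz1⟩
    obtain ⟨hGc, hGk⟩ := hG _ hz
    have hX' : ξ ∈ S (rot (conj ω) (G ‖X.snd‖)) := hX
    rw [mem_S_iff (convex_rot hGc) (isCompact_rot hω' hGk)] at hX'
    obtain ⟨⟨s, hs⟩, hle⟩ := hX'
    refine ⟨⟨s - ξ.re, (hmem _).2 ⟨hz1, ?_⟩⟩, ?_⟩
    · have : ξ.re + (s - ξ.re) = s := by ring
      rw [this]
      exact hs
    · rw [hin]
      have e3 : {s : ℝ | X - (conj ω * X.fst).re • inj1 m ω + s • inj1 m ω ∈ bodyOf m G} =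
          sec (rot (conj ω) (G ‖X.snd‖)) ξ.im := by
        ext t
        have := hmem2 t
        rw [hin] at this
        rw [mem_ofPred_eq, this]
        exact ⟨fun h => h.2, fun h => ⟨hz1, h⟩⟩
      rw [e3]
      exact hle

/-! ### Rotations of the plane factor -/

/-- rotation of the plane factor by a unit complex number -/
noncomputable def rotV (m : ℕ) (ω : Circle) : VV m ≃ₗᵢ[ℝ] VV m :=
  LinearIsometryEquiv.withLpProdCongr 2 (rotation ω) (LinearIsometryEquiv.refl ℝ (W m))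

theorem rotV_fst {m : ℕ} (ω : Circle) (X : VV m) : (rotV m ω X).fst = (ω : ℂ) * X.fst := rfl
theorem rotV_snd {m : ℕ} (ω : Circle) (X : VV m) : (rotV m ω X).snd = X.snd := rfl

theorem rotV_image {m : ℕ} (ω : Circle) (G : ℝ → Set ℂ) :
    rotV m ω '' bodyOf m G = bodyOf m (fun z => rot (ω : ℂ) (G z)) := by
  have hω : ‖(ω : ℂ)‖ = 1 := Circle.norm_coe ω
  ext X
  constructor
  · rintro ⟨Y, ⟨h1, h2⟩, rfl⟩
    refine ⟨by rw [rotV_snd]; exact h1, ?_⟩
    rw [rotV_snd, rotV_fst, mem_rot, ← mul_assoc, conj_mul_self_of_norm hω, one_mul]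
    exact h2
  · rintro ⟨h1, h2⟩
    refine ⟨(rotV m ω).symm X, ?_, (rotV m ω).apply_symm_apply X⟩
    have hY : rotV m ω ((rotV m ω).symm X) = X := (rotV m ω).apply_symm_apply X
    set Y := (rotV m ω).symm X with hYdef
    have h3 : Y.snd = X.snd := by rw [← hY, rotV_snd]
    have h4 : X.fst = (ω : ℂ) * Y.fst := by rw [← hY, rotV_fst]
    refine ⟨by rw [h3]; exact h1, ?_⟩
    have h5 : conj (ω : ℂ) * X.fst ∈ G ‖X.snd‖ := h2
    rw [h4, ← mul_assoc, conj_mul_self_of_norm hω, one_mul] at h5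
    rw [h3]
    exact h5

theorem rotV_closedBall {m : ℕ} (ω : Circle) (ρ : ℝ) :
    rotV m ω '' closedBall 0 ρ = closedBall 0 ρ := by
  rw [LinearIsometryEquiv.image_closedBall, map_zero]

end Pool.Agent.H81St
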