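import Pool.Agent.Lib.H81.St.Final1

/-! The perimeter of the symmetrized solids exceeds the perimeter of the ball by a fixed amount. -/

open MeasureTheory Set Metric Filter Topology
open scoped ENNReal Pointwise ComplexConjugate

namespace Pool.Agent.H81St

section dvg
variable {V : Type*} [NormedAddCommGroup V] [InnerProductSpace ℝ V] [FiniteDimensional ℝ V]

theorem continuous_dvg {φ : V → V} (hφ : ContDiff ℝ 1 φ) : Continuous (dvg φ) := by
  let L : (V →L[ℝ] V) →ₗ[ℝ] ℝ :=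
    { toFun := fun f => LinearMap.trace ℝ V (f : V →ₗ[ℝ] V)
      map_add' := fun f g => by simp
      map_smul' := fun c f => by simp }
  have hL : Continuous L := L.continuous_of_finiteDimensional
  exact hL.comp (hφ.continuous_fderiv one_ne_zero)

omit [FiniteDimensional ℝ V] in
theorem dvg_add {φ ψ : V → V} (hφ : ContDiff ℝ 1 φ) (hψ : ContDiff ℝ 1 ψ) (x : V) :
    dvg (fun x => φ x + ψ x) x = dvg φ x + dvg ψ x := by
  unfold dvg
  have : fderiv ℝ (fun x => φ x + ψ x) x = fderiv ℝ φ x + fderiv ℝ ψ x :=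
    fderiv_add (hφ.differentiable one_ne_zero x) (hψ.differentiable one_ne_zero x)
  rw [this]
  simp

omit [FiniteDimensional ℝ V] in
theorem dvg_eq_zero {φ : V → V} {x : V} (h : x ∉ tsupport φ) : dvg φ x = 0 := by
  unfold dvg
  rw [(notMem_tsupport_iff_eventuallyEq.1 h).fderiv_eq]
  have : fderiv ℝ (0 : V → V) x = 0 := fderiv_const_apply 0
  rw [this]
  simp

omit [FiniteDimensional ℝ V] in
theorem hasCompactSupport_dvg {φ : V → V} (h : HasCompactSupport φ) :
    HasCompactSupport (dvg φ) :=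
  HasCompactSupport.intro h.isCompact fun _ hx => dvg_eq_zero hx

end dvg

/-- the sections of the unit ball, modified in the zone -/
noncomputable def Gz (a b : ℝ) (K : ℝ → Set ℂ) (z : ℝ) : Set ℂ := by
  classical exact if z ∈ Icc a b then K z else closedBall 0 (Real.sqrt (1 - z ^ 2))

theorem Gz_of_mem {a b : ℝ} {K : ℝ → Set ℂ} {z : ℝ} (hz : z ∈ Icc a b) : Gz a b K z = K z := by
  unfold Gz; rw [if_pos hz]

theorem Gz_of_notMem {a b : ℝ} {K : ℝ → Set ℂ} {z : ℝ} (hz : z ∉ Icc a b) :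
    Gz a b K z = closedBall 0 (Real.sqrt (1 - z ^ 2)) := by
  unfold Gz; rw [if_neg hz]

theorem mem_closedBall_one_iff {m : ℕ} (X : VV m) :
    X ∈ closedBall (0 : VV m) 1 ↔
      ‖X.snd‖ ≤ 1 ∧ X.fst ∈ closedBall (0 : ℂ) (Real.sqrt (1 - ‖X.snd‖ ^ 2)) := by
  rw [mem_closedBall_zero_iff, mem_closedBall_zero_iff]
  have h := WithLp.prod_norm_sq_eq_of_L2 X
  constructor
  · intro h1
    have h2 : ‖X.fst‖ ^ 2 + ‖X.snd‖ ^ 2 ≤ 1 := by
      rw [← h]; exact pow_le_one₀ (norm_nonneg _) h1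
    constructor
    · have : ‖X.snd‖ ^ 2 ≤ 1 := by nlinarith [sq_nonneg ‖X.fst‖]
      exact (sq_le_one_iff₀ (norm_nonneg _)).1 this
    · apply Real.le_sqrt_of_sq_le
      linarith
  · rintro ⟨h1, h2⟩
    have h3 : 0 ≤ 1 - ‖X.snd‖ ^ 2 := by nlinarith [norm_nonneg X.snd]
    have h4 := (Real.le_sqrt (norm_nonneg _) h3).1 h2
    have h5 : ‖X‖ ^ 2 ≤ 1 := by rw [h]; linarith
    exact (sq_le_one_iff₀ (norm_nonneg _)).1 h5

theorem mem_bodyOf_iff_of_notMem {m : ℕ} {a b : ℝ} {K : ℝ → Set ℂ} {X : VV m}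
    (hX : ‖X.snd‖ ∉ Icc a b) :
    X ∈ bodyOf m (Gz a b K) ↔ X ∈ closedBall (0 : VV m) 1 := by
  rw [mem_closedBall_one_iff]
  unfold bodyOf
  rw [mem_ofPred_eq, Gz_of_notMem hX]

theorem volume_annulus {m : ℕ} (hm : 1 ≤ m) {a b : ℝ} (ha : 0 ≤ a) (hab : a < b) :
    volume {ζ : W m | ‖ζ‖ ∈ Ioo a b} ≤
      ENNReal.ofReal ((volume (ball (0 : W m) 1)).toReal * (b ^ m - a ^ m)) := by
  have : Nonempty (Fin m) := ⟨⟨0, hm⟩⟩
  have hsub : {ζ : W m | ‖ζ‖ ∈ Ioo a b} = ball (0 : W m) b \ closedBall 0 a := by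
    ext ζ
    simp only [mem_ofPred_eq, mem_Ioo, Set.mem_sdiff, mem_ball_zero_iff, mem_closedBall_zero_iff,
      not_le]
    tauto
  rw [hsub, measure_sdiff (closedBall_subset_ball hab) isClosed_closedBall.nullMeasurableSet
    (measure_closedBall_lt_top).ne]
  rw [Measure.addHaar_ball volume (0 : W m) (ha.trans hab.le),
    Measure.addHaar_closedBall volume (0 : W m) ha, finrank_euclideanSpace, Fintype.card_fin]
  have h1 : volume (ball (0 : W m) 1) = ENNReal.ofReal ((volume (ball (0 : W m) 1)).toReal) :=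
    (ENNReal.ofReal_toReal measure_ball_lt_top.ne).symm
  have hbm : 0 ≤ b ^ m := pow_nonneg (ha.trans hab.le) m
  have ham : 0 ≤ a ^ m := pow_nonneg ha m
  rw [h1, ← ENNReal.ofReal_mul hbm, ← ENNReal.ofReal_mul ham,
    ← ENNReal.ofReal_sub _ (mul_nonneg ham ENNReal.toReal_nonneg)]
  apply ENNReal.ofReal_le_ofReal
  rw [ENNReal.toReal_ofReal ENNReal.toReal_nonneg]
  apply le_of_eq
  ring

theorem volume_shell {m : ℕ} (hm : 1 ≤ m) {a b ε : ℝ} (ha : 0 ≤ a) (hab : a < b) (hb : b < 1)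
    (hε : 0 < ε) :
    (volume ((thickening ε (closedBall (0 : VV m) 1) \ closedBall 0 1) ∩
      {X : VV m | ‖X.snd‖ ∈ Ioo a b})).toReal ≤
      Real.pi * (2 * ε + ε ^ 2) * ((volume (ball (0 : W m) 1)).toReal * (b ^ m - a ^ m)) := by
  have hbm : 0 ≤ (volume (ball (0 : W m) 1)).toReal * (b ^ m - a ^ m) :=
    mul_nonneg ENNReal.toReal_nonneg (sub_nonneg.2 (pow_le_pow_left₀ ha hab.le m))
  apply ENNReal.toReal_le_of_le_ofReal (by positivity)
  rw [thickening_closedBall hε zero_le_one]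
  set T : Set (ℂ × W m) := {p | ‖p.2‖ ∈ Ioo a b ∧ 1 - ‖p.2‖ ^ 2 < ‖p.1‖ ^ 2 ∧
    ‖p.1‖ ^ 2 < (1 + ε) ^ 2 - ‖p.2‖ ^ 2} with hT
  have hTm : MeasurableSet T := by
    apply MeasurableSet.inter
    · exact measurable_snd.norm measurableSet_Ioo
    · apply MeasurableSet.inter
      · exact measurableSet_lt (measurable_const.sub (measurable_snd.norm.pow_const 2))
          (measurable_fst.norm.pow_const 2)
      · exact measurableSet_lt (measurable_fst.norm.pow_const 2)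
          (measurable_const.sub (measurable_snd.norm.pow_const 2))
  have hsub : ((ball (0 : VV m) (ε + 1) \ closedBall 0 1) ∩ {X : VV m | ‖X.snd‖ ∈ Ioo a b}) ⊆
      WithLp.ofLp ⁻¹' T := by
    rintro X ⟨⟨h1, h2⟩, h3⟩
    rw [mem_ball_zero_iff] at h1
    rw [mem_closedBall_zero_iff, not_le] at h2
    have h := WithLp.prod_norm_sq_eq_of_L2 X
    refine ⟨h3, ?_, ?_⟩
    · show 1 - ‖X.snd‖ ^ 2 < ‖X.fst‖ ^ 2
      nlinarith [norm_nonneg X]
    · show ‖X.fst‖ ^ 2 < (1 + ε) ^ 2 - ‖X.snd‖ ^ 2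
      nlinarith [norm_nonneg X]
  refine (measure_mono hsub).trans ?_
  rw [(WithLp.volume_preserving_ofLp ℂ (W m)).measure_preimage hTm.nullMeasurableSet,
    Measure.volume_eq_prod, Measure.prod_apply_symm hTm]
  have hslice : ∀ ζ : W m, volume ((fun x : ℂ => (x, ζ)) ⁻¹' T) ≤
      {ζ : W m | ‖ζ‖ ∈ Ioo a b}.indicator (fun _ => ENNReal.ofReal (Real.pi * (2 * ε + ε ^ 2))) ζ := by
    intro ζ
    by_cases hζ : ‖ζ‖ ∈ Ioo a b
    · rw [indicator_of_mem (show ζ ∈ {ζ : W m | ‖ζ‖ ∈ Ioo a b} from hζ)]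
      have hz1 : 0 ≤ 1 - ‖ζ‖ ^ 2 := by nlinarith [hζ.1, hζ.2, norm_nonneg ζ]
      have hz2 : 0 ≤ (1 + ε) ^ 2 - ‖ζ‖ ^ 2 := by nlinarith
      have hsub2 : (fun x : ℂ => (x, ζ)) ⁻¹' T ⊆
          ball (0 : ℂ) (Real.sqrt ((1 + ε) ^ 2 - ‖ζ‖ ^ 2)) \
            closedBall 0 (Real.sqrt (1 - ‖ζ‖ ^ 2)) := by
        rintro x ⟨-, h1, h2⟩
        simp only at h1 h2
        constructor
        · rw [mem_ball_zero_iff]
          exact Real.lt_sqrt_of_sq_lt h2
        · rw [mem_closedBall_zero_iff, not_le]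
          exact (Real.sqrt_lt' (by
            rcases (norm_nonneg x).eq_or_lt with h0 | h0
            · rw [← h0] at h1; nlinarith
            · exact h0)).2 h1
      refine (measure_mono hsub2).trans ?_
      rw [measure_sdiff (closedBall_subset_ball (Real.sqrt_lt_sqrt hz1 (by nlinarith)))
        isClosed_closedBall.nullMeasurableSet (measure_closedBall_lt_top).ne,
        Complex.volume_ball, Complex.volume_closedBall]
      rw [← ENNReal.ofReal_pow (Real.sqrt_nonneg _), ← ENNReal.ofReal_pow (Real.sqrt_nonneg _),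
        Real.sq_sqrt hz1, Real.sq_sqrt hz2]
      have hpi : (NNReal.pi : ℝ≥0∞) = ENNReal.ofReal Real.pi := by
        rw [ENNReal.ofReal, Real.toNNReal_of_nonneg Real.pi_pos.le]; rfl
      rw [hpi, ← ENNReal.ofReal_mul hz2, ← ENNReal.ofReal_mul hz1,
        ← ENNReal.ofReal_sub _ (mul_nonneg hz1 Real.pi_pos.le)]
      apply ENNReal.ofReal_le_ofReal
      apply le_of_eq
      ring
    · have : (fun x : ℂ => (x, ζ)) ⁻¹' T = ∅ := by
        ext x
        simp only [mem_preimage, mem_empty_iff_false, iff_false]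
        intro hx
        exact hζ hx.1
      rw [this]
      simp
  refine (lintegral_mono hslice).trans ?_
  have hmA : MeasurableSet {ζ : W m | ‖ζ‖ ∈ Ioo a b} := measurable_id.norm measurableSet_Ioo
  rw [lintegral_indicator hmA, setLIntegral_const,
    ENNReal.ofReal_mul (p := Real.pi * (2 * ε + ε ^ 2)) (by positivity)]
  exact mul_le_mul' le_rfl (volume_annulus hm ha hab)

end Pool.Agent.H81St
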