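import Pool.Agent.Lib.H81.St.Final2

/-! The perimeter of the symmetrized solids exceeds the perimeter of the ball by a fixed amount. -/

open MeasureTheory Set Metric Filter Topology
open scoped ENNReal Pointwise ComplexConjugate

namespace Pool.Agent.H81St

theorem le_perimeter {V : Type*} [NormedAddCommGroup V] [InnerProductSpace ℝ V]
    [FiniteDimensional ℝ V] [MeasurableSpace V] [BorelSpace V] (E : Set V) {φ : V → V}
    (h1 : ContDiff ℝ 1 φ) (h2 : HasCompactSupport φ) (h3 : ∀ x, ‖φ x‖ ≤ 1) :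
    ENNReal.ofReal (∫ x in E, dvg φ x) ≤ perimeter E := by
  unfold perimeter
  exact le_iSup₂_of_le φ h1 (le_iSup₂_of_le h2 h3 le_rfl)

theorem exists_cutoff (m : ℕ) {a b a' b' : ℝ} (ha' : 0 < a') (ha : a' < a) (hb : b < b') :
    ∃ η : VV m → ℝ, ContDiff ℝ 1 η ∧ (∀ X, η X ∈ Icc (0 : ℝ) 1) ∧
      (∀ X : VV m, ‖X.snd‖ ∈ Icc a b → ∀ᶠ Y in 𝓝 X, η Y = 1) ∧
      (∀ X : VV m, η X ≠ 0 → ‖X.snd‖ ∈ Ioo a' b') := by
  obtain ⟨κ, k1, k2, k3, k4, k5⟩ := exists_contDiff_bump (X := ℝ)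
    (C := Icc ((a' + a) / 2) ((b + b') / 2)) (U := Ioo a' b') isCompact_Icc isOpen_Ioo
    (fun t ht => ⟨by linarith [ht.1], by linarith [ht.2]⟩)
  have hA1 : ContDiff ℝ 1 (fun p : ℂ × ℝ => κ p.2) := k1.comp contDiff_snd
  have hA : tsupport (fun p : ℂ × ℝ => κ p.2) ⊆ {p : ℂ × ℝ | p.2 ∈ Ioo a' b'} := by
    refine Subset.trans ?_ (preimage_mono k3)
    apply closure_minimal _ ((isClosed_tsupport κ).preimage continuous_snd)
    intro p hp
    exact subset_tsupport κ hp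
  refine ⟨fun X => κ (pr X).2, contDiff_comp_pr (m := m) ha' hA1 hA, fun X => k4 _, ?_, ?_⟩
  · intro X hX
    have hc : ContinuousAt (fun Y : VV m => (pr Y).2) X :=
      (continuous_snd.comp continuous_pr).continuousAt
    have : Ioo ((a' + a) / 2) ((b + b') / 2) ∈ 𝓝 (pr X).2 :=
      Ioo_mem_nhds (by show _ < ‖X.snd‖; linarith [hX.1]) (by show ‖X.snd‖ < _; linarith [hX.2])
    filter_upwards [hc.eventually this] with Y hY
    exact k5 _ (Ioo_subset_Icc_self hY)
  · intro X hX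
    exact k3 (subset_tsupport κ hX)

theorem indicator_zero_congr {V : Type*} {s t : Set V} {f : V → ℝ} {x : V} (h : f x = 0) :
    s.indicator f x = t.indicator f x := by
  by_cases h1 : x ∈ s <;> by_cases h2 : x ∈ t <;> simp [h1, h2, h]

/-- off the zone, the solid is the ball -/
theorem integral_off_zone {m : ℕ} {a b : ℝ} {K : ℝ → Set ℂ}
    (hEm : MeasurableSet (bodyOf m (Gz a b K))) {D : VV m → ℝ}
    (hD : ∀ X : VV m, ‖X.snd‖ ∈ Icc a b → D X = 0) :
    ∫ X in closedBall (0 : VV m) 1, D X = ∫ X in bodyOf m (Gz a b K), D X := by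
  rw [← integral_indicator isClosed_closedBall.measurableSet, ← integral_indicator hEm]
  refine integral_congr_ae (Eventually.of_forall fun X => ?_)
  by_cases hX : ‖X.snd‖ ∈ Icc a b
  · exact indicator_zero_congr (hD X hX)
  · have hiff := mem_bodyOf_iff_of_notMem (K := K) hX
    by_cases hB : X ∈ closedBall (0 : VV m) 1
    · rw [indicator_of_mem hB, indicator_of_mem (hiff.2 hB)]
    · rw [indicator_of_notMem hB, indicator_of_notMem (fun h => hB (hiff.1 h))]

theorem measurableSet_snd_Ioo {m : ℕ} (a b : ℝ) :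
    MeasurableSet {X : VV m | ‖X.snd‖ ∈ Ioo a b} := by
  have : {X : VV m | ‖X.snd‖ ∈ Ioo a b} = pr ⁻¹' {p : ℂ × ℝ | p.2 ∈ Ioo a b} := rfl
  rw [this]
  exact continuous_pr.measurable (measurable_snd measurableSet_Ioo)

/-- in the zone -/
theorem integral_in_zone {m : ℕ} {a b : ℝ} {K : ℝ → Set ℂ} (hb : b ≤ 1)
    (hEm : MeasurableSet (bodyOf m (Gz a b K))) {D : VV m → ℝ}
    (hD : ∀ X : VV m, ‖X.snd‖ ∉ Ioo a b → D X = 0) :
    ∫ X in bodyOf m (Gz a b K), D X =
      ∫ X in {X : VV m | ‖X.snd‖ ∈ Ioo a b ∧ X.fst ∈ K ‖X.snd‖}, D X := by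
  have hset : {X : VV m | ‖X.snd‖ ∈ Ioo a b ∧ X.fst ∈ K ‖X.snd‖} =
      bodyOf m (Gz a b K) ∩ {X : VV m | ‖X.snd‖ ∈ Ioo a b} := by
    ext X
    constructor
    · rintro ⟨h1, h2⟩
      refine ⟨⟨by linarith [h1.2], ?_⟩, h1⟩
      rw [Gz_of_mem (Ioo_subset_Icc_self h1)]
      exact h2
    · rintro ⟨⟨h1, h2⟩, h3⟩
      rw [Gz_of_mem (Ioo_subset_Icc_self h3)] at h2
      exact ⟨h3, h2⟩
  rw [hset, ← integral_indicator hEm,
    ← integral_indicator (hEm.inter (measurableSet_snd_Ioo a b))]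
  refine integral_congr_ae (Eventually.of_forall fun X => ?_)
  by_cases hX : ‖X.snd‖ ∈ Ioo a b
  · by_cases hE : X ∈ bodyOf m (Gz a b K)
    · rw [indicator_of_mem hE, indicator_of_mem (show X ∈ bodyOf m (Gz a b K) ∩
        {X : VV m | ‖X.snd‖ ∈ Ioo a b} from ⟨hE, hX⟩)]
    · rw [indicator_of_notMem hE, indicator_of_notMem (fun h => hE h.1)]
  · exact indicator_zero_congr (hD X hX)

theorem norm_smul_le_one {V : Type*} [NormedAddCommGroup V] [NormedSpace ℝ V] {c : ℝ} {x : V}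
    (h0 : 0 ≤ c) (h1 : c ≤ 1) (hx : ‖x‖ ≤ 1) : ‖c • x‖ ≤ 1 := by
  rw [norm_smul, Real.norm_of_nonneg h0]
  exact mul_le_one₀ h1 (norm_nonneg _) hx

theorem setIntegral_dvg_add {V : Type*} [NormedAddCommGroup V] [InnerProductSpace ℝ V]
    [FiniteDimensional ℝ V] [MeasurableSpace V] [BorelSpace V] (E : Set V) {φ ψ : V → V}
    (h1 : ContDiff ℝ 1 φ) (h2 : HasCompactSupport φ) (h3 : ContDiff ℝ 1 ψ)
    (h4 : HasCompactSupport ψ) :
    ∫ x in E, dvg (fun x => φ x + ψ x) x = (∫ x in E, dvg φ x) + ∫ x in E, dvg ψ x := by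
  have i1 : Integrable (dvg φ) := (continuous_dvg h1).integrable_of_hasCompactSupport
    (hasCompactSupport_dvg h2)
  have i2 : Integrable (dvg ψ) := (continuous_dvg h3).integrable_of_hasCompactSupport
    (hasCompactSupport_dvg h4)
  rw [← integral_add i1.integrableOn i2.integrableOn]
  refine integral_congr_ae (Eventually.of_forall fun X => ?_)
  exact dvg_add h1 h3 X

theorem hasCompactSupport_smul_fun {X V : Type*} [TopologicalSpace X] [R1Space X]
    [NormedAddCommGroup V]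
    [NormedSpace ℝ V] (c : X → ℝ) {φ : X → V} (h : HasCompactSupport φ) :
    HasCompactSupport (fun x => c x • φ x) :=
  HasCompactSupport.intro h.isCompact fun x hx => by
    rw [image_eq_zero_of_notMem_tsupport hx, smul_zero]

/-- comparison of one test field for the ball with a test field for the solid -/
theorem compare_field {m : ℕ} {a b a' b' : ℝ} {K : ℝ → Set ℂ}
    (ha' : 0 < a') (ha : a' < a) (hb : b < b') (hb' : b' < 1)
    (hEm : MeasurableSet (bodyOf m (Gz a b K)))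
    {φz : VV m → VV m} (z1 : ContDiff ℝ 1 φz) (z2 : HasCompactSupport φz)
    (z3 : ∀ x, ‖φz x‖ ≤ 1) (z4 : tsupport φz ⊆ {X | ‖X.snd‖ ∈ Ioo a b})
    {g C : ℝ} (hC : ∀ᶠ ε in 𝓝[>] (0 : ℝ),
      (volume ((thickening ε (closedBall (0 : VV m) 1) \ closedBall 0 1) ∩
        {X : VV m | ‖X.snd‖ ∈ Ioo a' b'})).toReal ≤ C * ε)
    (hg : g + C ≤ ∫ X in {X : VV m | ‖X.snd‖ ∈ Ioo a b ∧ X.fst ∈ K ‖X.snd‖}, dvg φz X)
    {φ : VV m → VV m} (p1 : ContDiff ℝ 1 φ) (p2 : HasCompactSupport φ) (p3 : ∀ x, ‖φ x‖ ≤ 1) :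
    ∃ ψ : VV m → VV m, ContDiff ℝ 1 ψ ∧ HasCompactSupport ψ ∧ (∀ x, ‖ψ x‖ ≤ 1) ∧
      (∫ X in closedBall (0 : VV m) 1, dvg φ X) + g ≤ ∫ X in bodyOf m (Gz a b K), dvg ψ X := by
  obtain ⟨η, hη1, hη01, hηone, hηz⟩ := exists_cutoff m ha' ha hb
  have h1d : ContDiff ℝ 1 (fun X => (1 - η X) • φ X) := (contDiff_const.sub hη1).smul p1
  have h2d : ContDiff ℝ 1 (fun X => η X • φ X) := hη1.smul p1
  have h1c : HasCompactSupport (fun X => (1 - η X) • φ X) :=
    hasCompactSupport_smul_fun (fun X => 1 - η X) p2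
  have h2c : HasCompactSupport (fun X => η X • φ X) := hasCompactSupport_smul_fun η p2
  have h1n : ∀ X, ‖(1 - η X) • φ X‖ ≤ 1 := fun X =>
    norm_smul_le_one (by linarith [(hη01 X).2]) (by linarith [(hη01 X).1]) (p3 X)
  have h2n : ∀ X, ‖η X • φ X‖ ≤ 1 := fun X => norm_smul_le_one (hη01 X).1 (hη01 X).2 (p3 X)
  have hsum : φ = fun X => (1 - η X) • φ X + η X • φ X := by
    funext X
    rw [← add_smul, sub_add_cancel, one_smul]
  have hφ1zone : ∀ X : VV m, ‖X.snd‖ ∈ Icc a b → dvg (fun X => (1 - η X) • φ X) X = 0 := by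
    intro X hX
    apply dvg_eq_zero
    rw [notMem_tsupport_iff_eventuallyEq]
    filter_upwards [hηone X hX] with Y hY
    rw [hY, sub_self, zero_smul]
    rfl
  refine ⟨fun X => (1 - η X) • φ X + φz X, h1d.add z1, h1c.add z2, ?_, ?_⟩
  · intro X
    show ‖(1 - η X) • φ X + φz X‖ ≤ 1
    by_cases hX : ‖X.snd‖ ∈ Ioo a b
    · have h0 : (1 - η X) • φ X = 0 := by
        have := (hηone X (Ioo_subset_Icc_self hX)).self_of_nhds
        rw [this, sub_self, zero_smul]
      rw [h0, zero_add]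
      exact z3 X
    · have h0 : φz X = 0 := image_eq_zero_of_notMem_tsupport (fun h => hX (z4 h))
      rw [h0, add_zero]
      exact h1n X
  · have e1 := setIntegral_dvg_add (closedBall (0 : VV m) 1) h1d h1c h2d h2c
    rw [← hsum] at e1
    have e2 := setIntegral_dvg_add (bodyOf m (Gz a b K)) h1d h1c z1 z2
    have e3 := integral_off_zone hEm hφ1zone
    have e4 := integral_in_zone (by linarith) hEm (D := dvg φz)
      (fun X hX => dvg_eq_zero (fun h => hX (z4 h)))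
    have e5 : ∫ X in closedBall (0 : VV m) 1, dvg (fun X => η X • φ X) X ≤ C := by
      refine flux_le (isCompact_closedBall _ _) (measurableSet_snd_Ioo a' b') h2d h2c h2n
        (fun X hX => ?_) hC
      apply hηz
      intro h0
      apply hX
      rw [h0, zero_smul]
    rw [e1, e2, e3, e4]
    linarith

theorem perimeter_gap {m : ℕ} (hm : 1 ≤ m) {a b r r' R : ℝ} {K : ℝ → Set ℂ} (ha : 0 < a)
    (hab : a < b) (hr' : 0 < r') (hr : r' < r) (h : Fam a b r R K)
    (hsec : Secs a b K) (hs : Sing a b K)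
    (hEm : MeasurableSet (bodyOf m (Gz a b K))) {g : ℝ} (hg0 : 0 ≤ g)
    (hg : g < m * (volume (ball (0 : W m) 1)).toReal *
      (a ^ (m - 1) * ((b - a) * (Real.pi * (a + b) + 4 * r'))) -
      2 * Real.pi * ((volume (ball (0 : W m) 1)).toReal * (b ^ m - a ^ m))) :
    perimeter (closedBall (0 : VV m) 1) + ENNReal.ofReal g ≤ perimeter (bodyOf m (Gz a b K)) := by
  have hb1 : b < 1 := lt_one_of_Fam h hab ha (hr'.trans hr)
  set v := (volume (ball (0 : W m) 1)).toReal with hv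
  have hv0 : 0 ≤ v := ENNReal.toReal_nonneg
  have hmpos : (0 : ℝ) < m := by exact_mod_cast hm
  -- choose the margins
  set X0 := m * v * (a ^ (m - 1) * ((b - a) * (Real.pi * (a + b) + 4 * r'))) with hX0
  obtain ⟨δ, hδ0, hδa, hδb, hδ⟩ : ∃ δ : ℝ, 0 < δ ∧ 0 < a - δ ∧ b + δ < 1 ∧
      g < X0 - 2 * Real.pi * (v * ((b + δ) ^ m - (a - δ) ^ m)) := by
    have hcont : Continuous (fun δ : ℝ => X0 - 2 * Real.pi * (v * ((b + δ) ^ m - (a - δ) ^ m))) := by
      fun_prop
    have h0 : g < (fun δ : ℝ => X0 - 2 * Real.pi * (v * ((b + δ) ^ m - (a - δ) ^ m))) 0 := by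
      simp only [add_zero, sub_zero]
      exact hg
    have h1 : ∀ᶠ δ in 𝓝[>] (0 : ℝ),
        g < X0 - 2 * Real.pi * (v * ((b + δ) ^ m - (a - δ) ^ m)) :=
      nhdsWithin_le_nhds (hcont.continuousAt.eventually (lt_mem_nhds h0))
    have h2 : ∀ᶠ δ in 𝓝[>] (0 : ℝ), δ < min a (1 - b) :=
      nhdsWithin_le_nhds (gt_mem_nhds (lt_min ha (by linarith)))
    obtain ⟨δ, ⟨hd1, hd2⟩, hd3⟩ := ((h1.and h2).and self_mem_nhdsWithin).exists
    have := lt_min_iff.1 hd2
    exact ⟨δ, hd3, by linarith [this.1], by linarith [this.2], hd1⟩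
  set A0 := v * ((b + δ) ^ m - (a - δ) ^ m) with hA0
  have hA0nn : 0 ≤ A0 := mul_nonneg hv0
    (sub_nonneg.2 (pow_le_pow_left₀ hδa.le (by linarith) m))
  set τ := X0 - 2 * Real.pi * A0 - g with hτ
  have hτ0 : 0 < τ := by linarith
  set ε := τ / (2 * (m * v + 1)) with hε
  have hε0 : 0 < ε := by positivity
  have hεm : m * v * ε ≤ τ / 2 := by
    have : (m * v + 1) * ε = τ / 2 := by rw [hε]; field_simp
    nlinarith
  obtain ⟨φz, z1, z2, z3, z4, z5⟩ := zone_lower' hm ha hab hr' hr h hsec hs hε0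
  set C := 2 * Real.pi * A0 + τ / 2 with hC
  have hCev : ∀ᶠ t in 𝓝[>] (0 : ℝ),
      (volume ((thickening t (closedBall (0 : VV m) 1) \ closedBall 0 1) ∩
        {X : VV m | ‖X.snd‖ ∈ Ioo (a - δ) (b + δ)})).toReal ≤ C * t := by
    have h1 : ∀ᶠ t in 𝓝[>] (0 : ℝ), t < τ / (2 * (Real.pi * A0 + 1)) :=
      nhdsWithin_le_nhds (gt_mem_nhds (by positivity))
    filter_upwards [h1, self_mem_nhdsWithin] with t ht ht0
    have ht0' : 0 < t := ht0
    refine (volume_shell hm hδa.le (by linarith) hδb ht0').trans ?_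
    rw [← hv, ← hA0]
    have h3 : (Real.pi * A0 + 1) * t ≤ τ / 2 := by
      have := ht.le
      rw [le_div_iff₀ (by positivity)] at this
      linarith
    have h4 : Real.pi * A0 * t ≤ τ / 2 := by nlinarith
    have : Real.pi * (2 * t + t ^ 2) * A0 = 2 * Real.pi * A0 * t + (Real.pi * A0 * t) * t := by ring
    rw [this, hC, add_mul]
    gcongr
  have hgC : g + C ≤ ∫ X in {X : VV m | ‖X.snd‖ ∈ Ioo a b ∧ X.fst ∈ K ‖X.snd‖}, dvg φz X := by
    refine le_trans ?_ z5
    rw [← hv, mul_sub, ← hX0]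
    linarith
  have key : ∀ φ : VV m → VV m, ContDiff ℝ 1 φ → HasCompactSupport φ → (∀ x, ‖φ x‖ ≤ 1) →
      ENNReal.ofReal (∫ X in closedBall (0 : VV m) 1, dvg φ X) + ENNReal.ofReal g ≤
        perimeter (bodyOf m (Gz a b K)) := by
    intro φ p1 p2 p3
    by_cases hpos : 0 ≤ ∫ X in closedBall (0 : VV m) 1, dvg φ X
    · obtain ⟨ψ, q1, q2, q3, q4⟩ := compare_field hδa (by linarith) (by linarith) hδb
        hEm z1 z2 z3 z4 hCev hgC p1 p2 p3
      rw [← ENNReal.ofReal_add hpos hg0]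
      exact (ENNReal.ofReal_le_ofReal q4).trans (le_perimeter _ q1 q2 q3)
    · push Not at hpos
      rw [ENNReal.ofReal_of_nonpos hpos.le, zero_add]
      obtain ⟨ψ, q1, q2, q3, q4⟩ := compare_field hδa (by linarith) (by linarith) hδb
        hEm z1 z2 z3 z4 hCev hgC (φ := fun _ => 0) contDiff_const HasCompactSupport.zero
        (fun x => by simp)
      have h0 : ∫ X in closedBall (0 : VV m) 1, dvg (fun _ : VV m => (0 : VV m)) X = 0 := by
        have : ∀ X : VV m, dvg (fun _ : VV m => (0 : VV m)) X = 0 := by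
          intro X
          unfold dvg
          rw [fderiv_const_apply]
          simp
        simp only [this, integral_zero]
      rw [h0, zero_add] at q4
      exact (ENNReal.ofReal_le_ofReal q4).trans (le_perimeter _ q1 q2 q3)
  have hfin : ENNReal.ofReal g ≠ ⊤ := ENNReal.ofReal_ne_top
  have hsup : perimeter (closedBall (0 : VV m) 1) ≤
      perimeter (bodyOf m (Gz a b K)) - ENNReal.ofReal g := by
    conv_lhs => unfold perimeter
    refine iSup₂_le fun φ p1 => iSup₂_le fun p2 p3 => ?_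
    exact ENNReal.le_sub_of_add_le_right hfin (key φ p1 p2 p3)
  have hge : ENNReal.ofReal g ≤ perimeter (bodyOf m (Gz a b K)) := by
    have := key (fun _ => 0) contDiff_const HasCompactSupport.zero (fun x => by simp)
    exact le_trans le_add_self this
  calc perimeter (closedBall (0 : VV m) 1) + ENNReal.ofReal g
      ≤ (perimeter (bodyOf m (Gz a b K)) - ENNReal.ofReal g) + ENNReal.ofReal g := by gcongr
    _ = perimeter (bodyOf m (Gz a b K)) := tsub_add_cancel_of_le hge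

end Pool.Agent.H81St
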