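import Pool.Agent.Lib.H81.St.Final3

/-! Compactness, volume and finite perimeter of the solids. -/

open MeasureTheory Set Metric Filter Topology
open scoped ENNReal Pointwise ComplexConjugate

namespace Pool.Agent.H81St

theorem pow_one_add_le (n : ℕ) {t : ℝ} (h0 : 0 ≤ t) (h1 : t ≤ 1) :
    (1 + t) ^ n ≤ 1 + (2 ^ n - 1) * t := by
  induction n with
  | zero => simp
  | succ n ih =>
    have h2 : (1 : ℝ) ≤ 2 ^ n := one_le_pow₀ (by norm_num)
    calc (1 + t) ^ (n + 1) = (1 + t) ^ n * (1 + t) := pow_succ _ _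
      _ ≤ (1 + (2 ^ n - 1) * t) * (1 + t) := by gcongr
      _ ≤ 1 + (2 ^ (n + 1) - 1) * t := by
        rw [pow_succ]
        nlinarith [mul_nonneg (sub_nonneg.2 h2) (mul_nonneg h0 (sub_nonneg.2 h1))]

/-- compact sets star-shaped with respect to a ball have finite perimeter -/
theorem perimeter_lt_top_of_star {V : Type*} [NormedAddCommGroup V] [InnerProductSpace ℝ V]
    [FiniteDimensional ℝ V] [MeasurableSpace V] [BorelSpace V] {E : Set V} (hE : IsCompact E)
    {η : ℝ} (hη : 0 < η)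
    (hstar : ∀ X ∈ E, ∀ P ∈ closedBall (0 : V) η, ∀ l ∈ Icc (0 : ℝ) 1, (1 - l) • X + l • P ∈ E) :
    perimeter E < ⊤ := by
  set n := Module.finrank ℝ V with hn
  set v := (volume E).toReal with hv
  have hvfin : volume E ≠ ⊤ := hE.measure_lt_top.ne
  set C : ℝ := (2 ^ n - 1) * v / η with hC
  have hthick : ∀ ε : ℝ, 0 < ε → thickening ε E ⊆ (1 + ε / η) • E := by
    intro ε hε Y hY
    rw [mem_thickening_iff] at hY
    obtain ⟨X, hX, hd⟩ := hY
    set t := ε / η with ht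
    have ht0 : 0 < t := div_pos hε hη
    have h1t : (0 : ℝ) < 1 + t := by linarith
    have hP : t⁻¹ • (Y - X) ∈ closedBall (0 : V) η := by
      rw [mem_closedBall_zero_iff, norm_smul, Real.norm_of_nonneg (inv_nonneg.2 ht0.le),
        ← dist_eq_norm]
      rw [inv_mul_le_iff₀ ht0, ht, div_mul_cancel₀ _ hη.ne']
      exact hd.le
    have hl : t / (1 + t) ∈ Icc (0 : ℝ) 1 :=
      ⟨div_nonneg ht0.le h1t.le, (div_le_one h1t).2 (by linarith)⟩
    have h2 := hstar X hX _ hP _ hl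
    rw [mem_smul_set_iff_inv_smul_mem₀ h1t.ne']
    have e : (1 - t / (1 + t)) • X + (t / (1 + t)) • (t⁻¹ • (Y - X)) = (1 + t)⁻¹ • Y := by
      have e1 : 1 - t / (1 + t) = (1 + t)⁻¹ := by field_simp; ring
      have e2 : t / (1 + t) * t⁻¹ = (1 + t)⁻¹ := by field_simp
      rw [smul_smul, e1, e2, ← smul_add, add_sub_cancel]
    rw [e] at h2
    exact h2
  have hCev : ∀ᶠ ε in 𝓝[>] (0 : ℝ), (volume ((thickening ε E \ E) ∩ univ)).toReal ≤ C * ε := by
    have h1 : ∀ᶠ ε in 𝓝[>] (0 : ℝ), ε < η := nhdsWithin_le_nhds (gt_mem_nhds hη)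
    filter_upwards [h1, self_mem_nhdsWithin] with ε h1 h2
    have hε : 0 < ε := h2
    have ht1 : ε / η ≤ 1 := (div_le_one hη).2 h1.le
    have ht0 : 0 ≤ ε / η := div_nonneg hε.le hη.le
    rw [inter_univ, measure_sdiff (self_subset_thickening hε E) hE.measurableSet.nullMeasurableSet
      hvfin]
    have h3 : volume (thickening ε E) ≤ ENNReal.ofReal ((1 + ε / η) ^ n) * volume E := by
      refine (measure_mono (hthick ε hε)).trans ?_
      rw [Measure.addHaar_smul, ← hn, abs_of_nonneg (by positivity)]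
    have h4 : volume (thickening ε E) - volume E ≤
        ENNReal.ofReal ((1 + ε / η) ^ n) * volume E - volume E := tsub_le_tsub_right h3 _
    have hvE : volume E = ENNReal.ofReal v := (ENNReal.ofReal_toReal hvfin).symm
    have h5 : ENNReal.ofReal ((1 + ε / η) ^ n) * volume E - volume E =
        ENNReal.ofReal (((1 + ε / η) ^ n - 1) * v) := by
      rw [hvE, ← ENNReal.ofReal_mul (by positivity), ← ENNReal.ofReal_sub _ ENNReal.toReal_nonneg]
      congr 1
      ring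
    rw [h5] at h4
    have h6 : ((1 + ε / η) ^ n - 1) * v ≤ C * ε := by
      have := pow_one_add_le n ht0 ht1
      calc ((1 + ε / η) ^ n - 1) * v ≤ ((2 ^ n - 1) * (ε / η)) * v := by
            apply mul_le_mul_of_nonneg_right _ ENNReal.toReal_nonneg
            linarith
        _ = C * ε := by rw [hC]; ring
    have h7 : 0 ≤ C * ε := by
      have : (1 : ℝ) ≤ 2 ^ n := one_le_pow₀ (by norm_num)
      have hv0 : 0 ≤ v := ENNReal.toReal_nonneg
      rw [hC]
      exact mul_nonneg (div_nonneg (mul_nonneg (by linarith) hv0) hη.le) hε.le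
    exact ENNReal.toReal_le_of_le_ofReal h7 (h4.trans (ENNReal.ofReal_le_ofReal h6))
  have hle : perimeter E ≤ ENNReal.ofReal C := by
    unfold perimeter
    refine iSup₂_le fun φ p1 => iSup₂_le fun p2 p3 => ?_
    exact ENNReal.ofReal_le_ofReal (flux_le hE MeasurableSet.univ p1 p2 p3
      (fun _ _ => mem_univ _) hCev)
  exact hle.trans_lt ENNReal.ofReal_lt_top

theorem perimeter_ball_lt_top {V : Type*} [NormedAddCommGroup V] [InnerProductSpace ℝ V]
    [FiniteDimensional ℝ V] [MeasurableSpace V] [BorelSpace V] :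
    perimeter (closedBall (0 : V) 1) < ⊤ := by
  refine perimeter_lt_top_of_star (isCompact_closedBall _ _) one_pos ?_
  intro X hX P hP l hl
  exact (convex_closedBall (0 : V) 1) hX hP (by linarith [hl.2]) hl.1 (by ring)

/-! ### the solids -/

variable {m : ℕ} {a : ℝ} {K : ℝ → Set ℂ}

theorem norm_fst_le_VV (X : VV m) : ‖X.fst‖ ≤ ‖X‖ := by
  have h := WithLp.prod_norm_sq_eq_of_L2 X
  nlinarith [norm_nonneg X, norm_nonneg X.fst, sq_nonneg ‖X.snd‖, sq_nonneg (‖X.fst‖ - ‖X‖)]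

theorem norm_snd_le_VV (X : VV m) : ‖X.snd‖ ≤ ‖X‖ := by
  have h := WithLp.prod_norm_sq_eq_of_L2 X
  nlinarith [norm_nonneg X, norm_nonneg X.snd, sq_nonneg ‖X.fst‖, sq_nonneg (‖X.snd‖ - ‖X‖)]

theorem sqrt_b : Real.sqrt (1 - (4 / 5 : ℝ) ^ 2) = 3 / 5 := by
  rw [show (1 - (4 / 5 : ℝ) ^ 2) = (3 / 5) ^ 2 by norm_num]
  exact Real.sqrt_sq (by norm_num)

theorem body_eq (h : Fam a (4 / 5) (3 / 5) (4 / 5) K) (hab : a < 4 / 5)
    (hKa : K a = closedBall 0 (Real.sqrt (1 - a ^ 2))) (hKb : K (4 / 5) = closedBall 0 (3 / 5)) :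
    bodyOf m (Gz a (4 / 5) K) = (closedBall (0 : VV m) 1 ∩ {X | ‖X.snd‖ ∉ Ioo a (4 / 5)}) ∪
      pr ⁻¹' (solid a (4 / 5) K) := by
  ext X
  constructor
  · intro hX
    by_cases hz : ‖X.snd‖ ∈ Icc a (4 / 5)
    · right
      refine ⟨hz, ?_⟩
      have := hX.2
      rw [Gz_of_mem hz] at this
      exact this
    · left
      exact ⟨(mem_bodyOf_iff_of_notMem hz).1 hX, fun hh => hz (Ioo_subset_Icc_self hh)⟩
  · rintro (⟨hX, hz⟩ | hX)
    · by_cases hz' : ‖X.snd‖ ∈ Icc a (4 / 5)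
      · have h1 := (mem_closedBall_one_iff X).1 hX
        refine ⟨h1.1, ?_⟩
        rw [Gz_of_mem hz']
        have hz0 : ‖X.snd‖ ∉ Ioo a (4 / 5) := hz
        rcases hz'.1.eq_or_lt with he | hlt
        · rw [← he, hKa, he]; exact h1.2
        · have : ‖X.snd‖ = 4 / 5 := le_antisymm hz'.2 (not_lt.1 fun hh => hz0 ⟨hlt, hh⟩)
          rw [this, hKb]
          have h2 := h1.2
          rw [this, sqrt_b] at h2
          exact h2
      · exact (mem_bodyOf_iff_of_notMem hz').2 hX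
    · obtain ⟨h1, h2⟩ := hX
      have h1' : ‖X.snd‖ ∈ Icc a (4 / 5) := h1
      refine ⟨by linarith [h1'.2], ?_⟩
      rw [Gz_of_mem h1']
      exact h2

theorem isClosed_body (h : Fam a (4 / 5) (3 / 5) (4 / 5) K) (hab : a < 4 / 5)
    (hKa : K a = closedBall 0 (Real.sqrt (1 - a ^ 2))) (hKb : K (4 / 5) = closedBall 0 (3 / 5)) :
    IsClosed (bodyOf m (Gz a (4 / 5) K)) := by
  rw [body_eq h hab hKa hKb]
  apply IsClosed.union
  · apply isClosed_closedBall.inter
    have : {X : VV m | ‖X.snd‖ ∉ Ioo a (4 / 5)} = (pr ⁻¹' {p : ℂ × ℝ | p.2 ∈ Ioo a (4 / 5)})ᶜ := rfl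
    rw [this]
    exact ((isOpen_Ioo.preimage continuous_snd).preimage continuous_pr).isClosed_compl
  · exact (isClosed_solid h).preimage continuous_pr

theorem isCompact_body (h : Fam a (4 / 5) (3 / 5) (4 / 5) K) (hab : a < 4 / 5)
    (hKa : K a = closedBall 0 (Real.sqrt (1 - a ^ 2))) (hKb : K (4 / 5) = closedBall 0 (3 / 5)) :
    IsCompact (bodyOf m (Gz a (4 / 5) K)) := by
  apply Metric.isCompact_of_isClosed_isBounded (isClosed_body h hab hKa hKb)
  rw [Metric.isBounded_iff_subset_closedBall 0]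
  refine ⟨2, ?_⟩
  intro X hX
  rw [mem_closedBall_zero_iff]
  have h5 : ‖X‖ ^ 2 = ‖X.fst‖ ^ 2 + ‖X.snd‖ ^ 2 := WithLp.prod_norm_sq_eq_of_L2 X
  have h1 : ‖X.snd‖ ≤ 1 := hX.1
  have h2 : ‖X.fst‖ ≤ 1 := by
    by_cases hz : ‖X.snd‖ ∈ Icc a (4 / 5)
    · have := hX.2
      rw [Gz_of_mem hz] at this
      have := (h.body _ hz).out this
      rw [mem_closedBall_zero_iff] at this
      linarith
    · have := (mem_bodyOf_iff_of_notMem hz).1 hX
      rw [mem_closedBall_zero_iff] at this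
      exact (norm_fst_le_VV X).trans this
  nlinarith [norm_nonneg X, norm_nonneg X.fst, norm_nonneg X.snd, sq_nonneg (‖X‖ - 2)]

theorem ball_subset_body (ha : 3 / 5 ≤ a) :
    ball (0 : VV m) (3 / 5) ⊆ bodyOf m (Gz a (4 / 5) K) := by
  intro X hX
  rw [mem_ball_zero_iff] at hX
  have h1 := norm_snd_le_VV X
  apply (mem_bodyOf_iff_of_notMem (fun hh => by linarith [hh.1])).2
  rw [mem_closedBall_zero_iff]
  linarith

theorem star_body (h : Fam a (4 / 5) (3 / 5) (4 / 5) K) (ha : 3 / 5 ≤ a) (hab : a < 4 / 5)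
    (hKa : K a = closedBall 0 (Real.sqrt (1 - a ^ 2))) :
    ∀ X ∈ bodyOf m (Gz a (4 / 5) K), ∀ P ∈ closedBall (0 : VV m) (3 / 5),
      ∀ l ∈ Icc (0 : ℝ) 1, (1 - l) • X + l • P ∈ bodyOf m (Gz a (4 / 5) K) := by
  intro X hX P hP l hl
  rw [mem_closedBall_zero_iff] at hP
  have hP1 := (norm_fst_le_VV P).trans hP
  have hP2 := (norm_snd_le_VV P).trans hP
  have hl0 := hl.1
  have hl1 : 0 ≤ 1 - l := by linarith [hl.2]
  set Y := (1 - l) • X + l • P with hY
  have hYf : Y.fst = (1 - l) • X.fst + l • P.fst := rfl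
  have hYs : Y.snd = (1 - l) • X.snd + l • P.snd := rfl
  have hz' : ‖Y.snd‖ ≤ (1 - l) * ‖X.snd‖ + l * (3 / 5) := by
    rw [hYs]
    refine (norm_add_le _ _).trans ?_
    rw [norm_smul, norm_smul, Real.norm_of_nonneg hl1, Real.norm_of_nonneg hl0]
    gcongr
  have hB : X ∈ closedBall (0 : VV m) 1 → Y ∈ closedBall (0 : VV m) 1 := by
    intro hXB
    refine (convex_closedBall (0 : VV m) 1) hXB ?_ hl1 hl0 (by ring)
    rw [mem_closedBall_zero_iff]; linarith
  have hX1 : ‖X.snd‖ ≤ 1 := hX.1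
  have hmax : ∀ c : ℝ, 3 / 5 ≤ c → ‖X.snd‖ ≤ c → ‖Y.snd‖ ≤ c := by
    intro c hc1 hc2
    nlinarith
  -- membership in the ball of `X` when outside the zone
  by_cases hzY : ‖Y.snd‖ ∈ Icc a (4 / 5)
  · -- `Y` in the zone
    refine ⟨by linarith [hzY.2], ?_⟩
    rw [Gz_of_mem hzY]
    have hPK : P.fst ∈ K ‖Y.snd‖ := (h.body _ hzY).inn (by
      rw [mem_closedBall_zero_iff]; exact hP1)
    rcases le_or_gt ‖Y.snd‖ ‖X.snd‖ with hle | hlt
    · by_cases hzX : ‖X.snd‖ ∈ Icc a (4 / 5)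
      · have hXK : X.fst ∈ K ‖X.snd‖ := by
          have := hX.2
          rwa [Gz_of_mem hzX] at this
        have hXK' := h.anti _ hzY _ hzX hle hXK
        rw [hYf]
        exact (h.body _ hzY).conv hXK' hPK hl1 hl0 (by ring)
      · have hXB := (mem_bodyOf_iff_of_notMem hzX).1 hX
        have hzb : 4 / 5 < ‖X.snd‖ := by
          by_contra hcon
          push Not at hcon
          exact hzX ⟨hzY.1.trans hle, hcon⟩
        have hXK : X.fst ∈ K ‖Y.snd‖ := by
          apply (h.body _ hzY).inn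
          rw [mem_closedBall_zero_iff] at hXB ⊢
          have h5 : ‖X‖ ^ 2 = ‖X.fst‖ ^ 2 + ‖X.snd‖ ^ 2 := WithLp.prod_norm_sq_eq_of_L2 X
          nlinarith [norm_nonneg X, norm_nonneg X.fst, sq_nonneg (‖X.fst‖ - 3 / 5)]
        rw [hYf]
        exact (h.body _ hzY).conv hXK hPK hl1 hl0 (by ring)
    · have h1 : ‖X.snd‖ < 3 / 5 := by
        by_contra hcon
        push Not at hcon
        have := hmax _ hcon le_rfl
        linarith
      have h2 : ‖Y.snd‖ ≤ 3 / 5 := hmax _ le_rfl h1.le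
      have h3 : ‖Y.snd‖ = a := le_antisymm (h2.trans ha) hzY.1
      have hXB := (mem_bodyOf_iff_of_notMem (K := K) (a := a) (b := 4 / 5)
        (fun hh => by linarith [hh.1])).1 hX
      have h4 := ((mem_closedBall_one_iff Y).1 (hB hXB)).2
      rw [h3] at h4 ⊢
      rw [hKa]
      exact h4
  · apply (mem_bodyOf_iff_of_notMem hzY).2
    by_cases hzX : ‖X.snd‖ ∈ Icc a (4 / 5)
    · have hXK : X.fst ∈ K ‖X.snd‖ := by
        have := hX.2
        rwa [Gz_of_mem hzX] at this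
      have hYb : ‖Y.snd‖ ≤ 4 / 5 := hmax _ (by norm_num) hzX.2
      have hYa : ‖Y.snd‖ < a := by
        by_contra hcon
        push Not at hcon
        exact hzY ⟨hcon, hYb⟩
      have hXa : X.fst ∈ K a := h.anti _ ⟨le_rfl, hab.le⟩ _ hzX hzX.1 hXK
      rw [hKa, mem_closedBall_zero_iff] at hXa
      have hs0 : (0 : ℝ) ≤ 1 - a ^ 2 := by nlinarith
      have hs : 3 / 5 ≤ Real.sqrt (1 - a ^ 2) := by
        apply Real.le_sqrt_of_sq_le
        nlinarith
      have hYf1 : ‖Y.fst‖ ≤ Real.sqrt (1 - a ^ 2) := by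
        rw [hYf]
        refine (norm_add_le _ _).trans ?_
        rw [norm_smul, norm_smul, Real.norm_of_nonneg hl1, Real.norm_of_nonneg hl0]
        nlinarith
      have hYf2 : ‖Y.fst‖ ^ 2 ≤ 1 - a ^ 2 := (Real.le_sqrt (norm_nonneg _) hs0).1 hYf1
      rw [mem_closedBall_zero_iff]
      have h5 : ‖Y‖ ^ 2 = ‖Y.fst‖ ^ 2 + ‖Y.snd‖ ^ 2 := WithLp.prod_norm_sq_eq_of_L2 Y
      have h6 : ‖Y‖ ^ 2 ≤ 1 := by
        rw [h5]
        nlinarith [norm_nonneg Y.snd]
      exact (sq_le_one_iff₀ (norm_nonneg _)).1 h6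
    · exact hB ((mem_bodyOf_iff_of_notMem hzX).1 hX)

theorem volume_Gz (h : Fam a (4 / 5) (3 / 5) (4 / 5) K) {z : ℝ} (hz0 : 0 ≤ z) (hz1 : z ≤ 1) :
    volume (Gz a (4 / 5) K z) = ENNReal.ofReal (Real.pi * (1 - z ^ 2)) := by
  by_cases hz : z ∈ Icc a (4 / 5)
  · rw [Gz_of_mem hz, h.vol z hz]
  · rw [Gz_of_notMem hz, Complex.volume_closedBall, ← ENNReal.ofReal_pow (Real.sqrt_nonneg _),
      Real.sq_sqrt (by nlinarith)]
    have hpi : (NNReal.pi : ℝ≥0∞) = ENNReal.ofReal Real.pi := by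
      rw [ENNReal.ofReal, Real.toNNReal_of_nonneg Real.pi_pos.le]; rfl
    rw [hpi, ← ENNReal.ofReal_mul (by nlinarith), mul_comm]

theorem volume_body (h : Fam a (4 / 5) (3 / 5) (4 / 5) K) (hab : a < 4 / 5)
    (hKa : K a = closedBall 0 (Real.sqrt (1 - a ^ 2))) (hKb : K (4 / 5) = closedBall 0 (3 / 5)) :
    volume (bodyOf m (Gz a (4 / 5) K)) = volume (closedBall (0 : VV m) 1) := by
  have key : ∀ E : Set (VV m), IsClosed E → volume E =
      ∫⁻ ζ : W m, volume {x : ℂ | WithLp.toLp 2 (x, ζ) ∈ E} := by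
    intro E hE
    have hEm : MeasurableSet ((WithLp.toLp 2) ⁻¹' E : Set (ℂ × W m)) :=
      (MeasurableEquiv.toLp 2 (ℂ × W m)).measurable hE.measurableSet
    have h1 := (WithLp.volume_preserving_toLp ℂ (W m)).measure_preimage
      hE.measurableSet.nullMeasurableSet
    rw [← h1, Measure.volume_eq_prod, Measure.prod_apply_symm hEm]
    rfl
  rw [key _ (isClosed_body h hab hKa hKb), key _ isClosed_closedBall]
  refine lintegral_congr fun ζ => ?_
  by_cases hζ : ‖ζ‖ ≤ 1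
  · have e1 : {x : ℂ | WithLp.toLp 2 (x, ζ) ∈ bodyOf m (Gz a (4 / 5) K)} =
        Gz a (4 / 5) K ‖ζ‖ := by
      ext x
      exact ⟨fun hx => hx.2, fun hx => ⟨hζ, hx⟩⟩
    have e2 : {x : ℂ | WithLp.toLp 2 (x, ζ) ∈ closedBall (0 : VV m) 1} =
        closedBall 0 (Real.sqrt (1 - ‖ζ‖ ^ 2)) := by
      ext x
      rw [mem_ofPred_eq, mem_closedBall_one_iff]
      exact ⟨fun hx => hx.2, fun hx => ⟨hζ, hx⟩⟩
    rw [e1, e2, volume_Gz h (norm_nonneg _) hζ, Complex.volume_closedBall,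
      ← ENNReal.ofReal_pow (Real.sqrt_nonneg _), Real.sq_sqrt (by nlinarith [norm_nonneg ζ])]
    have hpi : (NNReal.pi : ℝ≥0∞) = ENNReal.ofReal Real.pi := by
      rw [ENNReal.ofReal, Real.toNNReal_of_nonneg Real.pi_pos.le]; rfl
    rw [hpi, ← ENNReal.ofReal_mul (by nlinarith [norm_nonneg ζ]), mul_comm]
  · have e1 : {x : ℂ | WithLp.toLp 2 (x, ζ) ∈ bodyOf m (Gz a (4 / 5) K)} = ∅ := by
      ext x
      simp only [mem_ofPred_eq, mem_empty_iff_false, iff_false]
      exact fun hx => hζ hx.1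
    have e2 : {x : ℂ | WithLp.toLp 2 (x, ζ) ∈ closedBall (0 : VV m) 1} = ∅ := by
      ext x
      simp only [mem_ofPred_eq, mem_empty_iff_false, iff_false]
      rw [mem_closedBall_one_iff]
      exact fun hx => hζ hx.1
    rw [e1, e2]

end Pool.Agent.H81St
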