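import Pool.Agent.Lib.H81.St.Init3

/-! The initial family: almost no boundary point moves. -/

open MeasureTheory Set Metric Filter Topology
open scoped ENNReal Pointwise ComplexConjugate

namespace Pool.Agent.H81St

theorem quot_tendsto {f : ℝ → ℝ} {z d : ℝ} {A B : ℕ → ℝ} (hf : HasDerivAt f d z)
    (hA : ∀ n, A n ≤ z) (hB : ∀ n, z ≤ B n) (hAB : ∀ n, A n < B n)
    (tA : Tendsto A atTop (𝓝 z)) (tB : Tendsto B atTop (𝓝 z)) :
    Tendsto (fun n => (f (B n) - f (A n)) / (B n - A n)) atTop (𝓝 d) := by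
  rw [hasDerivAt_iff_isLittleO] at hf
  have bA : (fun n => A n - z) =O[atTop] (fun n => B n - A n) := by
    refine Asymptotics.IsBigO.of_bound 1 (Eventually.of_forall fun n => ?_)
    rw [Real.norm_eq_abs, Real.norm_eq_abs, one_mul, abs_sub_comm,
      abs_of_nonneg (sub_nonneg.2 (hA n)), abs_of_nonneg (sub_nonneg.2 (hAB n).le)]
    linarith [hB n]
  have bB : (fun n => B n - z) =O[atTop] (fun n => B n - A n) := by
    refine Asymptotics.IsBigO.of_bound 1 (Eventually.of_forall fun n => ?_)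
    rw [Real.norm_eq_abs, Real.norm_eq_abs, one_mul,
      abs_of_nonneg (sub_nonneg.2 (hB n)), abs_of_nonneg (sub_nonneg.2 (hAB n).le)]
    linarith [hA n]
  have oA := (hf.comp_tendsto tA).trans_isBigO bA
  have oB := (hf.comp_tendsto tB).trans_isBigO bB
  have h := (oB.sub oA).tendsto_div_nhds_zero
  have h2 := h.add_const d
  rw [zero_add] at h2
  refine h2.congr fun n => ?_
  have hne : B n - A n ≠ 0 := (sub_pos.2 (hAB n)).ne'
  simp only [Function.comp_apply, smul_eq_mul]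
  field_simp
  ring

theorem ratio_contra {p q : ℝ} (hp0 : 0 < p) (hp1 : p < 1) (hq0 : 0 < q) (hq1 : q < 1)
    (hpq : p ≠ q) {u v l : ℕ → ℝ} {d d' : ℝ} (hu : ∀ n, 0 < u n) (hv : ∀ n, 0 < v n)
    (hl : ∀ n, 0 < l n) (tu : Tendsto (fun n => u n / l n) atTop (𝓝 d))
    (tv : Tendsto (fun n => v n / l n) atTop (𝓝 d')) (hd : d ≠ 0) (hd' : d' ≠ 0)
    (hstep : ∀ n, (u (n + 1) = (1 - p) * u n ∧ v (n + 1) = (1 - q) * v n) ∨
      (u (n + 1) = p * u n ∧ v (n + 1) = q * v n)) : False := by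
  have t1 : Tendsto (fun n => u n / v n) atTop (𝓝 (d / d')) := by
    refine (tu.div tv hd').congr fun n => ?_
    have := (hl n).ne'
    have := (hv n).ne'
    simp only [Pi.div_apply]
    field_simp
  have hdd : d / d' ≠ 0 := div_ne_zero hd hd'
  have t2 : Tendsto (fun n => (u (n + 1) / v (n + 1)) / (u n / v n)) atTop (𝓝 1) := by
    have := ((tendsto_add_atTop_iff_nat 1).2 t1).div t1 hdd
    rw [div_self hdd] at this
    exact this
  have hfin : IsClosed ({(1 - p) / (1 - q), p / q} : Set ℝ) := (Set.toFinite _).isClosed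
  have hmem := hfin.mem_of_tendsto t2 (Eventually.of_forall fun n => ?_)
  · rcases hmem with h | h
    · rw [eq_comm, div_eq_one_iff_eq (by linarith)] at h
      exact hpq (by linarith)
    · rw [mem_singleton_iff, eq_comm, div_eq_one_iff_eq hq0.ne'] at h
      exact hpq h
  · have a1 := (hu n).ne'
    have a2 := (hv n).ne'
    have a3 : 1 - q ≠ 0 := by linarith
    have a4 := hq0.ne'
    rcases hstep n with ⟨h1, h2⟩ | ⟨h1, h2⟩
    · left
      rw [h1, h2]
      field_simp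
    · right
      rw [mem_singleton_iff, h1, h2]
      field_simp

theorem len_KK (a t y : ℝ) :
    len (KK a t) y = 2 * Real.sqrt (1 - a ^ 2 - y ^ 2 - (16 / 25 - a ^ 2) * GG y t) := by
  set M := 1 - a ^ 2 - y ^ 2 - (16 / 25 - a ^ 2) * GG y t with hM
  have hsec : ∀ s : ℝ, s ∈ sec (KK a t) y ↔ s ^ 2 ≤ M := by
    intro s
    show fK a t ⟨s, y⟩ ≤ 1 - a ^ 2 ↔ _
    unfold fK
    rw [Complex.sq_norm, Complex.normSq_apply, hM]
    simp only
    constructor <;> intro h <;> nlinarith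
  unfold len
  rcases lt_or_ge M 0 with h | h
  · have he : sec (KK a t) y = ∅ := by
      rw [Set.eq_empty_iff_forall_notMem]
      intro s hs
      have := (hsec s).1 hs
      nlinarith [sq_nonneg s]
    rw [he, measure_empty, ENNReal.toReal_zero, Real.sqrt_eq_zero_of_nonpos h.le, mul_zero]
  · have he : sec (KK a t) y = Icc (-Real.sqrt M) (Real.sqrt M) := by
      ext s
      rw [hsec, mem_Icc, ← abs_le, ← Real.sqrt_sq_eq_abs]
      exact (Real.sqrt_le_sqrt_iff h).symm
    rw [he, Real.volume_Icc, ENNReal.toReal_ofReal (by linarith [Real.sqrt_nonneg M])]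
    ring

theorem sing_KK {a : ℝ} (ha : 3 / 5 ≤ a) (ha' : a < 4 / 5) {τ : ℝ → ℝ} (hτ : Continuous τ)
    (hm : Monotone τ) (hmem : ∀ z, τ z ∈ Icc (0 : ℝ) 1)
    (h1 : ∀ z, zz a (τ z) = max a (min (4 / 5) z)) (h2 : ∀ t ∈ Icc (0 : ℝ) 1, τ (zz a t) = t) :
    Sing a (4 / 5) (fun z => KK a (τ z)) := by
  have hD : ∀ᵐ z : ℝ, ∀ᵐ y : ℝ, DifferentiableAt ℝ (fun z' => GG y (τ z')) z := by
    have hc1 : Continuous (fun q : ℝ × ℝ => ((q.1, τ q.2) : ℝ × ℝ)) :=
      continuous_fst.prodMk (hτ.comp continuous_snd)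
    have hcont : Continuous (Function.uncurry (fun (y : ℝ) (z : ℝ) => GG y (τ z))) :=
      Continuous.comp (g := fun q : ℝ × ℝ => GG q.1 q.2)
        (f := fun q : ℝ × ℝ => ((q.1, τ q.2) : ℝ × ℝ)) GG_continuous hc1
    have hmeas := measurableSet_of_differentiableAt_with_param ℝ hcont
    have h3 : ∀ᵐ y : ℝ, ∀ᵐ z : ℝ, DifferentiableAt ℝ (fun z' => GG y (τ z')) z :=
      Eventually.of_forall fun y => ((GG_mono y).comp hm).ae_differentiableAt
    exact (Measure.ae_ae_comm hmeas).1 h3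
  unfold Sing
  rw [ae_restrict_iff' measurableSet_Ioo]
  filter_upwards [hD] with z hz hzI
  have hsub : {y : ℝ | |y| < 1 ∧ ∃ d, d ≠ 0 ∧
      HasDerivAt (fun z' => GG y (τ z')) d z}.Subsingleton := by
    rintro y ⟨hy, d, hd, hyd⟩ y' ⟨hy', d', hd', hyd'⟩
    by_contra hne
    obtain ⟨b, hb, hb2, hb3⟩ := dyadic_seq (hmem z)
    have hzc : zz a (τ z) = z := by
      rw [h1, min_eq_right hzI.2.le, max_eq_right hzI.1.le]
    have pw : Tendsto (fun n : ℕ => (1 / 2 : ℝ) ^ n) atTop (𝓝 0) :=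
      tendsto_pow_atTop_nhds_zero_of_lt_one (by norm_num) (by norm_num)
    have tb : Tendsto b atTop (𝓝 (τ z)) := by
      refine tendsto_of_tendsto_of_tendsto_of_le_of_le (g := fun n => τ z - (1 / 2) ^ n)
        (h := fun _ => τ z) ?_ tendsto_const_nhds (fun n => ?_) (fun n => (hb n).2.2.1)
      · simpa using tendsto_const_nhds.sub pw
      · have := (hb n).2.2.2
        simp only
        linarith
    have tb' : Tendsto (fun n => b n + (1 / 2) ^ n) atTop (𝓝 (τ z)) := by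
      simpa using tb.add pw
    have zc := (zz_continuous ha ha').tendsto (τ z)
    rw [hzc] at zc
    have tA : Tendsto (fun n => zz a (b n)) atTop (𝓝 z) := zc.comp tb
    have tB : Tendsto (fun n => zz a (b n + (1 / 2) ^ n)) atTop (𝓝 z) := zc.comp tb'
    have hA : ∀ n, zz a (b n) ≤ z := fun n => by
      have := zz_mono ha ha' (hb n).2.2.1
      rwa [hzc] at this
    have hB : ∀ n, z ≤ zz a (b n + (1 / 2) ^ n) := fun n => by
      have := zz_mono ha ha' (hb n).2.2.2
      rwa [hzc] at this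
    have hAB : ∀ n, zz a (b n) < zz a (b n + (1 / 2) ^ n) := fun n =>
      zz_strict ha ha' (hb n).1.1 (by have : (0 : ℝ) < (1 / 2) ^ n := by positivity
                                      linarith) (hb n).2.1.2
    have q1 := quot_tendsto hyd hA hB hAB tA tB
    have q2 := quot_tendsto hyd' hA hB hAB tA tB
    have e1 : ∀ n, τ (zz a (b n)) = b n := fun n => h2 _ (hb n).1
    have e2 : ∀ n, τ (zz a (b n + (1 / 2) ^ n)) = b n + (1 / 2) ^ n := fun n => h2 _ (hb n).2.1
    simp only [e1, e2] at q1 q2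
    have hpy := pp_mem y
    have hpy' := pp_mem y'
    refine ratio_contra (p := pp y) (q := pp y') (by linarith [hpy.1]) (by linarith [hpy.2])
      (by linarith [hpy'.1]) (by linarith [hpy'.2]) ?_ (fun n => hb2 n _ hpy)
      (fun n => hb2 n _ hpy') (fun n => sub_pos.2 (hAB n)) q1 q2 hd hd' (fun n => ?_)
    · rw [pp_of_abs_le hy.le, pp_of_abs_le hy'.le]
      intro h
      exact hne (by linarith)
    · rcases hb3 n with h | h
      · left; exact ⟨h _ hpy, h _ hpy'⟩
      · right; exact ⟨h _ hpy, h _ hpy'⟩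
  have hnull := compl_mem_ae_iff.2 (hsub.measure_zero volume)
  filter_upwards [hz, hnull] with y hy hyn hlen
  have hpos : 0 < 1 - a ^ 2 - y ^ 2 - (16 / 25 - a ^ 2) * GG y (τ z) := by
    rw [len_KK] at hlen
    exact Real.sqrt_pos.1 (by linarith)
  have hy1 : |y| < 1 := by
    have h3 := mul_nonneg (c_pos ha ha').le (GG_mem y (τ z)).1
    rw [abs_lt]
    constructor <;> nlinarith
  have hder : HasDerivAt (fun z' => GG y (τ z')) 0 z := by
    have h3 := hy.hasDerivAt
    by_cases h4 : deriv (fun z' => GG y (τ z')) z = 0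
    · rw [h4] at h3; exact h3
    · exact absurd ⟨hy1, _, h4, h3⟩ hyn
  have hfun : (fun z' => len (KK a (τ z')) y) =
      fun z' => 2 * Real.sqrt (1 - a ^ 2 - y ^ 2 - (16 / 25 - a ^ 2) * GG y (τ z')) :=
    funext fun z' => len_KK a (τ z') y
  show HasDerivAt (fun z' => len (KK a (τ z')) y) 0 z
  rw [hfun]
  have h5 := (((hder.const_mul (16 / 25 - a ^ 2)).const_sub (1 - a ^ 2 - y ^ 2)).sqrt
    hpos.ne').const_mul 2
  simpa using h5

theorem init {a : ℝ} (ha : 3 / 5 ≤ a) (ha' : a < 4 / 5) :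
    ∃ K : ℝ → Set ℂ, Fam a (4 / 5) (3 / 5) (4 / 5) K ∧
      (∀ z ∈ Icc a (4 / 5), S (K z) = K z) ∧ Sing a (4 / 5) K ∧
      K a = closedBall 0 (Real.sqrt (1 - a ^ 2)) ∧ K (4 / 5) = closedBall 0 (3 / 5) := by
  obtain ⟨τ, hτ, hm, hmem, h1, h2⟩ := exists_param ha ha'
  have t0 : τ a = 0 := by
    have := h2 0 ⟨le_rfl, zero_le_one⟩
    rwa [zz_zero ha ha'] at this
  have t1 : τ (4 / 5) = 1 := by
    have := h2 1 ⟨zero_le_one, le_rfl⟩
    rwa [zz_one] at this
  refine ⟨fun z => KK a (τ z), ⟨fun z _ => KK_body ha ha' _, fun z _ => KK_strict ha ha' _,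
    fun z _ z' _ h => KK_anti ha ha' (hm h), ?_, ?_⟩, fun z _ => S_KK _,
    sing_KK ha ha' hτ hm hmem h1 h2, ?_, ?_⟩
  · intro ε hε
    obtain ⟨δ, hδ, h⟩ := KK_cont ha ha' hε
    have hu := isCompact_Icc.uniformContinuousOn_of_continuous (hτ.continuousOn (s := Icc a (4 / 5)))
    rw [Metric.uniformContinuousOn_iff] at hu
    obtain ⟨δ', hδ', h'⟩ := hu δ hδ
    refine ⟨δ', hδ', fun z hz z' hz' hzz => h _ _ ?_⟩
    have := h' z hz z' hz' (by rwa [Real.dist_eq])
    rwa [Real.dist_eq] at this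
  · intro z hz
    refine volume_KK_param ha ha' (hmem z) ?_
    rw [h1, min_eq_right hz.2, max_eq_right hz.1]
  · show KK a (τ a) = _
    rw [t0]
    exact KK_zero ha ha'
  · show KK a (τ (4 / 5)) = _
    rw [t1]
    exact KK_one

end Pool.Agent.H81St
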