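import Pool.Agent.Lib.H81.St.Final4
import Pool.Agent.Lib.H81.St.Init
import Pool.Agent.Lib.H81.St.Conv

/-! The iterated symmetrals, their Hausdorff convergence, and the main theorem. -/

open MeasureTheory Set Metric Filter Topology
open scoped ENNReal Pointwise ComplexConjugate

namespace Pool.Agent.H81St

variable {m : ℕ} {a : ℝ} {K : ℝ → Set ℂ}

/-- the family at stage `j` -/
noncomputable def Kj (K : ℝ → Set ℂ) (j : ℕ) (z : ℝ) : Set ℂ := T^[j] (K z)

theorem Kj_succ (j : ℕ) : Kj K (j + 1) = fun z => S (rot (Complex.exp Complex.I) (Kj K j z)) := by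
  funext z
  unfold Kj
  rw [Function.iterate_succ_apply']
  rfl

theorem Fam_Kj {a b r R : ℝ} (h : Fam a b r R K) (j : ℕ) : Fam a b r R (Kj K j) := by
  induction j with
  | zero => exact h
  | succ j ih => rw [Kj_succ]; exact Fam_step ih norm_expI

theorem sym_Kj {a b r R : ℝ} (h : Fam a b r R K) (hsym : ∀ z ∈ Icc a b, S (K z) = K z) (j : ℕ) :
    ∀ z ∈ Icc a b, S (Kj K j z) = Kj K j z := by
  intro z hz
  cases j with
  | zero => exact hsym z hz
  | succ j =>
    rw [Kj_succ]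
    have := (Fam_Kj h j).body z hz
    exact S_S (convex_rot this.conv) (isCompact_rot norm_expI this.comp)

theorem Secs_Kj {a b r R : ℝ} (h : Fam a b r R K) (hsym : ∀ z ∈ Icc a b, S (K z) = K z) (j : ℕ) :
    Secs a b (Kj K j) := by
  intro z hz x
  have hb := (Fam_Kj h j).body z hz
  have := mem_S_iff hb.conv hb.comp x
  rwa [sym_Kj h hsym j z hz] at this

theorem Sing_Kj {a b r R : ℝ} (hr : 0 < r) (h : Fam a b r R K)
    (hsym : ∀ z ∈ Icc a b, S (K z) = K z) (hs : Sing a b K) (j : ℕ) : Sing a b (Kj K j) := by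
  induction j with
  | zero => exact hs
  | succ j ih =>
    have h1 := transfer' hr (Fam_Kj h j) (Secs_Kj h hsym j) ih norm_expI
    have hlen : ∀ w ∈ Icc a b, ∀ y, len (Kj K (j + 1) w) y =
        len (rot (Complex.exp Complex.I) (Kj K j w)) y := by
      intro w hw y
      rw [Kj_succ]
      have hb := (Fam_Kj h j).body w hw
      exact len_S (convex_rot hb.conv) (isCompact_rot norm_expI hb.comp) y
    unfold Sing at h1 ⊢
    rw [ae_restrict_iff' measurableSet_Ioo] at h1 ⊢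
    filter_upwards [h1] with z hz hzI
    filter_upwards [hz hzI] with y hy hpos
    rw [hlen z (Ioo_subset_Icc_self hzI)] at hpos
    refine (hy hpos).congr_of_eventuallyEq ?_
    filter_upwards [Icc_mem_nhds hzI.1 hzI.2] with w hw
    exact hlen w hw y

theorem Gz_Kj (j : ℕ) (a b : ℝ) (z : ℝ) : Gz a b (Kj K j) z = T^[j] (Gz a b K z) := by
  by_cases hz : z ∈ Icc a b
  · rw [Gz_of_mem hz, Gz_of_mem hz]; rfl
  · rw [Gz_of_notMem hz, Gz_of_notMem hz, Titer_closedBall]

/-! ### the solids along the iteration -/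

/-- the directions -/
noncomputable def dir (m : ℕ) (j : ℕ) : VV m := inj1 m (Circle.exp (-((j : ℝ) + 1)) : ℂ)

theorem conj_exp_mul (j : ℕ) :
    conj (Circle.exp (-((j : ℝ) + 1)) : ℂ) * (Circle.exp (-(j : ℝ)) : ℂ) =
      Complex.exp Complex.I := by
  rw [Circle.coe_exp, Circle.coe_exp, ← Complex.exp_conj, ← Complex.exp_add]
  congr 1
  simp only [map_mul, Complex.conj_ofReal, Complex.conj_I]
  push_cast
  ring

theorem Gz_convex_compact {a b r R : ℝ} (h : Fam a b r R K) (z : ℝ) :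
    Convex ℝ (Gz a b K z) ∧ IsCompact (Gz a b K z) := by
  by_cases hz : z ∈ Icc a b
  · rw [Gz_of_mem hz]; exact ⟨(h.body z hz).conv, (h.body z hz).comp⟩
  · rw [Gz_of_notMem hz]; exact ⟨convex_closedBall _ _, isCompact_closedBall _ _⟩

theorem iter_bodyOf {a b r R : ℝ} (h : Fam a b r R K) (j : ℕ) :
    iter (dir m) (bodyOf m (Gz a b K)) j =
      rotV m (Circle.exp (-(j : ℝ))) '' bodyOf m (Gz a b (Kj K j)) := by
  induction j with
  | zero =>
    show bodyOf m (Gz a b K) = _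
    rw [rotV_image]
    have : ∀ C : Set ℂ, rot (Circle.exp (-((0 : ℕ) : ℝ)) : ℂ) C = C := by
      intro C
      ext x
      rw [mem_rot]
      simp
    simp only [this]
    rfl
  | succ j ih =>
    show steiner (dir m j) (iter (dir m) (bodyOf m (Gz a b K)) j) = _
    rw [ih, rotV_image, rotV_image]
    have hF := Fam_Kj h j
    have hω : ‖(Circle.exp (-((j : ℝ) + 1)) : ℂ)‖ = 1 := Circle.norm_coe _
    have h1 := steiner_bodyOf (m := m) hω
      (G := fun z => rot (Circle.exp (-(j : ℝ)) : ℂ) (Gz a b (Kj K j) z))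
      (fun z _ => ⟨convex_rot (Gz_convex_compact hF z).1,
        isCompact_rot (Circle.norm_coe _) (Gz_convex_compact hF z).2⟩)
    unfold dir
    rw [h1]
    have h2 : ∀ z, rot (Circle.exp (-((j : ℝ) + 1)) : ℂ)
        (S (rot (conj (Circle.exp (-((j : ℝ) + 1)) : ℂ))
          (rot (Circle.exp (-(j : ℝ)) : ℂ) (Gz a b (Kj K j) z)))) =
        rot (Circle.exp (-((j + 1 : ℕ) : ℝ)) : ℂ) (Gz a b (Kj K (j + 1)) z) := by
      intro z
      rw [rot_rot, conj_exp_mul]
      have h3 : S (rot (Complex.exp Complex.I) (Gz a b (Kj K j) z)) = Gz a b (Kj K (j + 1)) z := by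
        rw [Gz_Kj, Gz_Kj, Function.iterate_succ_apply']
        rfl
      rw [h3]
      push_cast
      rfl
    simp only [h2]

theorem norm_dir (j : ℕ) : ‖dir m j‖ = 1 := by
  have h := WithLp.prod_norm_sq_eq_of_L2 (dir m j)
  have e1 : (dir m j).fst = (Circle.exp (-((j : ℝ) + 1)) : ℂ) := rfl
  have e2 : (dir m j).snd = 0 := rfl
  rw [e1, e2, Circle.norm_coe, norm_zero] at h
  have : ‖dir m j‖ ^ 2 = 1 := by rw [h]; norm_num
  exact (pow_eq_one_iff_of_nonneg (norm_nonneg _) (by norm_num)).1 this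

/-! ### Hausdorff convergence -/

theorem subset_smul_of_forall {C D : Set ℂ} {c : ℝ} (hc : 0 < c)
    (h : ∀ x ∈ C, c⁻¹ • x ∈ D) : C ⊆ c • D := by
  intro x hx
  rw [mem_smul_set_iff_inv_smul_mem₀ hc.ne']
  exact h x hx

theorem unif_conv (h : Fam a (4 / 5) (3 / 5) (4 / 5) K) (ha : 0 ≤ a) {ε : ℝ} (hε : 0 < ε) :
    ∃ N, ∀ j ≥ N, ∀ z ∈ Icc a (4 / 5),
      T^[j] (K z) ⊆ (1 + ε : ℝ) • closedBall 0 (Real.sqrt (1 - z ^ 2)) ∧
      closedBall 0 (Real.sqrt (1 - z ^ 2)) ⊆ (1 + ε : ℝ) • T^[j] (K z) := by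
  -- choose `e` with `(1+e)^3 ≤ 1 + ε`
  obtain ⟨e, he0, he⟩ : ∃ e : ℝ, 0 < e ∧ (1 + e) * ((1 + e) * (1 + e)) ≤ 1 + ε := by
    have hc : Continuous (fun e : ℝ => (1 + e) * ((1 + e) * (1 + e))) := by fun_prop
    have h0 : (fun e : ℝ => (1 + e) * ((1 + e) * (1 + e))) 0 < 1 + ε := by
      simp only [add_zero, mul_one]; linarith
    have h1 : ∀ᶠ e in 𝓝[>] (0 : ℝ), (1 + e) * ((1 + e) * (1 + e)) < 1 + ε :=
      nhdsWithin_le_nhds (hc.continuousAt.eventually (gt_mem_nhds h0))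
    obtain ⟨e, h2, h3⟩ := (h1.and self_mem_nhdsWithin).exists
    exact ⟨e, h3, h2.le⟩
  have h1e : (0 : ℝ) < 1 + e := by linarith
  obtain ⟨δ, hδ, hcont⟩ := h.cont e he0
  -- a finite net
  obtain ⟨F, hF1, hF2⟩ : ∃ F : Finset ℝ, (∀ w ∈ F, w ∈ Icc a (4 / 5)) ∧
      ∀ z ∈ Icc a (4 / 5), ∃ w ∈ F, |z - w| < δ := by
    obtain ⟨t, ht1, ht2⟩ := (isCompact_Icc (a := a) (b := (4 / 5 : ℝ))).elim_nhds_subcover
      (fun x => ball x δ) (fun x _ => ball_mem_nhds x hδ)
    refine ⟨t, ht1, fun z hz => ?_⟩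
    obtain ⟨w, hw, hzw⟩ := mem_iUnion₂.1 (ht2 hz)
    exact ⟨w, hw, hzw⟩
  have hrho : ∀ w ∈ Icc a (4 / 5), 0 < Real.sqrt (1 - w ^ 2) := by
    intro w hw
    apply Real.sqrt_pos.2
    nlinarith [hw.1, hw.2]
  have hN : ∀ w ∈ F, ∃ N, ∀ j ≥ N,
      T^[j] (K w) ⊆ (1 + e : ℝ) • closedBall 0 (Real.sqrt (1 - w ^ 2)) ∧
      closedBall 0 (Real.sqrt (1 - w ^ 2)) ⊆ (1 + e : ℝ) • T^[j] (K w) := by
    intro w hw
    have hwI := hF1 w hw
    refine conv (r := 3 / 5) (R := 4 / 5) (by norm_num) (h.body w hwI) (hrho w hwI) ?_ he0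
    rw [h.vol w hwI, Real.sq_sqrt (by nlinarith [hwI.1, hwI.2])]
  choose! N hN using hN
  refine ⟨F.sup N, fun j hj z hz => ?_⟩
  obtain ⟨w, hwF, hzw⟩ := hF2 z hz
  have hwI := hF1 w hwF
  have hjN : N w ≤ j := (Finset.le_sup hwF).trans hj
  obtain ⟨c1, c2⟩ := hN w hwF j hjN
  have k1 : K z ⊆ (1 + e : ℝ) • K w := hcont z hz w hwI hzw
  have k2 : K w ⊆ (1 + e : ℝ) • K z := hcont w hwI z hz (by rwa [abs_sub_comm])
  -- comparison of the radii
  have hrad : ∀ u v : ℝ, u ∈ Icc a (4 / 5) → v ∈ Icc a (4 / 5) → K u ⊆ (1 + e : ℝ) • K v →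
      (closedBall 0 (Real.sqrt (1 - u ^ 2)) : Set ℂ) ⊆
        (1 + e : ℝ) • closedBall 0 (Real.sqrt (1 - v ^ 2)) := by
    intro u v hu hv hsub
    have hm := measure_mono (μ := (volume : Measure ℂ)) hsub
    rw [Measure.addHaar_smul, h.vol u hu, h.vol v hv, Complex.finrank_real_complex,
      ← ENNReal.ofReal_mul (abs_nonneg _), abs_of_nonneg (by positivity)] at hm
    have hv1 : 0 ≤ 1 - v ^ 2 := by nlinarith [hv.1, hv.2]
    have hm2 := (ENNReal.ofReal_le_ofReal_iff (by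
      apply mul_nonneg (by positivity) (mul_nonneg Real.pi_pos.le hv1))).1 hm
    have hm3 : 1 - u ^ 2 ≤ (1 + e) ^ 2 * (1 - v ^ 2) := by
      have hpi := Real.pi_pos
      have : Real.pi * (1 - u ^ 2) ≤ Real.pi * ((1 + e) ^ 2 * (1 - v ^ 2)) := by linarith
      exact le_of_mul_le_mul_left this hpi
    have hs : Real.sqrt (1 - u ^ 2) ≤ (1 + e) * Real.sqrt (1 - v ^ 2) := by
      have := Real.sqrt_le_sqrt hm3
      rwa [Real.sqrt_mul (by positivity), Real.sqrt_sq h1e.le] at this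
    rw [_root_.smul_closedBall _ _ (Real.sqrt_nonneg _), smul_zero, Real.norm_of_nonneg h1e.le]
    exact closedBall_subset_closedBall hs
  have r1 := hrad z w hz hwI k1
  have r2 := hrad w z hwI hz k2
  have smulmono : ∀ {c : ℝ} {C D : Set ℂ}, C ⊆ D → c • C ⊆ c • D := fun h => smul_set_mono h
  have hscale : ∀ {C D : Set ℂ}, (0 : ℂ) ∈ D → Convex ℝ D →
      C ⊆ (1 + e : ℝ) • ((1 + e : ℝ) • ((1 + e : ℝ) • D)) → C ⊆ (1 + ε : ℝ) • D := by
    intro C D h0 hD hsub x hx
    have h3 := hsub hx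
    rw [smul_smul, smul_smul, mem_smul_set_iff_inv_smul_mem₀ (by positivity)] at h3
    rw [mem_smul_set_iff_inv_smul_mem₀ (by positivity)]
    set c := (1 + e) * (1 + e) * (1 + e) with hc
    have hc0 : 0 < c := by positivity
    have hce : c ≤ 1 + ε := by rw [hc]; linarith
    have h4 : (1 + ε)⁻¹ • x = (c / (1 + ε)) • (c⁻¹ • x) + (1 - c / (1 + ε)) • (0 : ℂ) := by
      rw [smul_zero, add_zero, smul_smul]
      congr 1
      field_simp
    rw [h4]
    exact hD h3 h0 (by positivity) (sub_nonneg.2 ((div_le_one (by positivity)).2 hce)) (by ring)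
  have hTb := (Fam_Kj h j).body z hz
  constructor
  · have s1 : T^[j] (K z) ⊆ (1 + e : ℝ) • T^[j] (K w) := by
      rw [← Titer_smul h1e]; exact Titer_mono k1 j
    apply hscale (mem_closedBall_self (Real.sqrt_nonneg _)) (convex_closedBall _ _)
    exact s1.trans (smulmono (c1.trans (smulmono r2)))
  · have s1 : T^[j] (K w) ⊆ (1 + e : ℝ) • T^[j] (K z) := by
      rw [← Titer_smul h1e]; exact Titer_mono k2 j
    apply hscale (hTb.inn (mem_closedBall_self (by norm_num))) hTb.conv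
    exact r1.trans (smulmono (c2.trans (smulmono s1)))

theorem hausdorff_le (h : Fam a (4 / 5) (3 / 5) (4 / 5) K) (ha : 0 ≤ a) {ε : ℝ} (hε : 0 < ε) :
    ∃ N, ∀ j ≥ N,
      hausdorffEDist (bodyOf m (Gz a (4 / 5) (Kj K j))) (closedBall (0 : VV m) 1) ≤
        ENNReal.ofReal ε := by
  obtain ⟨N, hN⟩ := unif_conv h ha hε
  refine ⟨N, fun j hj => ?_⟩
  have h1ε : (0 : ℝ) < 1 + ε := by linarith
  -- for all `z` in `[0,1]`
  have hall : ∀ z ∈ Icc (0 : ℝ) 1,
      Gz a (4 / 5) (Kj K j) z ⊆ (1 + ε : ℝ) • closedBall 0 (Real.sqrt (1 - z ^ 2)) ∧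
      closedBall 0 (Real.sqrt (1 - z ^ 2)) ⊆ (1 + ε : ℝ) • Gz a (4 / 5) (Kj K j) z := by
    intro z hz
    by_cases hzI : z ∈ Icc a (4 / 5)
    · rw [Gz_of_mem hzI]
      exact hN j hj z hzI
    · rw [Gz_of_notMem hzI]
      have : (closedBall 0 (Real.sqrt (1 - z ^ 2)) : Set ℂ) ⊆
          (1 + ε : ℝ) • closedBall 0 (Real.sqrt (1 - z ^ 2)) := by
        rw [_root_.smul_closedBall _ _ (Real.sqrt_nonneg _), smul_zero, Real.norm_of_nonneg h1ε.le]
        apply closedBall_subset_closedBall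
        nlinarith [Real.sqrt_nonneg (1 - z ^ 2)]
      exact ⟨this, this⟩
  -- moving the planar component
  have hmove : ∀ X : VV m, ‖X.fst‖ ≤ 1 + ε →
      edist X (inj1 m ((1 + ε)⁻¹ • X.fst) + inj2 m X.snd) ≤ ENNReal.ofReal ε := by
    intro X hX
    rw [edist_dist]
    apply ENNReal.ofReal_le_ofReal
    rw [dist_eq_norm]
    have e1 : X - (inj1 m ((1 + ε)⁻¹ • X.fst) + inj2 m X.snd) =
        inj1 m ((ε * (1 + ε)⁻¹) • X.fst) := by
      apply WithLp.ofLp_injective
      apply Prod.ext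
      · show (X - (inj1 m ((1 + ε)⁻¹ • X.fst) + inj2 m X.snd)).fst = (ε * (1 + ε)⁻¹) • X.fst
        simp only [WithLp.sub_fst, WithLp.add_fst, inj1_fst, inj2_fst, add_zero]
        have h1 : X.fst - (1 + ε)⁻¹ • X.fst = (1 - (1 + ε)⁻¹) • X.fst := by
          rw [sub_smul, one_smul]
        rw [h1]
        congr 1
        field_simp
        ring
      · show (X - (inj1 m ((1 + ε)⁻¹ • X.fst) + inj2 m X.snd)).snd = 0
        simp only [WithLp.sub_snd, WithLp.add_snd, inj1_snd, inj2_snd, zero_add, sub_self]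
    rw [e1]
    have e2 : ‖inj1 m ((ε * (1 + ε)⁻¹) • X.fst)‖ = ‖(ε * (1 + ε)⁻¹) • X.fst‖ := by
      have h := WithLp.prod_norm_sq_eq_of_L2 (inj1 m ((ε * (1 + ε)⁻¹) • X.fst))
      rw [inj1_fst, inj1_snd, norm_zero] at h
      have h' : ‖inj1 m ((ε * (1 + ε)⁻¹) • X.fst)‖ ^ 2 = ‖(ε * (1 + ε)⁻¹) • X.fst‖ ^ 2 := by
        rw [h]; ring
      exact (pow_left_inj₀ (norm_nonneg _) (norm_nonneg _) (by norm_num)).1 h'
    rw [e2, norm_smul, Real.norm_of_nonneg (by positivity)]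
    calc ε * (1 + ε)⁻¹ * ‖X.fst‖ ≤ ε * (1 + ε)⁻¹ * (1 + ε) := by gcongr
      _ = ε := by field_simp
  apply hausdorffEDist_le_of_mem_edist
  · intro X hX
    have hz : ‖X.snd‖ ∈ Icc (0 : ℝ) 1 := ⟨norm_nonneg _, hX.1⟩
    have h1 := (hall _ hz).1 hX.2
    rw [mem_smul_set_iff_inv_smul_mem₀ h1ε.ne'] at h1
    refine ⟨inj1 m ((1 + ε)⁻¹ • X.fst) + inj2 m X.snd, ?_, hmove X ?_⟩
    · rw [mem_closedBall_one_iff]
      refine ⟨?_, ?_⟩
      · simpa using hX.1
      · simpa using h1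
    · have h2 : Real.sqrt (1 - ‖X.snd‖ ^ 2) ≤ 1 := by
        exact Real.sqrt_le_iff.2 ⟨zero_le_one, by nlinarith [norm_nonneg X.snd]⟩
      rw [mem_closedBall_zero_iff, norm_smul, Real.norm_of_nonneg (by positivity),
        inv_mul_le_iff₀ h1ε] at h1
      nlinarith
  · intro X hX
    have hX' := (mem_closedBall_one_iff X).1 hX
    have hz : ‖X.snd‖ ∈ Icc (0 : ℝ) 1 := ⟨norm_nonneg _, hX'.1⟩
    have h1 := (hall _ hz).2 hX'.2
    rw [mem_smul_set_iff_inv_smul_mem₀ h1ε.ne'] at h1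
    refine ⟨inj1 m ((1 + ε)⁻¹ • X.fst) + inj2 m X.snd, ⟨?_, ?_⟩, hmove X ?_⟩
    · simpa using hX'.1
    · simpa using h1
    · have h2 := norm_fst_le_VV X
      rw [mem_closedBall_zero_iff] at hX
      linarith

/-! ### the main theorem in `ℂ × ℝ^m` -/

theorem exists_parameter (m : ℕ) : ∃ a : ℝ, 3 / 5 ≤ a ∧ a < 4 / 5 ∧
    2 * Real.pi * (4 / 5) ^ (m - 1) < a ^ (m - 1) * (Real.pi * (a + 4 / 5) + 4 * (1 / 2)) := by
  have hc : Continuous (fun a : ℝ => a ^ (m - 1) * (Real.pi * (a + 4 / 5) + 4 * (1 / 2))) := by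
    fun_prop
  have h0 : 2 * Real.pi * (4 / 5) ^ (m - 1) <
      (fun a : ℝ => a ^ (m - 1) * (Real.pi * (a + 4 / 5) + 4 * (1 / 2))) (4 / 5) := by
    have hp : (0 : ℝ) < (4 / 5) ^ (m - 1) := by positivity
    have h1 : 2 * Real.pi < Real.pi * (4 / 5 + 4 / 5) + 4 * (1 / 2) := by
      have := Real.pi_lt_four
      linarith
    simp only []
    rw [mul_comm (2 * Real.pi)]
    exact mul_lt_mul_of_pos_left h1 hp
  have h1 : ∀ᶠ a in 𝓝[<] (4 / 5 : ℝ), 2 * Real.pi * (4 / 5) ^ (m - 1) <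
      a ^ (m - 1) * (Real.pi * (a + 4 / 5) + 4 * (1 / 2)) :=
    nhdsWithin_le_nhds (hc.continuousAt.eventually (lt_mem_nhds h0))
  have h2 : ∀ᶠ a in 𝓝[<] (4 / 5 : ℝ), 3 / 5 < a :=
    nhdsWithin_le_nhds (lt_mem_nhds (by norm_num))
  obtain ⟨a, ⟨h3, h4⟩, h5⟩ := ((h1.and h2).and self_mem_nhdsWithin).exists
  exact ⟨a, h4.le, h5, h3⟩

theorem main_VV {m : ℕ} (hm : 1 ≤ m) :
    ∃ (E : Set (VV m)) (u : ℕ → VV m),
      IsCompact E ∧ perimeter E < ⊤ ∧ (interior E).Nonempty ∧ (∀ i, ‖u i‖ = 1) ∧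
      volume (closedBall (0 : VV m) 1) = volume E ∧ (∀ i, IsCompact (iter u E i)) ∧
      Tendsto (fun i => hausdorffEDist (iter u E i) (closedBall 0 1)) atTop (𝓝 0) ∧
      ¬ Tendsto (fun i => perimeter (iter u E i)) atTop
        (𝓝 (perimeter (closedBall (0 : VV m) 1))) := by
  obtain ⟨a, ha, hab, hpar⟩ := exists_parameter m
  obtain ⟨K, hF, hsym, hs, hKa, hKb⟩ := init ha hab
  have ha0 : 0 < a := by linarith
  refine ⟨bodyOf m (Gz a (4 / 5) K), dir m, isCompact_body hF hab hKa hKb,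
    perimeter_lt_top_of_star (isCompact_body hF hab hKa hKb) (show (0 : ℝ) < 3 / 5 by norm_num)
      (star_body hF ha hab hKa), ?_, norm_dir, (volume_body hF hab hKa hKb).symm, ?_, ?_, ?_⟩
  · refine ⟨0, mem_interior.2 ⟨ball 0 (3 / 5), ball_subset_body ha, isOpen_ball,
      mem_ball_self (by norm_num)⟩⟩
  · intro i
    rw [iter_bodyOf hF i]
    refine (isCompact_body (Fam_Kj hF i) hab ?_ ?_).image (rotV m (Circle.exp (-(i : ℝ)))).continuous
    · unfold Kj; rw [hKa, Titer_closedBall]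
    · unfold Kj; rw [hKb, Titer_closedBall]
  · have heq : ∀ i, hausdorffEDist (iter (dir m) (bodyOf m (Gz a (4 / 5) K)) i) (closedBall 0 1) =
        hausdorffEDist (bodyOf m (Gz a (4 / 5) (Kj K i))) (closedBall (0 : VV m) 1) := by
      intro i
      rw [iter_bodyOf hF i]
      conv_lhs => rw [← rotV_closedBall (m := m) (Circle.exp (-(i : ℝ))) 1]
      exact hausdorffEDist_image (rotV m (Circle.exp (-(i : ℝ)))).isometry
    rw [ENNReal.tendsto_nhds_zero]
    intro ε hε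
    obtain ⟨ε', hε'0, hε'⟩ : ∃ ε' : ℝ, 0 < ε' ∧ ENNReal.ofReal ε' ≤ ε := by
      by_cases htop : ε = ⊤
      · exact ⟨1, one_pos, by rw [htop]; exact le_top⟩
      · exact ⟨ε.toReal, ENNReal.toReal_pos hε.ne' htop, (ENNReal.ofReal_toReal htop).le⟩
    obtain ⟨N, hN⟩ := hausdorff_le (m := m) hF ha0.le hε'0
    filter_upwards [eventually_ge_atTop N] with i hi
    rw [heq]
    exact (hN i hi).trans hε'
  · -- the perimeter gap
    set v := (volume (ball (0 : W m) 1)).toReal with hv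
    have : Nonempty (Fin m) := ⟨⟨0, hm⟩⟩
    have hv0 : 0 < v := ENNReal.toReal_pos (measure_ball_pos _ _ one_pos).ne'
      measure_ball_lt_top.ne
    set X1 := m * v * (a ^ (m - 1) * ((4 / 5 - a) * (Real.pi * (a + 4 / 5) + 4 * (1 / 2)))) -
      2 * Real.pi * (v * ((4 / 5) ^ m - a ^ m)) with hX1
    have hX1pos : 0 < X1 := by
      have hmpos : (0 : ℝ) < m := by exact_mod_cast hm
      have hpow : (4 / 5 : ℝ) ^ m - a ^ m ≤ m * (4 / 5) ^ (m - 1) * (4 / 5 - a) := by
        have h1 := geom_sum₂_mul (4 / 5 : ℝ) a m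
        rw [← h1]
        apply mul_le_mul_of_nonneg_right _ (by linarith)
        have h2 : ∀ i ∈ Finset.range m, (4 / 5 : ℝ) ^ i * a ^ (m - 1 - i) ≤ (4 / 5) ^ (m - 1) := by
          intro i hi
          have hi' : i ≤ m - 1 := by have := Finset.mem_range.1 hi; omega
          calc (4 / 5 : ℝ) ^ i * a ^ (m - 1 - i) ≤ (4 / 5 : ℝ) ^ i * (4 / 5) ^ (m - 1 - i) := by
                gcongr
            _ = (4 / 5) ^ (m - 1) := by rw [← pow_add]; congr 1; omega
        have h3 := Finset.sum_le_sum h2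
        rw [Finset.sum_const, Finset.card_range, nsmul_eq_mul] at h3
        exact h3
      have h4 : 2 * Real.pi * (v * ((4 / 5) ^ m - a ^ m)) ≤
          m * v * (4 / 5 - a) * (2 * Real.pi * (4 / 5) ^ (m - 1)) := by
        have : 2 * Real.pi * (v * ((4 / 5) ^ m - a ^ m)) ≤
            2 * Real.pi * (v * (m * (4 / 5) ^ (m - 1) * (4 / 5 - a))) := by
          have := Real.pi_pos
          gcongr
        linarith
      have h5 : m * v * (4 / 5 - a) * (2 * Real.pi * (4 / 5) ^ (m - 1)) <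
          m * v * (4 / 5 - a) * (a ^ (m - 1) * (Real.pi * (a + 4 / 5) + 4 * (1 / 2))) := by
        apply mul_lt_mul_of_pos_left hpar
        have : 0 < 4 / 5 - a := by linarith
        positivity
      rw [hX1]
      linarith
    have hgap : ∀ i, perimeter (closedBall (0 : VV m) 1) + ENNReal.ofReal (X1 / 2) ≤
        perimeter (iter (dir m) (bodyOf m (Gz a (4 / 5) K)) i) := by
      intro i
      rw [iter_bodyOf hF i, perimeter_image]
      have hFi := Fam_Kj hF i
      have hKai : Kj K i a = closedBall 0 (Real.sqrt (1 - a ^ 2)) := by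
        unfold Kj; rw [hKa, Titer_closedBall]
      have hKbi : Kj K i (4 / 5) = closedBall 0 (3 / 5) := by
        unfold Kj; rw [hKb, Titer_closedBall]
      refine perimeter_gap hm ha0 hab (r := 3 / 5) (r' := 1 / 2) (R := 4 / 5) (by norm_num)
        (by norm_num) hFi (Secs_Kj hF hsym i) (Sing_Kj (by norm_num) hF hsym hs i)
        (isClosed_body hFi hab hKai hKbi).measurableSet (by linarith) ?_
      rw [← hv, ← hX1]
      linarith
    intro hlim
    have h1 := ge_of_tendsto' hlim hgap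
    have hfin : perimeter (closedBall (0 : VV m) 1) ≠ ⊤ := perimeter_ball_lt_top.ne
    have h2 : ENNReal.ofReal (X1 / 2) ≤ 0 := by
      have : perimeter (closedBall (0 : VV m) 1) + ENNReal.ofReal (X1 / 2) ≤
          perimeter (closedBall (0 : VV m) 1) + 0 := by rw [add_zero]; exact h1
      exact (ENNReal.add_le_add_iff_left hfin).1 this
    have h3 : 0 < ENNReal.ofReal (X1 / 2) := ENNReal.ofReal_pos.2 (by linarith)
    exact absurd h2 (not_le.2 h3)

/-! ### transfer to `ℝ^n` -/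

theorem final (n : ℕ) (hn : 3 ≤ n) :
    ∃ (E : Set (EuclideanSpace ℝ (Fin n))) (u : ℕ → EuclideanSpace ℝ (Fin n)) (ρ : ℝ),
      IsCompact E ∧ perimeter E < ⊤ ∧ (interior E).Nonempty ∧ (∀ i, ‖u i‖ = 1) ∧
      0 < ρ ∧ volume (closedBall (0 : EuclideanSpace ℝ (Fin n)) ρ) = volume E ∧
      (∀ i, IsCompact (iter u E i)) ∧
      Tendsto (fun i => hausdorffEDist (iter u E i) (closedBall 0 ρ)) atTop (𝓝 0) ∧
      ¬ Tendsto (fun i => perimeter (iter u E i)) atTop
        (𝓝 (perimeter (closedBall (0 : EuclideanSpace ℝ (Fin n)) ρ))) := by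
  obtain ⟨m, rfl⟩ : ∃ m, n = 2 + m := ⟨n - 2, by omega⟩
  have hm : 1 ≤ m := by omega
  have hfin : Module.finrank ℝ (VV m) = 2 + m := by
    have e : Module.finrank ℝ (VV m) = Module.finrank ℝ (ℂ × W m) :=
      (WithLp.prodContinuousLinearEquiv 2 ℝ ℂ (W m)).toLinearEquiv.finrank_eq
    rw [e, Module.finrank_prod, Complex.finrank_real_complex, finrank_euclideanSpace,
      Fintype.card_fin]
  let e : VV m ≃ₗᵢ[ℝ] EuclideanSpace ℝ (Fin (2 + m)) :=
    ((stdOrthonormalBasis ℝ (VV m)).reindex (finCongr hfin)).repr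
  obtain ⟨E, u, h1, h2, h3, h4, h5, hcomp, h6, h7⟩ := main_VV hm
  have hball : e '' closedBall 0 1 = closedBall 0 1 := by
    rw [LinearIsometryEquiv.image_closedBall, map_zero]
  refine ⟨e '' E, fun i => e (u i), 1, h1.image e.continuous, ?_, ?_, ?_, one_pos, ?_, ?_, ?_, ?_⟩
  · rw [perimeter_image]; exact h2
  · have := e.toHomeomorph.image_interior E
    have h8 : (e '' interior E).Nonempty := h3.image e
    exact (this ▸ h8 : (interior (e.toHomeomorph '' E)).Nonempty)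
  · intro i; rw [e.norm_map]; exact h4 i
  · rw [← hball]
    have key : ∀ C : Set (VV m), MeasurableSet C → volume (e '' C) = volume C := by
      intro C hC
      have := e.symm.measurePreserving.measure_preimage hC.nullMeasurableSet
      rw [← this]
      congr 1
      ext x
      constructor
      · rintro ⟨y, hy, rfl⟩
        show e.symm (e y) ∈ C
        rwa [e.symm_apply_apply]
      · intro hx
        exact ⟨e.symm x, hx, e.apply_symm_apply x⟩
    rw [key _ isClosed_closedBall.measurableSet, key _ h1.measurableSet]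
    exact h5
  · intro i
    rw [iter_image]
    exact (hcomp i).image e.continuous
  · have : ∀ i, hausdorffEDist (iter (fun i => e (u i)) (e '' E) i) (closedBall 0 1) =
        hausdorffEDist (iter u E i) (closedBall 0 1) := by
      intro i
      rw [iter_image, ← hball, hausdorffEDist_image e.isometry]
    simp only [this]
    exact h6
  · intro hlim
    apply h7
    have e1 : ∀ i, perimeter (iter (fun i => e (u i)) (e '' E) i) = perimeter (iter u E i) := by
      intro i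
      rw [iter_image, perimeter_image]
    simp only [e1] at hlim
    rwa [← hball, perimeter_image] at hlim

end Pool.Agent.H81St
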