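import Pool.Agent.Lib.H81.St.Defs

/-! The Lebesgue-de Rham singular functions. -/

open MeasureTheory Set Metric Filter Topology
open scoped ENNReal Pointwise ComplexConjugate

namespace Pool.Agent.H81St

/-- approximations of the de Rham function -/
noncomputable def LL : ℕ → ℝ → ℝ → ℝ
  | 0, _, t => max 0 (min 1 t)
  | n + 1, p, t => if t ≤ 1 / 2 then (1 - p) * LL n p (2 * t) else (1 - p) + p * LL n p (2 * t - 1)

theorem LL_zero (p t : ℝ) : LL 0 p t = max 0 (min 1 t) := rfl

theorem LL_of_le {n : ℕ} {p t : ℝ} (h : t ≤ 1 / 2) : LL (n + 1) p t = (1 - p) * LL n p (2 * t) := by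
  rw [LL, if_pos h]

theorem LL_nonpos {n : ℕ} {p t : ℝ} (h : t ≤ 0) : LL n p t = 0 := by
  induction n generalizing t with
  | zero => rw [LL_zero, max_eq_left]; exact (min_le_right _ _).trans h
  | succ n ih => rw [LL_of_le (by linarith), ih (by linarith), mul_zero]

theorem LL_one_le {n : ℕ} {p t : ℝ} (h : 1 ≤ t) : LL n p t = 1 := by
  induction n generalizing t with
  | zero => rw [LL_zero, min_eq_left h, max_eq_right zero_le_one]
  | succ n ih => rw [LL, if_neg (by linarith), ih (by linarith)]; ring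

theorem LL_of_ge {n : ℕ} {p t : ℝ} (h : 1 / 2 ≤ t) :
    LL (n + 1) p t = (1 - p) + p * LL n p (2 * t - 1) := by
  rcases h.eq_or_lt with h | h
  · rw [LL_of_le h.ge, LL_one_le (by linarith), LL_nonpos (by linarith)]; ring
  · rw [LL, if_neg (by linarith)]

theorem LL_mem {n : ℕ} {p t : ℝ} (h0 : 0 ≤ p) (h1 : p ≤ 1) : LL n p t ∈ Icc (0 : ℝ) 1 := by
  induction n generalizing t with
  | zero => exact ⟨le_max_left _ _, max_le zero_le_one (min_le_left _ _)⟩
  | succ n ih =>
    rcases le_total t (1 / 2) with h | h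
    · rw [LL_of_le h]
      have := @ih (2 * t)
      constructor
      · exact mul_nonneg (by linarith) this.1
      · exact mul_le_one₀ (by linarith) this.1 this.2
    · rw [LL_of_ge h]
      have := @ih (2 * t - 1)
      constructor
      · have := mul_nonneg h0 this.1; linarith
      · have := mul_le_mul_of_nonneg_left this.2 h0; linarith

theorem LL_mono {n : ℕ} {p : ℝ} (h0 : 0 ≤ p) (h1 : p ≤ 1) : Monotone (LL n p) := by
  induction n with
  | zero => intro s t h; exact max_le_max le_rfl (min_le_min le_rfl h)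
  | succ n ih =>
    intro s t h
    rcases le_total t (1 / 2) with ht | ht
    · rw [LL_of_le ht, LL_of_le (h.trans ht)]
      exact mul_le_mul_of_nonneg_left (ih (by linarith)) (by linarith)
    · rcases le_total s (1 / 2) with hs | hs
      · rw [LL_of_le hs, LL_of_ge ht]
        have e1 : (1 - p) * LL n p (2 * s) ≤ (1 - p) * 1 :=
          mul_le_mul_of_nonneg_left (LL_mem h0 h1).2 (by linarith)
        have e2 : 0 ≤ p * LL n p (2 * t - 1) := mul_nonneg h0 (LL_mem h0 h1).1
        linarith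
      · rw [LL_of_ge hs, LL_of_ge ht]
        have := mul_le_mul_of_nonneg_left (ih (show 2 * s - 1 ≤ 2 * t - 1 by linarith)) h0
        linarith

theorem LL_continuous (n : ℕ) : Continuous (fun q : ℝ × ℝ => LL n q.1 q.2) := by
  induction n with
  | zero => simp only [LL_zero]; fun_prop
  | succ n ih =>
    have e : (fun q : ℝ × ℝ => LL (n + 1) q.1 q.2) = fun q : ℝ × ℝ =>
        if q.2 ≤ 1 / 2 then (1 - q.1) * LL n q.1 (2 * q.2)
        else (1 - q.1) + q.1 * LL n q.1 (2 * q.2 - 1) := by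
      funext q; rw [LL]
    rw [e]
    have i1 : Continuous (fun q : ℝ × ℝ => LL n q.1 (2 * q.2)) :=
      ih.comp (show Continuous (fun q : ℝ × ℝ => ((q.1, 2 * q.2) : ℝ × ℝ)) by fun_prop)
    have i2 : Continuous (fun q : ℝ × ℝ => LL n q.1 (2 * q.2 - 1)) :=
      ih.comp (show Continuous (fun q : ℝ × ℝ => ((q.1, 2 * q.2 - 1) : ℝ × ℝ)) by fun_prop)
    refine Continuous.if_le (by fun_prop) (by fun_prop) (by fun_prop) (by fun_prop) ?_
    intro q hq
    rw [LL_one_le (by linarith), LL_nonpos (by linarith)]; ring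

theorem LL_half {n : ℕ} {t : ℝ} : LL n (1 / 2) t = max 0 (min 1 t) := by
  induction n generalizing t with
  | zero => rfl
  | succ n ih =>
    rcases le_total t (1 / 2) with h | h
    · rw [LL_of_le h, ih, min_eq_right (by linarith : 2 * t ≤ 1), min_eq_right (by linarith : t ≤ 1)]
      rcases le_total 0 t with h0 | h0
      · rw [max_eq_right h0, max_eq_right (by linarith)]; ring
      · rw [max_eq_left h0, max_eq_left (by linarith)]; ring
    · rw [LL_of_ge h, ih]
      rcases le_total 1 t with h1 | h1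
      · rw [min_eq_left h1, min_eq_left (by linarith)]; norm_num
      · rw [min_eq_right h1, min_eq_right (by linarith), max_eq_right (by linarith),
          max_eq_right (by linarith)]; ring

theorem LL_succ_sub {n : ℕ} {p t : ℝ} (h0 : 1 / 4 ≤ p) (h1 : p ≤ 3 / 4) :
    |LL (n + 1) p t - LL n p t| ≤ (3 / 4) ^ n := by
  induction n generalizing t with
  | zero =>
    have a1 := @LL_mem 1 p t (by linarith) (by linarith)
    have a2 := @LL_mem 0 p t (by linarith) (by linarith)
    rw [abs_le]; constructor <;> simp only [pow_zero] <;> linarith [a1.1, a1.2, a2.1, a2.2]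
  | succ n ih =>
    rcases le_total t (1 / 2) with h | h
    · rw [LL_of_le h, LL_of_le h, ← mul_sub, abs_mul, abs_of_nonneg (by linarith), pow_succ, mul_comm]
      exact mul_le_mul ih (by linarith) (by linarith) (by positivity)
    · rw [LL_of_ge h, LL_of_ge h, add_sub_add_left_eq_sub, ← mul_sub, abs_mul,
        abs_of_nonneg (by linarith), pow_succ, mul_comm]
      exact mul_le_mul ih (by linarith) (by linarith) (by positivity)

/-- Lipschitz in the parameter -/
theorem LL_lip {n : ℕ} {p q t : ℝ} (h0 : 1 / 4 ≤ p) (h1 : p ≤ 3 / 4) (k0 : 1 / 4 ≤ q)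
    (k1 : q ≤ 3 / 4) : |LL n p t - LL n q t| ≤ 4 * |p - q| := by
  induction n generalizing t with
  | zero => simp only [LL_zero, sub_self, abs_zero]; positivity
  | succ n ih =>
    rcases le_total t (1 / 2) with h | h
    · rw [LL_of_le h, LL_of_le h]
      have e : (1 - p) * LL n p (2 * t) - (1 - q) * LL n q (2 * t) =
          (1 - p) * (LL n p (2 * t) - LL n q (2 * t)) + (q - p) * LL n q (2 * t) := by ring
      rw [e]
      refine (abs_add_le _ _).trans ?_
      rw [abs_mul, abs_mul, abs_of_nonneg (by linarith : 0 ≤ 1 - p)]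
      have m := @LL_mem n q (2 * t) (by linarith) (by linarith)
      rw [abs_of_nonneg m.1, abs_sub_comm q p]
      have e1 : (1 - p) * |LL n p (2 * t) - LL n q (2 * t)| ≤ (3 / 4) * (4 * |p - q|) :=
        mul_le_mul (by linarith) ih (abs_nonneg _) (by norm_num)
      have e2 : |p - q| * LL n q (2 * t) ≤ |p - q| * 1 :=
        mul_le_mul_of_nonneg_left m.2 (abs_nonneg _)
      linarith
    · rw [LL_of_ge h, LL_of_ge h]
      have e : (1 - p) + p * LL n p (2 * t - 1) - ((1 - q) + q * LL n q (2 * t - 1)) =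
          p * (LL n p (2 * t - 1) - LL n q (2 * t - 1)) + (q - p) * (1 - LL n q (2 * t - 1)) := by
        ring
      rw [e]
      refine (abs_add_le _ _).trans ?_
      rw [abs_mul, abs_mul, abs_of_nonneg (by linarith : 0 ≤ p)]
      have m := @LL_mem n q (2 * t - 1) (by linarith) (by linarith)
      rw [abs_of_nonneg (by linarith [m.2] : 0 ≤ 1 - LL n q (2 * t - 1)), abs_sub_comm q p]
      have e1 : p * |LL n p (2 * t - 1) - LL n q (2 * t - 1)| ≤ (3 / 4) * (4 * |p - q|) :=
        mul_le_mul (by linarith) ih (abs_nonneg _) (by norm_num)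
      have e2 : |p - q| * (1 - LL n q (2 * t - 1)) ≤ |p - q| * 1 :=
        mul_le_mul_of_nonneg_left (by linarith [m.1]) (abs_nonneg _)
      linarith

/-- second order bound in the parameter -/
theorem LL_second {n : ℕ} {p q t α β : ℝ} (h0 : 1 / 4 ≤ p) (h1 : p ≤ 3 / 4) (k0 : 1 / 4 ≤ q)
    (k1 : q ≤ 3 / 4) (hα : 0 ≤ α) (hβ : 0 ≤ β) (hαβ : α + β = 1) :
    |α * LL n p t + β * LL n q t - LL n (α * p + β * q) t| ≤ 16 * (α * β * (p - q) ^ 2) := by
  have hβ' : β = 1 - α := by linarith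
  have m0 : 1 / 4 ≤ α * p + β * q := by
    have := mul_le_mul_of_nonneg_left h0 hα
    have := mul_le_mul_of_nonneg_left k0 hβ
    nlinarith
  have m1 : α * p + β * q ≤ 3 / 4 := by
    have := mul_le_mul_of_nonneg_left h1 hα
    have := mul_le_mul_of_nonneg_left k1 hβ
    nlinarith
  induction n generalizing t with
  | zero =>
    simp only [LL_zero]
    rw [← add_mul, hαβ, one_mul, sub_self, abs_zero]
    positivity
  | succ n ih =>
    set r := α * p + β * q with hr
    have sq : |q - p| * (4 * |p - q|) = 4 * (p - q) ^ 2 := by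
      rw [abs_sub_comm q p]
      have := abs_mul_abs_self (p - q)
      nlinarith
    have nn : 0 ≤ α * β * (p - q) ^ 2 := by positivity
    rcases le_total t (1 / 2) with h | h
    · rw [LL_of_le h, LL_of_le h, LL_of_le h]
      set f := LL n p (2 * t) with hf
      set g := LL n q (2 * t) with hg
      set k := LL n r (2 * t) with hk
      have e : α * ((1 - p) * f) + β * ((1 - q) * g) - (1 - r) * k =
          (1 - r) * (α * f + β * g - k) + (α * β) * ((q - p) * (f - g)) := by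
        rw [hr, hβ']; ring
      rw [e]
      refine (abs_add_le _ _).trans ?_
      rw [abs_mul, abs_mul, abs_of_nonneg (by linarith : 0 ≤ 1 - r),
        abs_of_nonneg (mul_nonneg hα hβ), abs_mul]
      have l := @LL_lip n p q (2 * t) h0 h1 k0 k1
      have e1 : (1 - r) * |α * f + β * g - k| ≤ (3 / 4) * (16 * (α * β * (p - q) ^ 2)) :=
        mul_le_mul (by linarith) ih (abs_nonneg _) (by norm_num)
      have e2 : (α * β) * (|q - p| * |f - g|) ≤ (α * β) * (|q - p| * (4 * |p - q|)) :=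
        mul_le_mul_of_nonneg_left (mul_le_mul_of_nonneg_left l (abs_nonneg _)) (mul_nonneg hα hβ)
      rw [sq] at e2
      nlinarith
    · rw [LL_of_ge h, LL_of_ge h, LL_of_ge h]
      set f := LL n p (2 * t - 1) with hf
      set g := LL n q (2 * t - 1) with hg
      set k := LL n r (2 * t - 1) with hk
      have e : α * ((1 - p) + p * f) + β * ((1 - q) + q * g) - ((1 - r) + r * k) =
          r * (α * f + β * g - k) + (α * β) * ((q - p) * (g - f)) := by
        rw [hr, hβ']; ring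
      rw [e]
      refine (abs_add_le _ _).trans ?_
      rw [abs_mul, abs_mul, abs_of_nonneg (by linarith : 0 ≤ r),
        abs_of_nonneg (mul_nonneg hα hβ), abs_mul]
      have l := @LL_lip n p q (2 * t - 1) h0 h1 k0 k1
      have e1 : r * |α * f + β * g - k| ≤ (3 / 4) * (16 * (α * β * (p - q) ^ 2)) :=
        mul_le_mul (by linarith) ih (abs_nonneg _) (by norm_num)
      rw [abs_sub_comm g f]
      have e2 : (α * β) * (|q - p| * |f - g|) ≤ (α * β) * (|q - p| * (4 * |p - q|)) :=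
        mul_le_mul_of_nonneg_left (mul_le_mul_of_nonneg_left l (abs_nonneg _)) (mul_nonneg hα hβ)
      rw [sq] at e2
      nlinarith

/-- the de Rham function -/
noncomputable def dR (p t : ℝ) : ℝ := limUnder atTop (fun n => LL n p t)

theorem LL_tendsto {p t : ℝ} (h0 : 1 / 4 ≤ p) (h1 : p ≤ 3 / 4) :
    Tendsto (fun n => LL n p t) atTop (𝓝 (dR p t)) := by
  have hc : CauchySeq (fun n => LL n p t) := by
    refine cauchySeq_of_le_geometric (3 / 4) 1 (by norm_num) fun n => ?_
    rw [dist_comm, Real.dist_eq, one_mul]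
    exact LL_succ_sub h0 h1
  exact hc.tendsto_limUnder

theorem LL_dist {n : ℕ} {p t : ℝ} (h0 : 1 / 4 ≤ p) (h1 : p ≤ 3 / 4) :
    |LL n p t - dR p t| ≤ 4 * (3 / 4) ^ n := by
  have := dist_le_of_le_geometric_of_tendsto (3 / 4) 1 (by norm_num) (fun n => ?_)
    (@LL_tendsto p t h0 h1) n
  · rw [Real.dist_eq] at this
    calc _ ≤ _ := this
      _ = _ := by ring
  · rw [dist_comm, Real.dist_eq, one_mul]
    exact LL_succ_sub h0 h1

theorem dR_nonpos {p t : ℝ} (h0 : 1 / 4 ≤ p) (h1 : p ≤ 3 / 4) (h : t ≤ 0) : dR p t = 0 := by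
  refine tendsto_nhds_unique (LL_tendsto h0 h1) ?_
  simp only [LL_nonpos h]
  exact tendsto_const_nhds

theorem dR_one_le {p t : ℝ} (h0 : 1 / 4 ≤ p) (h1 : p ≤ 3 / 4) (h : 1 ≤ t) : dR p t = 1 := by
  refine tendsto_nhds_unique (LL_tendsto h0 h1) ?_
  simp only [LL_one_le h]
  exact tendsto_const_nhds

theorem dR_half (t : ℝ) : dR (1 / 2) t = max 0 (min 1 t) := by
  refine tendsto_nhds_unique (LL_tendsto (by norm_num) (by norm_num)) ?_
  simp only [LL_half]
  exact tendsto_const_nhds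

theorem dR_mem {p t : ℝ} (h0 : 1 / 4 ≤ p) (h1 : p ≤ 3 / 4) : dR p t ∈ Icc (0 : ℝ) 1 :=
  isClosed_Icc.mem_of_tendsto (LL_tendsto h0 h1)
    (Eventually.of_forall fun _ => LL_mem (by linarith) (by linarith))

theorem dR_mono {p : ℝ} (h0 : 1 / 4 ≤ p) (h1 : p ≤ 3 / 4) : Monotone (dR p) := by
  intro s t h
  exact le_of_tendsto_of_tendsto' (LL_tendsto h0 h1) (LL_tendsto h0 h1)
    (fun n => LL_mono (by linarith) (by linarith) h)

theorem dR_of_le {p t : ℝ} (h0 : 1 / 4 ≤ p) (h1 : p ≤ 3 / 4) (h : t ≤ 1 / 2) :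
    dR p t = (1 - p) * dR p (2 * t) := by
  have e1 := (tendsto_add_atTop_iff_nat (f := fun n => LL n p t) 1).2 (LL_tendsto h0 h1)
  simp only [LL_of_le h] at e1
  exact tendsto_nhds_unique e1 ((LL_tendsto h0 h1).const_mul _)

theorem dR_of_ge {p t : ℝ} (h0 : 1 / 4 ≤ p) (h1 : p ≤ 3 / 4) (h : 1 / 2 ≤ t) :
    dR p t = (1 - p) + p * dR p (2 * t - 1) := by
  have e1 := (tendsto_add_atTop_iff_nat (f := fun n => LL n p t) 1).2 (LL_tendsto h0 h1)
  simp only [LL_of_ge h] at e1
  exact tendsto_nhds_unique e1 (((LL_tendsto h0 h1).const_mul _).const_add _)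

theorem dR_second {p q t α β : ℝ} (h0 : 1 / 4 ≤ p) (h1 : p ≤ 3 / 4) (k0 : 1 / 4 ≤ q)
    (k1 : q ≤ 3 / 4) (hα : 0 ≤ α) (hβ : 0 ≤ β) (hαβ : α + β = 1) :
    dR (α * p + β * q) t ≤ α * dR p t + β * dR q t + 16 * (α * β * (p - q) ^ 2) := by
  have m0 : 1 / 4 ≤ α * p + β * q := by
    have := mul_le_mul_of_nonneg_left h0 hα
    have := mul_le_mul_of_nonneg_left k0 hβ
    nlinarith
  have m1 : α * p + β * q ≤ 3 / 4 := by
    have := mul_le_mul_of_nonneg_left h1 hα
    have := mul_le_mul_of_nonneg_left k1 hβ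
    nlinarith
  refine le_of_tendsto_of_tendsto' (LL_tendsto m0 m1)
    ((((LL_tendsto h0 h1).const_mul α).add ((LL_tendsto k0 k1).const_mul β)).add_const _)
    (fun n => ?_)
  have := (abs_le.1 (@LL_second n p q t α β h0 h1 k0 k1 hα hβ hαβ)).1
  linarith

/-- nested dyadic intervals around a point, with the self-similarity of the de Rham functions -/
theorem dyadic_step {p a l : ℝ} (h0 : 1 / 4 ≤ p) (h1 : p ≤ 3 / 4) 
    (h : ∀ s ∈ Icc (0 : ℝ) 1, dR p (a + l * s) = dR p a + (dR p (a + l) - dR p a) * dR p s) :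
    (dR p (a + l / 2) - dR p a = (1 - p) * (dR p (a + l) - dR p a)) ∧
    (∀ s ∈ Icc (0 : ℝ) 1, dR p (a + l / 2 * s) =
      dR p a + (dR p (a + l / 2) - dR p a) * dR p s) ∧
    (dR p (a + l / 2 + l / 2) - dR p (a + l / 2) = p * (dR p (a + l) - dR p a)) ∧
    (∀ s ∈ Icc (0 : ℝ) 1, dR p (a + l / 2 + l / 2 * s) =
      dR p (a + l / 2) + (dR p (a + l / 2 + l / 2) - dR p (a + l / 2)) * dR p s) := by
  have hh := h (1 / 2) (by norm_num)
  have d2 : dR p (1 / 2) = 1 - p := by
    rw [dR_of_le h0 h1 le_rfl, dR_one_le h0 h1 (by norm_num), mul_one]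
  have e1 : a + l * (1 / 2) = a + l / 2 := by ring
  have e2 : a + l / 2 + l / 2 = a + l := by ring
  rw [e1, d2] at hh
  refine ⟨by rw [hh]; ring, fun s hs => ?_, by rw [e2, hh]; ring, fun s hs => ?_⟩
  · have := h (s / 2) ⟨by linarith [hs.1], by linarith [hs.2]⟩
    have e3 : dR p (s / 2) = (1 - p) * dR p s := by
      rw [dR_of_le (t := s / 2) h0 h1 (by linarith [hs.2]), show 2 * (s / 2) = s by ring]
    rw [show a + l / 2 * s = a + l * (s / 2) by ring, this, hh, e3]
    ring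
  · have := h ((1 + s) / 2) ⟨by linarith [hs.1], by linarith [hs.2]⟩
    have e3 : dR p ((1 + s) / 2) = (1 - p) + p * dR p s := by
      rw [dR_of_ge (t := (1 + s) / 2) h0 h1 (by linarith [hs.1]),
        show 2 * ((1 + s) / 2) - 1 = s by ring]
    rw [show a + l / 2 + l / 2 * s = a + l * ((1 + s) / 2) by ring, this, e2, hh, e3]
    ring

theorem dyadic_seq {t : ℝ} (ht : t ∈ Icc (0 : ℝ) 1) :
    ∃ a : ℕ → ℝ, (∀ n, a n ∈ Icc (0 : ℝ) 1 ∧ a n + (1 / 2) ^ n ∈ Icc (0 : ℝ) 1 ∧ a n ≤ t ∧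
      t ≤ a n + (1 / 2) ^ n) ∧
      (∀ n, ∀ p ∈ Icc (1 / 4 : ℝ) (3 / 4), 0 < dR p (a n + (1 / 2) ^ n) - dR p (a n)) ∧
      ∀ n, (∀ p ∈ Icc (1 / 4 : ℝ) (3 / 4), dR p (a (n + 1) + (1 / 2) ^ (n + 1)) - dR p (a (n + 1)) =
        (1 - p) * (dR p (a n + (1 / 2) ^ n) - dR p (a n))) ∨
        (∀ p ∈ Icc (1 / 4 : ℝ) (3 / 4), dR p (a (n + 1) + (1 / 2) ^ (n + 1)) - dR p (a (n + 1)) =
        p * (dR p (a n + (1 / 2) ^ n) - dR p (a n))) := by
  classical
  let a : ℕ → ℝ := fun n => Nat.rec 0 (fun n x => if t ≤ x + (1 / 2) ^ n / 2 then x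
    else x + (1 / 2) ^ n / 2) n
  have a0 : a 0 = 0 := rfl
  have as : ∀ n, a (n + 1) = if t ≤ a n + (1 / 2) ^ n / 2 then a n else a n + (1 / 2) ^ n / 2 :=
    fun n => rfl
  have pw : ∀ n : ℕ, (1 / 2 : ℝ) ^ (n + 1) = (1 / 2) ^ n / 2 := fun n => by rw [pow_succ]; ring
  have key : ∀ n, (a n ∈ Icc (0 : ℝ) 1 ∧ a n + (1 / 2) ^ n ∈ Icc (0 : ℝ) 1 ∧ a n ≤ t ∧
      t ≤ a n + (1 / 2) ^ n) ∧ (∀ p ∈ Icc (1 / 4 : ℝ) (3 / 4),
      0 < dR p (a n + (1 / 2) ^ n) - dR p (a n) ∧
      ∀ s ∈ Icc (0 : ℝ) 1, dR p (a n + (1 / 2) ^ n * s) = dR p (a n) +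
        (dR p (a n + (1 / 2) ^ n) - dR p (a n)) * dR p s) := by
    intro n
    induction n with
    | zero =>
      simp only [a0, pow_zero, zero_add]
      refine ⟨⟨⟨le_rfl, zero_le_one⟩, ⟨zero_le_one, le_rfl⟩, ht.1, ht.2⟩, fun p hp => ?_⟩
      rw [dR_one_le hp.1 hp.2 le_rfl, dR_nonpos hp.1 hp.2 le_rfl]
      refine ⟨by norm_num, fun s _ => ?_⟩
      rw [one_mul]; ring
    | succ n ih =>
      obtain ⟨⟨i1, i2, i3, i4⟩, i5⟩ := ih
      have pos : 0 < (1 / 2 : ℝ) ^ n := by positivity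
      rw [as n, pw]
      split_ifs with hif
      · refine ⟨⟨i1, ⟨by linarith [i1.1], by linarith [i2.2]⟩, i3, hif⟩, fun p hp => ?_⟩
        obtain ⟨j1, j2⟩ := i5 p hp
        obtain ⟨d1, d2, -, -⟩ := dyadic_step hp.1 hp.2 j2
        refine ⟨?_, d2⟩
        rw [d1]
        exact mul_pos (by linarith [hp.2]) j1
      · rw [not_le] at hif
        refine ⟨⟨⟨by linarith [i1.1], by linarith [i2.2]⟩, ⟨by linarith [i1.1], by linarith [i2.2]⟩,
          hif.le, by linarith⟩, fun p hp => ?_⟩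
        obtain ⟨j1, j2⟩ := i5 p hp
        obtain ⟨-, -, d3, d4⟩ := dyadic_step hp.1 hp.2 j2
        refine ⟨?_, d4⟩
        rw [d3]
        exact mul_pos (by linarith [hp.1]) j1
  refine ⟨a, fun n => (key n).1, fun n p hp => ((key n).2 p hp).1, fun n => ?_⟩
  rw [as n, pw]
  split_ifs with hif
  · left
    intro p hp
    exact (dyadic_step hp.1 hp.2 ((key n).2 p hp).2).1
  · right
    intro p hp
    exact (dyadic_step hp.1 hp.2 ((key n).2 p hp).2).2.2.1

end Pool.Agent.H81St
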