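import Pool.Agent.Lib.H81.St.Init1

/-! The convex bodies of the initial family, and their areas. -/

open MeasureTheory Set Metric Filter Topology
open scoped ENNReal Pointwise ComplexConjugate

namespace Pool.Agent.H81St

/-- the parameter as a function of the height -/
noncomputable def pp (y : ℝ) : ℝ := 1 / 2 + max (-1) (min 1 y) / 8

theorem pp_ge (y : ℝ) : 3 / 8 ≤ pp y := by
  have : (-1 : ℝ) ≤ max (-1) (min 1 y) := le_max_left _ _
  unfold pp; linarith

theorem pp_le (y : ℝ) : pp y ≤ 5 / 8 := by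
  have : max (-1) (min 1 y) ≤ (1 : ℝ) := max_le (by norm_num) (min_le_left _ _)
  unfold pp; linarith

theorem pp_mem (y : ℝ) : pp y ∈ Icc (1 / 4 : ℝ) (3 / 4) :=
  ⟨by linarith [pp_ge y], by linarith [pp_le y]⟩

theorem pp_of_abs_le {y : ℝ} (h : |y| ≤ 1) : pp y = 1 / 2 + y / 8 := by
  rw [abs_le] at h
  unfold pp
  rw [min_eq_right h.2, max_eq_right h.1]

theorem pp_continuous : Continuous pp := by unfold pp; fun_prop

/-- the de Rham functions, with the parameter a function of the height -/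
noncomputable def GG (y t : ℝ) : ℝ := dR (pp y) t

theorem GG_mem (y t : ℝ) : GG y t ∈ Icc (0 : ℝ) 1 := dR_mem (pp_mem y).1 (pp_mem y).2

theorem GG_mono (y : ℝ) : Monotone (GG y) := dR_mono (pp_mem y).1 (pp_mem y).2

theorem GG_nonpos (y : ℝ) {t : ℝ} (h : t ≤ 0) : GG y t = 0 := dR_nonpos (pp_mem y).1 (pp_mem y).2 h

theorem GG_one_le (y : ℝ) {t : ℝ} (h : 1 ≤ t) : GG y t = 1 :=
  dR_one_le (pp_mem y).1 (pp_mem y).2 h

theorem GG_zero (t : ℝ) : GG 0 t = max 0 (min 1 t) := by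
  unfold GG
  rw [pp_of_abs_le (by simp), zero_div, add_zero, dR_half]

theorem GG_continuous : Continuous (fun q : ℝ × ℝ => GG q.1 q.2) := by
  have hu : TendstoUniformly (fun (n : ℕ) (q : ℝ × ℝ) => LL n (pp q.1) q.2)
      (fun q : ℝ × ℝ => GG q.1 q.2) atTop := by
    rw [Metric.tendstoUniformly_iff]
    intro ε hε
    have h1 : Tendsto (fun n : ℕ => 4 * (3 / 4 : ℝ) ^ n) atTop (𝓝 (4 * 0)) :=
      (tendsto_pow_atTop_nhds_zero_of_lt_one (by norm_num) (by norm_num)).const_mul 4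
    rw [mul_zero] at h1
    filter_upwards [h1.eventually_lt_const hε] with n hn q
    rw [dist_comm, Real.dist_eq]
    exact (LL_dist (pp_mem q.1).1 (pp_mem q.1).2).trans_lt hn
  refine hu.continuous (Frequently.of_forall fun n => ?_)
  exact (LL_continuous n).comp
    (show Continuous (fun q : ℝ × ℝ => ((pp q.1, q.2) : ℝ × ℝ)) from
      (pp_continuous.comp continuous_fst).prodMk continuous_snd)

theorem GG_clamp (y t : ℝ) :
    GG y t = GG (max (-1) (min 1 y)) (max 0 (min 1 t)) := by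
  have e1 : pp (max (-1) (min 1 y)) = pp y := by
    have h : |max (-1) (min 1 y)| ≤ (1 : ℝ) :=
      abs_le.2 ⟨le_max_left _ _, max_le (by norm_num) (min_le_left _ _)⟩
    rw [pp_of_abs_le h]; rfl
  have e2 : GG y t = GG y (max 0 (min 1 t)) := by
    rcases le_total t 0 with h | h
    · rw [GG_nonpos y h, GG_nonpos y (max_le le_rfl ((min_le_right _ _).trans h))]
    · rcases le_total 1 t with h' | h'
      · rw [GG_one_le y h', GG_one_le y]
        rw [min_eq_left h']; exact le_max_right _ _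
      · rw [min_eq_right h', max_eq_right h]
  rw [e2]
  unfold GG
  rw [e1]

theorem GG_unif {η : ℝ} (hη : 0 < η) :
    ∃ δ > 0, ∀ y t t' : ℝ, |t - t'| < δ → |GG y t - GG y t'| ≤ η := by
  have hK : IsCompact (Icc (-1 : ℝ) 1 ×ˢ Icc (0 : ℝ) 1) := isCompact_Icc.prod isCompact_Icc
  have hu := hK.uniformContinuousOn_of_continuous GG_continuous.continuousOn
  rw [Metric.uniformContinuousOn_iff] at hu
  obtain ⟨δ, hδ, h⟩ := hu η hη
  refine ⟨δ, hδ, fun y t t' htt => ?_⟩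
  rw [GG_clamp y t, GG_clamp y t']
  have m1 : max (-1) (min 1 y) ∈ Icc (-1 : ℝ) 1 :=
    ⟨le_max_left _ _, max_le (by norm_num) (min_le_left _ _)⟩
  have m2 : ∀ s : ℝ, max 0 (min 1 s) ∈ Icc (0 : ℝ) 1 := fun s =>
    ⟨le_max_left _ _, max_le (by norm_num) (min_le_left _ _)⟩
  have h3 := h (max (-1) (min 1 y), max 0 (min 1 t)) ⟨m1, m2 t⟩
    (max (-1) (min 1 y), max 0 (min 1 t')) ⟨m1, m2 t'⟩ ?_
  · rw [Real.dist_eq] at h3
    exact h3.le
  · rw [Prod.dist_eq, dist_self, Real.dist_eq]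
    refine max_lt hδ (lt_of_le_of_lt ?_ htt)
    calc |max 0 (min 1 t) - max 0 (min 1 t')| ≤ |min 1 t - min 1 t'| := by
          have := abs_max_sub_max_le_max 0 (min 1 t) 0 (min 1 t')
          rw [sub_self, abs_zero, max_eq_right (abs_nonneg (min 1 t - min 1 t'))] at this
          exact this
      _ ≤ |t - t'| := by
          have := abs_min_sub_min_le_max 1 t 1 t'
          rw [sub_self, abs_zero, max_eq_right (abs_nonneg (t - t'))] at this
          exact this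

/-- the function whose sublevel sets are the bodies -/
noncomputable def fK (a t : ℝ) (x : ℂ) : ℝ := ‖x‖ ^ 2 + (16 / 25 - a ^ 2) * GG x.im t

/-- the bodies, parametrised by the dyadic parameter -/
def KK (a t : ℝ) : Set ℂ := {x | fK a t x ≤ 1 - a ^ 2}

section

variable {a : ℝ} (ha : 3 / 5 ≤ a) (ha' : a < 4 / 5)

include ha ha'

theorem c_pos : 0 < 16 / 25 - a ^ 2 := by nlinarith

omit ha' in
theorem c_le : 16 / 25 - a ^ 2 ≤ 7 / 25 := by nlinarith

omit ha ha' in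
theorem fK_continuous (t : ℝ) : Continuous (fK a t) := by
  have h1 : Continuous (fun x : ℂ => ((x.im, t) : ℝ × ℝ)) :=
    Complex.continuous_im.prodMk continuous_const
  have h2 : Continuous (fun x : ℂ => GG x.im t) :=
    Continuous.comp (g := fun q : ℝ × ℝ => GG q.1 q.2) (f := fun x : ℂ => ((x.im, t) : ℝ × ℝ))
      GG_continuous h1
  exact (continuous_norm.pow 2).add (continuous_const.mul h2)

theorem KK_norm_le {t : ℝ} {x : ℂ} (hx : x ∈ KK a t) : ‖x‖ ≤ 4 / 5 := by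
  have h : ‖x‖ ^ 2 + (16 / 25 - a ^ 2) * GG x.im t ≤ 1 - a ^ 2 := hx
  have h1 := mul_nonneg (c_pos ha ha').le (GG_mem x.im t).1
  have h2 : ‖x‖ ^ 2 ≤ (4 / 5) ^ 2 := by nlinarith
  exact (sq_le_sq₀ (norm_nonneg _) (by norm_num)).1 h2

theorem fK_convex {t : ℝ} {x x' : ℂ} (hx : |x.im| ≤ 1) (hx' : |x'.im| ≤ 1) {α β : ℝ}
    (hα : 0 ≤ α) (hβ : 0 ≤ β) (hαβ : α + β = 1) :
    fK a t (α • x + β • x') ≤ α * fK a t x + β * fK a t x' - α * β * (93 / 100) * ‖x - x'‖ ^ 2 := by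
  have hβ' : β = 1 - α := by linarith
  have him : (α • x + β • x').im = α * x.im + β * x'.im := by simp
  have hpp : pp (α * x.im + β * x'.im) = α * pp x.im + β * pp x'.im := by
    have : |α * x.im + β * x'.im| ≤ 1 := by
      rw [abs_le] at *
      constructor
      · have := mul_le_mul_of_nonneg_left hx.1 hα
        have := mul_le_mul_of_nonneg_left hx'.1 hβ
        linarith
      · have := mul_le_mul_of_nonneg_left hx.2 hα
        have := mul_le_mul_of_nonneg_left hx'.2 hβ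
        linarith
    rw [pp_of_abs_le this, pp_of_abs_le hx, pp_of_abs_le hx', hβ']
    ring
  have hG : GG (α * x.im + β * x'.im) t ≤ α * GG x.im t + β * GG x'.im t +
      (α * β * (x.im - x'.im) ^ 2) / 4 := by
    unfold GG
    rw [hpp]
    have := dR_second (t := t) (pp_mem x.im).1 (pp_mem x.im).2 (pp_mem x'.im).1 (pp_mem x'.im).2
      hα hβ hαβ
    have e : 16 * (α * β * (pp x.im - pp x'.im) ^ 2) = (α * β * (x.im - x'.im) ^ 2) / 4 := by
      rw [pp_of_abs_le hx, pp_of_abs_le hx']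
      ring
    rw [e] at this
    exact this
  have hn : ‖α • x + β • x'‖ ^ 2 = α * ‖x‖ ^ 2 + β * ‖x'‖ ^ 2 - α * β * ‖x - x'‖ ^ 2 := by
    rw [Complex.sq_norm, Complex.sq_norm, Complex.sq_norm, Complex.sq_norm, Complex.normSq_apply,
      Complex.normSq_apply, Complex.normSq_apply, Complex.normSq_apply, hβ']
    simp only [Complex.add_re, Complex.add_im, Complex.sub_re, Complex.sub_im, Complex.smul_re,
      Complex.smul_im, smul_eq_mul]
    ring
  have hd : (x.im - x'.im) ^ 2 ≤ ‖x - x'‖ ^ 2 := by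
    rw [Complex.sq_norm, Complex.normSq_apply]
    simp only [Complex.sub_re, Complex.sub_im]
    nlinarith [mul_self_nonneg (x.re - x'.re)]
  unfold fK
  rw [him, hn]
  have hc := c_pos ha ha'
  have hc' := c_le ha
  have h1 := mul_le_mul_of_nonneg_left hG hc.le
  have hαβ0 : 0 ≤ α * β := mul_nonneg hα hβ
  have h2 : (16 / 25 - a ^ 2) * (α * β * (x.im - x'.im) ^ 2) ≤
      (7 / 25) * (α * β * ‖x - x'‖ ^ 2) :=
    mul_le_mul hc' (mul_le_mul_of_nonneg_left hd hαβ0) (by positivity) (by norm_num)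
  nlinarith

theorem KK_strict (t : ℝ) : StrictConvex ℝ (KK a t) := by
  intro x hx x' hx' hne α β hα hβ hαβ
  have hn := KK_norm_le ha ha' hx
  have hn' := KK_norm_le ha ha' hx'
  have hi : |x.im| ≤ 1 := (Complex.abs_im_le_norm x).trans (by linarith)
  have hi' : |x'.im| ≤ 1 := (Complex.abs_im_le_norm x').trans (by linarith)
  have h := fK_convex ha ha' (t := t) hi hi' hα.le hβ.le hαβ
  have hx2 : fK a t x ≤ 1 - a ^ 2 := hx
  have hx2' : fK a t x' ≤ 1 - a ^ 2 := hx'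
  have hpos : 0 < ‖x - x'‖ := norm_pos_iff.2 (sub_ne_zero.2 hne)
  have h3 : 0 < α * β * (93 / 100) * ‖x - x'‖ ^ 2 := by positivity
  have h4 := mul_le_mul_of_nonneg_left hx2 hα.le
  have h5 := mul_le_mul_of_nonneg_left hx2' hβ.le
  have h6 : α * (1 - a ^ 2) + β * (1 - a ^ 2) = 1 - a ^ 2 := by rw [← add_mul, hαβ, one_mul]
  have h7 : fK a t (α • x + β • x') < 1 - a ^ 2 := by linarith
  refine mem_interior.2 ⟨{y | fK a t y < 1 - a ^ 2}, fun y hy => ?_, ?_, h7⟩
  · show fK a t y ≤ 1 - a ^ 2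
    exact le_of_lt hy
  · exact isOpen_lt (fK_continuous t) continuous_const

omit ha ha' in
theorem KK_closed (t : ℝ) : IsClosed (KK a t) :=
  isClosed_le (fK_continuous t) continuous_const

theorem KK_out (t : ℝ) : KK a t ⊆ closedBall 0 (4 / 5) := by
  intro x hx
  rw [mem_closedBall_zero_iff]
  exact KK_norm_le ha ha' hx

theorem KK_inn (t : ℝ) : closedBall 0 (3 / 5) ⊆ KK a t := by
  intro x hx
  rw [mem_closedBall_zero_iff] at hx
  have h1 : ‖x‖ ^ 2 ≤ (3 / 5) ^ 2 := by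
    have := norm_nonneg x
    nlinarith
  have h2 := mul_le_mul_of_nonneg_left (GG_mem x.im t).2 (c_pos ha ha').le
  show fK a t x ≤ 1 - a ^ 2
  unfold fK
  nlinarith

theorem KK_compact (t : ℝ) : IsCompact (KK a t) :=
  (isCompact_closedBall 0 (4 / 5)).of_isClosed_subset (KK_closed t) (KK_out ha ha' t)

theorem KK_body (t : ℝ) : Body (3 / 5) (4 / 5) (KK a t) :=
  ⟨(KK_strict ha ha' t).convex, KK_compact ha ha' t, KK_inn ha ha' t, KK_out ha ha' t⟩

theorem KK_anti {t t' : ℝ} (h : t ≤ t') : KK a t' ⊆ KK a t := by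
  intro x hx
  have hx2 : fK a t' x ≤ 1 - a ^ 2 := hx
  have h1 := mul_le_mul_of_nonneg_left (GG_mono x.im h) (c_pos ha ha').le
  show fK a t x ≤ 1 - a ^ 2
  unfold fK at *
  linarith

theorem KK_cont {ε : ℝ} (hε : 0 < ε) :
    ∃ δ > 0, ∀ t t' : ℝ, |t - t'| < δ → KK a t ⊆ (1 + ε : ℝ) • KK a t' := by
  obtain ⟨δ, hδ, h⟩ := GG_unif (show 0 < ε by exact hε)
  refine ⟨δ, hδ, fun t t' htt x hx => ?_⟩
  have hn := KK_norm_le ha ha' hx
  have hi : |x.im| ≤ 1 := (Complex.abs_im_le_norm x).trans (by linarith)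
  rw [mem_smul_set_iff_inv_smul_mem₀ (by positivity)]
  have hpos : 0 < 1 + ε := by positivity
  have hβ : 0 ≤ 1 - (1 + ε)⁻¹ := by
    rw [sub_nonneg]; exact inv_le_one_of_one_le₀ (by linarith)
  have hcv := fK_convex ha ha' (t := t') hi (show |(0 : ℂ).im| ≤ 1 by simp)
    (inv_nonneg.2 hpos.le) hβ (by ring)
  rw [smul_zero, add_zero] at hcv
  have hx2 : fK a t x ≤ 1 - a ^ 2 := hx
  have hd : fK a t' x ≤ fK a t x + (16 / 25 - a ^ 2) * ε := by
    unfold fK
    have h1 := (abs_le.1 (h x.im t t' htt)).1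
    have h2 := mul_le_mul_of_nonneg_left (show GG x.im t' ≤ GG x.im t + ε by linarith)
      (c_pos ha ha').le
    linarith
  have h0 : fK a t' 0 ≤ 16 / 25 - a ^ 2 := by
    unfold fK
    have h2 := mul_le_mul_of_nonneg_left (GG_mem (0 : ℂ).im t').2 (c_pos ha ha').le
    rw [norm_zero]
    linarith
  have hsq : 0 ≤ (1 + ε)⁻¹ * (1 - (1 + ε)⁻¹) * (93 / 100) * ‖x - 0‖ ^ 2 := by positivity
  have hc' := c_le ha
  show fK a t' ((1 + ε)⁻¹ • x) ≤ 1 - a ^ 2
  have h3 : (1 + ε)⁻¹ * fK a t' x ≤ (1 + ε)⁻¹ * (1 - a ^ 2 + (16 / 25 - a ^ 2) * ε) :=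
    mul_le_mul_of_nonneg_left (by linarith) (inv_nonneg.2 hpos.le)
  have h4 : (1 - (1 + ε)⁻¹) * fK a t' 0 ≤ (1 - (1 + ε)⁻¹) * (16 / 25 - a ^ 2) :=
    mul_le_mul_of_nonneg_left h0 hβ
  have h5 : (1 + ε)⁻¹ * (1 - a ^ 2 + (16 / 25 - a ^ 2) * ε) + (1 - (1 + ε)⁻¹) * (16 / 25 - a ^ 2) ≤
      1 - a ^ 2 := by
    have e : (1 + ε)⁻¹ * (1 - a ^ 2 + (16 / 25 - a ^ 2) * ε) +
        (1 - (1 + ε)⁻¹) * (16 / 25 - a ^ 2) =
        (1 - a ^ 2 + (16 / 25 - a ^ 2) * ε + ε * (16 / 25 - a ^ 2)) / (1 + ε) := by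
      field_simp
      ring
    rw [e, div_le_iff₀ hpos]
    nlinarith
  linarith

omit ha ha' in
theorem S_KK (t : ℝ) : S (KK a t) = KK a t := by
  ext x
  constructor
  · rintro ⟨s, s', hs, hs', hx⟩
    have h1 : fK a t ⟨s, x.im⟩ ≤ 1 - a ^ 2 := hs
    have h2 : fK a t ⟨s', x.im⟩ ≤ 1 - a ^ 2 := hs'
    show fK a t x ≤ 1 - a ^ 2
    unfold fK at *
    rw [Complex.sq_norm, Complex.normSq_apply] at *
    simp only at h1 h2
    have h3 : x.re * x.re ≤ ((s - s') / 2) * ((s - s') / 2) := by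
      have := abs_nonneg x.re
      rw [← abs_mul_abs_self x.re]
      exact mul_le_mul hx hx this (this.trans hx)
    nlinarith [mul_self_nonneg (s + s')]
  · intro hx
    have h1 : fK a t x ≤ 1 - a ^ 2 := hx
    have hn : ∀ s : ℝ, |s| = |x.re| → (⟨s, x.im⟩ : ℂ) ∈ KK a t := by
      intro s hs
      show fK a t ⟨s, x.im⟩ ≤ 1 - a ^ 2
      unfold fK at *
      rw [Complex.sq_norm, Complex.normSq_apply] at *
      simp only
      have : s * s = x.re * x.re := by rw [← abs_mul_abs_self s, hs, abs_mul_abs_self]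
      rw [this]
      exact h1
    refine ⟨|x.re|, -|x.re|, hn _ (abs_abs _), hn _ (by rw [abs_neg, abs_abs]), ?_⟩
    linarith

theorem KK_zero : KK a 0 = closedBall 0 (Real.sqrt (1 - a ^ 2)) := by
  ext x
  have hnn : 0 ≤ 1 - a ^ 2 := by nlinarith
  rw [mem_closedBall_zero_iff]
  show fK a 0 x ≤ 1 - a ^ 2 ↔ _
  unfold fK
  rw [GG_nonpos _ le_rfl, mul_zero, add_zero, Real.le_sqrt (norm_nonneg _) hnn]

omit ha ha' in
theorem KK_one : KK a 1 = closedBall 0 (3 / 5) := by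
  ext x
  rw [mem_closedBall_zero_iff]
  show fK a 1 x ≤ 1 - a ^ 2 ↔ _
  unfold fK
  rw [GG_one_le _ le_rfl, mul_one, ← sq_le_sq₀ (norm_nonneg _) (by norm_num)]
  constructor <;> intro h <;> linarith

end

end Pool.Agent.H81St
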