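import Pool.Agent.Lib.H81.St.Init2

/-! The areas of the bodies and the change of parameter. -/

open MeasureTheory Set Metric Filter Topology
open scoped ENNReal Pointwise ComplexConjugate

namespace Pool.Agent.H81St

/-- the area of the body with parameter `t` -/
noncomputable def AA (a t : ℝ) : ℝ := (volume (KK a t)).toReal

section

variable {a : ℝ} (ha : 3 / 5 ≤ a) (ha' : a < 4 / 5)

include ha ha'

theorem KK_volume_lt_top (t : ℝ) : volume (KK a t) < ⊤ := (KK_compact ha ha' t).measure_lt_top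

theorem AA_le (t : ℝ) : AA a t ≤ (volume (closedBall (0 : ℂ) (4 / 5))).toReal :=
  ENNReal.toReal_mono (isCompact_closedBall _ _).measure_lt_top.ne (measure_mono (KK_out ha ha' t))

theorem AA_anti {t t' : ℝ} (h : t ≤ t') : AA a t' ≤ AA a t :=
  ENNReal.toReal_mono (KK_volume_lt_top ha ha' t).ne (measure_mono (KK_anti ha ha' h))

theorem AA_cont_aux {ε : ℝ} (hε : 0 < ε) :
    ∃ δ > 0, ∀ t t' : ℝ, |t - t'| < δ → AA a t ≤ (1 + ε) ^ 2 * AA a t' := by
  obtain ⟨δ, hδ, h⟩ := KK_cont ha ha' hε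
  refine ⟨δ, hδ, fun t t' htt => ?_⟩
  have h1 := measure_mono (μ := volume) (h t t' htt)
  rw [Measure.addHaar_smul, Complex.finrank_real_complex, abs_of_nonneg (by positivity)] at h1
  have h2 := ENNReal.toReal_mono
    (ENNReal.mul_lt_top ENNReal.ofReal_lt_top (KK_volume_lt_top ha ha' t')).ne h1
  rw [ENNReal.toReal_mul, ENNReal.toReal_ofReal (by positivity)] at h2
  exact h2

theorem AA_continuous : Continuous (AA a) := by
  rw [Metric.continuous_iff]
  intro t ε hε
  set M := (volume (closedBall (0 : ℂ) (4 / 5))).toReal with hM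
  have hM0 : 0 ≤ M := ENNReal.toReal_nonneg
  set e := min 1 (ε / (4 * (M + 1))) with he
  have he0 : 0 < e := lt_min one_pos (by positivity)
  have he1 : e ≤ 1 := min_le_left _ _
  have he2 : e * (4 * (M + 1)) ≤ ε := by
    rw [← le_div_iff₀ (by positivity)]; exact min_le_right _ _
  obtain ⟨δ, hδ, h⟩ := AA_cont_aux ha ha' he0
  refine ⟨δ, hδ, fun t' htt => ?_⟩
  rw [Real.dist_eq] at htt ⊢
  have h1 := h t' t htt
  have h2 := h t t' (by rw [abs_sub_comm]; exact htt)
  have m1 : 0 ≤ AA a t := ENNReal.toReal_nonneg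
  have m2 : 0 ≤ AA a t' := ENNReal.toReal_nonneg
  have m3 := AA_le ha ha' t
  have m4 := AA_le ha ha' t'
  have key : ∀ u v : ℝ, 0 ≤ v → v ≤ M → u ≤ (1 + e) ^ 2 * v → u - v < ε := by
    intro u v hv hvM huv
    have h3 : (1 + e) ^ 2 * v - v ≤ 3 * (e * M) := by
      have h4 : (1 + e) ^ 2 * v - v = (2 + e) * (e * v) := by ring
      rw [h4]
      exact mul_le_mul (by linarith) (mul_le_mul_of_nonneg_left hvM he0.le)
        (mul_nonneg he0.le hv) (by norm_num)
    have h5 : 3 * (e * M) < e * (4 * (M + 1)) := by nlinarith [mul_nonneg he0.le hM0]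
    linarith
  rw [abs_lt]
  constructor
  · have := key _ _ m2 m4 h2; linarith
  · exact key _ _ m1 m3 h1

theorem AA_strict {t t' : ℝ} (h0 : 0 ≤ t) (h : t < t') (h1 : t' ≤ 1) : AA a t' < AA a t := by
  set U : Set ℂ := {x | fK a t x < 1 - a ^ 2} ∩ {x | 1 - a ^ 2 < fK a t' x} with hU
  have hUo : IsOpen U := (isOpen_lt (fK_continuous t) continuous_const).inter
    (isOpen_lt continuous_const (fK_continuous t'))
  have hc := c_pos ha ha'
  have hne : U.Nonempty := by
    refine ⟨((Real.sqrt (1 - a ^ 2 - (16 / 25 - a ^ 2) * ((t + t') / 2)) : ℝ) : ℂ), ?_, ?_⟩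
    · show fK a t _ < 1 - a ^ 2
      unfold fK
      have hnn : 0 ≤ 1 - a ^ 2 - (16 / 25 - a ^ 2) * ((t + t') / 2) := by nlinarith
      rw [Complex.norm_real, Real.norm_eq_abs, sq_abs, Real.sq_sqrt hnn, Complex.ofReal_im,
        GG_zero, min_eq_right (by linarith), max_eq_right h0]
      nlinarith
    · show 1 - a ^ 2 < fK a t' _
      unfold fK
      have hnn : 0 ≤ 1 - a ^ 2 - (16 / 25 - a ^ 2) * ((t + t') / 2) := by nlinarith
      rw [Complex.norm_real, Real.norm_eq_abs, sq_abs, Real.sq_sqrt hnn, Complex.ofReal_im,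
        GG_zero, min_eq_right h1, max_eq_right (by linarith)]
      nlinarith
  have hpos : 0 < volume U := hUo.measure_pos _ hne
  have hdisj : Disjoint (KK a t') U := by
    rw [Set.disjoint_left]
    intro x hx hxU
    have h2 : fK a t' x ≤ 1 - a ^ 2 := hx
    have h3 : 1 - a ^ 2 < fK a t' x := hxU.2
    linarith
  have hsub : KK a t' ∪ U ⊆ KK a t := by
    rintro x (hx | hx)
    · exact KK_anti ha ha' h.le hx
    · have h3 : fK a t x < 1 - a ^ 2 := hx.1
      show fK a t x ≤ 1 - a ^ 2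
      exact h3.le
  have hvol : volume (KK a t') + volume U ≤ volume (KK a t) := by
    rw [← measure_union hdisj hUo.measurableSet]
    exact measure_mono hsub
  have hlt : volume (KK a t') < volume (KK a t) :=
    lt_of_lt_of_le (ENNReal.lt_add_right (KK_volume_lt_top ha ha' t').ne hpos.ne') hvol
  exact (ENNReal.toReal_lt_toReal (KK_volume_lt_top ha ha' t').ne
    (KK_volume_lt_top ha ha' t).ne).2 hlt

theorem AA_zero : AA a 0 = Real.pi * (1 - a ^ 2) := by
  have hnn : 0 ≤ 1 - a ^ 2 := by nlinarith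
  unfold AA
  rw [KK_zero ha ha', Complex.volume_closedBall, ENNReal.toReal_mul, ENNReal.toReal_pow,
    ENNReal.toReal_ofReal (Real.sqrt_nonneg _), Real.sq_sqrt hnn, mul_comm]
  rfl

omit ha ha' in
theorem AA_one : AA a 1 = Real.pi * (1 - (4 / 5) ^ 2) := by
  unfold AA
  rw [KK_one, Complex.volume_closedBall, ENNReal.toReal_mul, ENNReal.toReal_pow,
    ENNReal.toReal_ofReal (by norm_num), mul_comm]
  show Real.pi * _ = _
  norm_num

/-- the height with given dyadic parameter -/
noncomputable def zz (a t : ℝ) : ℝ := Real.sqrt (1 - AA a t / Real.pi)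

theorem AA_mem {t : ℝ} (h0 : 0 ≤ t) (h1 : t ≤ 1) : 0 ≤ 1 - AA a t / Real.pi := by
  have h2 := AA_anti ha ha' h0
  rw [AA_zero ha ha'] at h2
  rw [sub_nonneg, div_le_one Real.pi_pos]
  have := Real.pi_pos
  nlinarith [mul_nonneg this.le (sq_nonneg a)]

theorem zz_continuous : Continuous (zz a) := by
  unfold zz
  exact ((continuous_const.sub ((AA_continuous ha ha').div_const _))).sqrt

theorem zz_zero : zz a 0 = a := by
  unfold zz
  rw [AA_zero ha ha', mul_div_cancel_left₀ _ Real.pi_pos.ne', sub_sub_cancel,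
    Real.sqrt_sq (by linarith)]

omit ha ha' in
theorem zz_one : zz a 1 = 4 / 5 := by
  unfold zz
  rw [AA_one, mul_div_cancel_left₀ _ Real.pi_pos.ne', sub_sub_cancel,
    Real.sqrt_sq (by norm_num)]

theorem zz_mono {t t' : ℝ} (h : t ≤ t') : zz a t ≤ zz a t' := by
  unfold zz
  apply Real.sqrt_le_sqrt
  have := div_le_div_of_nonneg_right (AA_anti ha ha' h) Real.pi_pos.le
  linarith

theorem zz_strict {t t' : ℝ} (h0 : 0 ≤ t) (h : t < t') (h1 : t' ≤ 1) : zz a t < zz a t' := by
  unfold zz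
  apply Real.sqrt_lt_sqrt (AA_mem ha ha' h0 (by linarith))
  have := div_lt_div_of_pos_right (AA_strict ha ha' h0 h h1) Real.pi_pos
  linarith

theorem zz_inj {t t' : ℝ} (ht : t ∈ Icc (0 : ℝ) 1) (ht' : t' ∈ Icc (0 : ℝ) 1)
    (h : zz a t = zz a t') : t = t' := by
  rcases lt_trichotomy t t' with h1 | h1 | h1
  · exact absurd h (zz_strict ha ha' ht.1 h1 ht'.2).ne
  · exact h1
  · exact absurd h (zz_strict ha ha' ht'.1 h1 ht.2).ne'

theorem exists_param : ∃ τ : ℝ → ℝ, Continuous τ ∧ Monotone τ ∧ (∀ z, τ z ∈ Icc (0 : ℝ) 1) ∧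
    (∀ z, zz a (τ z) = max a (min (4 / 5) z)) ∧ (∀ t ∈ Icc (0 : ℝ) 1, τ (zz a t) = t) := by
  have hex : ∀ z : ℝ, ∃ t : Icc (0 : ℝ) 1, zz a t = max a (min (4 / 5) z) := by
    intro z
    have hiv := intermediate_value_Icc (zero_le_one (α := ℝ)) (zz_continuous ha ha').continuousOn
    rw [zz_zero ha ha', zz_one] at hiv
    obtain ⟨t, ht, hz⟩ := hiv (show max a (min (4 / 5) z) ∈ Icc a (4 / 5) from
      ⟨le_max_left _ _, max_le ha'.le (min_le_left _ _)⟩)
    exact ⟨⟨t, ht⟩, hz⟩
  choose σ hσ using hex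
  have hcomp : (fun t : Icc (0 : ℝ) 1 => zz a t) ∘ σ = fun z => max a (min (4 / 5) z) :=
    funext hσ
  have hemb : IsClosedEmbedding (fun t : Icc (0 : ℝ) 1 => zz a t) :=
    ((zz_continuous ha ha').comp continuous_subtype_val).isClosedEmbedding
      (fun s t h => Subtype.ext (zz_inj ha ha' s.2 t.2 h))
  have hcont : Continuous σ := by
    rw [hemb.isInducing.continuous_iff, hcomp]
    fun_prop
  refine ⟨fun z => σ z, continuous_subtype_val.comp hcont, ?_, fun z => (σ z).2, hσ, ?_⟩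
  · intro z z' h
    by_contra hcon
    rw [not_le] at hcon
    have h1 := zz_strict ha ha' (σ z').2.1 hcon (σ z).2.2
    rw [hσ, hσ] at h1
    exact absurd (max_le_max (le_refl a) (min_le_min (le_refl (4 / 5)) h)) (not_le.2 h1)
  · intro t ht
    refine zz_inj ha ha' (σ (zz a t)).2 ht ?_
    rw [hσ]
    have h1 : a ≤ zz a t := by
      have := zz_mono ha ha' ht.1
      rwa [zz_zero ha ha'] at this
    have h2 : zz a t ≤ 4 / 5 := by
      have := zz_mono ha ha' ht.2
      rwa [zz_one] at this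
    rw [min_eq_right h2, max_eq_right h1]

theorem volume_KK_param {t z : ℝ} (ht : t ∈ Icc (0 : ℝ) 1) (h : zz a t = z) :
    volume (KK a t) = ENNReal.ofReal (Real.pi * (1 - z ^ 2)) := by
  have h1 : z ^ 2 = 1 - AA a t / Real.pi := by
    rw [← h]; exact Real.sq_sqrt (AA_mem ha ha' ht.1 ht.2)
  rw [h1, sub_sub_cancel, mul_div_cancel₀ _ Real.pi_pos.ne']
  exact (ENNReal.ofReal_toReal (KK_volume_lt_top ha ha' t).ne).symm

end

end Pool.Agent.H81St
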