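import Pool.Agent.Lib.H81.St.Zone2

/-! Chord end points and comparison of gaps. -/

open MeasureTheory Set Metric Filter Topology
open scoped ENNReal Pointwise ComplexConjugate

namespace Pool.Agent.H81St

/-- right and left end points of a horizontal chord -/
noncomputable def hi (C : Set ℂ) (y : ℝ) : ℝ := sSup (sec C y)
noncomputable def lo (C : Set ℂ) (y : ℝ) : ℝ := sInf (sec C y)

theorem continuous_mk_left (y : ℝ) : Continuous (fun s : ℝ => (⟨s, y⟩ : ℂ)) := by
  have h : (fun s : ℝ => (⟨s, y⟩ : ℂ)) = fun s : ℝ => (s : ℂ) + (y : ℂ) * Complex.I := by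
    funext s; apply Complex.ext <;> simp
  rw [h]; fun_prop

theorem isCompact_sec {C : Set ℂ} (hC : IsCompact C) (y : ℝ) : IsCompact (sec C y) := by
  apply Metric.isCompact_of_isClosed_isBounded (hC.isClosed.preimage (continuous_mk_left y))
  obtain ⟨M, hM⟩ := hC.isBounded.subset_closedBall 0
  rw [Metric.isBounded_iff_subset_closedBall 0]
  refine ⟨M, fun s hs => ?_⟩
  have := hM hs
  rw [mem_closedBall_zero_iff] at this ⊢
  exact (Complex.abs_re_le_norm (⟨s, y⟩ : ℂ)).trans this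

theorem hi_mem {C : Set ℂ} (hC : IsCompact C) {y : ℝ} (hne : (sec C y).Nonempty) :
    (⟨hi C y, y⟩ : ℂ) ∈ C := (isCompact_sec hC y).sSup_mem hne

theorem lo_mem {C : Set ℂ} (hC : IsCompact C) {y : ℝ} (hne : (sec C y).Nonempty) :
    (⟨lo C y, y⟩ : ℂ) ∈ C := (isCompact_sec hC y).sInf_mem hne

theorem le_hi {C : Set ℂ} (hC : IsCompact C) {y s : ℝ} (h : (⟨s, y⟩ : ℂ) ∈ C) : s ≤ hi C y :=
  le_csSup (isCompact_sec hC y).bddAbove h

theorem lo_le {C : Set ℂ} (hC : IsCompact C) {y s : ℝ} (h : (⟨s, y⟩ : ℂ) ∈ C) : lo C y ≤ s :=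
  csInf_le (isCompact_sec hC y).bddBelow h

theorem sec_nonempty_of_len_pos {C : Set ℂ} {y : ℝ} (h : 0 < len C y) : (sec C y).Nonempty := by
  by_contra hcon
  rw [not_nonempty_iff_eq_empty] at hcon
  unfold len at h
  rw [hcon] at h
  simp at h

theorem convex_sec {C : Set ℂ} (hC : Convex ℝ C) (y : ℝ) : Convex ℝ (sec C y) := by
  intro s hs t ht a b ha hb hab
  have := hC hs ht ha hb hab
  have e : a • (⟨s, y⟩ : ℂ) + b • (⟨t, y⟩ : ℂ) = ⟨a • s + b • t, y⟩ := by
    apply Complex.ext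
    · simp
    · simp
      rw [← add_mul, hab, one_mul]
  rw [e] at this
  exact this

theorem sec_eq_Icc {C : Set ℂ} (hc : Convex ℝ C) (hC : IsCompact C) {y : ℝ}
    (hne : (sec C y).Nonempty) : sec C y = Icc (lo C y) (hi C y) := by
  apply Subset.antisymm
  · intro s hs; exact ⟨lo_le hC hs, le_hi hC hs⟩
  · exact (convex_sec hc y).ordConnected.out (lo_mem hC hne) (hi_mem hC hne)

theorem len_eq_hi_sub_lo {C : Set ℂ} (hc : Convex ℝ C) (hC : IsCompact C) {y : ℝ}
    (hne : (sec C y).Nonempty) : len C y = hi C y - lo C y := by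
  have hle : lo C y ≤ hi C y := le_hi hC (lo_mem hC hne)
  unfold len
  rw [sec_eq_Icc hc hC hne, Real.volume_Icc, ENNReal.toReal_ofReal (by linarith)]

theorem hasDerivAt_zero_of_le {g f : ℝ → ℝ} {z C : ℝ} (hf : HasDerivAt f 0 z)
    (h : ∀ᶠ w in 𝓝 z, |g w - g z| ≤ C * |f w - f z|) : HasDerivAt g 0 z := by
  rw [hasDerivAt_iff_isLittleO] at hf ⊢
  simp only [smul_zero, sub_zero] at hf ⊢
  refine Asymptotics.IsBigO.trans_isLittleO ?_ hf
  exact Asymptotics.IsBigO.of_bound C (h.mono fun w hw => hw)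

/-! ### rotations -/

theorem mem_rot {ω x : ℂ} {C : Set ℂ} : x ∈ rot ω C ↔ conj ω * x ∈ C := Iff.rfl

theorem conj_mul_self_of_norm {ω : ℂ} (hω : ‖ω‖ = 1) : conj ω * ω = 1 := by
  rw [mul_comm, Complex.mul_conj, Complex.normSq_eq_norm_sq, hω]; simp

theorem mul_conj_self_of_norm {ω : ℂ} (hω : ‖ω‖ = 1) : ω * conj ω = 1 := by
  rw [mul_comm]; exact conj_mul_self_of_norm hω

/-- `rot ω` as a preimage/image under a homeomorphism -/
theorem isCompact_rot {ω : ℂ} (hω : ‖ω‖ = 1) {C : Set ℂ} (hC : IsCompact C) :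
    IsCompact (rot ω C) := by
  have : rot ω C = (fun x => ω * x) '' C := by
    ext x
    constructor
    · intro hx
      refine ⟨conj ω * x, hx, ?_⟩
      simp only []
      rw [← mul_assoc, mul_conj_self_of_norm hω, one_mul]
    · rintro ⟨y, hy, rfl⟩
      rw [mem_rot, ← mul_assoc, conj_mul_self_of_norm hω, one_mul]
      exact hy
  rw [this]
  exact hC.image (continuous_const.mul continuous_id)

theorem convex_rot {ω : ℂ} {C : Set ℂ} (hC : Convex ℝ C) : Convex ℝ (rot ω C) := by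
  intro x hx y hy a b ha hb hab
  rw [mem_rot] at *
  have := hC hx hy ha hb hab
  have e : conj ω * (a • x + b • y) = a • (conj ω * x) + b • (conj ω * y) := by
    rw [mul_add, mul_smul_comm, mul_smul_comm]
  rw [e]
  exact this

theorem sec_rot_neg {ω : ℂ} {C : Set ℂ} {s y : ℝ} :
    (⟨s, -y⟩ : ℂ) ∈ rot (-ω) C ↔ (⟨-s, y⟩ : ℂ) ∈ rot ω C := by
  rw [mem_rot, mem_rot]
  have : conj (-ω) * (⟨s, -y⟩ : ℂ) = conj ω * (⟨-s, y⟩ : ℂ) := by
    have e : (⟨s, -y⟩ : ℂ) = -(⟨-s, y⟩ : ℂ) := by apply Complex.ext <;> simp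
    rw [e, map_neg]
    ring
  rw [this]

theorem hi_rot_neg {ω : ℂ} {C : Set ℂ} (y : ℝ) : hi (rot (-ω) C) (-y) = -lo (rot ω C) y := by
  unfold hi lo
  have : sec (rot (-ω) C) (-y) = -sec (rot ω C) y := by
    ext s
    rw [Set.mem_neg]
    exact sec_rot_neg
  rw [this, Real.sSup_neg]

theorem len_rot_neg {ω : ℂ} {C : Set ℂ} (y : ℝ) : len (rot (-ω) C) (-y) = len (rot ω C) y := by
  unfold len
  have : sec (rot (-ω) C) (-y) = -sec (rot ω C) y := by
    ext s
    rw [Set.mem_neg]
    exact sec_rot_neg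
  rw [this, Measure.measure_neg]

/-! ### symmetric bodies -/

variable {a b r R : ℝ} {K : ℝ → Set ℂ}

theorem mk_mem (hsec : Secs a b K) {z : ℝ} (hz : z ∈ Icc a b) {y s : ℝ}
    (hne : (sec (K z) y).Nonempty) (hs : |s| ≤ len (K z) y / 2) : (⟨s, y⟩ : ℂ) ∈ K z :=
  (hsec z hz ⟨s, y⟩).2 ⟨hne, hs⟩

theorem abs_re_le (hsec : Secs a b K) {z : ℝ} (hz : z ∈ Icc a b) {x : ℂ} (hx : x ∈ K z) :
    |x.re| ≤ len (K z) x.im / 2 := ((hsec z hz x).1 hx).2

theorem mem_interior_of_lt (h : Fam a b r R K) (hsec : Secs a b K) {z : ℝ} (hz : z ∈ Icc a b)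
    {y t : ℝ} (hne : (sec (K z) y).Nonempty) (ht : |t| < len (K z) y / 2) :
    (⟨t, y⟩ : ℂ) ∈ interior (K z) := by
  set f := len (K z) y / 2 with hf
  have hf0 : 0 < f := (abs_nonneg t).trans_lt ht
  have h1 : (⟨f, y⟩ : ℂ) ∈ K z := mk_mem hsec hz hne (by rw [abs_of_pos hf0])
  have h2 : (⟨-f, y⟩ : ℂ) ∈ K z := mk_mem hsec hz hne (by rw [abs_neg, abs_of_pos hf0])
  have hne' : (⟨f, y⟩ : ℂ) ≠ ⟨-f, y⟩ := by
    intro he
    have := congrArg Complex.re he
    simp only at this
    linarith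
  have ht' := abs_lt.1 ht
  have hα : 0 < (f + t) / (2 * f) := div_pos (by linarith) (by linarith)
  have hβ : 0 < (f - t) / (2 * f) := div_pos (by linarith) (by linarith)
  have hab' : (f + t) / (2 * f) + (f - t) / (2 * f) = 1 := by field_simp; ring
  have := (h.strict z hz) h1 h2 hne' hα hβ hab'
  have e : ((f + t) / (2 * f)) • (⟨f, y⟩ : ℂ) + ((f - t) / (2 * f)) • (⟨-f, y⟩ : ℂ) = ⟨t, y⟩ := by
    apply Complex.ext
    · simp only [Complex.add_re, Complex.smul_re, smul_eq_mul]
      field_simp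
      ring
    · simp only [Complex.add_im, Complex.smul_im, smul_eq_mul]
      rw [← add_mul, hab', one_mul]
  rw [e] at this
  exact this

/-- a ball around an interior point stays inside the neighbouring bodies -/
theorem ball_stays (h : Fam a b r R K) {z : ℝ} (hz : z ∈ Icc a b) {c : ℂ}
    (hc : c ∈ interior (K z)) : ∃ η > 0, ∀ᶠ w in 𝓝 z, w ∈ Icc a b → closedBall c η ⊆ K w := by
  obtain ⟨η, hη, hball⟩ := Metric.nhds_basis_closedBall.mem_iff.1 (mem_interior_iff_mem_nhds.1 hc)
  have hRpos : 0 ≤ ‖c‖ := norm_nonneg c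
  set ε := η / (2 * (‖c‖ + η + 1)) with hε
  have hε0 : 0 < ε := by positivity
  obtain ⟨δ, hδ, hcont⟩ := h.cont ε hε0
  refine ⟨η / 2, by positivity, ?_⟩
  filter_upwards [Metric.ball_mem_nhds z hδ] with w hw hwI
  have hzw : |z - w| < δ := by
    rw [abs_sub_comm]
    exact hw
  have h1 := hcont z hz w hwI hzw
  intro p hp
  have h2 : (1 + ε) • p ∈ K z := by
    apply hball
    rw [mem_closedBall, dist_eq_norm] at hp ⊢
    have e : (1 + ε) • p - c = (1 + ε) • (p - c) + ε • c := by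
      rw [smul_sub, add_smul, add_smul, one_smul, one_smul]; abel
    have hε1 : ε * (‖c‖ + η + 1) = η / 2 := by
      rw [hε]; field_simp
    calc ‖(1 + ε) • p - c‖ ≤ ‖(1 + ε) • (p - c)‖ + ‖ε • c‖ := by rw [e]; exact norm_add_le _ _
      _ = (1 + ε) * ‖p - c‖ + ε * ‖c‖ := by
          rw [norm_smul, norm_smul, Real.norm_of_nonneg (by positivity), Real.norm_of_nonneg hε0.le]
      _ ≤ (1 + ε) * (η / 2) + ε * ‖c‖ := by gcongr
      _ ≤ η := by nlinarith
  have h3 := h1 h2
  rw [mem_smul_set_iff_inv_smul_mem₀ (by positivity)] at h3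
  rwa [smul_smul, inv_mul_cancel₀ (by positivity), one_smul] at h3

theorem hi_deriv (h : Fam a b r R K) (hsec : Secs a b K) {z : ℝ} (hz : z ∈ Ioo a b) {ω : ℂ}
    (hω : ‖ω‖ = 1) {y' : ℝ} (hlen : 0 < len (rot ω (K z)) y')
    (hgood : ∀ σ : ℝ, (σ = 1 ∨ σ = -1) → ∀ y : ℝ,
      y' = (ω * (⟨σ * (len (K z) y / 2), y⟩ : ℂ)).im → (sec (K z) y).Nonempty →
      0 < len (K z) y ∧ HasDerivAt (fun w => len (K w) y) 0 z) :
    HasDerivAt (fun w => hi (rot ω (K w)) y') 0 z := by
  have hzI := Ioo_subset_Icc_self hz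
  have hCc : ∀ w ∈ Icc a b, IsCompact (rot ω (K w)) := fun w hw => isCompact_rot hω (h.body w hw).comp
  have hCv : ∀ w ∈ Icc a b, Convex ℝ (rot ω (K w)) := fun w hw => convex_rot (h.body w hw).conv
  have hne := sec_nonempty_of_len_pos hlen
  set sp := hi (rot ω (K z)) y' with hsp
  set sm := lo (rot ω (K z)) y' with hsm
  have hlt : sm < sp := by
    rw [len_eq_hi_sub_lo (hCv z hzI) (hCc z hzI) hne] at hlen
    linarith
  set w0 : ℂ := conj ω with hw0
  have hw0n : ‖w0‖ = 1 := by rw [hw0, Complex.norm_conj, hω]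
  set d : ℝ := (sp - sm) / 2 with hd
  have hd0 : 0 < d := by rw [hd]; linarith
  set q : ℂ := w0 * ⟨sp, y'⟩ with hq
  have hqK : q ∈ K z := hi_mem (hCc z hzI) hne
  have hmK : w0 * ⟨sm, y'⟩ ∈ K z := lo_mem (hCc z hzI) hne
  set c : ℂ := q - d • w0 with hcdef
  -- moving along the chord
  have hshift : ∀ t : ℝ, q + t • w0 = w0 * ⟨sp + t, y'⟩ := by
    intro t
    rw [hq]
    have : (⟨sp + t, y'⟩ : ℂ) = ⟨sp, y'⟩ + (t : ℂ) := by apply Complex.ext <;> simp
    rw [this, mul_add, Complex.real_smul]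
    ring
  have hcmid : c = (1 / 2 : ℝ) • q + (1 / 2 : ℝ) • (w0 * ⟨sm, y'⟩) := by
    have e1 : w0 * ⟨sm, y'⟩ = q + (sm - sp) • w0 := by
      rw [hshift]; congr 2; ring
    rw [e1, hcdef, hd, smul_add, smul_smul, ← add_assoc, ← add_smul]
    have e2 : (1 / 2 + 1 / 2 : ℝ) = 1 := by norm_num
    rw [e2, one_smul, sub_eq_add_neg, ← neg_smul]
    congr 2
    ring
  have hqm : q ≠ w0 * ⟨sm, y'⟩ := by
    intro he
    have hw0ne : w0 ≠ 0 := by
      intro h0; rw [h0, norm_zero] at hw0n; exact zero_ne_one hw0n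
    have := mul_left_cancel₀ hw0ne he
    have := congrArg Complex.re this
    simp only at this
    linarith
  have hcint : c ∈ interior (K z) := by
    rw [hcmid]
    exact (h.strict z hzI) hqK hmK hqm (by norm_num) (by norm_num) (by norm_num)
  obtain ⟨η, hη, hstay⟩ := ball_stays h hzI hcint
  -- the end point is a boundary point
  set y := q.im with hy
  have hney : (sec (K z) y).Nonempty := ⟨q.re, hqK⟩
  have hre : |q.re| = len (K z) y / 2 := by
    apply le_antisymm (abs_re_le hsec hzI hqK)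
    by_contra hcon
    push Not at hcon
    have hint : q ∈ interior (K z) := mem_interior_of_lt h hsec hzI hney hcon
    obtain ⟨ε, hε, hball⟩ := Metric.nhds_basis_closedBall.mem_iff.1 (mem_interior_iff_mem_nhds.1 hint)
    have h1 : q + ε • w0 ∈ K z := by
      apply hball
      rw [mem_closedBall, dist_eq_norm, add_sub_cancel_left, norm_smul, hw0n, mul_one,
        Real.norm_of_nonneg hε.le]
    rw [hshift] at h1
    have h2 := le_hi (hCc z hzI) (show (⟨sp + ε, y'⟩ : ℂ) ∈ rot ω (K z) from h1)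
    linarith
  -- the sign
  obtain ⟨σ, hσ, hσre⟩ : ∃ σ : ℝ, (σ = 1 ∨ σ = -1) ∧ q.re = σ * (len (K z) y / 2) := by
    rcases le_total 0 q.re with h0 | h0
    · exact ⟨1, Or.inl rfl, by rw [one_mul, ← hre, abs_of_nonneg h0]⟩
    · exact ⟨-1, Or.inr rfl, by rw [neg_one_mul, ← hre, abs_of_nonpos h0, neg_neg]⟩
  have hσ1 : |σ| = 1 := by rcases hσ with h0 | h0 <;> rw [h0] <;> simp
  have hσ2 : σ * σ = 1 := by rcases hσ with h0 | h0 <;> rw [h0] <;> norm_num
  have hqeq : (⟨σ * (len (K z) y / 2), y⟩ : ℂ) = q := by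
    apply Complex.ext
    · exact hσre.symm
    · rfl
  obtain ⟨hpos, hder⟩ := hgood σ hσ y (by
    rw [hqeq, hq, ← mul_assoc, mul_conj_self_of_norm hω, one_mul]) hney
  -- comparison
  have hlenpos : ∀ᶠ w in 𝓝 z, 0 < len (K w) y := by
    exact hder.continuousAt.eventually (lt_mem_nhds hpos)
  have hIcc : ∀ᶠ w in 𝓝 z, w ∈ Icc a b := Icc_mem_nhds hz.1 hz.2
  have hmain : ∀ᶠ w in 𝓝 z, |hi (rot ω (K w)) y' - hi (rot ω (K z)) y'| ≤
      ((d + 2 * R) / η) * |len (K w) y / 2 - len (K z) y / 2| := by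
    filter_upwards [hstay, hlenpos, hIcc] with w hw1 hw2 hwI
    have hball := hw1 hwI
    have hneyw : (sec (K w) y).Nonempty := sec_nonempty_of_len_pos hw2
    have hcK : c + (η * σ : ℝ) • (1 : ℂ) ∈ K w := by
      apply hball
      rw [mem_closedBall, dist_eq_norm, add_sub_cancel_left, norm_smul, norm_one, mul_one,
        Real.norm_eq_abs, abs_mul, hσ1, mul_one, abs_of_pos hη]
    have hcK0 : c ∈ K w := hball (mem_closedBall_self hη.le)
    have hcC : (⟨sp - d, y'⟩ : ℂ) ∈ rot ω (K w) := by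
      rw [mem_rot]
      have : c = w0 * ⟨sp - d, y'⟩ := by
        have := hshift (-d)
        rw [neg_smul, ← sub_eq_add_neg, ← sub_eq_add_neg] at this
        exact this
      rw [← hw0, ← this]
      exact hcK0
    have hneC : (sec (rot ω (K w)) y').Nonempty := ⟨_, hcC⟩
    have hRnn : 0 ≤ R := by
      have := (h.body w hwI).out hcK0
      rw [mem_closedBall_zero_iff] at this
      exact (norm_nonneg _).trans this
    have hhiw : hi (rot ω (K w)) y' ≤ R := by
      have h1 := (h.body w hwI).out (hi_mem (hCc w hwI) hneC)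
      rw [mem_closedBall_zero_iff, norm_mul, Complex.norm_conj, hω, one_mul] at h1
      exact (le_abs_self _).trans ((Complex.abs_re_le_norm _).trans h1)
    have hspR : -R ≤ sp := by
      have h1 := (h.body z hzI).out hqK
      rw [mem_closedBall_zero_iff, hq, norm_mul, hw0n, one_mul] at h1
      exact (abs_le.1 ((Complex.abs_re_le_norm _).trans h1)).1
    rcases le_total z w with hzw | hzw
    · -- `K w ⊆ K z`
      have hanti := h.anti z hzI w hwI hzw
      have hf : len (K w) y ≤ len (K z) y := len_anti h hzI hwI hzw y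
      set τ := len (K z) y / 2 - len (K w) y / 2 with hτ
      have hτ0 : 0 ≤ τ := by rw [hτ]; linarith
      have hp1 : q - (τ * σ) • (1 : ℂ) ∈ K w := by
        have e : q - (τ * σ) • (1 : ℂ) = ⟨σ * (len (K w) y / 2), y⟩ := by
          apply Complex.ext
          · simp only [Complex.sub_re, Complex.real_smul, mul_one, Complex.ofReal_re]
            rw [hσre, hτ]; ring
          · simp only [Complex.sub_im, Complex.real_smul, mul_one, Complex.ofReal_im, sub_zero]
            rfl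
        rw [e]
        apply mk_mem hsec hwI hneyw
        rw [abs_mul, hσ1, one_mul, abs_of_nonneg (by linarith)]
      have hlam0 : 0 ≤ τ / (τ + η) := div_nonneg hτ0 (by linarith)
      have hmu0 : 0 ≤ η / (τ + η) := div_nonneg hη.le (by linarith)
      have hsum : η / (τ + η) + τ / (τ + η) = 1 := by
        rw [← add_div, add_comm η τ, div_self (by linarith)]
      have hcomb := (h.body w hwI).conv hp1 hcK hmu0 hlam0 hsum
      have e2 : (η / (τ + η)) • (q - (τ * σ) • (1 : ℂ)) + (τ / (τ + η)) • (c + (η * σ) • (1 : ℂ))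
          = w0 * ⟨sp + (-(τ / (τ + η) * d)), y'⟩ := by
        rw [← hshift, hcdef]
        have e3 : (η / (τ + η)) • (q - (τ * σ) • (1 : ℂ)) +
            (τ / (τ + η)) • (q - d • w0 + (η * σ) • (1 : ℂ)) =
            (η / (τ + η) + τ / (τ + η)) • q + (-(τ / (τ + η) * d)) • w0 +
            (τ / (τ + η) * (η * σ) - η / (τ + η) * (τ * σ)) • (1 : ℂ) := by
          simp only [smul_sub, smul_add, smul_smul, add_smul, sub_smul, neg_smul]
          abel
        have e4 : τ / (τ + η) * (η * σ) - η / (τ + η) * (τ * σ) = 0 := by ring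
        rw [e3, hsum, e4, one_smul, zero_smul, add_zero]
      rw [e2] at hcomb
      have h3 := le_hi (hCc w hwI) (show (⟨sp + (-(τ / (τ + η) * d)), y'⟩ : ℂ) ∈ rot ω (K w) from hcomb)
      have h4 : hi (rot ω (K w)) y' ≤ sp :=
        le_hi (hCc z hzI) (show (⟨hi (rot ω (K w)) y', y'⟩ : ℂ) ∈ rot ω (K z) from
          hanti (hi_mem (hCc w hwI) hneC))
      have h5 : τ / (τ + η) * d ≤ ((d + 2 * R) / η) * τ := by
        have : τ / (τ + η) ≤ τ / η := by
          apply div_le_div_of_nonneg_left hτ0 hη; linarith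
        calc τ / (τ + η) * d ≤ τ / η * (d + 2 * R) := by
              apply mul_le_mul this (by linarith) hd0.le (div_nonneg hτ0 hη.le)
          _ = ((d + 2 * R) / η) * τ := by ring
      rw [abs_of_nonpos (by linarith), abs_of_nonpos (by linarith)]
      have h6 : ((d + 2 * R) / η) * -(len (K w) y / 2 - len (K z) y / 2)
          = ((d + 2 * R) / η) * τ := by rw [hτ]; ring
      rw [h6]
      linarith
    · -- `K z ⊆ K w`
      have hanti := h.anti w hwI z hzI hzw
      have h4 : sp ≤ hi (rot ω (K w)) y' :=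
        le_hi (hCc w hwI) (show (⟨sp, y'⟩ : ℂ) ∈ rot ω (K w) from hanti hqK)
      set τ := hi (rot ω (K w)) y' - sp with hτ
      have hτ0 : 0 ≤ τ := by rw [hτ]; linarith
      have hp1 : q + τ • w0 ∈ K w := by
        rw [hshift]
        have : sp + τ = hi (rot ω (K w)) y' := by rw [hτ]; ring
        rw [this]
        exact hi_mem (hCc w hwI) hneC
      have hlam0 : 0 ≤ τ / (d + τ) := div_nonneg hτ0 (by linarith)
      have hmu0 : 0 ≤ d / (d + τ) := div_nonneg hd0.le (by linarith)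
      have hsum : d / (d + τ) + τ / (d + τ) = 1 := by
        rw [← add_div, div_self (by linarith)]
      have hcomb := (h.body w hwI).conv hp1 hcK hmu0 hlam0 hsum
      have e2 : (d / (d + τ)) • (q + τ • w0) + (τ / (d + τ)) • (c + (η * σ) • (1 : ℂ))
          = q + (τ / (d + τ) * (η * σ)) • (1 : ℂ) := by
        rw [hcdef]
        have e3 : (d / (d + τ)) • (q + τ • w0) + (τ / (d + τ)) • (q - d • w0 + (η * σ) • (1 : ℂ)) =
            (d / (d + τ) + τ / (d + τ)) • q + (d / (d + τ) * τ - τ / (d + τ) * d) • w0 +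
            (τ / (d + τ) * (η * σ)) • (1 : ℂ) := by
          simp only [smul_sub, smul_add, smul_smul, add_smul, sub_smul]
          abel
        have e4 : d / (d + τ) * τ - τ / (d + τ) * d = 0 := by ring
        rw [e3, hsum, e4, one_smul, zero_smul, add_zero]
      rw [e2] at hcomb
      have h5 := abs_re_le hsec hwI hcomb
      have h6 : (q + (τ / (d + τ) * (η * σ)) • (1 : ℂ)).im = y := by
        simp only [Complex.add_im, Complex.real_smul, mul_one, Complex.ofReal_im, add_zero]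
        rfl
      have h7 : (q + (τ / (d + τ) * (η * σ)) • (1 : ℂ)).re =
          σ * (len (K z) y / 2 + τ / (d + τ) * η) := by
        simp only [Complex.add_re, Complex.real_smul, mul_one, Complex.ofReal_re]
        rw [hσre]; ring
      rw [h6, h7, abs_mul, hσ1, one_mul, abs_of_nonneg (by positivity)] at h5
      -- `τ η ≤ (d + τ) (f w - f z)`
      have h8 : τ / (d + τ) * η ≤ len (K w) y / 2 - len (K z) y / 2 := by linarith
      have h9 : τ * η ≤ (d + τ) * (len (K w) y / 2 - len (K z) y / 2) := by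
        have : τ / (d + τ) * η * (d + τ) = τ * η := by field_simp
        nlinarith
      have hτR : τ ≤ 2 * R := by rw [hτ]; linarith
      have h10 : 0 ≤ len (K w) y / 2 - len (K z) y / 2 := le_trans (by positivity) h8
      have h11 : τ ≤ ((d + 2 * R) / η) * (len (K w) y / 2 - len (K z) y / 2) := by
        rw [div_mul_eq_mul_div, le_div_iff₀ hη]
        nlinarith
      rw [abs_of_nonneg hτ0, abs_of_nonneg h10]
      exact h11
  have hder2 : HasDerivAt (fun w => len (K w) y / 2) 0 z := by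
    have := hder.div_const 2
    rwa [zero_div] at this
  exact hasDerivAt_zero_of_le hder2 hmain

end Pool.Agent.H81St
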