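import Pool.Agent.Lib.H81.St.Zone5

/-! The flux of the test field through the boundary of the zone. -/

open MeasureTheory Set Metric Filter Topology
open scoped ENNReal Pointwise ComplexConjugate

namespace Pool.Agent.H81St

variable {a b r R : ℝ} {K : ℝ → Set ℂ}

/-- the open part of the solid -/
def sol' (a b : ℝ) (K : ℝ → Set ℂ) : Set (ℂ × ℝ) := {p | p.2 ∈ Ioo a b ∧ p.1 ∈ K p.2}

theorem measurableSet_sol' (h : Fam a b r R K) : MeasurableSet (sol' a b K) := by
  have : sol' a b K = solid a b K ∩ {p | p.2 ∈ Ioo a b} := by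
    ext p
    exact ⟨fun hp => ⟨⟨Ioo_subset_Icc_self hp.1, hp.2⟩, hp.1⟩, fun hp => ⟨hp.2, hp.1.2⟩⟩
  rw [this]
  exact (isClosed_solid h).measurableSet.inter (measurable_snd measurableSet_Ioo)

/-- polar integration in the second factor -/
theorem integral_pr {k : ℕ} {F : ℂ × ℝ → ℝ} (hF : Measurable F)
    (hi : Integrable (fun p : ℂ × W (k + 1) => F (p.1, ‖p.2‖))) :
    ∫ X : VV (k + 1), F (pr X) = ((k + 1 : ℕ) : ℝ) * (volume (ball (0 : W (k + 1)) 1)).toReal *
      ∫ x : ℂ, ∫ z in Ioi (0 : ℝ), z ^ k * F (x, z) := by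
  have e1 : ∫ X : VV (k + 1), F (pr X) = ∫ p : ℂ × W (k + 1), F (p.1, ‖p.2‖) := by
    have := (WithLp.volume_preserving_ofLp ℂ (W (k + 1))).integral_comp
      (MeasurableEquiv.toLp 2 (ℂ × W (k + 1))).symm.measurableEmbedding
      (fun p : ℂ × W (k + 1) => F (p.1, ‖p.2‖))
    exact this
  rw [e1, Measure.volume_eq_prod]
  rw [Measure.volume_eq_prod] at hi
  rw [integral_prod _ hi, ← integral_const_mul]
  refine integral_congr_ae (Eventually.of_forall fun x => ?_)
  simp only []
  have e2 := integral_fun_norm_addHaar (E := W (k + 1)) volume (fun z => F (x, z))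
  rw [e2]
  simp only [finrank_euclideanSpace, Fintype.card_fin, Nat.add_sub_cancel, smul_eq_mul, nsmul_eq_mul,
    Measure.real]
  ring

theorem flux_formula {k : ℕ} (h : Fam a b r R K) (ha : 0 < a) (hab : a < b)
    {A B : ℂ × ℝ → ℝ} (hA1 : ContDiff ℝ 1 A) (hB1 : ContDiff ℝ 1 B)
    (hA2 : HasCompactSupport A) (hB2 : HasCompactSupport B)
    (hA : tsupport A ⊆ {p : ℂ × ℝ | p.2 ∈ Ioo a b})
    (hB : tsupport B ⊆ {p : ℂ × ℝ | p.2 ∈ Ioo a b}) :
    ∫ X in {X : VV (k + 1) | ‖X.snd‖ ∈ Ioo a b ∧ X.fst ∈ K ‖X.snd‖}, dvg (fld (k + 1) A B) X =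
      ((k + 1 : ℕ) : ℝ) * (volume (ball (0 : W (k + 1)) 1)).toReal *
        ((∫ z in Ioo a b, z ^ k * ∫ x in K z, fderiv ℝ A (x, z) (1, 0)) +
        ∫ x in K a, HH a b K x ^ k * B (x, HH a b K x)) := by
  have hQ1 := contDiff_quo ha hB1 hB
  have hQs : tsupport (quo B) ⊆ {p : ℂ × ℝ | p.2 ∈ Ioo a b} := tsupport_quo.trans hB
  have hQ2 : HasCompactSupport (quo B) := hB2.of_isClosed_subset (isClosed_tsupport _) tsupport_quo
  have hsm := measurableSet_sol' h
  -- continuity and supports
  have hDA : Continuous (fun p => fderiv ℝ A p (1, 0)) :=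
    (hA1.continuous_fderiv one_ne_zero).clm_apply continuous_const
  have hDQ : Continuous (fun p => fderiv ℝ (quo B) p (0, 1)) :=
    (hQ1.continuous_fderiv one_ne_zero).clm_apply continuous_const
  have hDD : Continuous (DD (k + 1) A B) := by
    unfold DD
    exact (hDA.add (continuous_snd.mul hDQ)).add (continuous_const.mul hQ1.continuous)
  have zA : ∀ p, p ∉ tsupport A → fderiv ℝ A p = 0 := fun p hp => by
    rw [(notMem_tsupport_iff_eventuallyEq.1 hp).fderiv_eq]
    exact fderiv_const_apply 0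
  have zQ : ∀ p, p ∉ tsupport (quo B) → fderiv ℝ (quo B) p = 0 := fun p hp => by
    rw [(notMem_tsupport_iff_eventuallyEq.1 hp).fderiv_eq]
    exact fderiv_const_apply 0
  have hsup : ∀ p, p ∉ tsupport A ∪ tsupport (quo B) → DD (k + 1) A B p = 0 := by
    intro p hp
    have h1 : p ∉ tsupport A := fun hh => hp (Or.inl hh)
    have h2 : p ∉ tsupport (quo B) := fun hh => hp (Or.inr hh)
    unfold DD
    rw [zA p h1, zQ p h2, image_eq_zero_of_notMem_tsupport h2]
    simp
  set F : ℂ × ℝ → ℝ := (sol' a b K).indicator (DD (k + 1) A B) with hF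
  have hFm : Measurable F := hDD.measurable.indicator hsm
  have hcomp : IsCompact (tsupport A ∪ tsupport (quo B)) := hA2.isCompact.union hQ2.isCompact
  have hi : Integrable (fun p : ℂ × W (k + 1) => F (p.1, ‖p.2‖)) := by
    have hc : Continuous (fun p : ℂ × W (k + 1) => DD (k + 1) A B (p.1, ‖p.2‖)) :=
      hDD.comp (continuous_fst.prodMk continuous_snd.norm)
    have hcs : HasCompactSupport (fun p : ℂ × W (k + 1) => DD (k + 1) A B (p.1, ‖p.2‖)) := by
      have hK := (isCompact_pr_preimage (m := k + 1) hcomp).image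
        (WithLp.prodContinuousLinearEquiv 2 ℝ ℂ (W (k + 1))).continuous
      refine HasCompactSupport.intro hK ?_
      intro p hp
      apply hsup
      intro hmem
      exact hp ⟨WithLp.toLp 2 p, hmem, rfl⟩
    have h1 := hc.integrable_of_hasCompactSupport (μ := volume) hcs
    have hm2 : MeasurableSet {p : ℂ × W (k + 1) | (p.1, ‖p.2‖) ∈ sol' a b K} :=
      (measurable_fst.prodMk measurable_snd.norm) hsm
    refine (h1.indicator hm2).congr (Eventually.of_forall fun p => ?_)
    by_cases hp : (p.1, ‖p.2‖) ∈ sol' a b K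
    · simp only [hF]
      rw [indicator_of_mem hp, indicator_of_mem (show p ∈ {p : ℂ × W (k + 1) | (p.1, ‖p.2‖) ∈
        sol' a b K} from hp)]
    · simp only [hF]
      rw [indicator_of_notMem hp, indicator_of_notMem (show p ∉ {p : ℂ × W (k + 1) |
        (p.1, ‖p.2‖) ∈ sol' a b K} from hp)]
  -- reduction to `pr`
  have e0 : ∫ X in {X : VV (k + 1) | ‖X.snd‖ ∈ Ioo a b ∧ X.fst ∈ K ‖X.snd‖},
      dvg (fld (k + 1) A B) X = ∫ X : VV (k + 1), F (pr X) := by
    have hm3 : MeasurableSet {X : VV (k + 1) | ‖X.snd‖ ∈ Ioo a b ∧ X.fst ∈ K ‖X.snd‖} :=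
      continuous_pr.measurable hsm
    rw [← integral_indicator hm3]
    refine integral_congr_ae (Eventually.of_forall fun X => ?_)
    by_cases hX : pr X ∈ sol' a b K
    · simp only [hF]
      rw [indicator_of_mem hX, indicator_of_mem (show X ∈ {X : VV (k + 1) | ‖X.snd‖ ∈ Ioo a b ∧
        X.fst ∈ K ‖X.snd‖} from hX), dvg_fld ha hA1 hB1 hA hB]
    · simp only [hF]
      rw [indicator_of_notMem hX, indicator_of_notMem (show X ∉ {X : VV (k + 1) |
        ‖X.snd‖ ∈ Ioo a b ∧ X.fst ∈ K ‖X.snd‖} from hX)]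
  rw [e0, integral_pr hFm hi]
  congr 1
  -- the two parts
  set w1 : ℂ × ℝ → ℝ := fun p => p.2 ^ k * fderiv ℝ A p (1, 0) with hw1
  set w2 : ℂ × ℝ → ℝ := fun p => p.2 ^ k * (p.2 * fderiv ℝ (quo B) p (0, 1) +
    ((k + 1 : ℕ) : ℝ) * quo B p) with hw2
  have hw1c : Continuous w1 := (continuous_snd.pow k).mul hDA
  have hw2c : Continuous w2 := (continuous_snd.pow k).mul
    ((continuous_snd.mul hDQ).add (continuous_const.mul hQ1.continuous))
  have hw1z : ∀ p, p ∉ tsupport A → w1 p = 0 := fun p hp => by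
    simp only [hw1]; rw [zA p hp]; simp
  have hw2z : ∀ p, p ∉ tsupport (quo B) → w2 p = 0 := fun p hp => by
    simp only [hw2]; rw [zQ p hp, image_eq_zero_of_notMem_tsupport hp]; simp
  have hw1s : HasCompactSupport w1 := HasCompactSupport.intro hA2.isCompact hw1z
  have hw2s : HasCompactSupport w2 := HasCompactSupport.intro hQ2.isCompact hw2z
  have hi1 : Integrable ((sol' a b K).indicator w1) (volume : Measure (ℂ × ℝ)) :=
    (hw1c.integrable_of_hasCompactSupport hw1s).indicator hsm
  have hi2 : Integrable ((sol' a b K).indicator w2) (volume : Measure (ℂ × ℝ)) :=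
    (hw2c.integrable_of_hasCompactSupport hw2s).indicator hsm
  have e1 : ∀ x : ℂ, ∫ z in Ioi (0 : ℝ), z ^ k * F (x, z) =
      ∫ z : ℝ, ((sol' a b K).indicator w1 (x, z) + (sol' a b K).indicator w2 (x, z)) := by
    intro x
    rw [← integral_indicator measurableSet_Ioi]
    refine integral_congr_ae (Eventually.of_forall fun z => ?_)
    by_cases hz : (x, z) ∈ sol' a b K
    · have hz0 : z ∈ Ioi (0 : ℝ) := ha.trans hz.1.1
      simp only [hF]
      rw [indicator_of_mem hz0, indicator_of_mem hz, indicator_of_mem hz, indicator_of_mem hz]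
      simp only [hw1, hw2, DD]
      ring
    · simp only [hF]
      rw [indicator_of_notMem hz, indicator_of_notMem hz]
      by_cases hz0 : z ∈ Ioi (0 : ℝ)
      · rw [indicator_of_mem hz0, indicator_of_notMem hz]; simp
      · rw [indicator_of_notMem hz0]; simp
  have e2 : ∫ x : ℂ, ∫ z in Ioi (0 : ℝ), z ^ k * F (x, z) =
      (∫ p : ℂ × ℝ, (sol' a b K).indicator w1 p) + ∫ p : ℂ × ℝ, (sol' a b K).indicator w2 p := by
    rw [← integral_add hi1 hi2]
    have hi3 := hi1.add hi2
    rw [Measure.volume_eq_prod] at hi3 ⊢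
    have := integral_prod _ hi3
    simp only [Pi.add_apply] at this
    rw [this]
    exact integral_congr_ae (Eventually.of_forall e1)
  rw [e2]
  congr 1
  · -- horizontal
    rw [Measure.volume_eq_prod] at hi1 ⊢
    rw [integral_prod_symm _ hi1, ← integral_indicator measurableSet_Ioo]
    refine integral_congr_ae (Eventually.of_forall fun z => ?_)
    simp only []
    by_cases hz : z ∈ Ioo a b
    · rw [indicator_of_mem hz]
      have hKz : MeasurableSet (K z) :=
        (h.body z (Ioo_subset_Icc_self hz)).comp.isClosed.measurableSet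
      rw [← integral_const_mul, ← integral_indicator hKz]
      refine integral_congr_ae (Eventually.of_forall fun x => ?_)
      by_cases hx : x ∈ K z
      · simp only []
        rw [indicator_of_mem hx, indicator_of_mem (show (x, z) ∈ sol' a b K from ⟨hz, hx⟩)]
      · simp only []
        rw [indicator_of_notMem hx, indicator_of_notMem (show (x, z) ∉ sol' a b K from
          fun hh => hx hh.2)]
    · rw [indicator_of_notMem hz]
      have : ∀ x : ℂ, (sol' a b K).indicator w1 (x, z) = 0 := fun x =>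
        indicator_of_notMem (show (x, z) ∉ sol' a b K from fun hh => hz hh.1) w1
      simp only [this, integral_zero]
  · -- vertical
    have hKa : MeasurableSet (K a) := (h.body a ⟨le_rfl, hab.le⟩).comp.isClosed.measurableSet
    rw [Measure.volume_eq_prod] at hi2 ⊢
    rw [integral_prod _ hi2, ← integral_indicator hKa]
    refine integral_congr_ae (Eventually.of_forall fun x => ?_)
    simp only []
    by_cases hx : x ∈ K a
    · rw [indicator_of_mem hx]
      obtain ⟨hH1, hH2⟩ := HH_mem h hab hx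
      set H := HH a b K x with hHdef
      have hwb : w2 (x, b) = 0 := hw2z _ (fun hh => lt_irrefl _ (hQs hh).2)
      have e3 : ∀ z : ℝ, (sol' a b K).indicator w2 (x, z) =
          (Ioc a H).indicator (fun z => w2 (x, z)) z := by
        intro z
        by_cases hz : z ∈ Ioc a H
        · rw [indicator_of_mem hz]
          have hzI : z ∈ Icc a b := ⟨hz.1.le, hz.2.trans hH1.2⟩
          have hxz : x ∈ K z := (le_HH_iff h hab hx hzI).1 hz.2
          by_cases hzb : z < b
          · rw [indicator_of_mem (show (x, z) ∈ sol' a b K from ⟨⟨hz.1, hzb⟩, hxz⟩)]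
          · have : z = b := le_antisymm hzI.2 (not_lt.1 hzb)
            subst this
            rw [hwb]
            rw [indicator_of_notMem (show (x, z) ∉ sol' a z K from
              fun hh => lt_irrefl _ hh.1.2)]
        · rw [indicator_of_notMem hz]
          apply indicator_of_notMem
          intro hh
          exact hz ⟨hh.1.1, (le_HH_iff h hab hx (Ioo_subset_Icc_self hh.1)).2 hh.2⟩
      simp only [e3]
      rw [integral_indicator measurableSet_Ioc, ← intervalIntegral.integral_of_le hH1.1]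
      have hder : ∀ z : ℝ, HasDerivAt (fun z : ℝ => z ^ (k + 1) * quo B (x, z)) (w2 (x, z)) z := by
        intro z
        have h1 : HasDerivAt (fun z : ℝ => (x, z)) ((0 : ℂ), (1 : ℝ)) z :=
          (hasDerivAt_const z x).prodMk (hasDerivAt_id z)
        have h2 : HasDerivAt (fun z : ℝ => quo B (x, z)) (fderiv ℝ (quo B) (x, z) (0, 1)) z :=
          (hQ1.differentiable one_ne_zero _).hasFDerivAt.comp_hasDerivAt z h1
        have h3 := (hasDerivAt_pow (k + 1) z).mul h2
        have h4 : w2 (x, z) = ((k + 1 : ℕ) : ℝ) * z ^ (k + 1 - 1) * quo B (x, z) +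
            z ^ (k + 1) * fderiv ℝ (quo B) (x, z) (0, 1) := by
          simp only [hw2, Nat.add_sub_cancel]
          ring
        rw [h4]
        exact h3
      have hcont : Continuous (fun z : ℝ => w2 (x, z)) := hw2c.comp (Continuous.prodMk_right x)
      rw [intervalIntegral.integral_eq_sub_of_hasDerivAt (fun z _ => hder z)
        (hcont.intervalIntegrable _ _)]
      have hqa : quo B (x, a) = 0 :=
        image_eq_zero_of_notMem_tsupport (fun hh => lt_irrefl _ (hQs hh).1)
      rw [hqa, mul_zero, sub_zero]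
      have := quo_mul ha hB (x, H)
      simp only [] at this
      rw [← this]
      ring
    · rw [indicator_of_notMem hx]
      have : ∀ z : ℝ, (sol' a b K).indicator w2 (x, z) = 0 := by
        intro z
        apply indicator_of_notMem
        intro hh
        exact hx (h.anti a ⟨le_rfl, hab.le⟩ z (Ioo_subset_Icc_self hh.1) hh.1.1.le hh.2)
      simp only [this, integral_zero]

theorem zone_lower' {m : ℕ} (hm : 1 ≤ m) {r' : ℝ} (ha : 0 < a)
    (hab : a < b) (hr' : 0 < r') (hr : r' < r) (h : Fam a b r R K)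
    (hsec : Secs a b K) (hs : Sing a b K) {ε : ℝ} (hε : 0 < ε) :
    ∃ φ : VV m → VV m, ContDiff ℝ 1 φ ∧ HasCompactSupport φ ∧ (∀ x, ‖φ x‖ ≤ 1) ∧
      tsupport φ ⊆ {X | ‖X.snd‖ ∈ Ioo a b} ∧
      m * (volume (ball (0 : W m) 1)).toReal *
          (a ^ (m - 1) * ((b - a) * (Real.pi * (a + b) + 4 * r')) - ε) ≤
        ∫ X in {X : VV m | ‖X.snd‖ ∈ Ioo a b ∧ X.fst ∈ K ‖X.snd‖}, dvg φ X := by
  obtain ⟨k, rfl⟩ : ∃ k, m = k + 1 := ⟨m - 1, by omega⟩
  have hak : 0 < a ^ k := pow_pos ha k
  obtain ⟨A, B, hA1, hB1, hA2, hB2, hA3, hB3, h1, h2⟩ := exists_core h hsec hs ha hab hr' hr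
    (show 0 < ε / a ^ k by positivity)
  refine ⟨fld (k + 1) A B, contDiff_fld ha hA1 hB1 hA3 hB3, hasCompactSupport_fld hA2 hB2,
    norm_fld_le ha hB3 h1, ?_, ?_⟩
  · refine tsupport_fld.trans ?_
    rintro X (hX | hX)
    · exact hA3 hX
    · exact hB3 hX
  · rw [flux_formula h ha hab hA1 hB1 hA2 hB2 hA3 hB3]
    apply mul_le_mul_of_nonneg_left _ (by positivity)
    have h3 := h2 k
    have h4 : a ^ k * (ε / a ^ k) = ε := by field_simp
    rw [mul_sub, h4] at h3
    simpa using h3

end Pool.Agent.H81St
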