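import Pool.Agent.Lib.H81.St.Defs

/-! Measure-theoretic tools for the zone estimate. -/

open MeasureTheory Set Metric Filter Topology
open scoped ENNReal Pointwise ComplexConjugate

namespace Pool.Agent.H81St

/-! ### Fubini along horizontal sections -/

theorem measurableSet_sec {K : Set ℂ} (hK : MeasurableSet K) (y : ℝ) : MeasurableSet (sec K y) := by
  have : Measurable (fun s : ℝ => (⟨s, y⟩ : ℂ)) := by
    have h : (fun s : ℝ => (⟨s, y⟩ : ℂ)) = fun s : ℝ => (s : ℂ) + (y : ℂ) * Complex.I := by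
      funext s; apply Complex.ext <;> simp
    rw [h]; fun_prop
  exact this hK

theorem volume_eq_lintegral_sec {K : Set ℂ} (hK : MeasurableSet K) :
    volume K = ∫⁻ y, volume (sec K y) := by
  have h1 : volume K = volume (Complex.measurableEquivRealProd.symm ⁻¹' K) :=
    (Complex.volume_preserving_equiv_real_prod.symm.measure_preimage hK.nullMeasurableSet).symm
  rw [h1, Measure.volume_eq_prod, Measure.prod_apply_symm
    (Complex.measurableEquivRealProd.symm.measurable hK)]
  rfl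

theorem volume_eq_zero_of_sec {K : Set ℂ} (hK : MeasurableSet K)
    (h : ∀ᵐ y : ℝ, volume (sec K y) = 0) : volume K = 0 := by
  rw [volume_eq_lintegral_sec hK]
  rw [lintegral_congr_ae h]
  simp

theorem setIntegral_eq_sec {K : Set ℂ} (hK : MeasurableSet K) {g : ℂ → ℝ}
    (hg : IntegrableOn g K) :
    ∫ x in K, g x = ∫ y, ∫ s in sec K y, g ⟨s, y⟩ := by
  have h0 : ∫ x in K, g x = ∫ x, K.indicator g x := (integral_indicator hK).symm
  have hi : Integrable (K.indicator g) := (integrable_indicator_iff hK).2 hg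
  have h1 : ∫ x, K.indicator g x
      = ∫ p : ℝ × ℝ, K.indicator g (Complex.measurableEquivRealProd.symm p) :=
    ((Complex.volume_preserving_equiv_real_prod.symm).integral_comp
      (Complex.measurableEquivRealProd.symm.measurableEmbedding) _).symm
  have hi2 : Integrable (fun p : ℝ × ℝ => K.indicator g (Complex.measurableEquivRealProd.symm p)) :=
    ((Complex.volume_preserving_equiv_real_prod.symm).integrable_comp_emb
      (Complex.measurableEquivRealProd.symm.measurableEmbedding)).2 hi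
  rw [h0, h1, Measure.volume_eq_prod]
  rw [Measure.volume_eq_prod] at hi2
  rw [integral_prod_symm _ hi2]
  refine integral_congr_ae (Eventually.of_forall fun y => ?_)
  have h2 : (fun s : ℝ => K.indicator g (Complex.measurableEquivRealProd.symm (s, y)))
      = (sec K y).indicator (fun s => g ⟨s, y⟩) := by
    funext s
    by_cases h : (⟨s, y⟩ : ℂ) ∈ K
    · rw [indicator_of_mem (show s ∈ sec K y from h)]
      exact indicator_of_mem (show Complex.measurableEquivRealProd.symm (s, y) ∈ K from h) g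
    · rw [indicator_of_notMem (show s ∉ sec K y from h)]
      exact indicator_of_notMem (show Complex.measurableEquivRealProd.symm (s, y) ∉ K from h) g
  simp only []
  rw [h2, integral_indicator (measurableSet_sec hK y)]

/-! ### Separation of mutually singular measures by a smooth function -/

theorem exists_contDiff_bump {X : Type*} [NormedAddCommGroup X] [NormedSpace ℝ X]
    [FiniteDimensional ℝ X] {C U : Set X} (hC : IsCompact C) (hU : IsOpen U) (hCU : C ⊆ U) :
    ∃ χ : X → ℝ, ContDiff ℝ 1 χ ∧ HasCompactSupport χ ∧ tsupport χ ⊆ U ∧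
      (∀ x, χ x ∈ Icc (0 : ℝ) 1) ∧ ∀ x ∈ C, χ x = 1 := by
  obtain ⟨L, hL, hCL, hLU⟩ := exists_compact_between hC hU hCU
  obtain ⟨f, hf1, hf0, hf⟩ := exists_contMDiffMap_zero_one_of_isClosed (n := 1)
    (modelWithCornersSelf ℝ X) (s := (interior L)ᶜ) (t := C) isOpen_interior.isClosed_compl
    hC.isClosed (disjoint_left.2 fun x hx hx' => hx (hCL hx'))
  have hsup : tsupport (f : X → ℝ) ⊆ L := by
    apply closure_minimal _ hL.isClosed
    intro x hx
    by_contra hxL
    exact hx (hf1 (fun h => hxL (interior_subset h)))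
  refine ⟨f, f.contMDiff.contDiff, HasCompactSupport.of_support_subset_isCompact hL
    ((subset_tsupport _).trans hsup), hsup.trans hLU, hf, fun x hx => hf0 hx⟩

theorem exists_separating {X : Type*} [NormedAddCommGroup X] [NormedSpace ℝ X]
    [FiniteDimensional ℝ X] [MeasurableSpace X] [BorelSpace X] {μ ν : Measure X}
    [IsFiniteMeasure μ] [IsFiniteMeasure ν] {Γ U : Set X} (hΓ : MeasurableSet Γ)
    (hμ : μ Γᶜ = 0) (hν : ν Γ = 0) (hU : IsOpen U) (hμU : μ Uᶜ = 0) {ε : ℝ} (hε : 0 < ε) :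
    ∃ χ : X → ℝ, ContDiff ℝ 1 χ ∧ HasCompactSupport χ ∧ tsupport χ ⊆ U ∧
      (∀ x, χ x ∈ Icc (0 : ℝ) 1) ∧ (μ univ).toReal - ε ≤ ∫ x, χ x ∂μ ∧ ∫ x, χ x ∂ν ≤ ε := by
  have hε' : ENNReal.ofReal ε ≠ 0 := (ENNReal.ofReal_pos.2 hε).ne'
  obtain ⟨C, hCΓ, hCc, hCm⟩ := (hΓ.inter hU.measurableSet).exists_isCompact_lt_add
    (μ := μ) (measure_ne_top _ _) hε'
  obtain ⟨O, hCO, hOo, hOm⟩ := C.exists_isOpen_lt_add (μ := ν) (measure_ne_top _ _) hε'
  have hνC : ν C = 0 := measure_mono_null (hCΓ.trans inter_subset_left) hν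
  obtain ⟨χ, h1, h2, h3, h4, h5⟩ := exists_contDiff_bump hCc (hOo.inter hU)
    (subset_inter hCO (hCΓ.trans inter_subset_right))
  have hint : ∀ (m : Measure X) [IsFiniteMeasure m], Integrable χ m := fun m _ =>
    h1.continuous.integrable_of_hasCompactSupport h2
  refine ⟨χ, h1, h2, h3.trans inter_subset_right, h4, ?_, ?_⟩
  · have hu : μ univ = μ (Γ ∩ U) := by
      have : (univ : Set X) = (Γ ∩ U) ∪ (Γ ∩ U)ᶜ := (union_compl_self _).symm
      apply le_antisymm _ (measure_mono (subset_univ _))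
      rw [this]
      refine (measure_union_le _ _).trans ?_
      have h0 : μ (Γ ∩ U)ᶜ = 0 := by
        rw [compl_inter]
        exact measure_union_null hμ hμU
      rw [h0, add_zero]
    have h6 : (μ univ).toReal ≤ (μ C).toReal + ε := by
      rw [hu]
      have := ENNReal.toReal_mono (by finiteness) hCm.le
      rwa [ENNReal.toReal_add (by finiteness) (by finiteness), ENNReal.toReal_ofReal hε.le] at this
    have h7 : (μ C).toReal ≤ ∫ x, χ x ∂μ := by
      have : (μ C).toReal = ∫ x, C.indicator (fun _ => (1 : ℝ)) x ∂μ := by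
        rw [integral_indicator hCc.measurableSet, setIntegral_const]
        simp [Measure.real]
      rw [this]
      refine integral_mono ((integrable_indicator_iff hCc.measurableSet).2
        (integrableOn_const (measure_ne_top _ _))) (hint μ) fun x => ?_
      by_cases hx : x ∈ C
      · simp only [indicator_of_mem hx, h5 x hx, le_refl]
      · simp only [indicator_of_notMem hx]; exact (h4 x).1
    linarith
  · have h8 : ∫ x, χ x ∂ν ≤ (ν O).toReal := by
      have : (ν O).toReal = ∫ x, O.indicator (fun _ => (1 : ℝ)) x ∂ν := by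
        rw [integral_indicator hOo.measurableSet, setIntegral_const]
        simp [Measure.real]
      rw [this]
      refine integral_mono (hint ν) ((integrable_indicator_iff hOo.measurableSet).2
        (integrableOn_const (measure_ne_top _ _))) fun x => ?_
      by_cases hx : x ∈ O
      · simp only [indicator_of_mem hx]; exact (h4 x).2
      · simp only [indicator_of_notMem hx]
        have : x ∉ tsupport χ := fun h => hx (h3 h).1
        rw [image_eq_zero_of_notMem_tsupport this]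
    refine h8.trans ?_
    have := ENNReal.toReal_mono (by finiteness) hOm.le
    rwa [hνC, zero_add, ENNReal.toReal_ofReal hε.le] at this

/-! ### Zero derivative of a monotone function, along a sequence -/

theorem hasDerivAt_zero_of_seq {F : ℝ → ℝ} {a b z : ℝ} (hF : AntitoneOn F (Icc a b))
    (hz : z ∈ Ioo a b)
    (h : Tendsto (fun n : ℕ => ((n : ℝ) + 1) * (F (z - 1 / ((n : ℝ) + 1)) - F (z + 1 / ((n : ℝ) + 1))))
      atTop (𝓝 0)) : HasDerivAt F 0 z := by
  rw [hasDerivAt_iff_isLittleO, Asymptotics.isLittleO_iff]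
  intro c hc
  have h1 : ∀ᶠ n : ℕ in atTop, ((n : ℝ) + 1) *
      (F (z - 1 / ((n : ℝ) + 1)) - F (z + 1 / ((n : ℝ) + 1))) < c / 2 :=
    h.eventually_lt_const (by positivity)
  have h2 : ∀ᶠ n : ℕ in atTop, a < z - 1 / ((n : ℝ) + 1) ∧ z + 1 / ((n : ℝ) + 1) < b := by
    have := tendsto_one_div_add_atTop_nhds_zero_nat (𝕜 := ℝ)
    have e1 := this.eventually_lt_const (show (0 : ℝ) < z - a by linarith [hz.1])
    have e2 := this.eventually_lt_const (show (0 : ℝ) < b - z by linarith [hz.2])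
    filter_upwards [e1, e2] with n h1 h2
    constructor <;> linarith
  obtain ⟨N, hN⟩ := eventually_atTop.1 (h1.and h2)
  have hNpos : (0 : ℝ) < 1 / ((N : ℝ) + 2) := by positivity
  have h3 : ∀ᶠ x in 𝓝 z, |x - z| < 1 / ((N : ℝ) + 2) := by
    have := Metric.ball_mem_nhds z hNpos
    filter_upwards [this] with x hx
    rwa [Metric.mem_ball, Real.dist_eq] at hx
  filter_upwards [h3] with x hx
  simp only [smul_eq_mul, mul_zero, sub_zero, Real.norm_eq_abs]
  by_cases hxz : x = z
  · subst hxz; simp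
  have hpos : 0 < |x - z| := abs_pos.2 (sub_ne_zero.2 hxz)
  -- choose n with 1/(n+2) ≤ |x-z| < 1/(n+1)
  obtain ⟨n, hnN, hn1, hn2⟩ : ∃ n : ℕ, N ≤ n ∧ |x - z| ≤ 1 / ((n : ℝ) + 1) ∧
      1 / ((n : ℝ) + 2) ≤ |x - z| := by
    have hex : ∃ k : ℕ, 1 / ((k : ℝ) + 2) ≤ |x - z| := by
      obtain ⟨k, hk⟩ := exists_nat_gt (1 / |x - z|)
      refine ⟨k, ?_⟩
      rw [div_le_iff₀ (by positivity)]
      rw [div_lt_iff₀ hpos] at hk
      nlinarith
    classical
    let k := Nat.find hex
    have hk : 1 / ((k : ℝ) + 2) ≤ |x - z| := Nat.find_spec hex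
    have hkN : N < k := by
      by_contra hcon
      push Not at hcon
      have : 1 / ((N : ℝ) + 2) ≤ 1 / ((k : ℝ) + 2) := by
        apply one_div_le_one_div_of_le (by positivity)
        have : (k : ℝ) ≤ N := by exact_mod_cast hcon
        linarith
      linarith
    have hk1 := Nat.find_min hex (m := k - 1) (by omega)
    push Not at hk1
    refine ⟨k, hkN.le, ?_, hk⟩
    have h5 : ((k - 1 : ℕ) : ℝ) = (k : ℝ) - 1 := by
      rw [Nat.cast_sub (by omega)]; simp
    rw [h5] at hk1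
    have h6 : (k : ℝ) - 1 + 2 = (k : ℝ) + 1 := by ring
    rw [h6] at hk1
    exact hk1.le
  obtain ⟨hc1, ha1, hb1⟩ := hN n hnN
  have hle := abs_le.1 hn1
  have hx1 : z - 1 / ((n : ℝ) + 1) ≤ x := by linarith [hle.1]
  have hx2 : x ≤ z + 1 / ((n : ℝ) + 1) := by linarith [hle.2]
  have hq : (0 : ℝ) < 1 / ((n : ℝ) + 1) := by positivity
  have m1 : F x ≤ F (z - 1 / ((n : ℝ) + 1)) := hF ⟨ha1.le, by linarith [hz.2]⟩
    ⟨by linarith, by linarith⟩ hx1
  have m2 : F (z + 1 / ((n : ℝ) + 1)) ≤ F x := hF ⟨by linarith, by linarith⟩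
    ⟨by linarith [hz.1], hb1.le⟩ hx2
  have m3 : F z ≤ F (z - 1 / ((n : ℝ) + 1)) := hF ⟨ha1.le, by linarith [hz.2]⟩
    ⟨hz.1.le, hz.2.le⟩ (by linarith)
  have m4 : F (z + 1 / ((n : ℝ) + 1)) ≤ F z := hF ⟨hz.1.le, hz.2.le⟩
    ⟨by linarith [hz.1], hb1.le⟩ (by linarith)
  have h7 : |F x - F z| ≤ F (z - 1 / ((n : ℝ) + 1)) - F (z + 1 / ((n : ℝ) + 1)) := by
    rw [abs_le]; constructor <;> linarith
  have h8 : F (z - 1 / ((n : ℝ) + 1)) - F (z + 1 / ((n : ℝ) + 1)) ≤ c / 2 / ((n : ℝ) + 1) := by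
    rw [le_div_iff₀ (by positivity)]; linarith
  have h9 : c / 2 / ((n : ℝ) + 1) ≤ c * (1 / ((n : ℝ) + 2)) := by
    rw [div_div, mul_one_div, div_le_div_iff₀ (by positivity) (by positivity)]
    have : (0 : ℝ) ≤ n := Nat.cast_nonneg n
    nlinarith
  calc |F x - F z| ≤ c * (1 / ((n : ℝ) + 2)) := by linarith
    _ ≤ c * |x - z| := by gcongr

theorem seq_of_hasDerivAt_zero {F : ℝ → ℝ} {z : ℝ} (h : HasDerivAt F 0 z) :
    Tendsto (fun n : ℕ => ((n : ℝ) + 1) * (F (z - 1 / ((n : ℝ) + 1)) - F (z + 1 / ((n : ℝ) + 1))))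
      atTop (𝓝 0) := by
  rw [hasDerivAt_iff_isLittleO, Asymptotics.isLittleO_iff] at h
  rw [Metric.tendsto_atTop]
  intro ε hε
  have h1 := h (show (0 : ℝ) < ε / 3 by positivity)
  have ht := tendsto_one_div_add_atTop_nhds_zero_nat (𝕜 := ℝ)
  have e1 : Tendsto (fun n : ℕ => z - 1 / ((n : ℝ) + 1)) atTop (𝓝 z) := by
    simpa using (tendsto_const_nhds (x := z)).sub ht
  have e2 : Tendsto (fun n : ℕ => z + 1 / ((n : ℝ) + 1)) atTop (𝓝 z) := by
    simpa using (tendsto_const_nhds (x := z)).add ht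
  obtain ⟨N, hN⟩ := eventually_atTop.1 ((e1.eventually h1).and (e2.eventually h1))
  refine ⟨N, fun n hn => ?_⟩
  obtain ⟨h2, h3⟩ := hN n hn
  simp only [smul_eq_mul, mul_zero, sub_zero, Real.norm_eq_abs] at h2 h3
  have hp : (0 : ℝ) < (n : ℝ) + 1 := by positivity
  have hq : |z - 1 / ((n : ℝ) + 1) - z| = 1 / ((n : ℝ) + 1) := by
    rw [sub_sub_cancel_left, abs_neg, abs_of_pos (by positivity)]
  have hq' : |z + 1 / ((n : ℝ) + 1) - z| = 1 / ((n : ℝ) + 1) := by
    rw [add_sub_cancel_left, abs_of_pos (by positivity)]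
  rw [hq] at h2
  rw [hq'] at h3
  rw [Real.dist_eq, sub_zero, abs_mul, abs_of_pos hp]
  have h4 : |F (z - 1 / ((n : ℝ) + 1)) - F (z + 1 / ((n : ℝ) + 1))|
      ≤ 2 * (ε / 3 * (1 / ((n : ℝ) + 1))) := by
    have := abs_sub_le (F (z - 1 / ((n : ℝ) + 1))) (F z) (F (z + 1 / ((n : ℝ) + 1)))
    rw [abs_sub_comm (F z)] at this
    linarith
  calc ((n : ℝ) + 1) * |F (z - 1 / ((n : ℝ) + 1)) - F (z + 1 / ((n : ℝ) + 1))|
      ≤ ((n : ℝ) + 1) * (2 * (ε / 3 * (1 / ((n : ℝ) + 1)))) := by gcongr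
    _ = 2 * ε / 3 := by field_simp
    _ < ε := by linarith

/-- one-dimensional Sard lemma -/
theorem volume_image_eq_zero_of_deriv {F : ℝ → ℝ} {G : Set ℝ} (h : ∀ z ∈ G, HasDerivAt F 0 z) :
    volume (F '' G) = 0 := by
  refine addHaar_image_eq_zero_of_det_fderivWithin_eq_zero volume (s := G) (f := F)
    (f' := fun _ => 0) (fun z hz => ?_) (fun z _ => ?_)
  · have := (h z hz).hasFDerivAt.hasFDerivWithinAt (s := G)
    have h0 : ContinuousLinearMap.toSpanSingleton ℝ (0 : ℝ) = 0 := by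
      ext; simp
    rw [h0] at this; exact this
  · simp [ContinuousLinearMap.det]

end Pool.Agent.H81St
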