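import Pool.Agent.Lib.H81.St.Zone1

/-! The two parts of the boundary of the zone are mutually singular. -/

open MeasureTheory Set Metric Filter Topology
open scoped ENNReal Pointwise ComplexConjugate

namespace Pool.Agent.H81St

/-- the section description of symmetric bodies -/
def Secs (a b : ℝ) (K : ℝ → Set ℂ) : Prop :=
  ∀ z ∈ Icc a b, ∀ x : ℂ, x ∈ K z ↔ (sec (K z) x.im).Nonempty ∧ |x.re| ≤ len (K z) x.im / 2

variable {a b r R : ℝ} {K : ℝ → Set ℂ}

/-- the solid described by the family -/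
def solid (a b : ℝ) (K : ℝ → Set ℂ) : Set (ℂ × ℝ) := {p | p.2 ∈ Icc a b ∧ p.1 ∈ K p.2}

theorem mem_of_forall_smul {C : Set ℂ} (hC : IsClosed C) {x : ℂ}
    (h : ∀ ε : ℝ, 0 < ε → x ∈ (1 + ε : ℝ) • C) : x ∈ C := by
  have h1 : ∀ ε : ℝ, 0 < ε → (1 + ε : ℝ)⁻¹ • x ∈ C := fun ε hε => by
    have := h ε hε
    rwa [mem_smul_set_iff_inv_smul_mem₀ (by positivity)] at this
  have h2 : Tendsto (fun ε : ℝ => (1 + ε : ℝ)⁻¹ • x) (𝓝[>] 0) (𝓝 x) := by
    have : Tendsto (fun ε : ℝ => (1 + ε : ℝ)⁻¹ • x) (𝓝 0) (𝓝 ((1 + 0 : ℝ)⁻¹ • x)) := by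
      apply Tendsto.smul _ tendsto_const_nhds
      apply Tendsto.inv₀ _ (by norm_num)
      exact tendsto_const_nhds.add tendsto_id
    simp only [add_zero, inv_one, one_smul] at this
    exact this.mono_left nhdsWithin_le_nhds
  refine hC.mem_of_tendsto h2 ?_
  filter_upwards [self_mem_nhdsWithin] with ε hε
  exact h1 ε hε

theorem isClosed_solid (h : Fam a b r R K) : IsClosed (solid a b K) := by
  apply IsSeqClosed.isClosed
  intro p q hp hq
  have hz : q.2 ∈ Icc a b := isClosed_Icc.mem_of_tendsto ((continuous_snd.tendsto q).comp hq)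
    (Eventually.of_forall fun n => (hp n).1)
  refine ⟨hz, mem_of_forall_smul (h.body q.2 hz).comp.isClosed fun ε hε => ?_⟩
  obtain ⟨δ, hδ, hcont⟩ := h.cont ε hε
  have hcl : IsClosed ((1 + ε : ℝ) • K q.2) := ((h.body q.2 hz).comp.smul _).isClosed
  refine hcl.mem_of_tendsto ((continuous_fst.tendsto q).comp hq) ?_
  have h2 := ((continuous_snd.tendsto q).comp hq).eventually (Metric.ball_mem_nhds q.2 hδ)
  filter_upwards [h2] with n hn
  have hn' : |(p n).2 - q.2| < δ := by
    exact hn
  exact hcont (p n).2 (hp n).1 q.2 hz hn' (hp n).2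

/-- lengths, extended by zero outside `[a, b]` -/
noncomputable def Lz (a b : ℝ) (K : ℝ → Set ℂ) (z y : ℝ) : ℝ :=
  (volume {s : ℝ | ((⟨s, y⟩ : ℂ), z) ∈ solid a b K}).toReal

theorem Lz_eq {z : ℝ} (hz : z ∈ Icc a b) (y : ℝ) : Lz a b K z y = len (K z) y := by
  unfold Lz len sec
  congr 2
  ext s
  exact ⟨fun h => h.2, fun h => ⟨hz, h⟩⟩

theorem Lz_nonneg (z y : ℝ) : 0 ≤ Lz a b K z y := ENNReal.toReal_nonneg

theorem measurable_mk : Measurable (fun q : (ℝ × ℝ) => (⟨q.1, q.2⟩ : ℂ)) := by
  have h : (fun q : (ℝ × ℝ) => (⟨q.1, q.2⟩ : ℂ))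
      = fun q : (ℝ × ℝ) => (q.1 : ℂ) + (q.2 : ℂ) * Complex.I := by
    funext s; apply Complex.ext <;> simp
  rw [h]; fun_prop

theorem measurable_Lz (h : Fam a b r R K) : Measurable (fun q : ℝ × ℝ => Lz a b K q.1 q.2) := by
  unfold Lz
  apply Measurable.ennreal_toReal
  have hm : MeasurableSet {w : (ℝ × ℝ) × ℝ | ((⟨w.2, w.1.2⟩ : ℂ), w.1.1) ∈ solid a b K} := by
    apply (isClosed_solid h).measurableSet.preimage
    apply Measurable.prodMk
    · exact measurable_mk.comp (measurable_snd.prodMk (measurable_snd.comp measurable_fst))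
    · exact measurable_fst.comp measurable_fst
  exact measurable_measure_prodMk_left (ν := volume) hm

/-- the set of pairs `(z, y)` where the length has zero derivative in `z` -/
def Gd (a b : ℝ) (K : ℝ → Set ℂ) : Set (ℝ × ℝ) :=
  {q | q.1 ∈ Ioo a b ∧ Tendsto (fun n : ℕ => ((n : ℝ) + 1) *
    (Lz a b K (q.1 - 1 / ((n : ℝ) + 1)) q.2 - Lz a b K (q.1 + 1 / ((n : ℝ) + 1)) q.2)) atTop (𝓝 0)}

theorem measurableSet_Gd (h : Fam a b r R K) : MeasurableSet (Gd a b K) := by
  apply MeasurableSet.inter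
  · exact measurable_fst measurableSet_Ioo
  · apply measurableSet_tendsto
    intro n
    apply Measurable.const_mul
    apply Measurable.sub
    · exact (measurable_Lz h).comp ((measurable_fst.sub_const _).prodMk measurable_snd)
    · exact (measurable_Lz h).comp ((measurable_fst.add_const _).prodMk measurable_snd)

theorem len_anti (h : Fam a b r R K) {z z' : ℝ} (hz : z ∈ Icc a b) (hz' : z' ∈ Icc a b)
    (hzz : z ≤ z') (y : ℝ) : len (K z') y ≤ len (K z) y := by
  unfold len
  apply ENNReal.toReal_mono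
  · have hb : Bornology.IsBounded (sec (K z) y) := by
      rw [Metric.isBounded_iff_subset_closedBall 0]
      refine ⟨R, fun s hs => ?_⟩
      have := (h.body z hz).out hs
      rw [mem_closedBall_zero_iff] at this ⊢
      exact (Complex.abs_re_le_norm (⟨s, y⟩ : ℂ)).trans this
    exact hb.measure_lt_top.ne
  · apply measure_mono
    intro s hs
    exact h.anti z hz z' hz' hzz hs

theorem antitoneOn_Lz (h : Fam a b r R K) (y : ℝ) :
    AntitoneOn (fun z => Lz a b K z y) (Icc a b) := by
  intro z hz z' hz' hzz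
  simp only [Lz_eq hz, Lz_eq hz']
  exact len_anti h hz hz' hzz y

theorem hasDerivAt_Lz (h : Fam a b r R K) {z y : ℝ} (hq : (z, y) ∈ Gd a b K) :
    HasDerivAt (fun z => Lz a b K z y) 0 z :=
  hasDerivAt_zero_of_seq (antitoneOn_Lz h y) hq.1 hq.2

theorem len_pos_of_abs_lt (h : Fam a b r R K) {z y : ℝ} (hz : z ∈ Icc a b) (hy : |y| < r) :
    2 * Real.sqrt (r ^ 2 - y ^ 2) ≤ len (K z) y := by
  have hr : 0 < r := (abs_nonneg y).trans_lt hy
  have hsub : Icc (-Real.sqrt (r ^ 2 - y ^ 2)) (Real.sqrt (r ^ 2 - y ^ 2)) ⊆ sec (K z) y := by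
    intro s hs
    apply (h.body z hz).inn
    rw [mem_closedBall_zero_iff]
    have h1 : s ^ 2 ≤ r ^ 2 - y ^ 2 := by
      have h0 : 0 ≤ r ^ 2 - y ^ 2 := by
        have := sq_le_sq' (by linarith [abs_lt.1 hy]) (abs_lt.1 hy).2.le
        linarith
      have := Real.sq_sqrt h0
      have h3 := sq_le_sq' hs.1 hs.2
      linarith
    rw [Complex.norm_def, Complex.normSq_apply]
    apply Real.sqrt_le_iff.2
    constructor
    · exact hr.le
    · simp only []
      nlinarith
  have hb : Bornology.IsBounded (sec (K z) y) := by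
    rw [Metric.isBounded_iff_subset_closedBall 0]
    refine ⟨R, fun s hs => ?_⟩
    have := (h.body z hz).out hs
    rw [mem_closedBall_zero_iff] at this ⊢
    exact (Complex.abs_re_le_norm (⟨s, y⟩ : ℂ)).trans this
  have := ENNReal.toReal_mono (hb.measure_lt_top (μ := volume)).ne (measure_mono hsub)
  rw [Real.volume_Icc, ENNReal.toReal_ofReal (by
    have := Real.sqrt_nonneg (r ^ 2 - y ^ 2); linarith)] at this
  unfold len
  linarith

/-- the reference domain for the horizontal part -/
noncomputable def lam (a b r' : ℝ) : Measure (ℝ × ℝ) := volume.restrict (Ioo a b ×ˢ Ioo (-r') r')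

theorem ae_Gd (h : Fam a b r R K) (hs : Sing a b K) {r' : ℝ} (hr' : r' < r) :
    lam a b r' (Gd a b K)ᶜ = 0 := by
  unfold lam
  have hm : MeasurableSet ((Gd a b K)ᶜ ∩ (Ioo a b ×ˢ Ioo (-r') r')) :=
    (measurableSet_Gd h).compl.inter (measurableSet_Ioo.prod measurableSet_Ioo)
  rw [Measure.restrict_apply (measurableSet_Gd h).compl, Measure.volume_eq_prod,
    Measure.measure_prod_null hm]
  have hs' := (ae_restrict_iff' measurableSet_Ioo).1 hs
  filter_upwards [hs'] with z hz
  simp only [Pi.zero_apply]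
  by_cases hzI : z ∈ Ioo a b
  · have h1 := hz hzI
    have h2 : ∀ᵐ y : ℝ, y ∉ Prod.mk z ⁻¹' ((Gd a b K)ᶜ ∩ (Ioo a b ×ˢ Ioo (-r') r')) := by
      filter_upwards [h1] with y hy hmem
      obtain ⟨hG, -, hyI⟩ := hmem
      apply hG
      have habs : |y| < r := (abs_lt.2 hyI).trans hr'
      have hlen : 0 < len (K z) y := by
        refine lt_of_lt_of_le ?_ (len_pos_of_abs_lt h (Ioo_subset_Icc_self hzI) habs)
        have : 0 < r ^ 2 - y ^ 2 := by
          have := sq_lt_sq' (by linarith [(abs_lt.1 habs).1]) (abs_lt.1 habs).2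
          linarith
        have := Real.sqrt_pos.2 this
        linarith
      have hd := hy hlen
      refine ⟨hzI, ?_⟩
      have hd' : HasDerivAt (fun z => Lz a b K z y) 0 z := by
        refine hd.congr_of_eventuallyEq ?_
        filter_upwards [Ioo_mem_nhds hzI.1 hzI.2] with w hw
        exact Lz_eq (Ioo_subset_Icc_self hw) y
      exact seq_of_hasDerivAt_zero hd'
    exact measure_eq_zero_iff_ae_notMem.2 h2
  · have : Prod.mk z ⁻¹' ((Gd a b K)ᶜ ∩ (Ioo a b ×ˢ Ioo (-r') r')) = ∅ := by
      ext y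
      simp only [mem_preimage, mem_inter_iff, mem_prod, mem_empty_iff_false, iff_false]
      intro hh
      exact hzI hh.2.1
    rw [this]; simp

/-- the parametrizations of the horizontal part of the boundary -/
noncomputable def Psi (a b : ℝ) (K : ℝ → Set ℂ) (σ : ℝ) (q : ℝ × ℝ) : ℂ × ℝ :=
  (⟨σ * (Lz a b K q.1 q.2 / 2), q.2⟩, q.1)

theorem measurable_Psi (h : Fam a b r R K) (σ : ℝ) : Measurable (Psi a b K σ) := by
  apply Measurable.prodMk _ measurable_fst
  exact measurable_mk.comp ((((measurable_Lz h).div_const 2).const_mul σ).prodMk measurable_snd)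

/-- the height function -/
noncomputable def HH (a b : ℝ) (K : ℝ → Set ℂ) (x : ℂ) : ℝ := sSup {z | (x, z) ∈ solid a b K}

theorem isCompact_fiber (h : Fam a b r R K) (x : ℂ) : IsCompact {z | (x, z) ∈ solid a b K} := by
  apply isCompact_Icc.of_isClosed_subset (s := Icc a b)
  · exact (isClosed_solid h).preimage (Continuous.prodMk_right x)
  · intro z hz; exact hz.1

theorem HH_mem (h : Fam a b r R K) (hab : a < b) {x : ℂ} (hx : x ∈ K a) :
    HH a b K x ∈ Icc a b ∧ x ∈ K (HH a b K x) := by
  have := (isCompact_fiber h x).sSup_mem ⟨a, ⟨⟨le_rfl, hab.le⟩, hx⟩⟩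
  exact this

theorem le_HH_iff (h : Fam a b r R K) (hab : a < b) {x : ℂ} (hx : x ∈ K a) {z : ℝ}
    (hz : z ∈ Icc a b) : z ≤ HH a b K x ↔ x ∈ K z := by
  have h1 := HH_mem h hab hx
  constructor
  · intro hle
    exact h.anti z hz _ h1.1 hle h1.2
  · intro hxz
    exact le_csSup (isCompact_fiber h x).bddAbove ⟨hz, hxz⟩

theorem HH_of_notMem (h : Fam a b r R K) (hab : a < b) {x : ℂ} (hx : x ∉ K a) :
    HH a b K x = 0 := by
  have : {z | (x, z) ∈ solid a b K} = ∅ := by
    ext z
    simp only [mem_ofPred_eq, mem_empty_iff_false, iff_false]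
    intro hz
    exact hx (h.anti a ⟨le_rfl, hab.le⟩ z hz.1 hz.1.1 hz.2)
  unfold HH
  rw [this, Real.sSup_empty]

theorem measurable_HH (h : Fam a b r R K) (ha : 0 < a) (hab : a < b) : Measurable (HH a b K) := by
  apply measurable_of_Ici
  intro c
  have hnn : ∀ x, 0 ≤ HH a b K x := by
    intro x
    by_cases hx : x ∈ K a
    · exact ha.le.trans (HH_mem h hab hx).1.1
    · rw [HH_of_notMem h hab hx]
  by_cases hc0 : c ≤ 0
  · have : HH a b K ⁻¹' Ici c = univ := by
      ext x; simp only [mem_preimage, mem_Ici, mem_univ, iff_true]; exact hc0.trans (hnn x)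
    rw [this]; exact MeasurableSet.univ
  push Not at hc0
  by_cases hca : c ≤ a
  · have : HH a b K ⁻¹' Ici c = K a := by
      ext x
      simp only [mem_preimage, mem_Ici]
      constructor
      · intro hle
        by_contra hx
        rw [HH_of_notMem h hab hx] at hle
        linarith
      · intro hx
        exact hca.trans (HH_mem h hab hx).1.1
    rw [this]
    exact (h.body a ⟨le_rfl, hab.le⟩).comp.isClosed.measurableSet
  push Not at hca
  by_cases hcb : c ≤ b
  · have hcI : c ∈ Icc a b := ⟨hca.le, hcb⟩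
    have : HH a b K ⁻¹' Ici c = K c := by
      ext x
      simp only [mem_preimage, mem_Ici]
      constructor
      · intro hle
        have hx : x ∈ K a := by
          by_contra hx
          rw [HH_of_notMem h hab hx] at hle
          linarith
        exact (le_HH_iff h hab hx hcI).1 hle
      · intro hx
        exact (le_HH_iff h hab (h.anti a ⟨le_rfl, hab.le⟩ c hcI hcI.1 hx) hcI).2 hx
    rw [this]
    exact (h.body c hcI).comp.isClosed.measurableSet
  · push Not at hcb
    have : HH a b K ⁻¹' Ici c = ∅ := by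
      ext x
      simp only [mem_preimage, mem_Ici, mem_empty_iff_false, iff_false, not_le]
      by_cases hx : x ∈ K a
      · exact (HH_mem h hab hx).1.2.trans_lt hcb
      · rw [HH_of_notMem h hab hx]; exact hc0
    rw [this]; exact MeasurableSet.empty

/-- the horizontal and vertical boundary measures -/
noncomputable def mus (a b r' : ℝ) (K : ℝ → Set ℂ) : Measure (ℂ × ℝ) :=
  (lam a b r').map (Psi a b K 1) + (lam a b r').map (Psi a b K (-1))

noncomputable def muz (a b : ℝ) (K : ℝ → Set ℂ) : Measure (ℂ × ℝ) :=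
  (volume.restrict (K a)).map (fun x => (x, HH a b K x))

/-- the carrier of the horizontal part -/
def Gam (a b : ℝ) (K : ℝ → Set ℂ) : Set (ℂ × ℝ) :=
  {p | |p.1.re| = Lz a b K p.2 p.1.im / 2 ∧ (p.2, p.1.im) ∈ Gd a b K}

theorem measurableSet_Gam (h : Fam a b r R K) : MeasurableSet (Gam a b K) := by
  have hm : Measurable (fun p : ℂ × ℝ => (p.2, p.1.im)) :=
    measurable_snd.prodMk (Complex.measurable_im.comp measurable_fst)
  apply MeasurableSet.inter
  · apply measurableSet_eq_fun
    · exact (continuous_abs.measurable.comp Complex.measurable_re).comp measurable_fst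
    · exact ((measurable_Lz h).comp hm).div_const 2
  · exact hm (measurableSet_Gd h)

theorem mus_Gam (h : Fam a b r R K) (hs : Sing a b K) {r' : ℝ} (hr' : r' < r) :
    mus a b r' K (Gam a b K)ᶜ = 0 := by
  unfold mus
  rw [Measure.add_apply, Measure.map_apply (measurable_Psi h 1) (measurableSet_Gam h).compl,
    Measure.map_apply (measurable_Psi h (-1)) (measurableSet_Gam h).compl]
  have key : ∀ σ : ℝ, |σ| = 1 → lam a b r' (Psi a b K σ ⁻¹' (Gam a b K)ᶜ) = 0 := by
    intro σ hσ
    refine measure_mono_null ?_ (ae_Gd h hs hr')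
    intro q hq hG
    apply hq
    refine ⟨?_, hG⟩
    show |σ * (Lz a b K q.1 q.2 / 2)| = Lz a b K q.1 q.2 / 2
    rw [abs_mul, hσ, one_mul, abs_of_nonneg]
    exact div_nonneg (Lz_nonneg _ _) (by norm_num)
  rw [key 1 (by simp), key (-1) (by simp), add_zero]

theorem muz_Gam (h : Fam a b r R K) (ha : 0 < a) (hab : a < b) : muz a b K (Gam a b K) = 0 := by
  unfold muz
  have hmm : Measurable (fun x : ℂ => (x, HH a b K x)) := measurable_id.prodMk (measurable_HH h ha hab)
  rw [Measure.map_apply hmm (measurableSet_Gam h),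
    Measure.restrict_apply (hmm (measurableSet_Gam h))]
  have hKa : MeasurableSet (K a) := (h.body a ⟨le_rfl, hab.le⟩).comp.isClosed.measurableSet
  apply volume_eq_zero_of_sec ((hmm (measurableSet_Gam h)).inter hKa)
  refine Eventually.of_forall fun y => ?_
  have h1 : volume ((fun z => Lz a b K z y / 2) '' {z | (z, y) ∈ Gd a b K}) = 0 := by
    apply volume_image_eq_zero_of_deriv
    intro z hz
    have := (hasDerivAt_Lz h hz).div_const 2
    rwa [zero_div] at this
  have h2 : volume ((fun z => -(Lz a b K z y / 2)) '' {z | (z, y) ∈ Gd a b K}) = 0 := by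
    apply volume_image_eq_zero_of_deriv
    intro z hz
    have := ((hasDerivAt_Lz h hz).div_const 2).neg
    rwa [zero_div, neg_zero] at this
  refine measure_mono_null ?_ (measure_union_null h1 h2)
  intro s hs
  obtain ⟨⟨he, hG⟩, -⟩ := hs
  simp only [] at he hG
  rcases abs_eq (div_nonneg (Lz_nonneg _ _) (by norm_num)) |>.1 he with h3 | h3
  · left; exact ⟨_, hG, h3.symm⟩
  · right; exact ⟨_, hG, h3.symm⟩

end Pool.Agent.H81St
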