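import Pool.Agent.Lib.H81.St.Zone2

/-! The scalar functions of the test field of the zone. -/

open MeasureTheory Set Metric Filter Topology
open scoped ENNReal Pointwise ComplexConjugate

namespace Pool.Agent.H81St

variable {a b r R : ℝ} {K : ℝ → Set ℂ}

/-- a smooth odd sign function -/
noncomputable def hh (δ s : ℝ) : ℝ := Real.smoothTransition (s / δ) - Real.smoothTransition (-s / δ)

theorem contDiff_hh (δ : ℝ) : ContDiff ℝ 1 (hh δ) := by
  unfold hh
  exact (Real.smoothTransition.contDiff.comp (contDiff_id.div_const _)).sub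
    (Real.smoothTransition.contDiff.comp (contDiff_id.neg.div_const _))

theorem hh_neg (δ s : ℝ) : hh δ (-s) = -hh δ s := by
  unfold hh; rw [neg_neg]; ring

theorem hh_nonneg {δ s : ℝ} (hδ : 0 < δ) (hs : 0 ≤ s) : 0 ≤ hh δ s := by
  unfold hh
  rw [Real.smoothTransition.zero_of_nonpos (x := -s / δ)
    (div_nonpos_of_nonpos_of_nonneg (by linarith) hδ.le), sub_zero]
  exact Real.smoothTransition.nonneg _

theorem hh_one {δ s : ℝ} (hδ : 0 < δ) (hs : δ ≤ s) : hh δ s = 1 := by
  unfold hh
  rw [Real.smoothTransition.zero_of_nonpos (x := -s / δ)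
    (div_nonpos_of_nonpos_of_nonneg (by linarith) hδ.le),
    Real.smoothTransition.one_of_one_le (by rwa [le_div_iff₀ hδ, one_mul]), sub_zero]

theorem abs_hh_le (δ s : ℝ) : |hh δ s| ≤ 1 := by
  unfold hh
  have h1 := Real.smoothTransition.nonneg (s / δ)
  have h2 := Real.smoothTransition.le_one (s / δ)
  have h3 := Real.smoothTransition.nonneg (-s / δ)
  have h4 := Real.smoothTransition.le_one (-s / δ)
  rw [abs_le]; constructor <;> linarith

theorem lt_one_of_Fam (h : Fam a b r R K) (hab : a < b) (ha : 0 < a) (hr : 0 < r) : b < 1 := by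
  by_contra hcon
  push Not at hcon
  have hv := h.vol b ⟨hab.le, le_rfl⟩
  have h0 : Real.pi * (1 - b ^ 2) ≤ 0 := by
    apply mul_nonpos_of_nonneg_of_nonpos Real.pi_pos.le
    nlinarith
  rw [ENNReal.ofReal_of_nonpos h0] at hv
  have h1 := measure_mono_null (h.body b ⟨hab.le, le_rfl⟩).inn hv
  have h2 : 0 < volume (closedBall (0 : ℂ) r) := measure_closedBall_pos _ _ hr
  exact h2.ne' h1

theorem mus_univ {r' : ℝ} (h : Fam a b r R K) (hab : a < b) (hr' : 0 < r') :
    (mus a b r' K univ).toReal = 4 * r' * (b - a) := by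
  unfold mus
  rw [Measure.add_apply, Measure.map_apply (measurable_Psi h 1) MeasurableSet.univ,
    Measure.map_apply (measurable_Psi h (-1)) MeasurableSet.univ]
  simp only [preimage_univ]
  unfold lam
  rw [Measure.restrict_apply MeasurableSet.univ, univ_inter, Measure.volume_eq_prod,
    Measure.prod_prod, Real.volume_Ioo, Real.volume_Ioo, ← ENNReal.ofReal_mul (by linarith),
    ← ENNReal.ofReal_add (by nlinarith) (by nlinarith), ENNReal.toReal_ofReal (by nlinarith)]
  ring

instance instFiniteLam (a b r' : ℝ) : IsFiniteMeasure (lam a b r') := by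
  unfold lam
  constructor
  rw [Measure.restrict_apply MeasurableSet.univ, univ_inter, Measure.volume_eq_prod,
    Measure.prod_prod, Real.volume_Ioo, Real.volume_Ioo]
  exact ENNReal.mul_lt_top ENNReal.ofReal_lt_top ENNReal.ofReal_lt_top

theorem finite_mus (r' : ℝ) : IsFiniteMeasure (mus a b r' K) := by
  unfold mus; infer_instance

theorem finite_muz (h : Fam a b r R K) (hab : a < b) : IsFiniteMeasure (muz a b K) := by
  unfold muz
  have : IsFiniteMeasure (volume.restrict (K a)) := by
    constructor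
    rw [Measure.restrict_apply MeasurableSet.univ, univ_inter]
    exact (h.body a ⟨le_rfl, hab.le⟩).comp.measure_lt_top
  infer_instance

theorem mus_compl {r' : ℝ} (h : Fam a b r R K) :
    mus a b r' K ({p : ℂ × ℝ | p.2 ∈ Ioo a b})ᶜ = 0 := by
  have hm : MeasurableSet ({p : ℂ × ℝ | p.2 ∈ Ioo a b})ᶜ :=
    (measurable_snd measurableSet_Ioo).compl
  unfold mus
  rw [Measure.add_apply, Measure.map_apply (measurable_Psi h 1) hm,
    Measure.map_apply (measurable_Psi h (-1)) hm]
  have key : ∀ σ : ℝ, lam a b r' (Psi a b K σ ⁻¹' ({p : ℂ × ℝ | p.2 ∈ Ioo a b})ᶜ) = 0 := by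
    intro σ
    unfold lam
    rw [Measure.restrict_apply (measurable_Psi h σ hm)]
    have : Psi a b K σ ⁻¹' ({p : ℂ × ℝ | p.2 ∈ Ioo a b})ᶜ ∩ Ioo a b ×ˢ Ioo (-r') r' = ∅ := by
      ext q
      simp only [mem_inter_iff, mem_preimage, mem_prod, mem_empty_iff_false, iff_false]
      rintro ⟨h1, h2, -⟩
      exact h1 h2
    rw [this]; simp
  rw [key 1, key (-1), add_zero]

/-- lower bound for the vertical mass -/
theorem muz_ge (h : Fam a b r R K) (ha : 0 < a) (hab : a < b) {a' b' : ℝ} (ha' : a ≤ a')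
    (hab' : a' ≤ b') (hb' : b' ≤ b) (hb1 : b < 1) :
    Real.pi * (b' ^ 2 - a' ^ 2) ≤ (muz a b K (closedBall 0 R ×ˢ Icc a' b')).toReal := by
  have := finite_muz h hab
  have hmm : Measurable (fun x : ℂ => (x, HH a b K x)) := measurable_id.prodMk (measurable_HH h ha hab)
  have hm : MeasurableSet ((closedBall (0 : ℂ) R) ×ˢ Icc a' b') :=
    isClosed_closedBall.measurableSet.prod measurableSet_Icc
  have hIa : a' ∈ Icc a b := ⟨ha', hab'.trans hb'⟩
  have hIb : b' ∈ Icc a b := ⟨ha'.trans hab', hb'⟩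
  have hsub : K a' \ K b' ⊆ (fun x : ℂ => (x, HH a b K x)) ⁻¹' (closedBall (0 : ℂ) R ×ˢ Icc a' b')
      ∩ K a := by
    rintro x ⟨hx1, hx2⟩
    have hxa : x ∈ K a := h.anti a ⟨le_rfl, hab.le⟩ a' hIa ha' hx1
    refine ⟨⟨(h.body a' hIa).out hx1, ?_, ?_⟩, hxa⟩
    · exact (le_HH_iff h hab hxa hIa).2 hx1
    · by_contra hcon
      push Not at hcon
      exact hx2 ((le_HH_iff h hab hxa hIb).1 hcon.le)
  have h1 : ENNReal.ofReal (Real.pi * (b' ^ 2 - a' ^ 2)) ≤ volume (K a' \ K b') := by
    rw [measure_sdiff (h.anti a' hIa b' hIb hab')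
      (h.body b' hIb).comp.isClosed.measurableSet.nullMeasurableSet
      (h.body b' hIb).comp.measure_lt_top.ne, h.vol a' hIa, h.vol b' hIb,
      ← ENNReal.ofReal_sub _ (by
        apply mul_nonneg Real.pi_pos.le
        nlinarith [hIb.1])]
    apply ENNReal.ofReal_le_ofReal
    linarith
  have h2 : volume (K a' \ K b') ≤ muz a b K (closedBall 0 R ×ˢ Icc a' b') := by
    unfold muz
    rw [Measure.map_apply hmm hm, Measure.restrict_apply (hmm hm)]
    exact measure_mono hsub
  have h3 := ENNReal.toReal_mono (measure_ne_top _ _) (h1.trans h2)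
  rwa [ENNReal.toReal_ofReal (by
    apply mul_nonneg Real.pi_pos.le
    nlinarith [hIa.1])] at h3

theorem integrable_solid (h : Fam a b r R K) {w : ℂ × ℝ → ℝ} (hw : Continuous w)
    (hc : HasCompactSupport w) : Integrable ((solid a b K).indicator w) :=
  (hw.integrable_of_hasCompactSupport hc).indicator (isClosed_solid h).measurableSet

/-- section integral of a horizontal derivative -/
theorem sec_integral (h : Fam a b r R K) (hsec : Secs a b K) {z : ℝ} (hz : z ∈ Icc a b)
    {A : ℂ × ℝ → ℝ} (hA : ContDiff ℝ 1 A) {y : ℝ} (hne : (sec (K z) y).Nonempty) :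
    ∫ s in sec (K z) y, fderiv ℝ A (⟨s, y⟩, z) (1, 0) =
        A (⟨len (K z) y / 2, y⟩, z) - A (⟨-(len (K z) y / 2), y⟩, z) := by
  · have hsecI : sec (K z) y = Icc (-(len (K z) y / 2)) (len (K z) y / 2) := by
      ext s
      have := hsec z hz ⟨s, y⟩
      simp only [] at this
      constructor
      · intro hs
        exact abs_le.1 (this.1 hs).2
      · intro hs
        exact this.2 ⟨hne, abs_le.2 hs⟩
    have hl : 0 ≤ len (K z) y := ENNReal.toReal_nonneg
    rw [hsecI, integral_Icc_eq_integral_Ioc,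
      ← intervalIntegral.integral_of_le (by linarith)]
    have hder : ∀ s : ℝ, HasDerivAt (fun s : ℝ => A ((⟨s, y⟩ : ℂ), z))
        (fderiv ℝ A (⟨s, y⟩, z) (1, 0)) s := by
      intro s
      have h1 : HasDerivAt (fun s : ℝ => ((⟨s, y⟩ : ℂ), z)) ((1 : ℂ), (0 : ℝ)) s := by
        apply HasDerivAt.prodMk _ (hasDerivAt_const _ _)
        have h2 : (fun s : ℝ => (⟨s, y⟩ : ℂ)) = fun s : ℝ => (s : ℂ) + (y : ℂ) * Complex.I := by
          funext s; apply Complex.ext <;> simp
        rw [h2]
        exact (Complex.ofRealCLM.hasDerivAt).add_const _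
      exact ((hA.differentiable one_ne_zero _).hasFDerivAt.comp_hasDerivAt s h1)
    have hcont : Continuous (fun s : ℝ => fderiv ℝ A ((⟨s, y⟩ : ℂ), z) (1, 0)) := by
      have h2 : (fun s : ℝ => ((⟨s, y⟩ : ℂ), z))
          = fun s : ℝ => ((s : ℂ) + (y : ℂ) * Complex.I, z) := by
        funext s; congr 1; apply Complex.ext <;> simp
      have h3 : Continuous (fun s : ℝ => ((⟨s, y⟩ : ℂ), z)) := by rw [h2]; fun_prop
      exact ((hA.continuous_fderiv one_ne_zero).comp h3).clm_apply continuous_const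
    rw [intervalIntegral.integral_eq_sub_of_hasDerivAt (fun s _ => hder s)
      (hcont.intervalIntegrable _ _)]

end Pool.Agent.H81St
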