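import Pool.Agent.Lib.H81.St.Zone3

/-! The scalar functions of the test field of the zone: main estimate. -/

open MeasureTheory Set Metric Filter Topology
open scoped ENNReal Pointwise ComplexConjugate

namespace Pool.Agent.H81St

variable {a b r R : ℝ} {K : ℝ → Set ℂ}

theorem integrable_sec {C : Set ℂ} (hC : MeasurableSet C) {g : ℂ → ℝ} (hg : IntegrableOn g C) :
    Integrable (fun y => ∫ s in sec C y, g ⟨s, y⟩) := by
  have hi : Integrable (C.indicator g) := (integrable_indicator_iff hC).2 hg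
  have hi2 : Integrable (fun p : ℝ × ℝ => C.indicator g (Complex.measurableEquivRealProd.symm p)) :=
    ((Complex.volume_preserving_equiv_real_prod.symm).integrable_comp_emb
      (Complex.measurableEquivRealProd.symm.measurableEmbedding)).2 hi
  rw [Measure.volume_eq_prod] at hi2
  have h3 := hi2.integral_prod_right
  refine h3.congr (Eventually.of_forall fun y => ?_)
  have h2 : (fun s : ℝ => C.indicator g (Complex.measurableEquivRealProd.symm (s, y)))
      = (sec C y).indicator (fun s => g ⟨s, y⟩) := by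
    funext s
    by_cases h : (⟨s, y⟩ : ℂ) ∈ C
    · rw [indicator_of_mem (show s ∈ sec C y from h)]
      exact indicator_of_mem (show Complex.measurableEquivRealProd.symm (s, y) ∈ C from h) g
    · rw [indicator_of_notMem (show s ∉ sec C y from h)]
      exact indicator_of_notMem (show Complex.measurableEquivRealProd.symm (s, y) ∉ C from h) g
  simp only []
  rw [h2, integral_indicator (measurableSet_sec hC y)]

theorem integral_lam {r' : ℝ} {g : ℝ × ℝ → ℝ} (hg : Integrable g (lam a b r')) :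
    ∫ q, g q ∂(lam a b r') = ∫ z in Ioo a b, ∫ y in Ioo (-r') r', g (z, y) := by
  unfold lam at *
  rw [Measure.volume_eq_prod, ← Measure.prod_restrict] at *
  exact integral_prod _ hg

theorem integrable_lam_left {r' : ℝ} {g : ℝ × ℝ → ℝ} (hg : Integrable g (lam a b r')) :
    IntegrableOn (fun z => ∫ y in Ioo (-r') r', g (z, y)) (Ioo a b) := by
  unfold lam at *
  rw [Measure.volume_eq_prod, ← Measure.prod_restrict] at *
  exact hg.integral_prod_left

theorem exists_core (h : Fam a b r R K) (hsec : Secs a b K) (hs : Sing a b K) (ha : 0 < a)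
    (hab : a < b) {r' : ℝ} (hr'0 : 0 < r') (hr' : r' < r) {ε : ℝ} (hε : 0 < ε) :
    ∃ A B : ℂ × ℝ → ℝ, ContDiff ℝ 1 A ∧ ContDiff ℝ 1 B ∧ HasCompactSupport A ∧
      HasCompactSupport B ∧ tsupport A ⊆ {p | p.2 ∈ Ioo a b} ∧ tsupport B ⊆ {p | p.2 ∈ Ioo a b} ∧
      (∀ p, A p ^ 2 + B p ^ 2 ≤ 1) ∧ ∀ k : ℕ,
      a ^ k * ((b - a) * (Real.pi * (a + b) + 4 * r') - ε) ≤
        (∫ z in Ioo a b, z ^ k * ∫ x in K z, fderiv ℝ A (x, z) (1, 0)) +
        ∫ x in K a, HH a b K x ^ k * B (x, HH a b K x) := by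
  have hr0 : 0 < r := hr'0.trans hr'
  have hb1 : b < 1 := lt_one_of_Fam h hab ha hr0
  haveI := finite_mus (a := a) (b := b) (K := K) r'
  haveI := finite_muz h hab
  have hU : IsOpen {p : ℂ × ℝ | p.2 ∈ Ioo a b} := isOpen_Ioo.preimage continuous_snd
  obtain ⟨χ, hχ1, hχ2, hχ3, hχ4, hχ5, hχ6⟩ := exists_separating (measurableSet_Gam h)
    (mus_Gam h hs hr') (muz_Gam h ha hab) hU (mus_compl h) (show 0 < ε / 4 by positivity)
  -- the cutoff
  obtain ⟨η, hη0, hη1, hη2, hη3⟩ : ∃ η : ℝ, 0 < η ∧ η ≤ 1 ∧ η ≤ (b - a) / 4 ∧ 20 * η ≤ ε / 4 := by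
    refine ⟨min 1 (min ((b - a) / 4) (ε / 80)), ?_, min_le_left _ _,
      (min_le_right _ _).trans (min_le_left _ _), ?_⟩
    · apply lt_min one_pos (lt_min (by linarith) (by positivity))
    · have := (min_le_right 1 (min ((b - a) / 4) (ε / 80))).trans (min_le_right _ _)
      linarith
  have hC : IsCompact ((closedBall (0 : ℂ) R) ×ˢ Icc (a + η) (b - η)) :=
    (isCompact_closedBall _ _).prod isCompact_Icc
  obtain ⟨κ, hκ1, hκ2, hκ3, hκ4, hκ5⟩ := exists_contDiff_bump hC hU (by
    rintro ⟨x, z⟩ ⟨-, hz⟩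
    exact ⟨by linarith [hz.1], by linarith [hz.2]⟩)
  set δ := Real.sqrt (r ^ 2 - r' ^ 2) with hδdef
  have hδ : 0 < δ := Real.sqrt_pos.2 (by nlinarith)
  set A : ℂ × ℝ → ℝ := fun p => χ p * hh δ p.1.re with hAdef
  set B : ℂ × ℝ → ℝ := fun p => (1 - χ p) * κ p with hBdef
  have hA1 : ContDiff ℝ 1 A := hχ1.mul ((contDiff_hh δ).comp (Complex.reCLM.contDiff.comp contDiff_fst))
  have hB1 : ContDiff ℝ 1 B := (contDiff_const.sub hχ1).mul hκ1
  have hA2 : HasCompactSupport A := hχ2.mul_right
  have hB2 : HasCompactSupport B := hκ2.mul_left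
  have hA3 : tsupport A ⊆ {p : ℂ × ℝ | p.2 ∈ Ioo a b} := (tsupport_mul_subset_left).trans hχ3
  have hB3 : tsupport B ⊆ {p : ℂ × ℝ | p.2 ∈ Ioo a b} := (tsupport_mul_subset_right).trans hκ3
  refine ⟨A, B, hA1, hB1, hA2, hB2, hA3, hB3, ?_, ?_⟩
  · intro p
    have h1 := hχ4 p
    have h2 := hκ4 p
    have h3 := abs_hh_le δ p.1.re
    have h4 : A p ^ 2 ≤ χ p ^ 2 := by
      simp only [hAdef, mul_pow]
      have : hh δ p.1.re ^ 2 ≤ 1 := by rw [← sq_abs]; nlinarith [abs_nonneg (hh δ p.1.re)]
      nlinarith [sq_nonneg (χ p)]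
    have h5 : B p ^ 2 ≤ (1 - χ p) ^ 2 := by
      simp only [hBdef, mul_pow]
      have : κ p ^ 2 ≤ 1 := by nlinarith [h2.1, h2.2]
      nlinarith [sq_nonneg (1 - χ p)]
    nlinarith [h1.1, h1.2]
  intro k
  have hak : 0 < a ^ k := pow_pos ha k
  have hBnn : ∀ p, 0 ≤ B p := fun p =>
    mul_nonneg (by linarith [(hχ4 p).2]) (hκ4 p).1
  have hHm := measurable_HH h ha hab
  have hmm : Measurable (fun x : ℂ => (x, HH a b K x)) := measurable_id.prodMk hHm
  have hKa : MeasurableSet (K a) := (h.body a ⟨le_rfl, hab.le⟩).comp.isClosed.measurableSet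
  have hintc : ∀ {g : ℂ × ℝ → ℝ} (_ : Continuous g) (_ : HasCompactSupport g)
      (m : Measure (ℂ × ℝ)) [IsFiniteMeasure m], Integrable g m :=
    fun hg hgc m _ => hg.integrable_of_hasCompactSupport hgc
  -- vertical part
  have hvert : a ^ k * (Real.pi * (b ^ 2 - a ^ 2) - ε / 2) ≤
      ∫ x in K a, HH a b K x ^ k * B (x, HH a b K x) := by
    have e1 : ∫ p, B p ∂(muz a b K) = ∫ x in K a, B (x, HH a b K x) := by
      unfold muz
      rw [integral_map hmm.aemeasurable hB1.continuous.aestronglyMeasurable]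
    have hBi : IntegrableOn (fun x => B (x, HH a b K x)) (K a) := by
      have := hintc hB1.continuous hB2 (muz a b K)
      unfold muz at this
      exact this.comp_measurable hmm
    have hHB : IntegrableOn (fun x => HH a b K x ^ k * B (x, HH a b K x)) (K a) := by
      refine Integrable.bdd_mul (c := b ^ k) hBi (hHm.pow_const k).aestronglyMeasurable ?_
      refine (ae_restrict_iff' hKa).2 (Eventually.of_forall fun x hx => ?_)
      have := (HH_mem h hab hx).1
      rw [Real.norm_eq_abs, abs_of_nonneg (pow_nonneg (ha.le.trans this.1) k)]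
      exact pow_le_pow_left₀ (ha.le.trans this.1) this.2 k
    have e2 : a ^ k * ∫ p, B p ∂(muz a b K) ≤ ∫ x in K a, HH a b K x ^ k * B (x, HH a b K x) := by
      rw [e1, ← integral_const_mul]
      refine setIntegral_mono_on (hBi.const_mul _) hHB hKa fun x hx => ?_
      have := (HH_mem h hab hx).1
      exact mul_le_mul_of_nonneg_right (pow_le_pow_left₀ ha.le this.1 k) (hBnn _)
    have e3 : ∫ p, κ p ∂(muz a b K) - ∫ p, χ p ∂(muz a b K) ≤ ∫ p, B p ∂(muz a b K) := by
      rw [← integral_sub (hintc hκ1.continuous hκ2 _) (hintc hχ1.continuous hχ2 _)]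
      refine integral_mono ((hintc hκ1.continuous hκ2 _).sub (hintc hχ1.continuous hχ2 _))
        (hintc hB1.continuous hB2 _) fun p => ?_
      simp only [hBdef]
      nlinarith [(hχ4 p).1, (hχ4 p).2, (hκ4 p).1, (hκ4 p).2,
        mul_nonneg (hχ4 p).1 (sub_nonneg.2 (hκ4 p).2)]
    have e4 : (muz a b K (closedBall 0 R ×ˢ Icc (a + η) (b - η))).toReal
        ≤ ∫ p, κ p ∂(muz a b K) := by
      have : (muz a b K (closedBall 0 R ×ˢ Icc (a + η) (b - η))).toReal =
          ∫ p, (closedBall 0 R ×ˢ Icc (a + η) (b - η)).indicator (fun _ => (1 : ℝ)) p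
            ∂(muz a b K) := by
        rw [integral_indicator hC.measurableSet, setIntegral_const]
        simp [Measure.real]
      rw [this]
      refine integral_mono ((integrable_indicator_iff hC.measurableSet).2
        (integrableOn_const (measure_ne_top _ _))) (hintc hκ1.continuous hκ2 _) fun p => ?_
      by_cases hp : p ∈ closedBall (0 : ℂ) R ×ˢ Icc (a + η) (b - η)
      · simp only [indicator_of_mem hp, hκ5 p hp, le_refl]
      · simp only [indicator_of_notMem hp]; exact (hκ4 p).1
    have e5 := muz_ge h ha hab (a' := a + η) (b' := b - η) (by linarith) (by linarith)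
      (by linarith) hb1
    have e6 : Real.pi * (b ^ 2 - a ^ 2) - ε / 4 ≤ Real.pi * ((b - η) ^ 2 - (a + η) ^ 2) := by
      have hpi := Real.pi_lt_four
      have hpi0 := Real.pi_pos
      have : (b ^ 2 - a ^ 2) - ((b - η) ^ 2 - (a + η) ^ 2) ≤ 5 * η := by nlinarith
      nlinarith
    have e7 : Real.pi * (b ^ 2 - a ^ 2) - ε / 2 ≤ ∫ p, B p ∂(muz a b K) := by linarith
    calc a ^ k * (Real.pi * (b ^ 2 - a ^ 2) - ε / 2) ≤ a ^ k * ∫ p, B p ∂(muz a b K) := by gcongr
      _ ≤ _ := e2
  -- horizontal part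
  have hhoriz : a ^ k * (4 * r' * (b - a) - ε / 4) ≤
      ∫ z in Ioo a b, z ^ k * ∫ x in K z, fderiv ℝ A (x, z) (1, 0) := by
    set D : ℂ × ℝ → ℝ := fun p => fderiv ℝ A p (1, 0) with hD
    have hDc : Continuous D := (hA1.continuous_fderiv one_ne_zero).clm_apply continuous_const
    have hDs : HasCompactSupport D := by
      refine (hA2.fderiv (𝕜 := ℝ)).mono' ?_
      intro p hp
      apply subset_tsupport
      intro h0
      apply hp
      show fderiv ℝ A p (1, 0) = 0
      rw [h0]; rfl
    -- nonnegativity and value of the section integrals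
    have hg : ∀ z ∈ Ioo a b, ∀ y, 0 ≤ ∫ s in sec (K z) y, fderiv ℝ A (⟨s, y⟩, z) (1, 0) := by
      intro z hz y
      by_cases hne : (sec (K z) y).Nonempty
      · rw [sec_integral h hsec (Ioo_subset_Icc_self hz) hA1 hne]
        simp only [hAdef]
        rw [hh_neg]
        have h1 := hh_nonneg hδ (show 0 ≤ len (K z) y / 2 from
          div_nonneg ENNReal.toReal_nonneg (by norm_num))
        have h2 := (hχ4 (⟨len (K z) y / 2, y⟩, z)).1
        have h3 := (hχ4 (⟨-(len (K z) y / 2), y⟩, z)).1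
        nlinarith [mul_nonneg h2 h1, mul_nonneg h3 h1]
      · rw [not_nonempty_iff_eq_empty] at hne
        rw [hne]; simp
    have hg2 : ∀ z ∈ Ioo a b, ∀ y ∈ Ioo (-r') r',
        ∫ s in sec (K z) y, fderiv ℝ A (⟨s, y⟩, z) (1, 0)
          = χ (Psi a b K 1 (z, y)) + χ (Psi a b K (-1) (z, y)) := by
      intro z hz y hy
      have hyr : |y| < r := (abs_lt.2 hy).trans hr'
      have hzI := Ioo_subset_Icc_self hz
      have hlen := len_pos_of_abs_lt h hzI hyr
      have hδle : δ ≤ len (K z) y / 2 := by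
        have : δ ≤ Real.sqrt (r ^ 2 - y ^ 2) := by
          apply Real.sqrt_le_sqrt
          have := sq_lt_sq' (by linarith [hy.1]) hy.2
          linarith
        linarith
      have hne : (sec (K z) y).Nonempty := by
        refine ⟨0, (h.body z hzI).inn ?_⟩
        rw [mem_closedBall_zero_iff]
        have : (⟨0, y⟩ : ℂ) = (y : ℂ) * Complex.I := by apply Complex.ext <;> simp
        rw [this, norm_mul, Complex.norm_I, mul_one, Complex.norm_real, Real.norm_eq_abs]
        exact hyr.le
      rw [sec_integral h hsec hzI hA1 hne]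
      simp only [hAdef, Psi, Lz_eq hzI, one_mul, neg_mul]
      rw [hh_neg, hh_one hδ hδle]
      ring
    -- integrability on `lam`
    have hi1 : ∀ σ : ℝ, Integrable (fun q => χ (Psi a b K σ q)) (lam a b r') := by
      intro σ
      have : Integrable χ ((lam a b r').map (Psi a b K σ)) :=
        hχ1.continuous.integrable_of_hasCompactSupport hχ2
      exact this.comp_measurable (measurable_Psi h σ)
    have hi2 : Integrable (fun q => χ (Psi a b K 1 q) + χ (Psi a b K (-1) q)) (lam a b r') :=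
      (hi1 1).add (hi1 (-1))
    have e1 : ∫ p, χ p ∂(mus a b r' K) =
        ∫ z in Ioo a b, ∫ y in Ioo (-r') r', (χ (Psi a b K 1 (z, y)) + χ (Psi a b K (-1) (z, y))) := by
      rw [← integral_lam hi2, integral_add (hi1 1) (hi1 (-1))]
      unfold mus
      rw [integral_add_measure (hχ1.continuous.integrable_of_hasCompactSupport hχ2)
        (hχ1.continuous.integrable_of_hasCompactSupport hχ2),
        integral_map (measurable_Psi h 1).aemeasurable hχ1.continuous.aestronglyMeasurable,
        integral_map (measurable_Psi h (-1)).aemeasurable hχ1.continuous.aestronglyMeasurable]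
    have hKm : ∀ z ∈ Ioo a b, MeasurableSet (K z) := fun z hz =>
      (h.body z (Ioo_subset_Icc_self hz)).comp.isClosed.measurableSet
    have hDi : ∀ z ∈ Ioo a b, IntegrableOn (fun x => fderiv ℝ A (x, z) (1, 0)) (K z) := by
      intro z hz
      have hc : Continuous (fun x : ℂ => fderiv ℝ A (x, z) (1, 0)) :=
        hDc.comp (Continuous.prodMk_left z)
      exact hc.continuousOn.integrableOn_compact (h.body z (Ioo_subset_Icc_self hz)).comp
    have e2 : ∀ z ∈ Ioo a b, ∫ y in Ioo (-r') r',
        (χ (Psi a b K 1 (z, y)) + χ (Psi a b K (-1) (z, y))) ≤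
          ∫ x in K z, fderiv ℝ A (x, z) (1, 0) := by
      intro z hz
      rw [setIntegral_eq_sec (hKm z hz) (hDi z hz)]
      rw [← setIntegral_congr_fun measurableSet_Ioo (fun y hy => hg2 z hz y hy)]
      exact setIntegral_le_integral (integrable_sec (hKm z hz) (hDi z hz))
        (Eventually.of_forall fun y => hg z hz y)
    -- integrability of the upper function
    have hi3 : IntegrableOn (fun z => z ^ k * ∫ x in K z, fderiv ℝ A (x, z) (1, 0)) (Ioo a b) := by
      have hw : Continuous (fun p : ℂ × ℝ => p.2 ^ k * D p) := (continuous_snd.pow k).mul hDc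
      have hws : HasCompactSupport (fun p : ℂ × ℝ => p.2 ^ k * D p) := hDs.mul_left
      have h3 := (integrable_solid h hw hws)
      rw [Measure.volume_eq_prod] at h3
      have h4 := h3.integral_prod_right
      refine (h4.integrableOn (s := Ioo a b)).congr_fun (fun z hz => ?_) measurableSet_Ioo
      simp only []
      rw [← integral_const_mul, ← integral_indicator (hKm z hz)]
      congr 1
      funext x
      by_cases hx : x ∈ K z
      · rw [indicator_of_mem hx, indicator_of_mem (show (x, z) ∈ solid a b K from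
          ⟨Ioo_subset_Icc_self hz, hx⟩)]
      · rw [indicator_of_notMem hx, indicator_of_notMem (show (x, z) ∉ solid a b K from
          fun hh => hx hh.2)]
    have e3 : a ^ k * ∫ p, χ p ∂(mus a b r' K) ≤
        ∫ z in Ioo a b, z ^ k * ∫ x in K z, fderiv ℝ A (x, z) (1, 0) := by
      rw [e1, ← integral_const_mul]
      refine setIntegral_mono_on ((integrable_lam_left hi2).const_mul _) hi3 measurableSet_Ioo
        fun z hz => ?_
      have h5 : 0 ≤ ∫ y in Ioo (-r') r', (χ (Psi a b K 1 (z, y)) + χ (Psi a b K (-1) (z, y))) :=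
        integral_nonneg fun y => add_nonneg (hχ4 _).1 (hχ4 _).1
      calc a ^ k * ∫ y in Ioo (-r') r', (χ (Psi a b K 1 (z, y)) + χ (Psi a b K (-1) (z, y)))
          ≤ z ^ k * ∫ y in Ioo (-r') r', (χ (Psi a b K 1 (z, y)) + χ (Psi a b K (-1) (z, y))) :=
            mul_le_mul_of_nonneg_right (pow_le_pow_left₀ ha.le hz.1.le k) h5
        _ ≤ z ^ k * ∫ x in K z, fderiv ℝ A (x, z) (1, 0) :=
            mul_le_mul_of_nonneg_left (e2 z hz) (pow_nonneg (ha.le.trans hz.1.le) k)
    rw [mus_univ h hab hr'0] at hχ5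
    calc a ^ k * (4 * r' * (b - a) - ε / 4) ≤ a ^ k * ∫ p, χ p ∂(mus a b r' K) := by gcongr
      _ ≤ _ := e3
  have hsum : a ^ k * ((b - a) * (Real.pi * (a + b) + 4 * r') - ε) ≤
      a ^ k * (Real.pi * (b ^ 2 - a ^ 2) - ε / 2) + a ^ k * (4 * r' * (b - a) - ε / 4) := by
    rw [← mul_add]
    apply mul_le_mul_of_nonneg_left _ hak.le
    nlinarith
  linarith

end Pool.Agent.H81St
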