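import Pool.Agent.Lib.H81.St.Zone4

/-! From scalar functions on `ℂ × ℝ` to the test field on `ℂ × ℝ^m`. -/

open MeasureTheory Set Metric Filter Topology
open scoped ENNReal Pointwise ComplexConjugate

namespace Pool.Agent.H81St

abbrev W (m : ℕ) := EuclideanSpace ℝ (Fin m)
abbrev VV (m : ℕ) := WithLp 2 (ℂ × W m)

/-- the pair (planar component, norm of the other component) -/
noncomputable def pr {m : ℕ} (X : VV m) : ℂ × ℝ := (X.fst, ‖X.snd‖)

theorem continuous_pr {m : ℕ} : Continuous (pr (m := m)) :=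
  (WithLp.fstL 2 ℝ ℂ (W m)).continuous.prodMk (WithLp.sndL 2 ℝ ℂ (W m)).continuous.norm

theorem contDiffAt_pr {m : ℕ} {X : VV m} (hX : X.snd ≠ 0) : ContDiffAt ℝ 1 (pr (m := m)) X := by
  apply ContDiffAt.prodMk
  · exact (WithLp.fstL 2 ℝ ℂ (W m)).contDiff.contDiffAt
  · exact (contDiffAt_norm ℝ (x := X.snd) hX).comp X (WithLp.sndL 2 ℝ ℂ (W m)).contDiff.contDiffAt

theorem eventually_zero_of_snd {m : ℕ} {A : ℂ × ℝ → ℝ} {a b : ℝ} (ha : 0 < a)
    (hA : tsupport A ⊆ {p : ℂ × ℝ | p.2 ∈ Ioo a b}) {X : VV m} (hX : X.snd = 0) :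
    ∀ᶠ Y in 𝓝 X, A (pr Y) = 0 := by
  have h1 : pr X ∉ tsupport A := by
    intro h
    have := (hA h).1
    simp only [pr, hX, norm_zero] at this
    linarith
  have h2 := notMem_tsupport_iff_eventuallyEq.1 h1
  exact continuous_pr.continuousAt.eventually h2

theorem contDiff_comp_pr {m : ℕ} {A : ℂ × ℝ → ℝ} {a b : ℝ} (ha : 0 < a) (hA1 : ContDiff ℝ 1 A)
    (hA : tsupport A ⊆ {p : ℂ × ℝ | p.2 ∈ Ioo a b}) :
    ContDiff ℝ 1 (fun X : VV m => A (pr X)) := by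
  rw [contDiff_iff_contDiffAt]
  intro X
  by_cases hX : X.snd = 0
  · refine (contDiffAt_const (c := (0 : ℝ))).congr_of_eventuallyEq ?_
    exact eventually_zero_of_snd ha hA hX
  · exact hA1.contDiffAt.comp X (contDiffAt_pr hX)

/-- the quotient of the vertical component by the radius -/
noncomputable def quo (B : ℂ × ℝ → ℝ) (p : ℂ × ℝ) : ℝ := B p * p.2⁻¹

theorem tsupport_quo {B : ℂ × ℝ → ℝ} : tsupport (quo B) ⊆ tsupport B := tsupport_mul_subset_left

theorem contDiff_quo {B : ℂ × ℝ → ℝ} {a b : ℝ} (ha : 0 < a) (hB1 : ContDiff ℝ 1 B)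
    (hB : tsupport B ⊆ {p : ℂ × ℝ | p.2 ∈ Ioo a b}) : ContDiff ℝ 1 (quo B) := by
  rw [contDiff_iff_contDiffAt]
  intro p
  by_cases hp : p.2 = 0
  · refine (contDiffAt_const (c := (0 : ℝ))).congr_of_eventuallyEq ?_
    have h1 : p ∉ tsupport B := by
      intro h
      have := (hB h).1
      rw [hp] at this
      linarith
    filter_upwards [notMem_tsupport_iff_eventuallyEq.1 h1] with q hq
    simp only [quo, hq, Pi.zero_apply, zero_mul]
  · exact hB1.contDiffAt.mul (contDiffAt_snd.inv hp)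

theorem quo_mul {B : ℂ × ℝ → ℝ} {a b : ℝ} (ha : 0 < a)
    (hB : tsupport B ⊆ {p : ℂ × ℝ | p.2 ∈ Ioo a b}) (p : ℂ × ℝ) : quo B p * p.2 = B p := by
  by_cases hp : p.2 = 0
  · have h1 : p ∉ tsupport B := by
      intro h
      have := (hB h).1
      rw [hp] at this
      linarith
    rw [hp, mul_zero, image_eq_zero_of_notMem_tsupport h1]
  · unfold quo
    rw [mul_assoc, inv_mul_cancel₀ hp, mul_one]

noncomputable def inj1 (m : ℕ) : ℂ →L[ℝ] VV m :=
  ((WithLp.prodContinuousLinearEquiv 2 ℝ ℂ (W m)).symm : (ℂ × W m) →L[ℝ] VV m) ∘L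
    (ContinuousLinearMap.inl ℝ ℂ (W m))

noncomputable def inj2 (m : ℕ) : W m →L[ℝ] VV m :=
  ((WithLp.prodContinuousLinearEquiv 2 ℝ ℂ (W m)).symm : (ℂ × W m) →L[ℝ] VV m) ∘L
    (ContinuousLinearMap.inr ℝ ℂ (W m))

@[simp] theorem inj1_fst {m : ℕ} (x : ℂ) : (inj1 m x).fst = x := rfl
@[simp] theorem inj1_snd {m : ℕ} (x : ℂ) : (inj1 m x).snd = 0 := rfl
@[simp] theorem inj2_fst {m : ℕ} (x : W m) : (inj2 m x).fst = 0 := rfl
@[simp] theorem inj2_snd {m : ℕ} (x : W m) : (inj2 m x).snd = x := rfl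

/-- the test field -/
noncomputable def fld (m : ℕ) (A B : ℂ × ℝ → ℝ) (X : VV m) : VV m :=
  A (pr X) • inj1 m 1 + quo B (pr X) • inj2 m X.snd

theorem contDiff_fld {m : ℕ} {A B : ℂ × ℝ → ℝ} {a b : ℝ} (ha : 0 < a) (hA1 : ContDiff ℝ 1 A)
    (hB1 : ContDiff ℝ 1 B) (hA : tsupport A ⊆ {p : ℂ × ℝ | p.2 ∈ Ioo a b})
    (hB : tsupport B ⊆ {p : ℂ × ℝ | p.2 ∈ Ioo a b}) : ContDiff ℝ 1 (fld m A B) := by
  unfold fld
  apply ContDiff.add
  · exact (contDiff_comp_pr ha hA1 hA).smul contDiff_const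
  · refine (contDiff_comp_pr ha (contDiff_quo ha hB1 hB) (tsupport_quo.trans hB)).smul ?_
    exact (inj2 m).contDiff.comp (WithLp.sndL 2 ℝ ℂ (W m)).contDiff

theorem norm_fld_le {m : ℕ} {A B : ℂ × ℝ → ℝ} {a b : ℝ} (ha : 0 < a)
    (hB : tsupport B ⊆ {p : ℂ × ℝ | p.2 ∈ Ioo a b}) (h1 : ∀ p, A p ^ 2 + B p ^ 2 ≤ 1)
    (X : VV m) : ‖fld m A B X‖ ≤ 1 := by
  have h2 : ‖fld m A B X‖ ^ 2 = A (pr X) ^ 2 + B (pr X) ^ 2 := by
    rw [WithLp.prod_norm_sq_eq_of_L2]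
    have e1 : (fld m A B X).fst = (A (pr X) : ℂ) := by
      simp [fld]
    have e2 : (fld m A B X).snd = quo B (pr X) • X.snd := by
      simp [fld]
    rw [e1, e2, Complex.norm_real, norm_smul, mul_pow, Real.norm_eq_abs, Real.norm_eq_abs, sq_abs,
      sq_abs, ← mul_pow]
    have := quo_mul ha hB (pr X)
    rw [show (pr X).2 = ‖X.snd‖ from rfl] at this
    rw [this]
  have h3 := h1 (pr X)
  rw [← h2] at h3
  exact (sq_le_one_iff₀ (norm_nonneg _)).1 h3

/-- points where the field does not vanish -/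
theorem tsupport_fld {m : ℕ} {A B : ℂ × ℝ → ℝ} :
    tsupport (fld m A B) ⊆ pr ⁻¹' (tsupport A ∪ tsupport B) := by
  apply closure_minimal _ (((isClosed_tsupport A).union (isClosed_tsupport B)).preimage continuous_pr)
  intro X hX
  by_contra hcon
  apply hX
  have h1 : pr X ∉ tsupport A := fun h => hcon (Or.inl h)
  have h2 : pr X ∉ tsupport B := fun h => hcon (Or.inr h)
  unfold fld quo
  rw [image_eq_zero_of_notMem_tsupport h1, image_eq_zero_of_notMem_tsupport h2]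
  simp

theorem isCompact_pr_preimage {m : ℕ} {C : Set (ℂ × ℝ)} (hC : IsCompact C) :
    IsCompact (pr (m := m) ⁻¹' C) := by
  apply Metric.isCompact_of_isClosed_isBounded (hC.isClosed.preimage continuous_pr)
  obtain ⟨M, hM⟩ := hC.isBounded.subset_closedBall 0
  rw [Metric.isBounded_iff_subset_closedBall 0]
  refine ⟨2 * M, fun X hX => ?_⟩
  have h1 := hM hX
  rw [mem_closedBall_zero_iff] at h1 ⊢
  have h2 : ‖X.fst‖ ≤ M := (norm_fst_le (pr X)).trans h1
  have h3 : ‖X.snd‖ ≤ M := by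
    have := (norm_snd_le (pr X)).trans h1
    simpa [pr] using this
  have h4 : X = inj1 m X.fst + inj2 m X.snd := by
    apply WithLp.ofLp_injective
    apply Prod.ext
    · show X.fst = (inj1 m X.fst + inj2 m X.snd).fst
      simp
    · show X.snd = (inj1 m X.fst + inj2 m X.snd).snd
      simp
  have h5 : ‖X‖ ^ 2 = ‖X.fst‖ ^ 2 + ‖X.snd‖ ^ 2 := WithLp.prod_norm_sq_eq_of_L2 X
  have hM0 : 0 ≤ M := (norm_nonneg _).trans h2
  nlinarith [norm_nonneg X.fst, norm_nonneg X.snd, norm_nonneg X, sq_nonneg (‖X‖ - 2 * M)]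

theorem hasCompactSupport_fld {m : ℕ} {A B : ℂ × ℝ → ℝ} (hA : HasCompactSupport A)
    (hB : HasCompactSupport B) : HasCompactSupport (fld m A B) :=
  (isCompact_pr_preimage (hA.isCompact.union hB.isCompact)).of_isClosed_subset
    (isClosed_tsupport _) tsupport_fld

/-- the divergence of the field as a function of `pr` -/
noncomputable def DD (m : ℕ) (A B : ℂ × ℝ → ℝ) (p : ℂ × ℝ) : ℝ :=
  fderiv ℝ A p (1, 0) + p.2 * fderiv ℝ (quo B) p (0, 1) + m * quo B p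

theorem dvg_fld {m : ℕ} {A B : ℂ × ℝ → ℝ} {a b : ℝ} (ha : 0 < a) (hA1 : ContDiff ℝ 1 A)
    (hB1 : ContDiff ℝ 1 B) (hA : tsupport A ⊆ {p : ℂ × ℝ | p.2 ∈ Ioo a b})
    (hB : tsupport B ⊆ {p : ℂ × ℝ | p.2 ∈ Ioo a b}) (X : VV m) :
    dvg (fld m A B) X = DD m A B (pr X) := by
  have hQ1 := contDiff_quo ha hB1 hB
  by_cases hX : X.snd = 0
  · have e1 := eventually_zero_of_snd ha hA hX
    have e2 := eventually_zero_of_snd ha (tsupport_quo.trans hB) hX
    have e3 : fld m A B =ᶠ[𝓝 X] fun _ => 0 := by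
      filter_upwards [e1, e2] with Y h1 h2
      simp [fld, h1, h2]
    unfold dvg
    rw [e3.fderiv_eq]
    have h1 : pr X ∉ tsupport A := by
      intro h
      have := (hA h).1
      simp only [pr, hX, norm_zero] at this
      linarith
    have h2 : pr X ∉ tsupport (quo B) := by
      intro h
      have := (hB (tsupport_quo h)).1
      simp only [pr, hX, norm_zero] at this
      linarith
    have h3 : fderiv ℝ A (pr X) = 0 := by
      rw [(notMem_tsupport_iff_eventuallyEq.1 h1).fderiv_eq]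
      exact fderiv_const_apply 0
    have h4 : fderiv ℝ (quo B) (pr X) = 0 := by
      rw [(notMem_tsupport_iff_eventuallyEq.1 h2).fderiv_eq]
      exact fderiv_const_apply 0
    unfold DD
    rw [h3, h4, image_eq_zero_of_notMem_tsupport h2]
    simp
  · have hpr : DifferentiableAt ℝ (pr (m := m)) X := (contDiffAt_pr hX).differentiableAt one_ne_zero
    set P := fderiv ℝ (pr (m := m)) X with hP
    have hPd : HasFDerivAt (pr (m := m)) P X := hpr.hasFDerivAt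
    have hnd : DifferentiableAt ℝ (fun w : W m => ‖w‖) X.snd :=
      (contDiffAt_norm ℝ (n := 1) hX).differentiableAt one_ne_zero
    have hPeq : P = (WithLp.fstL 2 ℝ ℂ (W m)).prod
        ((fderiv ℝ (fun w : W m => ‖w‖) X.snd) ∘L (WithLp.sndL 2 ℝ ℂ (W m))) := by
      have h1 : HasFDerivAt (pr (m := m)) ((WithLp.fstL 2 ℝ ℂ (W m)).prod
          ((fderiv ℝ (fun w : W m => ‖w‖) X.snd) ∘L (WithLp.sndL 2 ℝ ℂ (W m)))) X := by
        apply HasFDerivAt.prodMk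
        · exact (WithLp.fstL 2 ℝ ℂ (W m)).hasFDerivAt
        · exact hnd.hasFDerivAt.comp X (WithLp.sndL 2 ℝ ℂ (W m)).hasFDerivAt
      exact hPd.unique h1
    have hP1 : P (inj1 m 1) = (1, 0) := by
      rw [hPeq]
      show (((WithLp.fstL 2 ℝ ℂ (W m)) (inj1 m 1)),
        fderiv ℝ (fun w : W m => ‖w‖) X.snd ((WithLp.sndL 2 ℝ ℂ (W m)) (inj1 m 1))) = (1, 0)
      have e1 : (WithLp.fstL 2 ℝ ℂ (W m)) (inj1 m 1) = 1 := rfl
      have e2 : (WithLp.sndL 2 ℝ ℂ (W m)) (inj1 m 1) = 0 := rfl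
      rw [e1, e2, map_zero]
    have hP2 : P (inj2 m X.snd) = (0, ‖X.snd‖) := by
      rw [hPeq]
      show (((WithLp.fstL 2 ℝ ℂ (W m)) (inj2 m X.snd)),
        fderiv ℝ (fun w : W m => ‖w‖) X.snd ((WithLp.sndL 2 ℝ ℂ (W m)) (inj2 m X.snd)))
          = (0, ‖X.snd‖)
      have e1 : (WithLp.fstL 2 ℝ ℂ (W m)) (inj2 m X.snd) = 0 := rfl
      have e2 : (WithLp.sndL 2 ℝ ℂ (W m)) (inj2 m X.snd) = X.snd := rfl
      rw [e1, e2, hnd.fderiv_norm_self]
    -- derivative of the field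
    have hd : HasFDerivAt (fld m A B)
        (((fderiv ℝ A (pr X)) ∘L P).smulRight (inj1 m 1) +
          (quo B (pr X) • ((inj2 m) ∘L (WithLp.sndL 2 ℝ ℂ (W m))) +
            ((fderiv ℝ (quo B) (pr X)) ∘L P).smulRight (inj2 m X.snd))) X := by
      apply HasFDerivAt.add
      · have h1 : HasFDerivAt (fun X : VV m => A (pr X)) ((fderiv ℝ A (pr X)) ∘L P) X :=
          (hA1.differentiable one_ne_zero _).hasFDerivAt.comp X hPd
        exact h1.smul_const (inj1 m 1)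
      · have h1 : HasFDerivAt (fun X : VV m => quo B (pr X)) ((fderiv ℝ (quo B) (pr X)) ∘L P) X :=
          (hQ1.differentiable one_ne_zero _).hasFDerivAt.comp X hPd
        have h2 : HasFDerivAt (fun X : VV m => inj2 m X.snd)
            ((inj2 m) ∘L (WithLp.sndL 2 ℝ ℂ (W m))) X :=
          ((inj2 m) ∘L (WithLp.sndL 2 ℝ ℂ (W m))).hasFDerivAt
        exact h1.smul h2
    unfold dvg
    rw [hd.fderiv]
    have t1 : LinearMap.trace ℝ (VV m)
        ((((fderiv ℝ A (pr X)) ∘L P).smulRight (inj1 m 1) : VV m →L[ℝ] VV m) : VV m →ₗ[ℝ] VV m)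
          = fderiv ℝ A (pr X) (1, 0) := by
      have : ((((fderiv ℝ A (pr X)) ∘L P).smulRight (inj1 m 1) : VV m →L[ℝ] VV m) :
          VV m →ₗ[ℝ] VV m) = (((fderiv ℝ A (pr X)) ∘L P : VV m →L[ℝ] ℝ) : VV m →ₗ[ℝ] ℝ).smulRight
            (inj1 m 1) := rfl
      rw [this, LinearMap.trace_smulRight]
      show fderiv ℝ A (pr X) (P (inj1 m 1)) = _
      rw [hP1]
    have t2 : LinearMap.trace ℝ (VV m)
        ((((fderiv ℝ (quo B) (pr X)) ∘L P).smulRight (inj2 m X.snd) : VV m →L[ℝ] VV m) :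
          VV m →ₗ[ℝ] VV m) = ‖X.snd‖ * fderiv ℝ (quo B) (pr X) (0, 1) := by
      have : ((((fderiv ℝ (quo B) (pr X)) ∘L P).smulRight (inj2 m X.snd) : VV m →L[ℝ] VV m) :
          VV m →ₗ[ℝ] VV m) = (((fderiv ℝ (quo B) (pr X)) ∘L P : VV m →L[ℝ] ℝ) :
            VV m →ₗ[ℝ] ℝ).smulRight (inj2 m X.snd) := rfl
      rw [this, LinearMap.trace_smulRight]
      show fderiv ℝ (quo B) (pr X) (P (inj2 m X.snd)) = _
      rw [hP2]
      have : ((0 : ℂ), ‖X.snd‖) = ‖X.snd‖ • ((0 : ℂ), (1 : ℝ)) := by simp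
      rw [this, map_smul, smul_eq_mul]
    have t3 : LinearMap.trace ℝ (VV m)
        (((inj2 m) ∘L (WithLp.sndL 2 ℝ ℂ (W m)) : VV m →L[ℝ] VV m) : VV m →ₗ[ℝ] VV m) = m := by
      have : (((inj2 m) ∘L (WithLp.sndL 2 ℝ ℂ (W m)) : VV m →L[ℝ] VV m) : VV m →ₗ[ℝ] VV m)
          = ((inj2 m : W m →L[ℝ] VV m) : W m →ₗ[ℝ] VV m) ∘ₗ
            ((WithLp.sndL 2 ℝ ℂ (W m) : VV m →L[ℝ] W m) : VV m →ₗ[ℝ] W m) := rfl
      rw [this, LinearMap.trace_comp_comm']
      have h2 : ((WithLp.sndL 2 ℝ ℂ (W m) : VV m →L[ℝ] W m) : VV m →ₗ[ℝ] W m) ∘ₗ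
          ((inj2 m : W m →L[ℝ] VV m) : W m →ₗ[ℝ] VV m) = LinearMap.id := by
        ext1 w; rfl
      rw [h2, LinearMap.trace_id]
      simp
    rw [ContinuousLinearMap.toLinearMap_add, ContinuousLinearMap.toLinearMap_add, map_add, map_add,
      ContinuousLinearMap.toLinearMap_smul, map_smul, t1, t2, t3]
    unfold DD
    simp only [pr, smul_eq_mul]
    ring

end Pool.Agent.H81St
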